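import Pool.Agent.Work.MP_3a3367_rgs.InterfaceB

/-!
# Block ACT: `act` in coordinates (helper71)
-/

set_option autoImplicit false

namespace Pool.RGS

open Finset

theorem ACT_pow (u : ℕ → ℂ) : ∀ (k n : ℕ), (Sh ^ k) u n = u (n + k) := by
  intro k
  induction k with
  | zero => intro n; simp
  | succ k ih =>
    intro n
    have e : (Sh ^ (k + 1)) u = Sh ((Sh ^ k) u) := by
      rw [pow_succ']
      rfl
    have e2 : Sh ((Sh ^ k) u) n = ((Sh ^ k) u) (n + 1) := rfl
    rw [e, e2, ih (n + 1)]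
    exact congrArg u (by omega)

theorem ACT_mono (c : ℂ) (k : ℕ) (u : ℕ → ℂ) (n : ℕ) :
    act (Polynomial.C c * Polynomial.X ^ k) u n = c * u (n + k) := by
  unfold act
  rw [map_mul, map_pow, Polynomial.aeval_X, Polynomial.aeval_C]
  have e : ((algebraMap ℂ ((ℕ → ℂ) →ₗ[ℂ] (ℕ → ℂ))) c * Sh ^ k) u n = c * (Sh ^ k) u n := by
    rw [Module.algebraMap_end_eq_smul_id]
    rfl
  rw [e, ACT_pow]

theorem ACT_sum (w : ℕ → ℂ) (j : ℕ) (u : ℕ → ℂ) (n : ℕ) (s : Finset ℕ) :
    act (∑ i ∈ s, Polynomial.C (w i) * Polynomial.X ^ (j * i)) u n = ∑ i ∈ s, w i * u (n + j * i) := by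
  classical
  induction s using Finset.induction_on with
  | empty =>
    unfold act
    simp
  | insert a s ha ih =>
    rw [Finset.sum_insert ha, Finset.sum_insert ha, ← ih, ← ACT_mono]
    unfold act
    rw [map_add]
    rfl

theorem p_ACT : Stmt_ACT := by
  intro d j w u n
  exact ACT_sum w j u n (range (d + 1))

end Pool.RGS
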