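import Pool.Agent.Work.MP_3a3367_rgs.InterfaceH

/-!
# MP_3a3367_nt, block CHH (helper44)
-/

set_option autoImplicit false

namespace Pool.RGS

open Finset

theorem CHH_one {G : Type} [AddCommGroup G] (f : ℕ → G) (hf : CA f) : f 1 = 0 := by
  have h := hf 1 1 one_pos one_pos
  simpa using h

theorem CHH_core {G : Type} [AddCommGroup G] (f : ℕ → G) (hf : CA f) (s p y : ℕ) (hs : 1 ≤ s)
    (hp : 1 ≤ p) (hy : 1 ≤ y) (e : ℝ) (he : 0 < e)
    (hsat : ∀ β : ℝ, |β| ≤ Real.log p → ∃ n n' : ℕ → ℕ,
      (∀ i < s, 1 ≤ n i ∧ n i ≤ y ∧ 1 ≤ n' i ∧ n' i ≤ y) ∧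
      |∑ i ∈ range s, (Real.log (n i) - Real.log (n' i)) - β| ≤ e)
    (hfp : f p ≠ 0) :
    ∃ A B : ℕ → ℕ, (∀ i < 2 * s, 1 ≤ A i ∧ 1 ≤ B i ∧ B i ≤ y ∧ (i ≠ 0 → A i ≤ y)) ∧ A 0 ≤ max p y ∧
      |∑ i ∈ range (2 * s), (Real.log (A i) - Real.log (B i))| ≤ 3 * e ∧
      ∑ i ∈ range (2 * s), (f (A i) - f (B i)) ≠ 0 := by
  classical
  have hlp : 0 ≤ Real.log p := Real.log_natCast_nonneg p
  obtain ⟨N0, hN0⟩ := exists_nat_gt (Real.log p / e)
  obtain ⟨N, hN⟩ : ∃ N : ℕ, N = N0 + 1 := ⟨_, rfl⟩
  have hNpos : (0 : ℝ) < N := by rw [hN]; positivity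
  have hNlt : Real.log p / N ≤ e := by
    rw [div_le_iff₀ hNpos]
    have h1 : Real.log p < N0 * e := by rwa [div_lt_iff₀ he] at hN0
    have h2 : (N0 : ℝ) ≤ N := by rw [hN]; push_cast; linarith
    nlinarith
  have hone : f 1 = 0 := CHH_one f hf
  have hex : ∀ j : ℕ, j ≤ N → ∃ a b : ℕ → ℕ,
      (∀ i < s, 1 ≤ a i ∧ 1 ≤ b i ∧ b i ≤ y ∧ (i ≠ 0 → a i ≤ y) ∧ (j ≠ N → a i ≤ y)) ∧ a 0 ≤ max p y ∧
      |∑ i ∈ range s, (Real.log (a i) - Real.log (b i)) - j * (Real.log p / N)| ≤ e ∧
      (j = 0 → ∑ i ∈ range s, (f (a i) - f (b i)) = 0) ∧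
      (j = N → ∑ i ∈ range s, (f (a i) - f (b i)) = f p) := by
    intro j hj
    by_cases h0 : j = 0
    · refine ⟨fun _ => 1, fun _ => 1, fun i _ => ⟨le_refl _, le_refl _, hy, fun _ => hy, fun _ => hy⟩,
        le_max_of_le_right hy, ?_, ?_, ?_⟩
      · simp [h0, he.le]
      · intro _; simp
      · intro h; omega
    · by_cases h1 : j = N
      · refine ⟨fun i => if i = 0 then p else 1, fun _ => 1, ?_, ?_, ?_, ?_, ?_⟩
        · intro i _
          refine ⟨?_, le_refl _, hy, ?_, fun h => absurd h1 h⟩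
          · by_cases hi : i = 0
            · simp [hi, hp]
            · simp [hi]
          · intro hi
            simp [hi, hy]
        · simp
        · have hsum : ∑ i ∈ range s, (Real.log (((if i = 0 then p else 1 : ℕ)) : ℝ) - Real.log ((1 : ℕ) : ℝ)) = Real.log p := by
            rw [Finset.sum_eq_single 0]
            · simp
            · intro i _ hi; simp [hi]
            · intro h; exact absurd (mem_range.2 (by omega)) h
          rw [hsum, h1]
          have : (N : ℝ) * (Real.log p / N) = Real.log p := by field_simp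
          rw [this]; simp [he.le]
        · intro h; omega
        · intro _
          rw [Finset.sum_eq_single 0]
          · simp [hone]
          · intro i _ hi; simp [hi]
          · intro h; exact absurd (mem_range.2 (by omega)) h
      · obtain ⟨n, n', hb, hs2⟩ := hsat (j * (Real.log p / N)) (by
          have hj0 : (0 : ℝ) ≤ j := Nat.cast_nonneg j
          have hjN : (j : ℝ) ≤ N := by exact_mod_cast hj
          rw [abs_of_nonneg (by positivity)]
          calc (j : ℝ) * (Real.log p / N) ≤ N * (Real.log p / N) := by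
                apply mul_le_mul_of_nonneg_right hjN (by positivity)
            _ = Real.log p := by field_simp)
        exact ⟨n, n', fun i hi => ⟨(hb i hi).1, (hb i hi).2.2.1, (hb i hi).2.2.2, fun _ => (hb i hi).2.1,
          fun _ => (hb i hi).2.1⟩, le_max_of_le_right (hb 0 (by omega)).2.1, hs2, fun h => absurd h h0,
          fun h => absurd h h1⟩
  choose! a b hb hm hs2 h0 h1 using hex
  have hne : ∃ j < N, ∑ i ∈ range s, (f (a j i) - f (b j i)) ≠ ∑ i ∈ range s, (f (a (j + 1) i) - f (b (j + 1) i)) := by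
    by_contra hcon
    push Not at hcon
    have hall : ∀ j ≤ N, ∑ i ∈ range s, (f (a j i) - f (b j i)) = 0 := by
      intro j
      induction j with
      | zero => intro _; exact h0 0 (Nat.zero_le _) rfl
      | succ k ih => intro hk; rw [← hcon k (by omega)]; exact ih (by omega)
    have := hall N le_rfl
    rw [h1 N le_rfl rfl] at this
    exact hfp this
  obtain ⟨j, hj, hjne⟩ := hne
  have hsplit : ∑ i ∈ range (2 * s), (f (if i < s then a (j + 1) i else b j (i - s)) - f (if i < s then b (j + 1) i else a j (i - s))) =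
      ∑ i ∈ range s, (f (a (j + 1) i) - f (b (j + 1) i)) - ∑ i ∈ range s, (f (a j i) - f (b j i)) := by
    rw [two_mul, Finset.sum_range_add]
    have e1 : ∑ i ∈ range s, (f (if i < s then a (j + 1) i else b j (i - s)) - f (if i < s then b (j + 1) i else a j (i - s))) = ∑ i ∈ range s, (f (a (j + 1) i) - f (b (j + 1) i)) := by
      apply Finset.sum_congr rfl
      intro i hi
      simp [mem_range.1 hi]
    have e2 : ∑ i ∈ range s, (f (if s + i < s then a (j + 1) (s + i) else b j (s + i - s)) - f (if s + i < s then b (j + 1) (s + i) else a j (s + i - s))) = ∑ i ∈ range s, (f (b j i) - f (a j i)) := by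
      apply Finset.sum_congr rfl
      intro i hi
      simp
    rw [e1, e2, sub_eq_add_neg, ← Finset.sum_neg_distrib]
    congr 1
    apply Finset.sum_congr rfl
    intro i _
    abel
  have hsplitR : ∑ i ∈ range (2 * s), (Real.log ((if i < s then a (j + 1) i else b j (i - s) : ℕ) : ℝ) - Real.log ((if i < s then b (j + 1) i else a j (i - s) : ℕ) : ℝ)) =
      ∑ i ∈ range s, (Real.log (a (j + 1) i) - Real.log (b (j + 1) i)) - ∑ i ∈ range s, (Real.log (a j i) - Real.log (b j i)) := by
    rw [two_mul, Finset.sum_range_add]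
    have e1 : ∑ i ∈ range s, (Real.log ((if i < s then a (j + 1) i else b j (i - s) : ℕ) : ℝ) - Real.log ((if i < s then b (j + 1) i else a j (i - s) : ℕ) : ℝ)) = ∑ i ∈ range s, (Real.log (a (j + 1) i) - Real.log (b (j + 1) i)) := by
      apply Finset.sum_congr rfl
      intro i hi
      simp [mem_range.1 hi]
    have e2 : ∑ i ∈ range s, (Real.log ((if s + i < s then a (j + 1) (s + i) else b j (s + i - s) : ℕ) : ℝ) - Real.log ((if s + i < s then b (j + 1) (s + i) else a j (s + i - s) : ℕ) : ℝ)) = ∑ i ∈ range s, (Real.log (b j i) - Real.log (a j i)) := by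
      apply Finset.sum_congr rfl
      intro i hi
      simp
    rw [e1, e2, sub_eq_add_neg, ← Finset.sum_neg_distrib]
    congr 1
    apply Finset.sum_congr rfl
    intro i _
    ring
  refine ⟨fun i => if i < s then a (j + 1) i else b j (i - s), fun i => if i < s then b (j + 1) i else a j (i - s), ?_, ?_, ?_, ?_⟩
  · intro i hi
    by_cases h : i < s
    · simp only [if_pos h]
      obtain ⟨q1, q2, q3, q4, q5⟩ := hb (j + 1) (by omega) i h
      exact ⟨q1, q2, q3, q4⟩
    · simp only [if_neg h]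
      obtain ⟨q1, q2, q3, q4, q5⟩ := hb j (by omega) (i - s) (by omega)
      exact ⟨q2, q1, q5 (by omega), fun _ => q3⟩
  · have h0s : 0 < s := by omega
    simp only [if_pos h0s]
    exact hm (j + 1) (by omega)
  · have t1 := hs2 (j + 1) (by omega)
    have t2 := hs2 j (by omega)
    have key : ∑ i ∈ range (2 * s), (Real.log ((if i < s then a (j + 1) i else b j (i - s) : ℕ) : ℝ) - Real.log ((if i < s then b (j + 1) i else a j (i - s) : ℕ) : ℝ)) =
      (∑ i ∈ range s, (Real.log (a (j + 1) i) - Real.log (b (j + 1) i)) - ((j + 1 : ℕ) : ℝ) * (Real.log p / N)) - (∑ i ∈ range s, (Real.log (a j i) - Real.log (b j i)) - (j : ℝ) * (Real.log p / N)) + Real.log p / N := by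
      rw [hsplitR]; push_cast; ring
    show |∑ i ∈ range (2 * s), (Real.log ((if i < s then a (j + 1) i else b j (i - s) : ℕ) : ℝ) - Real.log ((if i < s then b (j + 1) i else a j (i - s) : ℕ) : ℝ))| ≤ 3 * e
    rw [key]
    have hp0 : 0 ≤ Real.log p / N := by positivity
    rw [abs_le] at t1 t2 ⊢
    constructor <;> linarith [t1.1, t1.2, t2.1, t2.2]
  · show ∑ i ∈ range (2 * s), (f (if i < s then a (j + 1) i else b j (i - s)) - f (if i < s then b (j + 1) i else a j (i - s))) ≠ 0
    rw [hsplit]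
    intro h
    exact hjne (sub_eq_zero.1 h).symm

theorem p_CHH (h1 : Stmt_SAH) : Stmt_CHH := by
  obtain ⟨K0, hK0⟩ := h1
  refine ⟨K0 + 1, ?_⟩
  intro K hK G _ f p hf hp hlp hfp
  have hK1 : 1 ≤ K := by omega
  exact CHH_core f hf (K ^ 30) p (K ^ 14) (Nat.one_le_pow _ _ hK1) hp (Nat.one_le_pow _ _ hK1)
    (Real.exp (-(K : ℝ) / 4)) (Real.exp_pos _)
    (fun β hβ => hK0 K (by omega) β (hβ.trans hlp)) hfp

end Pool.RGS
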