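import Pool.Agent.Work.MP_3a3367_rgs.InterfaceB

/-!
# MP_3a3367_nt, block CNT (counting), typed by helper56
-/

set_option autoImplicit false

namespace Pool.RGS

open Finset

theorem CNT_one (S : Finset ℕ) (Q v : ℕ) (r : ℝ) (hr : 1 / 2 ≤ r)
    (hS : ∀ X ∈ S, (X : ℝ) * r - Q < v ∧ (v : ℝ) + 1 ≤ X * r) : S.card ≤ 2 * Q + 1 := by
  rcases S.eq_empty_or_nonempty with h | h
  · rw [h]; simp
  · set m := S.min' h with hm
    have hmS : m ∈ S := S.min'_mem h
    have hsub : S ⊆ Icc m (m + 2 * Q) := by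
      intro X hX
      have h1 : m ≤ X := S.min'_le X hX
      have h2 := (hS X hX).1
      have h3 := (hS m hmS).2
      rw [Finset.mem_Icc]
      refine ⟨h1, ?_⟩
      have h4 : ((X : ℝ) - m) * r < Q := by nlinarith
      have h5 : (0 : ℝ) ≤ (X : ℝ) - m := by
        have : (m : ℝ) ≤ X := by exact_mod_cast h1
        linarith
      have h6 : ((X : ℝ) - m) * (1 / 2) ≤ ((X : ℝ) - m) * r := mul_le_mul_of_nonneg_left hr h5
      have h7 : (X : ℝ) ≤ m + 2 * Q := by linarith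
      exact_mod_cast h7
    have h8 := Finset.card_le_card hsub
    rw [Nat.card_Icc] at h8
    omega

theorem p_CNT : Stmt_CNT := by
  intro J t Q a b ρ hρ hX
  classical
  have hsub : Icc a b ⊆ (range (t + 1) ×ˢ J).biUnion (fun p => (Icc a b).filter
      (fun X : ℕ => (X : ℝ) * ρ p.1 - Q < (p.2 : ℝ) ∧ (p.2 : ℝ) + 1 ≤ X * ρ p.1)) := by
    intro X hXX
    obtain ⟨i, hi, v, hv, h1, h2⟩ := hX X hXX
    rw [Finset.mem_biUnion]
    refine ⟨(i, v), ?_, ?_⟩
    · rw [Finset.mem_product, Finset.mem_range]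
      exact ⟨Nat.lt_succ_of_le hi, hv⟩
    · rw [Finset.mem_filter]
      exact ⟨hXX, h1, h2⟩
  have hcard : ∀ p ∈ range (t + 1) ×ˢ J, ((Icc a b).filter
      (fun X : ℕ => (X : ℝ) * ρ p.1 - Q < (p.2 : ℝ) ∧ (p.2 : ℝ) + 1 ≤ X * ρ p.1)).card ≤ 2 * Q + 1 := by
    intro p hp
    rw [Finset.mem_product, Finset.mem_range] at hp
    refine CNT_one _ Q p.2 (ρ p.1) (hρ p.1 (Nat.le_of_lt_succ hp.1)) ?_
    intro X hXX
    exact (Finset.mem_filter.mp hXX).2
  have h1 := Finset.card_le_card hsub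
  have h2 := Finset.card_biUnion_le_card_mul _ _ _ hcard
  have h3 : (Icc a b).card ≤ ((t + 1) * J.card) * (2 * Q + 1) := by
    rw [Finset.card_product, Finset.card_range] at h2
    exact le_trans h1 h2
  rw [Nat.card_Icc] at h3
  have h4 : b ≤ ((t + 1) * J.card) * (2 * Q + 1) + a := by omega
  have h5 : (b : ℝ) ≤ (((t + 1) * J.card) * (2 * Q + 1) : ℝ) + a := by exact_mod_cast h4
  linarith

end Pool.RGS
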