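import Pool.Agent.Work.MP_3a3367_rgs.InterfaceH
import Pool.Agent.Work.MP_3a3367_rgs.B_CNT

/-!
# MP_3a3367_nt, block CNH (counting with window lengths), typed by helper20
-/

set_option autoImplicit false

namespace Pool.RGS

open Finset

theorem p_CNH : Stmt_CNH := by
  intro J t a b ρ W hρ hX
  classical
  have hsub : Icc a b ⊆ (range (t + 1)).biUnion (fun i => J.biUnion (fun v => (Icc a b).filter
      (fun X : ℕ => (X : ℝ) * ρ i - W i < (v : ℝ) ∧ (v : ℝ) + 1 ≤ X * ρ i))) := by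
    intro X hXX
    obtain ⟨i, hi, v, hv, h1, h2⟩ := hX X hXX
    rw [Finset.mem_biUnion]
    refine ⟨i, Finset.mem_range.mpr (Nat.lt_succ_of_le hi), ?_⟩
    rw [Finset.mem_biUnion]
    refine ⟨v, hv, ?_⟩
    rw [Finset.mem_filter]
    exact ⟨hXX, h1, h2⟩
  have hcard : ((range (t + 1)).biUnion (fun i => J.biUnion (fun v => (Icc a b).filter
      (fun X : ℕ => (X : ℝ) * ρ i - W i < (v : ℝ) ∧ (v : ℝ) + 1 ≤ X * ρ i)))).card
      ≤ ∑ i ∈ range (t + 1), J.card * (2 * W i + 1) := by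
    refine le_trans Finset.card_biUnion_le ?_
    refine Finset.sum_le_sum ?_
    intro i hi
    rw [Finset.mem_range] at hi
    refine Finset.card_biUnion_le_card_mul _ _ _ ?_
    intro v hv
    refine CNT_one _ (W i) v (ρ i) (hρ i (Nat.le_of_lt_succ hi)) ?_
    intro X hXX
    exact (Finset.mem_filter.mp hXX).2
  have h1 := Finset.card_le_card hsub
  have h3 : (Icc a b).card ≤ J.card * ∑ i ∈ range (t + 1), (2 * W i + 1) := by
    rw [Finset.mul_sum]
    exact le_trans h1 hcard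
  rw [Nat.card_Icc] at h3
  have h4 : b ≤ J.card * ∑ i ∈ range (t + 1), (2 * W i + 1) + a := by omega
  have h5 : (b : ℝ) ≤ (J.card : ℝ) * ∑ i ∈ range (t + 1), (2 * (W i : ℝ) + 1) + a := by
    exact_mod_cast h4
  linarith

end Pool.RGS
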