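import Pool.Agent.Work.MP_3a3367_rgs.InterfaceH

set_option autoImplicit false

/-! # Block CSE: from jumps to values, group form, divisor bound -/

namespace Pool.RGS

open Finset

theorem CSE_count (J E : Finset ℕ) (D : ℕ → Finset ℕ) (h : ℕ → ℕ) (hinj : Function.Injective h)
    (hJ : ∀ v ∈ J, ∃ n ∈ E, h v ∈ D n) : J.card ≤ ∑ n ∈ E, (D n).card := by
  classical
  have h1 : J.image h ⊆ E.biUnion D := by
    intro w hw
    obtain ⟨v, hv, rfl⟩ := Finset.mem_image.1 hw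
    obtain ⟨n, hn, hD⟩ := hJ v hv
    exact Finset.mem_biUnion.2 ⟨n, hn, hD⟩
  rw [← Finset.card_image_of_injective J hinj]
  exact (Finset.card_le_card h1).trans Finset.card_biUnion_le

theorem CSE_mem {m c : ℝ} {n : ℕ} (h1 : m ^ 2 < (n : ℝ)) (h2 : (n : ℝ) ≤ m ^ 2 + c * m) :
    n ∈ II m c := by
  unfold II
  exact Finset.mem_filter.2 ⟨Finset.mem_range.2 (Nat.lt_succ_of_le (Nat.le_floor h2)), h1⟩

/-- Block CSE. -/
theorem p_CSE (hNBR : Stmt_NBR) (hDVB : Stmt_DVB) : Stmt_CSE := by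
  classical
  intro c r ε hr hc hε
  have hr0 : 0 < r := lt_of_lt_of_le one_pos hr
  have hc0 : 0 < c := lt_trans (add_pos hr0 (one_div_pos.2 hr0)) hc
  obtain ⟨m0, hm0, hN⟩ := hNBR c r hr hc
  obtain ⟨C, hC, hD⟩ := hDVB (ε / 2) (half_pos hε)
  refine ⟨2 * (C * (1 + c) ^ (ε / 2)), max m0 2, by positivity, le_max_right _ _, ?_⟩
  intro m hm G _ f g hf
  have hm0' : m0 ≤ m := (le_max_left _ _).trans hm
  have hm2 : 2 ≤ m := (le_max_right _ _).trans hm
  have hmpos : 0 < m := by linarith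
  obtain ⟨E, hE⟩ : ∃ E : Finset ℕ, E = EG f m c g := ⟨_, rfl⟩
  have hEmem : ∀ n, n ∈ II m c → f n ≠ g → n ∈ E := by
    intro n h1 h2
    rw [hE]
    unfold EG
    exact Finset.mem_filter.2 ⟨h1, h2⟩
  have hEsub : E ⊆ II m c := by
    rw [hE]
    unfold EG
    exact Finset.filter_subset _ _
  set Dv : ℕ → Finset ℕ := fun n => n.divisors.filter
    (fun w : ℕ => m / r ≤ (w : ℝ) ∧ (w : ℝ) ≤ r * m + 1) with hDv
  have hkey : ∀ v ∈ JG f m r, (∃ n ∈ E, v ∈ Dv n) ∨ (∃ n ∈ E, v + 1 ∈ Dv n) := by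
    intro v hv
    unfold JG at hv
    obtain ⟨hv1, hv2⟩ := Finset.mem_filter.1 hv
    obtain ⟨hv3, hv4⟩ := Finset.mem_Icc.1 hv1
    have h1 : m / r ≤ (v : ℝ) := Nat.ceil_le.1 hv3
    have hrm : 0 ≤ r * m := by positivity
    have h2 : (v : ℝ) ≤ r * m := (Nat.le_floor_iff hrm).1 hv4
    have hvpos : 0 < v := by
      have h3 : (0 : ℝ) < v := lt_of_lt_of_le (by positivity) h1
      exact_mod_cast h3
    obtain ⟨u, hu1, hu2⟩ := hN m hm0' v h1 h2
    have hupos : 0 < u := by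
      rcases Nat.eq_zero_or_pos u with h0 | h0
      · rw [h0] at hu1
        have h4 : m ^ 2 < 0 := by simpa using hu1
        exact absurd h4 (not_lt.2 (sq_nonneg m))
      · exact h0
    have hur : (0 : ℝ) ≤ u := Nat.cast_nonneg u
    have hlt1 : m ^ 2 < ((u * v : ℕ) : ℝ) := by
      push_cast
      exact hu1
    have hle2 : ((u * (v + 1) : ℕ) : ℝ) ≤ m ^ 2 + c * m := by
      push_cast
      exact hu2
    have hle : ((u * v : ℕ) : ℝ) ≤ ((u * (v + 1) : ℕ) : ℝ) := by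
      push_cast
      nlinarith
    have hm1 : u * v ∈ II m c := CSE_mem hlt1 (hle.trans hle2)
    have hm2' : u * (v + 1) ∈ II m c := CSE_mem (hlt1.trans_le hle) hle2
    have e1 : f (u * v) = f u + f v := hf u v hupos hvpos
    have e2 : f (u * (v + 1)) = f u + f (v + 1) := hf u (v + 1) hupos (Nat.succ_pos v)
    have hne : f (u * v) ≠ f (u * (v + 1)) := by
      rw [e1, e2]
      intro h
      exact hv2 (add_left_cancel h)
    have hp1 : 0 < u * v := Nat.mul_pos hupos hvpos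
    have hp2 : 0 < u * (v + 1) := Nat.mul_pos hupos (Nat.succ_pos v)
    have h6 : f (u * v) ≠ g ∨ f (u * (v + 1)) ≠ g := by
      by_contra hcon
      rw [not_or, not_not, not_not] at hcon
      exact hne (hcon.1.trans hcon.2.symm)
    rcases h6 with h5 | h5
    · refine Or.inl ⟨u * v, hEmem _ hm1 h5, ?_⟩
      exact Finset.mem_filter.2 ⟨Nat.mem_divisors.2 ⟨Dvd.intro_left u rfl, hp1.ne'⟩, h1, by linarith⟩
    · refine Or.inr ⟨u * (v + 1), hEmem _ hm2' h5, ?_⟩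
      refine Finset.mem_filter.2 ⟨Nat.mem_divisors.2 ⟨Dvd.intro_left u rfl, hp2.ne'⟩, ?_, ?_⟩
      · push_cast
        linarith
      · push_cast
        linarith
  set J0 := (JG f m r).filter (fun v => ∃ n ∈ E, v ∈ Dv n) with hJ0
  set J1 := (JG f m r).filter (fun v => ∃ n ∈ E, v + 1 ∈ Dv n) with hJ1
  have hsub : JG f m r ⊆ J0 ∪ J1 := by
    intro v hv
    rcases hkey v hv with h | h
    · exact Finset.mem_union_left _ (Finset.mem_filter.2 ⟨hv, h⟩)
    · exact Finset.mem_union_right _ (Finset.mem_filter.2 ⟨hv, h⟩)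
  have hc0' : J0.card ≤ ∑ n ∈ E, (Dv n).card :=
    CSE_count J0 E Dv id Function.injective_id fun v hv => (Finset.mem_filter.1 hv).2
  have hc1' : J1.card ≤ ∑ n ∈ E, (Dv n).card :=
    CSE_count J1 E Dv (fun v => v + 1) (fun a b h => Nat.succ_injective h)
      fun v hv => (Finset.mem_filter.1 hv).2
  have hJ : (JG f m r).card ≤ 2 * ∑ n ∈ E, (Dv n).card := by
    have h1 := (Finset.card_le_card hsub).trans (Finset.card_union_le _ _)
    omega
  have hJr : ((JG f m r).card : ℝ) ≤ 2 * ∑ n ∈ E, (dd m r n : ℝ) := by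
    have h1 : ((JG f m r).card : ℝ) ≤ ((2 * ∑ n ∈ E, (Dv n).card : ℕ) : ℝ) := by exact_mod_cast hJ
    refine h1.trans (le_of_eq ?_)
    push_cast
    rfl
  have hmax : ∀ n ∈ E, (dd m r n : ℝ) ≤ C * (1 + c) ^ (ε / 2) * m ^ ε := by
    intro n hn
    have hnI := hEsub hn
    unfold II at hnI
    obtain ⟨hn1, hn2⟩ := Finset.mem_filter.1 hnI
    have hn3 : n ≤ ⌊m ^ 2 + c * m⌋₊ := Nat.le_of_lt_succ (Finset.mem_range.1 hn1)
    have hpos : 0 ≤ m ^ 2 + c * m := by positivity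
    have hn4 : (n : ℝ) ≤ m ^ 2 + c * m := (Nat.le_floor_iff hpos).1 hn3
    have hn5 : 1 ≤ n := by
      rcases Nat.eq_zero_or_pos n with h0 | h0
      · rw [h0] at hn2
        have h4 : m ^ 2 < 0 := by simpa using hn2
        exact absurd h4 (not_lt.2 (sq_nonneg m))
      · exact h0
    have hn6 : (n : ℝ) ≤ (1 + c) * m ^ 2 := by
      have h7 : c * m ≤ c * m ^ 2 := by
        apply mul_le_mul_of_nonneg_left _ hc0.le
        nlinarith
      linarith
    have h8 : (dd m r n : ℝ) ≤ (n.divisors.card : ℝ) := by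
      unfold dd
      exact_mod_cast Finset.card_filter_le _ _
    have h9 : (n : ℝ) ^ (ε / 2) ≤ ((1 + c) * m ^ 2) ^ (ε / 2) :=
      Real.rpow_le_rpow (Nat.cast_nonneg _) hn6 (half_pos hε).le
    have h10 : ((1 + c) * m ^ 2) ^ (ε / 2) = (1 + c) ^ (ε / 2) * m ^ ε := by
      rw [Real.mul_rpow (by positivity) (by positivity)]
      congr 1
      rw [← Real.rpow_natCast, ← Real.rpow_mul hmpos.le]
      congr 1
      push_cast
      ring
    calc (dd m r n : ℝ) ≤ (n.divisors.card : ℝ) := h8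
      _ ≤ C * (n : ℝ) ^ (ε / 2) := hD n hn5
      _ ≤ C * ((1 + c) ^ (ε / 2) * m ^ ε) := by
          rw [← h10]
          exact mul_le_mul_of_nonneg_left h9 hC.le
      _ = C * (1 + c) ^ (ε / 2) * m ^ ε := by ring
  have hsum : ∑ n ∈ E, (dd m r n : ℝ) ≤ (E.card : ℝ) * (C * (1 + c) ^ (ε / 2) * m ^ ε) := by
    have h := Finset.sum_le_card_nsmul E (fun n => (dd m r n : ℝ)) _ hmax
    rwa [nsmul_eq_mul] at h
  rw [← hE]
  calc ((JG f m r).card : ℝ) ≤ 2 * ∑ n ∈ E, (dd m r n : ℝ) := hJr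
    _ ≤ 2 * ((E.card : ℝ) * (C * (1 + c) ^ (ε / 2) * m ^ ε)) := by linarith
    _ = 2 * (C * (1 + c) ^ (ε / 2)) * m ^ ε * (E.card : ℝ) := by ring

end Pool.RGS
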