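import Pool.Agent.Work.MP_3a3367_rgs.InterfaceB

/-! Block DIL (helper58): dilated recurrences. -/

set_option autoImplicit false

namespace Pool.RGS

open Finset

theorem DIL_exchange (d j : ℕ) (w u : ℕ → ℂ)
    (hu : ∀ b, ∑ i ∈ range (d + 1), w i * u (b + i) = 0) (b : ℕ) :
    ∑ k ∈ range (d + 1), w k * ∑ i ∈ range (d + 1), w i * u (b + k + j * i) = 0 := by
  have h1 : ∑ k ∈ range (d + 1), w k * ∑ i ∈ range (d + 1), w i * u (b + k + j * i) =
      ∑ i ∈ range (d + 1), w i * ∑ k ∈ range (d + 1), w k * u (b + j * i + k) := by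
    simp only [Finset.mul_sum]
    rw [Finset.sum_comm]
    refine Finset.sum_congr rfl fun i _ => Finset.sum_congr rfl fun k _ => ?_
    rw [Nat.add_right_comm b k (j * i)]
    ring
  rw [h1]
  refine Finset.sum_eq_zero fun i _ => ?_
  rw [hu, mul_zero]

theorem p_DIL : Stmt_DIL := by
  intro d j w u hw hu h0 b
  induction b using Nat.strong_induction_on with
  | _ b ih =>
    rcases lt_or_ge b d with hb | hb
    · exact h0 b hb
    · obtain ⟨c, rfl⟩ := Nat.exists_eq_add_of_le' hb
      have h1 := DIL_exchange d j w u hu c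
      rw [Finset.sum_range_succ] at h1
      have h2 : ∑ k ∈ range d, w k * ∑ i ∈ range (d + 1), w i * u (c + k + j * i) = 0 := by
        refine Finset.sum_eq_zero fun k hk => ?_
        rw [ih (c + k) (by have := Finset.mem_range.1 hk; omega), mul_zero]
      rw [h2, zero_add] at h1
      exact (mul_eq_zero.1 h1).resolve_left hw

end Pool.RGS
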