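import Pool.Agent.Work.MP_3a3367_rgs.InterfaceB

set_option autoImplicit false

namespace Pool.RGS

open Finset

theorem p_DL (hSIE : Stmt_SIE) (hRND : Stmt_RND) (hPOL : Stmt_POL) (hFIN : Stmt_FIN) : Stmt_DL := by
  obtain ⟨K1, hK1⟩ := hSIE
  refine ⟨max K1 100, fun K hK θ hθ1 hθ2 => ?_⟩
  have hKK : K1 ≤ K := le_trans (le_max_left _ _) hK
  have hK100 : 100 ≤ K := le_trans (le_max_right _ _) hK
  obtain ⟨P, w, hP1, hP3, hw0, hwP, hw1, hmom⟩ := hK1 K hKK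
  by_contra hcon
  have hcon' : ∀ n : ℕ, 1 ≤ n → n ≤ K ^ 14 → |θ * Real.log n - round (θ * Real.log n)| ≤ 1 / (K : ℝ) ^ 7 := by
    intro n h1 h2
    by_contra h3
    exact hcon ⟨n, h1, h2, not_le.mp h3⟩
  have hKR : (100 : ℝ) ≤ K := by exact_mod_cast hK100
  have hK0 : (0 : ℝ) < K := by linarith
  have hKpos : 0 < K := by omega
  have hθ0 : 0 < θ := lt_of_lt_of_le (by positivity) hθ1
  -- powers
  have e7 : (1 : ℝ) ≤ (K : ℝ) ^ 6 := one_le_pow₀ (by linarith)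
  have hK7 : (100 : ℝ) ≤ (K : ℝ) ^ 7 := by
    have : (K : ℝ) ^ 7 = (K : ℝ) ^ 6 * K := by ring
    rw [this]; nlinarith
  have hε0 : (0 : ℝ) < 1 / (K : ℝ) ^ 7 := by positivity
  have hε1 : 1 / (K : ℝ) ^ 7 ≤ 1 / 100 := one_div_le_one_div_of_le (by norm_num) hK7
  have hN0 : 1 ≤ K ^ 10 := Nat.one_le_pow _ _ hKpos
  have hZN : 2 * K ^ 7 ≤ K ^ 10 := by
    have h1 : K ^ 10 = K ^ 3 * K ^ 7 := by ring
    have h2 : 2 ≤ K ^ 3 := by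
      have : K ≤ K ^ 3 := Nat.le_self_pow (by norm_num) K
      omega
    rw [h1]
    exact Nat.mul_le_mul_right _ h2
  have hPy : P * (K ^ 10 + K ^ 7) ≤ K ^ 14 := by
    have h1 : K ^ 7 ≤ K ^ 10 := Nat.pow_le_pow_right hKpos (by norm_num)
    calc P * (K ^ 10 + K ^ 7) ≤ K ^ 3 * (K ^ 10 + K ^ 10) := Nat.mul_le_mul hP3 (by omega)
      _ = 2 * K ^ 13 := by ring
      _ ≤ K * K ^ 13 := Nat.mul_le_mul_right _ (by omega)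
      _ = K ^ 14 := by ring
  have hPR : (P : ℝ) ≤ (K : ℝ) ^ 3 := by exact_mod_cast hP3
  have hK3R : (1 : ℝ) ≤ (K : ℝ) ^ 3 := one_le_pow₀ (by linarith)
  have hexp : Real.exp K ≤ (K : ℝ) ^ K := by
    have h1 : Real.exp (K : ℝ) = Real.exp 1 ^ K := by
      rw [← Real.exp_nat_mul]; simp
    rw [h1]
    have h2 : Real.exp 1 ≤ (K : ℝ) := by
      have := Real.exp_one_lt_d9
      linarith
    exact pow_le_pow_left₀ (Real.exp_pos 1).le h2 K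
  have hratio : ((K ^ 7 : ℕ) : ℝ) / ((K ^ 10 : ℕ) : ℝ) = 1 / (K : ℝ) ^ 3 := by
    push_cast
    have : (K : ℝ) ^ 10 = (K : ℝ) ^ 7 * (K : ℝ) ^ 3 := by ring
    rw [this]
    field_simp
  have hmain : θ * (((K ^ 7 : ℕ) : ℝ) / ((K ^ 10 : ℕ) : ℝ)) ^ (K + 1) ≤ 1 / (K : ℝ) ^ 7 := by
    rw [hratio]
    have h1 : (1 / (K : ℝ) ^ 3) ^ (K + 1) = 1 / (K : ℝ) ^ (3 * (K + 1)) := by
      rw [div_pow, one_pow, ← pow_mul]
    rw [h1]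
    have h2 : θ ≤ (K : ℝ) ^ K := le_trans hθ2 hexp
    have h3 : θ * (1 / (K : ℝ) ^ (3 * (K + 1))) ≤ (K : ℝ) ^ K * (1 / (K : ℝ) ^ (3 * (K + 1))) :=
      mul_le_mul_of_nonneg_right h2 (by positivity)
    have h4 : (K : ℝ) ^ K * (1 / (K : ℝ) ^ (3 * (K + 1))) = 1 / (K : ℝ) ^ (2 * K + 3) := by
      have h5 : (K : ℝ) ^ (3 * (K + 1)) = (K : ℝ) ^ K * (K : ℝ) ^ (2 * K + 3) := by
        rw [← pow_add]; congr 1; ring
      rw [h5]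
      have hne : (K : ℝ) ^ K ≠ 0 := by positivity
      have hne2 : (K : ℝ) ^ (2 * K + 3) ≠ 0 := by positivity
      field_simp
    have h6 : 1 / (K : ℝ) ^ (2 * K + 3) ≤ 1 / (K : ℝ) ^ 7 := by
      apply one_div_le_one_div_of_le (by positivity)
      exact pow_le_pow_right₀ (by linarith) (by omega)
    linarith
  have hsmall : ((P : ℝ) + 1) * (2 * (1 / (K : ℝ) ^ 7) + 2 * θ * (((K ^ 7 : ℕ) : ℝ) / ((K ^ 10 : ℕ) : ℝ)) ^ (K + 1)) < 1 := by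
    have h1 : 2 * (1 / (K : ℝ) ^ 7) + 2 * θ * (((K ^ 7 : ℕ) : ℝ) / ((K ^ 10 : ℕ) : ℝ)) ^ (K + 1) ≤ 4 * (1 / (K : ℝ) ^ 7) := by
      linarith
    have h2 : (P : ℝ) + 1 ≤ 2 * (K : ℝ) ^ 3 := by linarith
    have h3 : ((P : ℝ) + 1) * (2 * (1 / (K : ℝ) ^ 7) + 2 * θ * (((K ^ 7 : ℕ) : ℝ) / ((K ^ 10 : ℕ) : ℝ)) ^ (K + 1)) ≤
        (2 * (K : ℝ) ^ 3) * (4 * (1 / (K : ℝ) ^ 7)) :=
      mul_le_mul h2 h1 (by positivity) (by positivity)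
    have h4 : (2 * (K : ℝ) ^ 3) * (4 * (1 / (K : ℝ) ^ 7)) = 8 / (K : ℝ) ^ 4 := by
      have : (K : ℝ) ^ 7 = (K : ℝ) ^ 4 * (K : ℝ) ^ 3 := by ring
      rw [this]
      field_simp
      ring
    have h5 : (8 : ℝ) / (K : ℝ) ^ 4 < 1 := by
      rw [div_lt_one (by positivity)]
      have h6 : (K : ℝ) ^ 4 = K * (K : ℝ) ^ 3 := by ring
      rw [h6]; nlinarith
    linarith
  obtain ⟨G, hG0, hGq, hGa, hGr⟩ := hRND K P (K ^ 10) (K ^ 7) (K ^ 14) w θ (1 / (K : ℝ) ^ 7) hP1 hN0 hZN hθ0.le hε0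
    (by linarith) hPy hcon' hmom hw1 hsmall
  have hPP : (P + 2) * P ≤ K ^ 7 := by
    have h3 : 1 ≤ K ^ 3 := Nat.one_le_pow _ _ hKpos
    have h4 : 2 ≤ K ^ 3 := by
      have : K ≤ K ^ 3 := Nat.le_self_pow (by norm_num) K
      omega
    calc (P + 2) * P ≤ (K ^ 3 + K ^ 3) * K ^ 3 := Nat.mul_le_mul (by omega) hP3
      _ = 2 * K ^ 6 := by ring
      _ ≤ K * K ^ 6 := Nat.mul_le_mul_right _ (by omega)
      _ = K ^ 7 := by ring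
  obtain ⟨N, hNd, hNe⟩ := hPOL P (K ^ 7) w G hP1 hw0 hwP hPP hGq hGr
  refine hFIN P (K ^ 7) (K ^ 4) (K ^ 10) θ (1 / (K : ℝ) ^ 7) N hP1 hNd ?_ ?_ ?_ hε0 (by linarith) ?_ ?_ ?_ ?_ ?_
  · calc P * K ^ 4 ≤ K ^ 3 * K ^ 4 := Nat.mul_le_mul_right _ hP3
      _ = K ^ 7 := by ring
  · calc P * K ^ 7 ≤ K ^ 3 * K ^ 7 := Nat.mul_le_mul_right _ hP3
      _ = K ^ 10 := by ring
  · have : K ≤ K ^ 4 := Nat.le_self_pow (by norm_num) K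
    omega
  · have h := hNe 0 (Nat.zero_le _)
    rw [hG0] at h
    simpa using h
  · intro a ha
    exact ⟨G 1 a, hNe a ha⟩
  · intro a ha
    rw [hNe a ha]
    exact hGa a ha
  · have h1 : 4 * (1 / (K : ℝ) ^ 7) * ((K ^ 10 : ℕ) : ℝ) / ((K ^ 4 : ℕ) : ℝ) = 4 / (K : ℝ) := by
      push_cast
      have : (K : ℝ) ^ 10 = (K : ℝ) ^ 7 * (K : ℝ) ^ 3 := by ring
      have h' : (K : ℝ) ^ 4 = (K : ℝ) * (K : ℝ) ^ 3 := by ring
      rw [this, h']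
      field_simp
    rw [h1]
    have h2 : (4 : ℝ) / K < 8 / K := by
      apply div_lt_div_of_pos_right (by norm_num) hK0
    linarith
  · have h1 : 48 * (1 / (K : ℝ) ^ 7) * ((K ^ 10 : ℕ) : ℝ) = 48 * (K : ℝ) ^ 3 := by
      push_cast
      have : (K : ℝ) ^ 10 = (K : ℝ) ^ 7 * (K : ℝ) ^ 3 := by ring
      rw [this]
      field_simp
    rw [h1]
    push_cast
    have h2 : ((K : ℝ) ^ 4) ^ 2 = (K : ℝ) ^ 5 * (K : ℝ) ^ 3 := by ring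
    rw [h2]
    have h3 : (48 : ℝ) < (K : ℝ) ^ 5 := by
      have h4 : (1 : ℝ) ≤ (K : ℝ) ^ 4 := one_le_pow₀ (by linarith)
      have h5 : (K : ℝ) ^ 5 = (K : ℝ) ^ 4 * K := by ring
      rw [h5]; nlinarith
    have h6 : (0 : ℝ) < (K : ℝ) ^ 3 := by positivity
    nlinarith

end Pool.RGS
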