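import Pool.Agent.Work.MP_3a3367_rgs.InterfaceB

set_option autoImplicit false

namespace Pool.RGS

open Finset

/-- Iterated forward differences. -/
noncomputable def DLG_D (h : ℝ) : ℕ → (ℝ → ℝ) → ℝ → ℝ
  | 0, φ, x => φ x
  | j + 1, φ, x => DLG_D h j φ (x + h) - DLG_D h j φ x

lemma DLG_iter (h : ℝ) (φ : ℝ → ℝ) : ∀ (j : ℕ) (x : ℝ), DLG_D h j φ x = (fwdDiff h)^[j] φ x := by
  intro j
  induction j with
  | zero => intro x; rfl
  | succ j ih =>
    intro x
    rw [Function.iterate_succ_apply', fwdDiff, ← ih, ← ih]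
    rfl

lemma DLG_sum (h : ℝ) (φ : ℝ → ℝ) (j : ℕ) (x : ℝ) :
    DLG_D h j φ x = ∑ i ∈ range (j + 1), (-1) ^ (j - i) * (j.choose i : ℝ) * φ (x + i * h) := by
  rw [DLG_iter, fwdDiff_iter_eq_sum_shift]
  refine Finset.sum_congr rfl fun i _ => ?_
  rw [zsmul_eq_mul, nsmul_eq_mul]
  push_cast
  ring

lemma DLG_alt (j : ℕ) (hj : 1 ≤ j) : ∑ i ∈ range (j + 1), (-1) ^ (j - i) * (j.choose i : ℝ) = 0 := by
  obtain ⟨m, rfl⟩ : ∃ m, j = m + 1 := ⟨j - 1, by omega⟩
  have h1 := DLG_sum 1 (fun _ => 1) (m + 1) 0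
  have h2 := DLG_sum 1 (fun _ => 1) m (0 + 1)
  have h3 := DLG_sum 1 (fun _ => 1) m 0
  have h4 : DLG_D 1 (m + 1) (fun _ => (1 : ℝ)) 0 =
      DLG_D 1 m (fun _ => (1 : ℝ)) (0 + 1) - DLG_D 1 m (fun _ => (1 : ℝ)) 0 := rfl
  simp only [mul_one] at h1 h2 h3
  rw [← h1, h4, h2, h3, sub_self]

lemma DLG_deriv (h : ℝ) (hh : 0 < h) : ∀ (j : ℕ) (φ φ' : ℝ → ℝ), (∀ x, 0 < x → HasDerivAt φ (φ' x) x) →
    ∀ x, 0 < x → HasDerivAt (DLG_D h j φ) (DLG_D h j φ' x) x := by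
  intro j
  induction j with
  | zero =>
    intro φ φ' hφ x hx
    exact hφ x hx
  | succ j ih =>
    intro φ φ' hφ x hx
    have h1 := ih φ φ' hφ x hx
    have h2 := (ih φ φ' hφ (x + h) (by linarith)).comp_add_const x h
    exact h2.sub h1

lemma DLG_mvt (h : ℝ) (hh : 0 < h) (j : ℕ) (φ φ' : ℝ → ℝ) (hφ : ∀ x, 0 < x → HasDerivAt φ (φ' x) x)
    (x : ℝ) (hx : 0 < x) : ∃ ξ, x < ξ ∧ ξ < x + h ∧ DLG_D h (j + 1) φ x = h * DLG_D h j φ' ξ := by
  have hd := DLG_deriv h hh j φ φ' hφ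
  obtain ⟨ξ, hξ, he⟩ := exists_hasDerivAt_eq_slope (DLG_D h j φ) (DLG_D h j φ') (show x < x + h by linarith)
    (fun y hy => (hd y (by have := hy.1; linarith)).continuousAt.continuousWithinAt)
    (fun y hy => hd y (by have := hy.1; linarith))
  refine ⟨ξ, hξ.1, hξ.2, ?_⟩
  have e1 : DLG_D h (j + 1) φ x = DLG_D h j φ (x + h) - DLG_D h j φ x := rfl
  rw [e1, he]
  have : x + h - x = h := by ring
  rw [this]
  field_simp

/-- The functions `k! / x^(k+1)`. -/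
noncomputable def DLG_f (k : ℕ) (x : ℝ) : ℝ := (k.factorial : ℝ) / x ^ (k + 1)

lemma DLG_f_deriv (k : ℕ) (x : ℝ) (hx : 0 < x) : HasDerivAt (DLG_f k) (-(DLG_f (k + 1) x)) x := by
  have h1 : HasDerivAt (fun y : ℝ => y ^ (k + 1)) (((k + 1 : ℕ) : ℝ) * x ^ k) x := by
    have := hasDerivAt_pow (k + 1) x
    rwa [Nat.add_sub_cancel] at this
  have hne : x ^ (k + 1) ≠ 0 := (pow_pos hx _).ne'
  have h2 := (hasDerivAt_const x (k.factorial : ℝ)).div h1 hne
  have h3 : (0 * x ^ (k + 1) - (k.factorial : ℝ) * (((k + 1 : ℕ) : ℝ) * x ^ k)) / (x ^ (k + 1)) ^ 2 =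
      -(DLG_f (k + 1) x) := by
    unfold DLG_f
    rw [Nat.factorial_succ]
    push_cast
    field_simp
    ring
  rw [h3] at h2
  exact h2

lemma DLG_neg (h : ℝ) : ∀ (j : ℕ) (φ : ℝ → ℝ) (x : ℝ), DLG_D h j (fun y => -(φ y)) x = -(DLG_D h j φ x) := by
  intro j
  induction j with
  | zero => intro φ x; rfl
  | succ j ih =>
    intro φ x
    have e1 : DLG_D h (j + 1) (fun y => -(φ y)) x =
        DLG_D h j (fun y => -(φ y)) (x + h) - DLG_D h j (fun y => -(φ y)) x := rfl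
    have e2 : DLG_D h (j + 1) φ x = DLG_D h j φ (x + h) - DLG_D h j φ x := rfl
    rw [e1, e2, ih, ih]
    ring

lemma DLG_main (h : ℝ) (hh : 0 < h) : ∀ (j k : ℕ) (x : ℝ), 0 < x →
    ((k + j).factorial : ℝ) * h ^ j / (x + j * h) ^ (k + j + 1) ≤ (-1) ^ j * DLG_D h j (DLG_f k) x ∧
    (-1) ^ j * DLG_D h j (DLG_f k) x ≤ ((k + j).factorial : ℝ) * h ^ j / x ^ (k + j + 1) := by
  intro j
  induction j with
  | zero =>
    intro k x hx
    have e : DLG_D h 0 (DLG_f k) x = (k.factorial : ℝ) / x ^ (k + 1) := rfl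
    rw [e]
    simp
  | succ j ih =>
    intro k x hx
    obtain ⟨ξ, h1, h2, h3⟩ := DLG_mvt h hh j (DLG_f k) (fun y => -(DLG_f (k + 1) y))
      (fun y hy => DLG_f_deriv k y hy) x hx
    have hξ : 0 < ξ := by linarith
    obtain ⟨i1, i2⟩ := ih (k + 1) ξ hξ
    rw [DLG_neg] at h3
    have e : (-1 : ℝ) ^ (j + 1) * DLG_D h (j + 1) (DLG_f k) x = h * ((-1) ^ j * DLG_D h j (DLG_f (k + 1)) ξ) := by
      rw [h3, pow_succ]
      ring
    rw [e]
    have ek : k + 1 + j = k + (j + 1) := by omega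
    rw [ek] at i1 i2
    have hj0 : (0 : ℝ) ≤ (j : ℝ) * h := mul_nonneg (Nat.cast_nonneg _) hh.le
    constructor
    · refine le_trans ?_ (mul_le_mul_of_nonneg_left i1 hh.le)
      have hle : (ξ + j * h) ^ (k + (j + 1) + 1) ≤ (x + ((j + 1 : ℕ) : ℝ) * h) ^ (k + (j + 1) + 1) := by
        apply pow_le_pow_left₀ (by linarith)
        push_cast
        linarith
      have hpos : 0 < (ξ + j * h) ^ (k + (j + 1) + 1) := pow_pos (by linarith) _
      have : h * (((k + (j + 1)).factorial : ℝ) * h ^ j / (ξ + j * h) ^ (k + (j + 1) + 1)) =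
          ((k + (j + 1)).factorial : ℝ) * h ^ (j + 1) / (ξ + j * h) ^ (k + (j + 1) + 1) := by
        rw [pow_succ]
        ring
      rw [this]
      exact div_le_div_of_nonneg_left (by positivity) hpos hle
    · refine le_trans (mul_le_mul_of_nonneg_left i2 hh.le) ?_
      have hle : x ^ (k + (j + 1) + 1) ≤ ξ ^ (k + (j + 1) + 1) := pow_le_pow_left₀ hx.le h1.le _
      have hpos : 0 < x ^ (k + (j + 1) + 1) := pow_pos hx _
      have : h * (((k + (j + 1)).factorial : ℝ) * h ^ j / ξ ^ (k + (j + 1) + 1)) =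
          ((k + (j + 1)).factorial : ℝ) * h ^ (j + 1) / ξ ^ (k + (j + 1) + 1) := by
        rw [pow_succ]
        ring
      rw [this]
      exact div_le_div_of_nonneg_left (by positivity) hpos hle

theorem p_DLG : Stmt_DLG := by
  intro j N h hj hN hh
  obtain ⟨m, rfl⟩ : ∃ m, j = m + 1 := ⟨j - 1, by omega⟩
  have hlog : ∀ y, 0 < y → HasDerivAt Real.log (DLG_f 0 y) y := by
    intro y hy
    have := Real.hasDerivAt_log hy.ne'
    have e : DLG_f 0 y = y⁻¹ := by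
      unfold DLG_f
      simp
    rw [e]
    exact this
  have hS : ∑ i ∈ range (m + 1 + 1), (-1) ^ (m + 1 - i) * ((m + 1).choose i : ℝ) * Real.log (1 + i * h / N) =
      DLG_D h (m + 1) Real.log N := by
    rw [DLG_sum]
    have h0 := DLG_alt (m + 1) (by omega)
    have h1 : ∀ i ∈ range (m + 1 + 1), (-1) ^ (m + 1 - i) * ((m + 1).choose i : ℝ) * Real.log (1 + i * h / N) =
        (-1) ^ (m + 1 - i) * ((m + 1).choose i : ℝ) * Real.log (N + i * h) -
        (-1) ^ (m + 1 - i) * ((m + 1).choose i : ℝ) * Real.log N := by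
      intro i _
      have hi : (0 : ℝ) ≤ (i : ℝ) * h := mul_nonneg (Nat.cast_nonneg _) hh.le
      have : 1 + (i : ℝ) * h / N = (N + i * h) / N := by
        field_simp
      rw [this, Real.log_div (by linarith) hN.ne']
      ring
    rw [Finset.sum_congr rfl h1, Finset.sum_sub_distrib, ← Finset.sum_mul, h0, zero_mul, sub_zero]
  rw [hS]
  obtain ⟨ξ, h1, h2, h3⟩ := DLG_mvt h hh m Real.log (DLG_f 0) hlog N hN
  have hξ : 0 < ξ := by linarith
  obtain ⟨i1, i2⟩ := DLG_main h hh m 0 ξ hξ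
  rw [Nat.zero_add] at i1 i2
  have hm : m + 1 - 1 = m := by omega
  have e : (-1 : ℝ) ^ m * DLG_D h (m + 1) Real.log N = h * ((-1) ^ m * DLG_D h m (DLG_f 0) ξ) := by
    rw [h3]
    ring
  rw [hm, e]
  have hj0 : (0 : ℝ) ≤ (m : ℝ) * h := mul_nonneg (Nat.cast_nonneg _) hh.le
  constructor
  · refine le_trans ?_ (mul_le_mul_of_nonneg_left i1 hh.le)
    have hle : (ξ + m * h) ^ (m + 1) ≤ (N + ((m + 1 : ℕ) : ℝ) * h) ^ (m + 1) := by
      apply pow_le_pow_left₀ (by linarith)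
      push_cast
      linarith
    have hpos : 0 < (ξ + m * h) ^ (m + 1) := pow_pos (by linarith) _
    have e1 : h * ((m.factorial : ℝ) * h ^ m / (ξ + m * h) ^ (m + 1)) =
        (m.factorial : ℝ) * h ^ (m + 1) / (ξ + m * h) ^ (m + 1) := by
      rw [pow_succ]
      ring
    rw [e1, div_pow, ← mul_div_assoc]
    exact div_le_div_of_nonneg_left (by positivity) hpos hle
  · refine le_trans (mul_le_mul_of_nonneg_left i2 hh.le) ?_
    have hle : N ^ (m + 1) ≤ ξ ^ (m + 1) := pow_le_pow_left₀ hN.le h1.le _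
    have hpos : 0 < N ^ (m + 1) := pow_pos hN _
    have e1 : h * ((m.factorial : ℝ) * h ^ m / ξ ^ (m + 1)) =
        (m.factorial : ℝ) * h ^ (m + 1) / ξ ^ (m + 1) := by
      rw [pow_succ]
      ring
    rw [e1, div_pow, ← mul_div_assoc]
    exact div_le_div_of_nonneg_left (by positivity) hpos hle

end Pool.RGS
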