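import Pool.Agent.Work.MP_3a3367_rgs.InterfaceB

/-! Block DNS of the table gsq_blocks (helper55) -/

set_option autoImplicit false

namespace Pool.RGS

open Finset

theorem DNS_irr (k j : ℤ) (hk : 0 < k) : (k : ℝ) * Real.log 3 ≠ j * Real.log 2 := by
  intro h
  have h3 : 0 < Real.log 3 := Real.log_pos (by norm_num)
  have h2 : 0 < Real.log 2 := Real.log_pos (by norm_num)
  have hkR : (0 : ℝ) < k := by exact_mod_cast hk
  have hj : 0 < j := by
    by_contra hcon
    have hj0 : (j : ℝ) ≤ 0 := by exact_mod_cast (not_lt.mp hcon)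
    have h4 : 0 < (k : ℝ) * Real.log 3 := mul_pos hkR h3
    have h5 : (j : ℝ) * Real.log 2 ≤ 0 := mul_nonpos_of_nonpos_of_nonneg hj0 h2.le
    linarith
  obtain ⟨a, rfl⟩ := Int.eq_ofNat_of_zero_le hk.le
  obtain ⟨b, rfl⟩ := Int.eq_ofNat_of_zero_le hj.le
  have h6 : Real.log ((3 : ℝ) ^ a) = Real.log ((2 : ℝ) ^ b) := by
    rw [Real.log_pow, Real.log_pow]
    exact_mod_cast h
  have h7 : (3 : ℝ) ^ a = (2 : ℝ) ^ b :=
    Real.log_injOn_pos (Set.mem_Ioi.mpr (by positivity)) (Set.mem_Ioi.mpr (by positivity)) h6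
  have h8 : (3 : ℕ) ^ a = 2 ^ b := by exact_mod_cast h7
  have h9 : Odd ((3 : ℕ) ^ a) := Odd.pow (by decide)
  have hb : b ≠ 0 := by
    intro hb
    rw [hb] at hj
    simp at hj
  have h10 : Even ((2 : ℕ) ^ b) := by
    rw [Nat.even_pow]
    exact ⟨by decide, hb⟩
  rw [h8] at h9
  exact (Nat.not_even_iff_odd.mpr h9) h10

/-- The multiples of a small nonzero number are a net modulo one. -/
theorem DNS_net (x : ℝ) (hx : x ≠ 0) (u : ℝ) :
    ∃ (m : ℕ) (z : ℤ), m ≤ ⌊1 / |x|⌋₊ ∧ |u - m * x - z| ≤ |x| := by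
  have hx0 : 0 < |x| := abs_pos.mpr hx
  rcases lt_or_gt_of_ne hx with hneg | hpos
  · have hax : |x| = -x := abs_of_neg hneg
    refine ⟨⌊(1 - Int.fract u) / |x|⌋₊, ⌊u⌋ + 1, ?_, ?_⟩
    · apply Nat.floor_mono
      apply div_le_div_of_nonneg_right _ hx0.le
      linarith [Int.fract_nonneg u]
    · have h1 : 0 ≤ (1 - Int.fract u) / |x| := div_nonneg (by linarith [Int.fract_lt_one u]) hx0.le
      have h2 := Nat.floor_le h1
      have h3 := Nat.lt_floor_add_one ((1 - Int.fract u) / |x|)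
      rw [le_div_iff₀ hx0] at h2
      rw [div_lt_iff₀ hx0] at h3
      have h4 : u = ⌊u⌋ + Int.fract u := (Int.floor_add_fract u).symm
      push_cast
      rw [abs_le]
      rw [hax] at h2 h3 ⊢
      constructor
      · nlinarith [h2, h3, h4]
      · nlinarith [h2, h3, h4]
  · have hax : |x| = x := abs_of_pos hpos
    refine ⟨⌊(Int.fract u) / |x|⌋₊, ⌊u⌋, ?_, ?_⟩
    · apply Nat.floor_mono
      apply div_le_div_of_nonneg_right _ hx0.le
      linarith [Int.fract_lt_one u]
    · have h1 : 0 ≤ (Int.fract u) / |x| := div_nonneg (Int.fract_nonneg u) hx0.le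
      have h2 := Nat.floor_le h1
      have h3 := Nat.lt_floor_add_one ((Int.fract u) / |x|)
      rw [le_div_iff₀ hx0] at h2
      rw [div_lt_iff₀ hx0] at h3
      have h4 : u = ⌊u⌋ + Int.fract u := (Int.floor_add_fract u).symm
      rw [abs_le]
      rw [hax] at h2 h3 ⊢
      constructor
      · nlinarith [h2, h3, h4]
      · nlinarith [h2, h3, h4]

theorem p_DNS : Stmt_DNS := by
  intro δ hδ
  have h3 : 0 < Real.log 3 := Real.log_pos (by norm_num)
  have h2 : 0 < Real.log 2 := Real.log_pos (by norm_num)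
  have h2' : Real.log 2 ≤ 1 := by
    have := Real.log_two_lt_d9
    linarith
  obtain ⟨n, hn⟩ := exists_nat_gt (1 / δ)
  have hn0 : 0 < n := by
    have h4 : (0 : ℝ) < n := lt_trans (by positivity) hn
    exact_mod_cast h4
  obtain ⟨j, k, hk, hkn, hjk⟩ := Real.exists_int_int_abs_mul_sub_le (Real.log 3 / Real.log 2) hn0
  set x : ℝ := (k : ℝ) * (Real.log 3 / Real.log 2) - j with hxdef
  have hxl : x * Real.log 2 = k * Real.log 3 - j * Real.log 2 := by
    rw [hxdef]
    field_simp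
  have hx : x ≠ 0 := by
    intro h
    apply DNS_irr k j hk
    rw [h] at hxl
    linarith
  have hxδ : |x| ≤ δ := by
    refine hjk.trans ?_
    rw [div_le_iff₀ (by positivity)]
    rw [div_lt_iff₀ hδ] at hn
    nlinarith
  obtain ⟨K, rfl⟩ := Int.eq_ofNat_of_zero_le hk.le
  refine ⟨⌊1 / |x|⌋₊ * n, fun s => ?_⟩
  obtain ⟨m, z, hm, hmz⟩ := DNS_net x hx (s / Real.log 2)
  refine ⟨z - m * j, m * K, ?_, ?_⟩
  · apply Nat.mul_le_mul hm
    exact_mod_cast hkn
  · have h5 : s - ((z - m * j : ℤ) : ℝ) * Real.log 2 - ((m * K : ℕ) : ℝ) * Real.log 3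
        = (s / Real.log 2 - m * x - z) * Real.log 2 := by
      have h6 : (s / Real.log 2) * Real.log 2 = s := by field_simp
      push_cast at hxl ⊢
      calc s - ((z : ℝ) - m * j) * Real.log 2 - (m * K) * Real.log 3
          = s - m * (K * Real.log 3 - j * Real.log 2) - z * Real.log 2 := by ring
        _ = (s / Real.log 2) * Real.log 2 - m * (x * Real.log 2) - z * Real.log 2 := by
            rw [h6, hxl]
        _ = _ := by ring
    rw [h5, abs_mul, abs_of_pos h2]
    calc |s / Real.log 2 - m * x - z| * Real.log 2 ≤ |x| * 1 :=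
          mul_le_mul hmz h2' h2.le (abs_nonneg _)
      _ ≤ δ := by linarith

end Pool.RGS
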