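import Pool.Agent.Work.MP_3a3367_rgs.Interface

set_option autoImplicit false

namespace Pool.RGS

open Finset

/-- Differences of monomials of small degree. -/
theorem DPL_mon (n k : ℕ) (hk : k < n) :
    ∑ i ∈ range (n + 1), (-1 : ℝ) ^ (n - i) * (n.choose i : ℝ) * (i : ℝ) ^ k = 0 := by
  have h1 := fwdDiff_iter_pow_eq_zero_of_lt (R := ℝ) hk
  have h2 := fwdDiff_iter_eq_sum_shift (1 : ℝ) (fun r : ℝ => r ^ k) n 0
  rw [h1] at h2
  simp only [Pi.zero_apply, zero_add, nsmul_eq_mul, mul_one, zsmul_eq_mul, Int.cast_mul,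
    Int.cast_pow, Int.cast_neg, Int.cast_one, Int.cast_natCast] at h2
  exact h2.symm

theorem DPL_fac (n : ℕ) :
    ∑ i ∈ range (n + 1), (-1 : ℝ) ^ (n - i) * (n.choose i : ℝ) * (i : ℝ) ^ n =
      (n.factorial : ℝ) := by
  have h1 := fwdDiff_iter_eq_factorial (R := ℝ) (n := n)
  have h2 := fwdDiff_iter_eq_sum_shift (1 : ℝ) (fun r : ℝ => r ^ n) n 0
  rw [h1] at h2
  simp only [Pi.natCast_apply, zero_add, nsmul_eq_mul, mul_one, zsmul_eq_mul, Int.cast_mul,
    Int.cast_pow, Int.cast_neg, Int.cast_one, Int.cast_natCast] at h2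
  exact h2.symm

/-- Exchange of the sums. -/
theorem DPL_exp (N : Polynomial ℝ) (h : ℝ) (n : ℕ) :
    ∑ i ∈ range (n + 1), (-1 : ℝ) ^ (n - i) * (n.choose i : ℝ) * N.eval ((i : ℝ) * h) =
      ∑ k ∈ range (N.natDegree + 1), N.coeff k * h ^ k *
        ∑ i ∈ range (n + 1), (-1 : ℝ) ^ (n - i) * (n.choose i : ℝ) * (i : ℝ) ^ k := by
  simp only [Polynomial.eval_eq_sum_range, Finset.mul_sum]
  rw [Finset.sum_comm]
  refine Finset.sum_congr rfl fun k _ => Finset.sum_congr rfl fun i _ => ?_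
  rw [mul_pow]
  ring

theorem DPL_top (N : Polynomial ℝ) (h : ℝ) :
    ∑ i ∈ range (N.natDegree + 1), (-1 : ℝ) ^ (N.natDegree - i) * (N.natDegree.choose i : ℝ) *
      N.eval ((i : ℝ) * h) = N.coeff N.natDegree * (N.natDegree.factorial : ℝ) *
        h ^ N.natDegree := by
  rw [DPL_exp, Finset.sum_range_succ, DPL_fac, Finset.sum_eq_zero]
  · ring
  · intro k hk
    rw [DPL_mon _ _ (Finset.mem_range.1 hk), mul_zero]

theorem p_DPL : Stmt_DPL := by
  intro N h hN hg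
  have hg' : ∀ i : ℕ, ∃ g : ℤ, i ≤ N.natDegree → N.eval (i : ℝ) = g := by
    intro i
    by_cases hi : i ≤ N.natDegree
    · obtain ⟨g, hg1⟩ := hg i hi
      exact ⟨g, fun _ => hg1⟩
    · exact ⟨0, fun h1 => absurd h1 hi⟩
  choose g hg1 using hg'
  have hc : ((∑ i ∈ range (N.natDegree + 1),
      (-1 : ℤ) ^ (N.natDegree - i) * (N.natDegree.choose i : ℤ) * g i : ℤ) : ℝ) =
      N.coeff N.natDegree * (N.natDegree.factorial : ℝ) := by
    have h1 := DPL_top N 1
    rw [one_pow, mul_one] at h1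
    rw [← h1]
    push_cast
    refine Finset.sum_congr rfl fun i hi => ?_
    rw [mul_one, hg1 i (Nat.lt_succ_iff.1 (Finset.mem_range.1 hi))]
  refine ⟨⟨∑ i ∈ range (N.natDegree + 1),
      (-1 : ℤ) ^ (N.natDegree - i) * (N.natDegree.choose i : ℤ) * g i, ?_, ?_⟩, ?_⟩
  · intro h0
    rw [h0, Int.cast_zero] at hc
    have h2 : N.coeff N.natDegree ≠ 0 := by
      rw [Polynomial.coeff_natDegree]
      exact Polynomial.leadingCoeff_ne_zero.2 hN
    have h3 : (N.natDegree.factorial : ℝ) ≠ 0 := by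
      exact_mod_cast Nat.factorial_ne_zero _
    exact mul_ne_zero h2 h3 hc.symm
  · rw [hc, ← DPL_top N (h : ℝ)]
    refine Finset.sum_congr rfl fun i _ => ?_
    rw [Nat.cast_mul]
  · have h4 := DPL_exp N (h : ℝ) (N.natDegree + 1)
    rw [Finset.sum_eq_zero (s := range (N.natDegree + 1)) (fun k hk => by
      rw [DPL_mon _ _ (Finset.mem_range.1 hk), mul_zero])] at h4
    rw [← h4]
    refine Finset.sum_congr rfl fun i _ => ?_
    rw [Nat.cast_mul]

end Pool.RGS
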