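import Pool.Agent.Work.MP_3a3367_rgs.InterfaceH

set_option autoImplicit false

namespace Pool.RGS

open Finset

/-- The units which are products of elements of `S` with exponents of sum `0`. -/
def DUH_K (S : Finset ℕ) (hS : ∀ n ∈ S, 0 < n) : Subgroup ℚˣ where
  carrier := {u | ∃ e : ℕ → ℤ, ∑ n ∈ S, e n = 0 ∧ (u : ℚ) = ∏ n ∈ S, (n : ℚ) ^ (e n)}
  mul_mem' := by
    rintro a b ⟨e, he, ha⟩ ⟨e', he', hb⟩
    refine ⟨fun n => e n + e' n, by rw [Finset.sum_add_distrib, he, he', add_zero], ?_⟩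
    rw [Units.val_mul, ha, hb, ← Finset.prod_mul_distrib]
    refine Finset.prod_congr rfl fun n hn => ?_
    rw [zpow_add₀ (by exact_mod_cast (hS n hn).ne')]
  one_mem' := ⟨fun _ => 0, by simp, by simp⟩
  inv_mem' := by
    rintro a ⟨e, he, ha⟩
    refine ⟨fun n => - e n, by rw [Finset.sum_neg_distrib, he, neg_zero], ?_⟩
    rw [Units.val_inv_eq_inv_val, ha, ← Finset.prod_inv_distrib]
    refine Finset.prod_congr rfl fun n _ => ?_
    rw [zpow_neg]

/-- The class of `n`. -/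
noncomputable def DUH_f (S : Finset ℕ) (hS : ∀ n ∈ S, 0 < n) (n : ℕ) :
    Additive (ℚˣ ⧸ DUH_K S hS) :=
  if h : n = 0 then 0 else
    Additive.ofMul (QuotientGroup.mk (s := DUH_K S hS) (Units.mk0 (n : ℚ) (by exact_mod_cast h)))

theorem DUH_f_ca (S : Finset ℕ) (hS : ∀ n ∈ S, 0 < n) : CA (DUH_f S hS) := by
  intro a b ha hb
  unfold DUH_f
  rw [dif_neg (Nat.mul_pos ha hb).ne', dif_neg ha.ne', dif_neg hb.ne', ← ofMul_mul,
    ← QuotientGroup.mk_mul]
  have h : ∀ (h1 : ((a * b : ℕ) : ℚ) ≠ 0) (h2 : (a : ℚ) ≠ 0) (h3 : (b : ℚ) ≠ 0),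
      Units.mk0 ((a * b : ℕ) : ℚ) h1 = Units.mk0 (a : ℚ) h2 * Units.mk0 (b : ℚ) h3 := by
    intro h1 h2 h3
    ext
    push_cast
    simp
  rw [h]

/-- The class of `n` vanishes exactly when `n` is in the subgroup. -/
theorem DUH_f_zero (S : Finset ℕ) (hS : ∀ n ∈ S, 0 < n) {p : ℕ} (hp : 1 ≤ p)
    (h : DUH_f S hS p = 0) :
    ∃ e : ℕ → ℤ, ∑ n ∈ S, e n = 0 ∧ (p : ℚ) = ∏ n ∈ S, (n : ℚ) ^ (e n) := by
  have hp0 : p ≠ 0 := by omega
  unfold DUH_f at h
  rw [dif_neg hp0, ofMul_eq_zero, QuotientGroup.eq_one_iff] at h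
  obtain ⟨e, he, h2⟩ := h
  exact ⟨e, he, by simpa using h2⟩

theorem DUH_single (S : Finset ℕ) (hS : ∀ n ∈ S, 0 < n) {n s : ℕ} (hn : n ∈ S) (hs : s ∈ S) :
    DUH_f S hS n = DUH_f S hS s := by
  have hn0 : n ≠ 0 := (hS n hn).ne'
  have hs0 : s ≠ 0 := (hS s hs).ne'
  have hnq : (n : ℚ) ≠ 0 := by exact_mod_cast hn0
  have hsq : (s : ℚ) ≠ 0 := by exact_mod_cast hs0
  unfold DUH_f
  rw [dif_neg hn0, dif_neg hs0]
  have h1 : QuotientGroup.mk (s := DUH_K S hS) (Units.mk0 (s : ℚ) hsq) =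
      QuotientGroup.mk (s := DUH_K S hS) (Units.mk0 (n : ℚ) hnq) := by
    rw [QuotientGroup.eq]
    refine ⟨fun x => (if x = n then 1 else 0) - (if x = s then 1 else 0), ?_, ?_⟩
    · rw [Finset.sum_sub_distrib, Finset.sum_ite_eq' S n, Finset.sum_ite_eq' S s, if_pos hn,
        if_pos hs, sub_self]
    · have h2 : ∀ a ∈ S, ∏ x ∈ S, (x : ℚ) ^ (if x = a then (1 : ℤ) else 0) = (a : ℚ) := by
        intro a ha
        rw [Finset.prod_eq_single a]
        · rw [if_pos rfl, zpow_one]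
        · intro b _ hb
          rw [if_neg hb, zpow_zero]
        · intro h
          exact absurd ha h
      have h3 : ∏ x ∈ S, (x : ℚ) ^ ((if x = n then (1 : ℤ) else 0) - (if x = s then 1 else 0)) =
          (∏ x ∈ S, (x : ℚ) ^ (if x = n then (1 : ℤ) else 0)) *
            (∏ x ∈ S, (x : ℚ) ^ (if x = s then (1 : ℤ) else 0))⁻¹ := by
        rw [← Finset.prod_inv_distrib, ← Finset.prod_mul_distrib]
        refine Finset.prod_congr rfl fun x hx => ?_
        have hx0 : (x : ℚ) ≠ 0 := by exact_mod_cast (hS x hx).ne'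
        rw [zpow_sub₀ hx0, div_eq_mul_inv]
      rw [h3, h2 n hn, h2 s hs, Units.val_mul, Units.val_inv_eq_inv_val, Units.val_mk0,
        Units.val_mk0, mul_comm]
  rw [h1]

theorem DUH_mem_EG {G : Type} [AddCommGroup G] (f : ℕ → G) (m c : ℝ) (g : G) (n : ℕ)
    (h : n ∈ EG f m c g) : n ∈ II m c ∧ f n ≠ g := by
  simpa only [EG, Finset.mem_filter] using h

theorem p_DUH : Stmt_DUH := by
  classical
  intro c m T p S hp hm hT hSI hcard
  have hS : ∀ n ∈ S, 0 < n := by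
    intro n hn
    have h := hSI hn
    unfold II at h
    rw [Finset.mem_filter] at h
    have h1 : (0 : ℝ) < n := lt_of_le_of_lt (sq_nonneg m) h.2
    exact_mod_cast h1
  apply DUH_f_zero S hS hp
  by_contra hne
  obtain ⟨g, hg⟩ : ∃ g, ∀ n ∈ S, DUH_f S hS n = g := by
    rcases S.eq_empty_or_nonempty with h | ⟨s, hs⟩
    · exact ⟨0, fun n hn => by rw [h] at hn; exact absurd hn (Finset.notMem_empty n)⟩
    · exact ⟨DUH_f S hS s, fun n hn => DUH_single S hS hn hs⟩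
  have h1 := hT _ (DUH_f S hS) g (DUH_f_ca S hS) hne
  have h2 : EG (DUH_f S hS) m c g ⊆ II m c \ S := by
    intro n hn
    have hn1 := DUH_mem_EG _ m c g n hn
    rw [Finset.mem_sdiff]
    exact ⟨hn1.1, fun h => hn1.2 (hg n h)⟩
  have h3 : ((EG (DUH_f S hS) m c g).card : ℝ) ≤ ((II m c \ S).card : ℝ) := by
    exact_mod_cast Finset.card_le_card h2
  exact absurd (h1.trans h3) (not_le.mpr hcard)

end Pool.RGS
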