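import Pool.Agent.Work.MP_3a3367_rgs.InterfaceH

/-!
# MP_3a3367_nt, THEOREM H: block EVH

One starting point, window lengths `W i`: if there is no jump in any window then the values on the
windows are determined step by step, and the first and the last window contain `X - 1`.
-/

set_option autoImplicit false

namespace Pool.RGS

open Finset

/-- A function without jumps on a window is constant there. -/
private theorem evh_const {G : Type} [AddCommGroup G] (f : ℕ → G) (a b : ℝ) (hb : 0 ≤ b)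
    (h : ∀ v : ℕ, a < v → (v : ℝ) + 1 ≤ b → f v = f (v + 1)) :
    ∀ v : ℕ, a < v → (v : ℝ) ≤ b → f v = f ⌊b⌋₊ := by
  intro v hv hvb
  obtain ⟨k, hk⟩ : ∃ k, ⌊b⌋₊ = v + k := ⟨⌊b⌋₊ - v, by
    have : v ≤ ⌊b⌋₊ := Nat.le_floor hvb
    omega⟩
  rw [hk]
  have hkb : ((v + k : ℕ) : ℝ) ≤ b := by
    rw [← hk]
    exact Nat.floor_le hb
  clear hk
  induction k with
  | zero => rfl
  | succ k ih =>
    have h1 : ((v + k : ℕ) : ℝ) + 1 ≤ b := by
      push_cast at hkb ⊢
      linarith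
    have h2 : ((v + k : ℕ) : ℝ) ≤ b := by linarith
    rw [ih h2, h (v + k) (by push_cast; linarith [(Nat.cast_nonneg k : (0 : ℝ) ≤ k)]) h1]
    rfl

theorem p_EVH (hSTG : Stmt_STG) : Stmt_EVH := by
  intro G _ f t X ρ A B W hf hW h0 ht hρ hX hAB hsum
  by_contra hno
  push Not at hno
  have hXpos : ∀ i ≤ t, (W i : ℝ) + 2 ≤ X * ρ i := by
    intro i hi
    have h1 : (2 : ℝ) * W i + 4 ≤ X := by exact_mod_cast hX i hi
    have h2 : (1 : ℝ) / 2 ≤ ρ i := hρ i hi
    have h3 : (0 : ℝ) ≤ X := Nat.cast_nonneg X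
    nlinarith
  have hconst : ∀ i ≤ t, ∀ v : ℕ, (X : ℝ) * ρ i - W i < v → (v : ℝ) ≤ X * ρ i →
      f v = f ⌊(X : ℝ) * ρ i⌋₊ := by
    intro i hi
    apply evh_const f _ _ (by
      have := hXpos i hi
      have h4 : (0 : ℝ) ≤ W i := Nat.cast_nonneg _
      linarith)
    intro v hv1 hv2
    by_contra hne
    exact absurd hv2 (not_le.mpr (hno i hi v hne hv1))
  have hstep : ∀ i < t, f ⌊(X : ℝ) * ρ (i + 1)⌋₊ = f (A i) - f (B i) + f ⌊(X : ℝ) * ρ i⌋₊ := by
    intro i hi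
    obtain ⟨hA1, hA2, hA3, hB1, hB2, hB3, hr⟩ := hAB i hi
    have hQ1 : max (A i) (B i) ≤ W i := max_le hA2 hB2
    have hQ2 : max (A i) (B i) ≤ W (i + 1) := max_le hA3 hB3
    have hQ1' : ((max (A i) (B i) : ℕ) : ℝ) ≤ W i := by exact_mod_cast hQ1
    have hQ2' : ((max (A i) (B i) : ℕ) : ℝ) ≤ W (i + 1) := by exact_mod_cast hQ2
    refine hSTG G f (A i) (B i) (max (A i) (B i)) ((X : ℝ) * ρ i) ((X : ℝ) * ρ (i + 1)) _ _ hf
      hA1 (le_max_left _ _) hB1 (le_max_right _ _) ?_ ?_ ?_ ?_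
    · have := hXpos i hi.le
      linarith
    · rw [hr]
      ring
    · intro v _ hv1 hv2
      exact hconst i hi.le v (by linarith) hv2
    · intro v _ hv1 hv2
      exact hconst (i + 1) hi v (by linarith) hv2
  have hind : ∀ i ≤ t, f ⌊(X : ℝ) * ρ i⌋₊ =
      f ⌊(X : ℝ) * ρ 0⌋₊ + ∑ l ∈ range i, (f (A l) - f (B l)) := by
    intro i
    induction i with
    | zero => intro _; simp
    | succ i ih =>
      intro hi
      rw [hstep i hi, ih (Nat.le_of_succ_le hi), sum_range_succ]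
      abel
  have hX0 : 2 * W 0 + 4 ≤ X := hX 0 (Nat.zero_le _)
  have hc : ((X - 1 : ℕ) : ℝ) = (X : ℝ) - 1 := by
    rw [Nat.cast_sub (by omega)]
    norm_num
  have hW0 : (2 : ℝ) ≤ W 0 := by exact_mod_cast hW 0 (Nat.zero_le _)
  have hWt : (2 : ℝ) ≤ W t := by exact_mod_cast hW t le_rfl
  have e0 : f (X - 1) = f ⌊(X : ℝ) * ρ 0⌋₊ := by
    apply hconst 0 (Nat.zero_le _)
    · rw [hc, h0]
      linarith
    · rw [hc, h0]
      linarith
  have et : f (X - 1) = f ⌊(X : ℝ) * ρ t⌋₊ := by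
    rw [abs_lt] at ht
    apply hconst t le_rfl
    · rw [hc]
      linarith
    · rw [hc]
      linarith
  apply hsum
  have := hind t le_rfl
  rw [← et, ← e0] at this
  exact left_eq_add.mp this

end Pool.RGS
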