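import Pool.Agent.Work.MP_3a3367_rgs.Interface

set_option autoImplicit false

namespace Pool.RGS

open Finset

lemma EXP_norm (x : ℝ) : ‖(1 : ℂ) + Complex.exp (Complex.I * (x : ℂ))‖ = |2 * Real.cos (x / 2)| := by
  have h : (1 : ℂ) + Complex.exp (Complex.I * (x : ℂ)) =
      Complex.exp (((x / 2 : ℝ) : ℂ) * Complex.I) * (((2 * Real.cos (x / 2)) : ℝ) : ℂ) := by
    have h1 : (((2 * Real.cos (x / 2)) : ℝ) : ℂ) =
        Complex.exp (((x / 2 : ℝ) : ℂ) * Complex.I) + Complex.exp (-((x / 2 : ℝ) : ℂ) * Complex.I) := by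
      rw [Complex.ofReal_mul, Complex.ofReal_cos, Complex.ofReal_ofNat, Complex.two_cos]
    rw [h1, mul_add, ← Complex.exp_add, ← Complex.exp_add]
    have h2 : ((x / 2 : ℝ) : ℂ) * Complex.I + ((x / 2 : ℝ) : ℂ) * Complex.I = Complex.I * (x : ℂ) := by
      push_cast; ring
    have h3 : ((x / 2 : ℝ) : ℂ) * Complex.I + -((x / 2 : ℝ) : ℂ) * Complex.I = 0 := by ring
    rw [h2, h3, Complex.exp_zero, add_comm]
  rw [h, norm_mul, Complex.norm_exp_ofReal_mul_I, one_mul, Complex.norm_real, Real.norm_eq_abs]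

lemma EXP_cos (a : ℝ) : |2 * Real.cos (Real.pi * a)| ≤ 2 - 4 * |a - round a| ^ 2 := by
  have hpi := Real.pi_pos
  have h1 : Real.cos (Real.pi * a) = (-1) ^ (round a) * Real.cos (Real.pi * (a - round a)) := by
    rw [← Real.cos_add_int_mul_pi]
    congr 1
    ring
  have hd : |a - round a| ≤ 1 / 2 := abs_sub_round a
  have h2 : |Real.pi * (a - round a)| ≤ Real.pi / 2 := by
    rw [abs_mul, abs_of_pos hpi]
    nlinarith
  have h3 : 0 ≤ Real.cos (Real.pi * (a - round a)) := by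
    apply Real.cos_nonneg_of_neg_pi_div_two_le_of_le
    · linarith [(abs_le.1 h2).1]
    · exact (abs_le.1 h2).2
  have h4 : Real.cos (Real.pi * (a - round a)) ≤ 1 - 2 / Real.pi ^ 2 * (Real.pi * (a - round a)) ^ 2 :=
    Real.cos_le_one_sub_mul_cos_sq (by linarith)
  have h5 : 2 / Real.pi ^ 2 * (Real.pi * (a - round a)) ^ 2 = 2 * |a - round a| ^ 2 := by
    rw [sq_abs]
    field_simp
  have h6 : |2 * Real.cos (Real.pi * a)| = 2 * Real.cos (Real.pi * (a - round a)) := by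
    rw [h1, abs_mul, abs_mul, abs_zpow, abs_neg, abs_one, one_zpow, one_mul, abs_of_nonneg h3, abs_of_pos (by norm_num : (0 : ℝ) < 2)]
  rw [h6]
  linarith

theorem p_EXP (hDL : Stmt_DL) : Stmt_EXP := by
  obtain ⟨K1, hK1⟩ := hDL
  refine ⟨max K1 1, ?_⟩
  intro K hK t ht1 ht2
  have hKK : K1 ≤ K := le_trans (le_max_left _ _) hK
  have hK0 : 1 ≤ K := le_trans (le_max_right _ _) hK
  have hKr : (1 : ℝ) ≤ K := by exact_mod_cast hK0
  have hKpos : (0 : ℝ) < K := by linarith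
  have hpi := Real.pi_pos
  have hpi4 := Real.pi_lt_d2
  have hpi3 := Real.pi_gt_three
  obtain ⟨n, hn1, hn2, hn3⟩ := hK1 K hKK (|t| / (2 * Real.pi)) (by
      rw [le_div_iff₀ (by positivity)]
      refine le_trans ?_ ht1
      rw [div_mul_eq_mul_div]
      apply div_le_div_of_nonneg_right _ hKpos.le
      nlinarith) (by
      rw [div_le_iff₀ (by positivity)]
      have := Real.exp_pos (K : ℝ)
      nlinarith)
  have hne : n ≠ 1 := by
    rintro rfl
    rw [Nat.cast_one, Real.log_one, mul_zero, round_zero] at hn3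
    simp only [Int.cast_zero, sub_zero, abs_zero] at hn3
    have : (0 : ℝ) < 1 / (K : ℝ) ^ 7 := by positivity
    linarith
  set a : ℝ := |t| / (2 * Real.pi) * Real.log n with ha
  set d : ℝ := |a - round a| with hd
  -- the two terms
  have hz : ‖(1 : ℂ) + Complex.exp (Complex.I * ((t * Real.log n : ℝ) : ℂ))‖ ≤ 2 - 4 * d ^ 2 := by
    rw [EXP_norm]
    have h1 : |2 * Real.cos (t * Real.log n / 2)| = |2 * Real.cos (Real.pi * a)| := by
      congr 2
      rcases le_total 0 t with h | h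
      · congr 1
        rw [ha, abs_of_nonneg h]
        field_simp
      · rw [← Real.cos_neg]
        congr 1
        rw [ha, abs_of_nonpos h]
        field_simp
    rw [h1]
    exact EXP_cos a
  have hd2 : 1 / (K : ℝ) ^ 14 ≤ d ^ 2 := by
    have h0 : (0 : ℝ) < 1 / (K : ℝ) ^ 7 := by positivity
    have h1 : (1 / (K : ℝ) ^ 7) ^ 2 ≤ d ^ 2 := pow_le_pow_left₀ h0.le hn3.le 2
    have h2 : (1 / (K : ℝ) ^ 7) ^ 2 = 1 / (K : ℝ) ^ 14 := by
      rw [div_pow, one_pow, ← pow_mul]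
    rwa [h2] at h1
  have hmem1 : 1 ∈ Icc 1 (K ^ 14) := by
    rw [mem_Icc]
    exact ⟨le_refl _, Nat.one_le_pow _ _ hK0⟩
  have hmemn : n ∈ (Icc 1 (K ^ 14)).erase 1 := by
    rw [mem_erase, mem_Icc]
    exact ⟨hne, hn1, hn2⟩
  have hsum : Ph (K ^ 14) t = ((1 : ℂ) + Complex.exp (Complex.I * ((t * Real.log n : ℝ) : ℂ))) +
      ∑ m ∈ ((Icc 1 (K ^ 14)).erase 1).erase n, Complex.exp (Complex.I * ((t * Real.log m : ℝ) : ℂ)) := by
    rw [Ph, ← add_sum_erase _ _ hmem1, ← add_sum_erase _ _ hmemn]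
    rw [Nat.cast_one, Real.log_one, mul_zero, Complex.ofReal_zero, mul_zero, Complex.exp_zero]
    ring
  have hrest : ‖∑ m ∈ ((Icc 1 (K ^ 14)).erase 1).erase n, Complex.exp (Complex.I * ((t * Real.log m : ℝ) : ℂ))‖
      ≤ (K : ℝ) ^ 14 - 2 := by
    refine le_trans (norm_sum_le _ _) ?_
    have h1 : ∀ m ∈ ((Icc 1 (K ^ 14)).erase 1).erase n, ‖Complex.exp (Complex.I * ((t * Real.log m : ℝ) : ℂ))‖ = 1 := by
      intro m _
      rw [mul_comm, Complex.norm_exp_ofReal_mul_I]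
    rw [sum_congr rfl h1, sum_const, card_erase_of_mem hmemn, card_erase_of_mem hmem1, Nat.card_Icc, nsmul_eq_mul, mul_one]
    have h2 : 2 ≤ K ^ 14 := by
      have := mem_Icc.1 (mem_of_mem_erase hmemn)
      omega
    have h3 : K ^ 14 + 1 - 1 - 1 - 1 = K ^ 14 - 2 := by omega
    rw [h3, Nat.cast_sub h2]
    push_cast
    exact le_refl _
  have hfin : (1 - 4 / (K : ℝ) ^ 28) * (K : ℝ) ^ 14 = (K : ℝ) ^ 14 - 4 * (1 / (K : ℝ) ^ 14) := by
    have : (K : ℝ) ^ 28 = (K : ℝ) ^ 14 * (K : ℝ) ^ 14 := by ring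
    rw [this]
    field_simp
  rw [hfin, hsum]
  refine le_trans (norm_add_le _ _) ?_
  linarith

end Pool.RGS
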