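import Pool.Agent.Work.MP_3a3367_rgs.InterfaceB

set_option autoImplicit false

namespace Pool.RGS

open Finset

/-- The extension of `u0` from `0..M` by the recurrence of `w`. -/
noncomputable def EXT_u (d M : ℕ) (w u0 : ℕ → ℂ) (n : ℕ) : ℂ :=
  if _h : n ≤ M ∨ n < d then u0 n
  else -(w d)⁻¹ * ∑ i : Fin d, w i * EXT_u d M w u0 (n - d + i)
termination_by n
decreasing_by
  have := i.isLt
  omega

theorem EXT_low (d M : ℕ) (w u0 : ℕ → ℂ) (n : ℕ) (h : n ≤ M ∨ n < d) : EXT_u d M w u0 n = u0 n := by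
  rw [EXT_u, dif_pos h]

theorem EXT_high (d M : ℕ) (w u0 : ℕ → ℂ) (n : ℕ) (h : ¬ (n ≤ M ∨ n < d)) :
    EXT_u d M w u0 n = -(w d)⁻¹ * ∑ i ∈ range d, w i * EXT_u d M w u0 (n - d + i) := by
  rw [EXT_u, dif_neg h, Finset.sum_range (fun i => w i * EXT_u d M w u0 (n - d + i))]

theorem p_EXT : Stmt_EXT := by
  intro d M w u0 hw h0
  refine ⟨EXT_u d M w u0, ?_, fun a ha => EXT_low d M w u0 a (Or.inl ha)⟩
  intro b
  by_cases hb : b + d ≤ M
  · rw [← h0 b hb]
    refine Finset.sum_congr rfl ?_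
    intro i hi
    have hi' := Finset.mem_range.mp hi
    rw [EXT_low d M w u0 (b + i) (Or.inl (by omega))]
  · have hn : ¬ (b + d ≤ M ∨ b + d < d) := by omega
    have e := EXT_high d M w u0 (b + d) hn
    have e2 : b + d - d = b := by omega
    rw [e2] at e
    rw [Finset.sum_range_succ, e]
    field_simp
    ring

end Pool.RGS
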