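import Pool.Agent.Work.MP_3a3367_rgs.InterfaceB

set_option autoImplicit false

namespace Pool.RGS

open Finset

lemma FEJ_low (u : ℝ) (hu : |u| ≤ Real.pi) :
    2 * |u| / Real.pi ≤ ‖Complex.exp (Complex.I * (u : ℂ)) - 1‖ := by
  rw [Complex.norm_exp_I_mul_ofReal_sub_one, Real.norm_eq_abs, abs_mul]
  have hpi := Real.pi_pos
  have h1 : |u / 2| = |u| / 2 := by
    rw [abs_div, abs_of_pos (show (0 : ℝ) < 2 by norm_num)]
  have h2 : |Real.sin (u / 2)| = Real.sin (|u| / 2) := by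
    rw [Real.abs_sin_eq_sin_abs_of_abs_le_pi (by rw [h1]; linarith), h1]
  have h3 : 2 / Real.pi * (|u| / 2) ≤ Real.sin (|u| / 2) :=
    Real.mul_le_sin (by positivity) (by linarith)
  rw [h2, abs_of_pos (show (0 : ℝ) < 2 by norm_num)]
  have h4 : 2 * |u| / Real.pi = 2 * (2 / Real.pi * (|u| / 2)) := by ring
  rw [h4]
  linarith

theorem p_FEJ : Stmt_FEJ := by
  intro M u hu0 hu
  have hpi := Real.pi_pos
  have hupos : 0 < |u| := abs_pos.2 hu0
  have hlow := FEJ_low u hu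
  have hlowpos : 0 < 2 * |u| / Real.pi := by positivity
  obtain ⟨z, hz⟩ : ∃ z, z = Complex.exp (Complex.I * (u : ℂ)) := ⟨_, rfl⟩
  rw [← hz] at hlow
  have hzn : ‖z‖ = 1 := by
    rw [hz, mul_comm]
    exact Complex.norm_exp_ofReal_mul_I u
  have hz1 : z ≠ 1 := by
    intro h1
    rw [h1, sub_self, norm_zero] at hlow
    linarith
  have hs : ∑ j ∈ range M, Complex.exp (Complex.I * ((j * u : ℝ) : ℂ)) = ∑ j ∈ range M, z ^ j := by
    apply Finset.sum_congr rfl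
    intro j _
    rw [hz, ← Complex.exp_nat_mul]
    congr 1
    push_cast
    ring
  rw [hs, geom_sum_eq hz1, norm_div]
  have h2 : ‖z ^ M - 1‖ ≤ 2 := by
    calc ‖z ^ M - 1‖ ≤ ‖z ^ M‖ + ‖(1 : ℂ)‖ := norm_sub_le _ _
      _ = 2 := by rw [norm_pow, hzn, one_pow, norm_one]; norm_num
  calc ‖z ^ M - 1‖ / ‖z - 1‖ ≤ 2 / (2 * |u| / Real.pi) :=
        div_le_div₀ (by norm_num) h2 hlowpos hlow
    _ = Real.pi / |u| := by field_simp

end Pool.RGS
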