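import Pool.Agent.Work.MP_3a3367_rgs.InterfaceB

set_option autoImplicit false

/-! # Block FIN: the contradiction (helper25) -/

namespace Pool.RGS

open Finset

theorem FIN_sum (N : Polynomial ℝ) (Z h N0 j : ℕ) (θ ε : ℝ) (hj : j * h ≤ Z)
    (hb : ∀ a ≤ Z, |N.eval (a : ℝ) - θ * Real.log (1 + (a : ℝ) / N0)| ≤ 2 * ε) :
    |∑ i ∈ range (j + 1), (-1) ^ (j - i) * (j.choose i : ℝ) * N.eval ((i * h : ℕ) : ℝ)
      - θ * ∑ i ∈ range (j + 1), (-1) ^ (j - i) * (j.choose i : ℝ) *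
          Real.log (1 + i * h / N0)| ≤ 2 ^ j * (2 * ε) := by
  have h1 : ∑ i ∈ range (j + 1), (-1) ^ (j - i) * (j.choose i : ℝ) * N.eval ((i * h : ℕ) : ℝ)
      - θ * ∑ i ∈ range (j + 1), (-1) ^ (j - i) * (j.choose i : ℝ) * Real.log (1 + i * h / N0)
      = ∑ i ∈ range (j + 1), (-1) ^ (j - i) * (j.choose i : ℝ) *
        (N.eval ((i * h : ℕ) : ℝ) - θ * Real.log (1 + ((i * h : ℕ) : ℝ) / N0)) := by
    rw [mul_sum, ← sum_sub_distrib]
    refine sum_congr rfl fun i _ => ?_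
    push_cast
    ring
  rw [h1]
  calc |∑ i ∈ range (j + 1), (-1) ^ (j - i) * (j.choose i : ℝ) *
        (N.eval ((i * h : ℕ) : ℝ) - θ * Real.log (1 + ((i * h : ℕ) : ℝ) / N0))|
      ≤ ∑ i ∈ range (j + 1), |(-1) ^ (j - i) * (j.choose i : ℝ) *
        (N.eval ((i * h : ℕ) : ℝ) - θ * Real.log (1 + ((i * h : ℕ) : ℝ) / N0))| :=
        abs_sum_le_sum_abs _ _
    _ ≤ ∑ i ∈ range (j + 1), (j.choose i : ℝ) * (2 * ε) := by
        refine sum_le_sum fun i hi => ?_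
        rw [abs_mul, abs_mul, abs_pow, abs_neg, abs_one, one_pow, one_mul, Nat.abs_cast]
        exact mul_le_mul_of_nonneg_left (hb _ (le_trans (Nat.mul_le_mul_right h
          (Nat.lt_succ_iff.1 (mem_range.1 hi))) hj)) (Nat.cast_nonneg _)
    _ = 2 ^ j * (2 * ε) := by
        rw [← sum_mul]
        congr 1
        have h2 := Nat.sum_range_choose j
        exact_mod_cast h2

theorem FIN_log (t : ℝ) (h0 : 0 ≤ t) (h1 : t ≤ 1) : t / 2 ≤ Real.log (1 + t) := by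
  refine le_trans ?_ (Real.le_log_one_add_of_nonneg h0)
  rw [div_le_div_iff₀ two_pos (by linarith)]
  nlinarith

theorem FIN_abs (j : ℕ) (L u : ℝ) (h0 : 0 ≤ (-1) ^ j * L) (h1 : (-1) ^ j * L ≤ u) :
    |L| ≤ u := by
  have h2 : |L| = |(-1) ^ j * L| := by
    rw [abs_mul, abs_pow, abs_neg, abs_one, one_pow, one_mul]
  rw [h2, abs_of_nonneg h0]
  exact h1

theorem p_FIN (hDLG : Stmt_DLG) (hDPL : Stmt_DPL) : Stmt_FIN := by
  intro P Z h N0 θ ε N hP hdP hPh hPZ h4 hε hε2 hN0 hint hb hθ hh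
  have hhZ : h ≤ Z := le_trans (Nat.le_mul_of_pos_left h hP) hPh
  have hZN : Z ≤ N0 := le_trans (Nat.le_mul_of_pos_left Z hP) hPZ
  have h4R : (4 : ℝ) ≤ h := by exact_mod_cast h4
  have hhpos : (0 : ℝ) < h := by linarith
  have hhN : (h : ℝ) ≤ N0 := by exact_mod_cast le_trans hhZ hZN
  have hνpos : (0 : ℝ) < N0 := lt_of_lt_of_le hhpos hhN
  have hPpos : (0 : ℝ) < P := by exact_mod_cast hP
  have hθpos : 0 < θ := lt_of_le_of_lt (by positivity) hθ
  by_cases hN : N = 0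
  · have h1 := hb h hhZ
    rw [hN, Polynomial.eval_zero, zero_sub, abs_neg] at h1
    have ht0 : 0 ≤ (h : ℝ) / N0 := by positivity
    have ht1 : (h : ℝ) / N0 ≤ 1 := (div_le_one hνpos).2 hhN
    have h2 := FIN_log _ ht0 ht1
    have h3 : θ * ((h : ℝ) / N0 / 2) ≤ 2 * ε :=
      (mul_le_mul_of_nonneg_left h2 hθpos.le).trans ((le_abs_self _).trans h1)
    have h4' : θ ≤ 4 * ε * N0 / h := by
      rw [le_div_iff₀ hhpos]
      have h5 : θ * ((h : ℝ) / N0 / 2) * (2 * N0) ≤ 2 * ε * (2 * N0) :=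
        mul_le_mul_of_nonneg_right h3 (by positivity)
      have h6 : θ * ((h : ℝ) / N0 / 2) * (2 * N0) = θ * h := by
        field_simp
      rw [h6] at h5
      linarith
    exact absurd hθ (not_lt.2 h4')
  · obtain ⟨d, hd⟩ : ∃ d, N.natDegree = d := ⟨_, rfl⟩
    have hdZ : (d + 1) * h ≤ Z := by
      refine le_trans (Nat.mul_le_mul_right h ?_) hPh
      omega
    have hd1 : 1 ≤ d := by
      by_contra hcon
      have h0 : N.natDegree = 0 := by omega
      rw [Polynomial.eq_C_of_natDegree_eq_zero h0, Polynomial.eval_C] at hN0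
      apply hN
      rw [Polynomial.eq_C_of_natDegree_eq_zero h0, hN0, Polynomial.C_0]
    obtain ⟨⟨c, hc0, hc⟩, hz⟩ := hDPL N h hN (fun i hi => hint i (by
      have h1 : d ≤ Z := le_trans (by nlinarith) hdZ
      omega))
    rw [hd] at hc hz
    -- the first inequality
    have hs1 := FIN_sum N Z h N0 d θ ε (le_trans (Nat.mul_le_mul_right h (Nat.le_succ d)) hdZ) hb
    rw [hc] at hs1
    obtain ⟨hl1, hl2⟩ := hDLG d N0 h hd1 hνpos hhpos
    set L := ∑ i ∈ range (d + 1), (-1) ^ (d - i) * (d.choose i : ℝ) * Real.log (1 + i * h / N0)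
      with hL
    have hf0 : (0 : ℝ) < ((d - 1).factorial : ℝ) := by exact_mod_cast Nat.factorial_pos _
    have hLabs : |L| ≤ ((d - 1).factorial : ℝ) * ((h : ℝ) / N0) ^ d :=
      FIN_abs (d - 1) L _ (le_trans (by positivity) hl1) hl2
    have hhd : (0 : ℝ) < (h : ℝ) ^ d := pow_pos hhpos d
    have hc1 : (1 : ℝ) ≤ |(c : ℝ)| := by exact_mod_cast Int.one_le_abs hc0
    have hA : (h : ℝ) ^ d ≤ θ * (((d - 1).factorial : ℝ) * ((h : ℝ) / N0) ^ d)
        + 2 ^ d * (2 * ε) := by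
      have h1 : (h : ℝ) ^ d ≤ |(c : ℝ) * (h : ℝ) ^ d| := by
        rw [abs_mul, abs_of_pos hhd]
        nlinarith
      have h2 : |(c : ℝ) * (h : ℝ) ^ d| ≤ |(c : ℝ) * (h : ℝ) ^ d - θ * L| + |θ * L| := by
        have := abs_add_le ((c : ℝ) * (h : ℝ) ^ d - θ * L) (θ * L)
        rwa [sub_add_cancel] at this
      have h3 : |θ * L| ≤ θ * (((d - 1).factorial : ℝ) * ((h : ℝ) / N0) ^ d) := by
        rw [abs_mul, abs_of_pos hθpos]
        exact mul_le_mul_of_nonneg_left hLabs hθpos.le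
      linarith
    have h2d : (2 : ℝ) ^ d * 2 ≤ (h : ℝ) ^ d := by
      calc (2 : ℝ) ^ d * 2 ≤ 2 ^ d * 2 ^ d := by
            refine mul_le_mul_of_nonneg_left ?_ (by positivity)
            calc (2 : ℝ) = 2 ^ 1 := (pow_one 2).symm
              _ ≤ 2 ^ d := pow_le_pow_right₀ (by norm_num) hd1
        _ = 4 ^ d := by rw [← mul_pow]; norm_num
        _ ≤ (h : ℝ) ^ d := pow_le_pow_left₀ (by norm_num) h4R d
    have hB : (2 : ℝ) ^ d * (2 * ε) ≤ (h : ℝ) ^ d / 2 := by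
      have h1 : (2 : ℝ) ^ d * (2 * ε) ≤ 2 ^ d * 1 :=
        mul_le_mul_of_nonneg_left (by linarith) (by positivity)
      linarith
    have hν : (N0 : ℝ) ^ d ≤ 2 * (θ * ((d - 1).factorial : ℝ)) := by
      have h1 : (h : ℝ) ^ d / 2 ≤ θ * (((d - 1).factorial : ℝ) * ((h : ℝ) / N0) ^ d) := by
        linarith
      rw [div_pow] at h1
      have hνd : (0 : ℝ) < (N0 : ℝ) ^ d := pow_pos hνpos d
      have h2 : (h : ℝ) ^ d / 2 * (2 * (N0 : ℝ) ^ d)
          ≤ θ * (((d - 1).factorial : ℝ) * ((h : ℝ) ^ d / (N0 : ℝ) ^ d)) * (2 * (N0 : ℝ) ^ d) :=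
        mul_le_mul_of_nonneg_right h1 (by positivity)
      have h3 : θ * (((d - 1).factorial : ℝ) * ((h : ℝ) ^ d / (N0 : ℝ) ^ d)) * (2 * (N0 : ℝ) ^ d)
          = (h : ℝ) ^ d * (2 * (θ * ((d - 1).factorial : ℝ))) := by
        field_simp
      have h4' : (h : ℝ) ^ d / 2 * (2 * (N0 : ℝ) ^ d) = (h : ℝ) ^ d * (N0 : ℝ) ^ d := by
        ring
      rw [h3, h4'] at h2
      exact le_of_mul_le_mul_left h2 hhd
    -- the second inequality
    have hs2 := FIN_sum N Z h N0 (d + 1) θ ε hdZ hb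
    have hz' : ∑ i ∈ range (d + 1 + 1), (-1) ^ (d + 1 - i) * ((d + 1).choose i : ℝ) *
        N.eval ((i * h : ℕ) : ℝ) = 0 := hz
    rw [hz', zero_sub, abs_neg] at hs2
    obtain ⟨hm1, -⟩ := hDLG (d + 1) N0 h (by omega) hνpos hhpos
    set M := ∑ i ∈ range (d + 1 + 1), (-1) ^ (d + 1 - i) * ((d + 1).choose i : ℝ) *
      Real.log (1 + i * h / N0) with hM
    rw [Nat.add_sub_cancel] at hm1
    have hC : θ * ((d.factorial : ℝ) * ((h : ℝ) / (N0 + ((d + 1 : ℕ) : ℝ) * h)) ^ (d + 1))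
        ≤ 2 ^ (d + 1) * (2 * ε) := by
      refine le_trans ?_ hs2
      rw [abs_mul, abs_of_pos hθpos]
      refine mul_le_mul_of_nonneg_left (hm1.trans ?_) hθpos.le
      refine (le_abs_self _).trans (le_of_eq ?_)
      rw [abs_mul, abs_pow, abs_neg, abs_one, one_pow, one_mul]
    have hW : ((N0 : ℝ) + ((d + 1 : ℕ) : ℝ) * h) ^ (d + 1) ≤ 3 * (N0 : ℝ) ^ (d + 1) := by
      have h1 : ((d + 1 : ℕ) : ℝ) * h ≤ Z := by exact_mod_cast hdZ
      have h2 : (P : ℝ) * Z ≤ N0 := by exact_mod_cast hPZ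
      have h3 : ((d + 1 : ℕ) : ℝ) * h ≤ N0 * (1 / P) := by
        rw [mul_one_div, le_div_iff₀ hPpos]
        nlinarith
      have h4' : (N0 : ℝ) + ((d + 1 : ℕ) : ℝ) * h ≤ N0 * Real.exp (1 / P) := by
        have h5 := Real.add_one_le_exp (1 / (P : ℝ))
        nlinarith
      calc ((N0 : ℝ) + ((d + 1 : ℕ) : ℝ) * h) ^ (d + 1) ≤ (N0 * Real.exp (1 / P)) ^ (d + 1) :=
            pow_le_pow_left₀ (by positivity) h4' _
        _ = Real.exp (((d + 1 : ℕ) : ℝ) * (1 / P)) * (N0 : ℝ) ^ (d + 1) := by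
            rw [mul_pow, ← Real.exp_nat_mul, mul_comm]
        _ ≤ 3 * (N0 : ℝ) ^ (d + 1) := by
            refine mul_le_mul_of_nonneg_right ?_ (by positivity)
            have h5 : ((d + 1 : ℕ) : ℝ) * (1 / P) ≤ 1 := by
              rw [mul_one_div, div_le_one hPpos]
              have h6 : d + 1 ≤ P := by omega
              exact_mod_cast h6
            have h7 := Real.exp_one_lt_d9
            exact (Real.exp_le_exp.2 h5).trans (by linarith)
    have hD : θ * (d.factorial : ℝ) * (h : ℝ) ^ (d + 1)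
        ≤ 2 ^ (d + 1) * (2 * ε) * (3 * (N0 : ℝ) ^ (d + 1)) := by
      have hWpos : (0 : ℝ) < ((N0 : ℝ) + ((d + 1 : ℕ) : ℝ) * h) ^ (d + 1) := by positivity
      rw [div_pow] at hC
      have h1 : θ * ((d.factorial : ℝ) * ((h : ℝ) ^ (d + 1) /
          ((N0 : ℝ) + ((d + 1 : ℕ) : ℝ) * h) ^ (d + 1)))
            * ((N0 : ℝ) + ((d + 1 : ℕ) : ℝ) * h) ^ (d + 1)
          = θ * (d.factorial : ℝ) * (h : ℝ) ^ (d + 1) := by
        field_simp
      rw [← h1]
      refine (mul_le_mul_of_nonneg_right hC hWpos.le).trans ?_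
      exact mul_le_mul_of_nonneg_left hW (by positivity)
    have hfac : (d.factorial : ℝ) = d * ((d - 1).factorial : ℝ) := by
      have h1 : d.factorial = d * (d - 1).factorial := (Nat.mul_factorial_pred (by omega)).symm
      rw [h1]
      push_cast
      ring
    have hd1R : (1 : ℝ) ≤ d := by exact_mod_cast hd1
    -- together
    have hE : (N0 : ℝ) ^ d * (h : ℝ) ^ (d + 1)
        ≤ (N0 : ℝ) ^ d * (24 * 2 ^ d * (ε * N0)) := by
      have h1 : (N0 : ℝ) ^ d ≤ 2 * (θ * (d.factorial : ℝ)) := by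
        rw [hfac]
        refine hν.trans ?_
        have h2 : θ * ((d - 1).factorial : ℝ) ≤ θ * (d * ((d - 1).factorial : ℝ)) := by
          refine mul_le_mul_of_nonneg_left ?_ hθpos.le
          nlinarith
        linarith
      have h3 : (N0 : ℝ) ^ d * (h : ℝ) ^ (d + 1)
          ≤ 2 * (θ * (d.factorial : ℝ)) * (h : ℝ) ^ (d + 1) :=
        mul_le_mul_of_nonneg_right h1 (by positivity)
      have h5 : 2 * (θ * (d.factorial : ℝ)) * (h : ℝ) ^ (d + 1)
          = 2 * (θ * (d.factorial : ℝ) * (h : ℝ) ^ (d + 1)) := by ring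
      have h6 : (N0 : ℝ) ^ d * (24 * 2 ^ d * (ε * N0))
          = 2 * (2 ^ (d + 1) * (2 * ε) * (3 * (N0 : ℝ) ^ (d + 1))) := by
        ring
      rw [h6]
      linarith
    have hF : (h : ℝ) ^ (d + 1) ≤ 24 * 2 ^ d * (ε * N0) :=
      le_of_mul_le_mul_left hE (pow_pos hνpos d)
    have hG : (2 : ℝ) ^ d * ((h : ℝ) ^ 2 / 2) ≤ (h : ℝ) ^ (d + 1) := by
      obtain ⟨e, rfl⟩ : ∃ e, d = e + 1 := ⟨d - 1, by omega⟩
      have h1 : (2 : ℝ) ^ e ≤ (h : ℝ) ^ e := pow_le_pow_left₀ (by norm_num) (by linarith) e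
      have h2 : (2 : ℝ) ^ (e + 1) * ((h : ℝ) ^ 2 / 2) = 2 ^ e * (h : ℝ) ^ 2 := by ring
      have h3 : (h : ℝ) ^ (e + 1 + 1) = (h : ℝ) ^ e * (h : ℝ) ^ 2 := by ring
      rw [h2, h3]
      exact mul_le_mul_of_nonneg_right h1 (by positivity)
    have hH : (2 : ℝ) ^ d * ((h : ℝ) ^ 2 / 2) ≤ 2 ^ d * (24 * (ε * N0)) := by
      refine (hG.trans hF).trans (le_of_eq ?_)
      ring
    have hI := le_of_mul_le_mul_left hH (by positivity)
    linarith

end Pool.RGS
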