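import Pool.Agent.Work.MP_3a3367_rgs.InterfaceB

/-! # MP_3a3367_nt, THEOREM RGS: block FSM (the Fejer sum over tuples) -/

set_option autoImplicit false

namespace Pool.RGS

open Finset

noncomputable def FSM_e (x : ℝ) : ℂ := Complex.exp (Complex.I * ((x : ℝ) : ℂ))

theorem FSM_add (x y : ℝ) : FSM_e (x + y) = FSM_e x * FSM_e y := by
  unfold FSM_e
  rw [← Complex.exp_add]
  congr 1
  push_cast
  ring

theorem FSM_conj (x : ℝ) : (starRingEnd ℂ) (FSM_e x) = FSM_e (-x) := by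
  unfold FSM_e
  rw [← Complex.exp_conj]
  congr 1
  rw [map_mul, Complex.conj_I, Complex.conj_ofReal]
  push_cast
  ring

theorem FSM_re (x : ℝ) : (FSM_e x).re = Real.cos x := by
  unfold FSM_e
  rw [mul_comm, Complex.exp_ofReal_mul_I_re]

theorem FSM_zero : FSM_e 0 = 1 := by
  unfold FSM_e
  rw [Complex.ofReal_zero, mul_zero, Complex.exp_zero]

theorem FSM_sum {ι : Type} (t : Finset ι) (f : ι → ℝ) :
    FSM_e (∑ i ∈ t, f i) = ∏ i ∈ t, FSM_e (f i) := by
  classical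
  induction t using Finset.induction_on with
  | empty => rw [Finset.sum_empty, Finset.prod_empty, FSM_zero]
  | insert a s ha ih => rw [Finset.sum_insert ha, Finset.prod_insert ha, FSM_add, ih]

theorem FSM_Ph (y : ℕ) (t : ℝ) :
    Ph y t = ∑ a : Fin y, FSM_e (t * Real.log (((a : ℕ) + 1 : ℕ) : ℝ)) := by
  rw [Fin.sum_univ_eq_sum_range (fun n => FSM_e (t * Real.log ((n + 1 : ℕ) : ℝ))) y]
  unfold Ph
  have h1 : Icc 1 y = Ico (0 + 1) (y + 1) := by
    ext n
    rw [Finset.mem_Icc, Finset.mem_Ico]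
    omega
  rw [h1, ← Finset.sum_Ico_add' (fun n : ℕ =>
    Complex.exp (Complex.I * ((t * Real.log n : ℝ) : ℂ))) 0 y 1, Finset.range_eq_Ico]
  rfl

theorem FSM_ab (y s : ℕ) (t : ℝ) :
    ∑ a : Fin s → Fin y, ∑ b : Fin s → Fin y,
      FSM_e (t * ∑ i, (Real.log (a i + 1 : ℕ) - Real.log (b i + 1 : ℕ))) =
      ((‖Ph y t‖ ^ (2 * s) : ℝ) : ℂ) := by
  have h1 : ∑ a : Fin s → Fin y, ∏ i, FSM_e (t * Real.log (a i + 1 : ℕ)) = Ph y t ^ s := by
    rw [FSM_Ph, Fintype.sum_pow]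
  have h2 : ∀ a b : Fin s → Fin y,
      FSM_e (t * ∑ i, (Real.log (a i + 1 : ℕ) - Real.log (b i + 1 : ℕ))) =
      (∏ i, FSM_e (t * Real.log (a i + 1 : ℕ))) *
        (starRingEnd ℂ) (∏ i, FSM_e (t * Real.log (b i + 1 : ℕ))) := by
    intro a b
    rw [← FSM_sum, ← FSM_sum, FSM_conj, ← FSM_add]
    congr 1
    rw [Finset.sum_sub_distrib, mul_sub, Finset.mul_sum, Finset.mul_sum]
    ring
  simp_rw [h2, ← Finset.mul_sum, ← Finset.sum_mul]
  rw [← map_sum, h1, Complex.mul_conj, Complex.normSq_eq_norm_sq, norm_pow, ← pow_mul,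
    mul_comm s 2]

theorem FSM_sq (M : ℕ) (u : ℝ) :
    ‖∑ j ∈ range M, Complex.exp (Complex.I * ((j * u : ℝ) : ℂ))‖ ^ 2 =
      ∑ j ∈ range M, ∑ l ∈ range M, (FSM_e (((j : ℝ) - l) * u)).re := by
  have hz : ∀ z : ℂ, ‖z‖ ^ 2 = (z * (starRingEnd ℂ) z).re := by
    intro z
    rw [Complex.mul_conj, Complex.ofReal_re, Complex.normSq_eq_norm_sq]
  have h0 : ∑ j ∈ range M, Complex.exp (Complex.I * ((j * u : ℝ) : ℂ)) =
      ∑ j ∈ range M, FSM_e (j * u) := rfl
  rw [h0, hz, map_sum, Finset.sum_mul_sum, Complex.re_sum]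
  refine Finset.sum_congr rfl fun j _ => ?_
  rw [Complex.re_sum]
  refine Finset.sum_congr rfl fun l _ => ?_
  rw [FSM_conj, ← FSM_add]
  congr 2
  ring

/-- BLOCK FSM. -/
theorem p_FSM : Stmt_FSM := by
  intro y s M τ β η hM hη0 hη1 hH
  have hE0 : 0 ≤ ((1 - η) * y) ^ (2 * s) :=
    pow_nonneg (mul_nonneg (by linarith) (Nat.cast_nonneg _)) _
  -- the exact formula
  have key : ∑ a : Fin s → Fin y, ∑ b : Fin s → Fin y, ‖∑ j ∈ range M, Complex.exp (Complex.I *
      ((j * (τ * (∑ i, (Real.log (a i + 1 : ℕ) - Real.log (b i + 1 : ℕ)) - β)) : ℝ) : ℂ))‖ ^ 2 =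
      ∑ j ∈ range M, ∑ l ∈ range M, Real.cos (((j : ℝ) - l) * τ * β) *
        ‖Ph y (((j : ℝ) - l) * τ)‖ ^ (2 * s) := by
    simp_rw [FSM_sq]
    have c1 : ∀ a b : Fin s → Fin y, ∀ j l : ℕ,
        (FSM_e (((j : ℝ) - l) * (τ * (∑ i, (Real.log (a i + 1 : ℕ) - Real.log (b i + 1 : ℕ)) - β)))).re =
        (FSM_e (-(((j : ℝ) - l) * τ * β)) * FSM_e ((((j : ℝ) - l) * τ) *
          ∑ i, (Real.log (a i + 1 : ℕ) - Real.log (b i + 1 : ℕ)))).re := by
      intro a b j l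
      rw [← FSM_add]
      congr 2
      ring
    calc ∑ a : Fin s → Fin y, ∑ b : Fin s → Fin y, ∑ j ∈ range M, ∑ l ∈ range M,
          (FSM_e (((j : ℝ) - l) *
            (τ * (∑ i, (Real.log (a i + 1 : ℕ) - Real.log (b i + 1 : ℕ)) - β)))).re
        = ∑ a : Fin s → Fin y, ∑ j ∈ range M, ∑ l ∈ range M, ∑ b : Fin s → Fin y,
          (FSM_e (((j : ℝ) - l) *
            (τ * (∑ i, (Real.log (a i + 1 : ℕ) - Real.log (b i + 1 : ℕ)) - β)))).re := by
          refine Finset.sum_congr rfl fun a _ => ?_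
          rw [Finset.sum_comm]
          refine Finset.sum_congr rfl fun j _ => ?_
          rw [Finset.sum_comm]
      _ = ∑ j ∈ range M, ∑ l ∈ range M, ∑ a : Fin s → Fin y, ∑ b : Fin s → Fin y,
          (FSM_e (((j : ℝ) - l) *
            (τ * (∑ i, (Real.log (a i + 1 : ℕ) - Real.log (b i + 1 : ℕ)) - β)))).re := by
          rw [Finset.sum_comm]
          refine Finset.sum_congr rfl fun j _ => ?_
          rw [Finset.sum_comm]
      _ = _ := by
          refine Finset.sum_congr rfl fun j _ => Finset.sum_congr rfl fun l _ => ?_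
          simp_rw [c1]
          simp_rw [← Complex.re_sum, ← Finset.mul_sum]
          rw [FSM_ab, Complex.re_mul_ofReal, FSM_re, Real.cos_neg]
  rw [key]
  -- the lower bound of every term
  have hP0 : ‖Ph y 0‖ = y := by
    unfold Ph
    simp
  have hT : ∀ j ∈ range M, ∀ l ∈ range M,
      (if j = l then (y : ℝ) ^ (2 * s) else 0) - ((1 - η) * y) ^ (2 * s) ≤
      Real.cos (((j : ℝ) - l) * τ * β) * ‖Ph y (((j : ℝ) - l) * τ)‖ ^ (2 * s) := by
    intro j hj l hl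
    by_cases hjl : j = l
    · subst hjl
      rw [if_pos rfl, sub_self, zero_mul, zero_mul, Real.cos_zero, one_mul, hP0]
      linarith
    · rw [if_neg hjl, zero_sub]
      have hlt : |((j : ℤ) - (l : ℤ))| < (M : ℤ) := by
        rw [Finset.mem_range] at hj hl
        rw [abs_lt]
        constructor <;> omega
      have hc : (((j : ℤ) - (l : ℤ) : ℤ) : ℝ) = (j : ℝ) - l := by push_cast; rfl
      have h := hH _ hlt
      rw [hc] at h
      have hn : 0 ≤ ‖Ph y (((j : ℝ) - l) * τ)‖ ^ (2 * s) := pow_nonneg (norm_nonneg _) _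
      rcases h with h | h
      · have := mul_nonneg h hn
        linarith
      · have h1 : ‖Ph y (((j : ℝ) - l) * τ)‖ ^ (2 * s) ≤ ((1 - η) * y) ^ (2 * s) :=
          pow_le_pow_left₀ (norm_nonneg _) h _
        have h2 := Real.neg_one_le_cos (((j : ℝ) - l) * τ * β)
        nlinarith
  have hsum : ∑ j ∈ range M, ∑ l ∈ range M,
      ((if j = l then (y : ℝ) ^ (2 * s) else 0) - ((1 - η) * y) ^ (2 * s)) =
      (M : ℝ) * (y : ℝ) ^ (2 * s) - (M : ℝ) ^ 2 * ((1 - η) * y) ^ (2 * s) := by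
    have h1 : ∀ j ∈ range M, ∑ l ∈ range M,
        ((if j = l then (y : ℝ) ^ (2 * s) else 0) - ((1 - η) * y) ^ (2 * s)) =
        (y : ℝ) ^ (2 * s) - (M : ℝ) * ((1 - η) * y) ^ (2 * s) := by
      intro j hj
      rw [Finset.sum_sub_distrib, Finset.sum_ite_eq, if_pos hj, Finset.sum_const,
        Finset.card_range, nsmul_eq_mul]
    rw [Finset.sum_congr rfl h1, Finset.sum_const, Finset.card_range, nsmul_eq_mul]
    ring
  rw [← hsum]
  exact Finset.sum_le_sum fun j hj => Finset.sum_le_sum fun l hl => hT j hj l hl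

end Pool.RGS
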