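import Pool.Agent.Work.MP_3a3367_rgs.InterfaceB

set_option autoImplicit false

namespace Pool.RGS

open Finset

/-- The annihilator of a sequence under polynomials in the shift. -/
noncomputable def GEN_ann (u : ℕ → ℂ) : Ideal (Polynomial ℂ) where
  carrier := {A | act A u = 0}
  zero_mem' := by
    simp [act]
  add_mem' := by
    intro a b ha hb
    simp only [Set.mem_setOf_eq, act] at ha hb ⊢
    rw [map_add, LinearMap.add_apply, ha, hb, add_zero]
  smul_mem' := by
    intro c a ha
    simp only [Set.mem_setOf_eq, act, smul_eq_mul] at ha ⊢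
    rw [map_mul, Module.End.mul_apply, ha, map_zero]

theorem p_GEN : Stmt_GEN := by
  intro u W hW hWu
  obtain ⟨Γ, hΓ⟩ := (IsPrincipalIdealRing.principal (GEN_ann u)).principal
  have key : ∀ A : Polynomial ℂ, act A u = 0 ↔ Γ ∣ A := by
    intro A
    have h1 : act A u = 0 ↔ A ∈ GEN_ann u := Iff.rfl
    rw [h1, hΓ]
    exact Ideal.mem_span_singleton
  refine ⟨Γ, ?_, key⟩
  rintro rfl
  exact hW (zero_dvd_iff.mp ((key W).mp hWu))

end Pool.RGS
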