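import Pool.Agent.Work.MP_3a3367_rgs.InterfaceH

/-!
# MP_3a3367_nt, block JMH (many jumps, group form, uniform in p), typed by helper88
-/

set_option autoImplicit false

namespace Pool.RGS

open Finset

theorem p_JMH (h1 : Stmt_CHH) (h2 : Stmt_NRH) (h3 : Stmt_EVH) (h4 : Stmt_CNH) : Stmt_JMH := by
  intro r hr
  obtain ⟨s, hs1, hs2, hs3⟩ : ∃ s : ℝ, 1 < s ∧ s ≤ 2 ∧ s ^ 3 ≤ r := by
    refine ⟨1 + min 1 ((r - 1) / 7), ?_, ?_, ?_⟩
    · have : 0 < min 1 ((r - 1) / 7) := lt_min one_pos (by linarith)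
      linarith
    · have := min_le_left (1 : ℝ) ((r - 1) / 7)
      linarith
    · have h0 : 0 < min 1 ((r - 1) / 7) := lt_min one_pos (by linarith)
      have h1' := min_le_left (1 : ℝ) ((r - 1) / 7)
      have h2' := min_le_right (1 : ℝ) ((r - 1) / 7)
      set d := min 1 ((r - 1) / 7)
      have h3' : d ^ 2 ≤ d := by nlinarith
      have h4' : d ^ 3 ≤ d := by nlinarith
      nlinarith
  obtain ⟨C, hC1, hC⟩ := h2 s hs1
  obtain ⟨Kc, hKc⟩ := h1
  have hls : 0 < Real.log s := Real.log_pos hs1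
  have hCr : (1 : ℝ) ≤ C := by exact_mod_cast hC1
  refine ⟨(s - 1) / (42 * C), div_pos (by linarith) (by linarith), ?_⟩
  refine ⟨Kc + 2 + (2 * C + 8) + ⌈16 * ((C : ℝ) + 2) / (s - 1)⌉₊ + ⌈12 / Real.log s⌉₊, ?_⟩
  intro K p G _ f m hK0 hf hp1 hpK hfp hm1 hpm hm2
  have hKc' : Kc ≤ K := by omega
  have hK2 : 2 ≤ K := by omega
  have hKC : 2 * C + 8 ≤ K := by omega
  have hKa : 16 * ((C : ℝ) + 2) / (s - 1) ≤ K := by
    refine (Nat.le_ceil _).trans ?_
    exact_mod_cast (by omega : ⌈16 * ((C : ℝ) + 2) / (s - 1)⌉₊ ≤ K)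
  have hKb : 12 / Real.log s ≤ K := by
    refine (Nat.le_ceil _).trans ?_
    exact_mod_cast (by omega : ⌈12 / Real.log s⌉₊ ≤ K)
  have hKr2 : (2 : ℝ) ≤ K := by exact_mod_cast hK2
  have hKrC : 2 * (C : ℝ) + 8 ≤ K := by exact_mod_cast hKC
  have hKpos : (0 : ℝ) < K := by linarith
  have hKa' : 16 * ((C : ℝ) + 2) ≤ K * (s - 1) := by
    rwa [div_le_iff₀ (by linarith)] at hKa
  have hKb' : 12 ≤ K * Real.log s := by
    rwa [div_le_iff₀ hls] at hKb
  -- the exponential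
  have hexp : Real.exp (-(K : ℝ) / 4) ≤ 4 / K := by
    have h5 : (K : ℝ) / 4 ≤ Real.exp ((K : ℝ) / 4) := by
      have := Real.add_one_le_exp ((K : ℝ) / 4)
      linarith
    have h6 : Real.exp (-(K : ℝ) / 4) = (Real.exp ((K : ℝ) / 4))⁻¹ := by
      rw [← Real.exp_neg]
      congr 1
      ring
    rw [h6]
    have h7 : (0 : ℝ) < K / 4 := by positivity
    calc (Real.exp ((K : ℝ) / 4))⁻¹ ≤ ((K : ℝ) / 4)⁻¹ := inv_anti₀ h7 h5
      _ = 4 / K := by rw [inv_div]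
  have hexps : 3 * Real.exp (-(K : ℝ) / 4) ≤ Real.log s := by
    have h5 : 3 * Real.exp (-(K : ℝ) / 4) ≤ 3 * (4 / K) := by linarith
    have h6 : 3 * (4 / (K : ℝ)) ≤ Real.log s := by
      rw [← mul_div_assoc, div_le_iff₀ hKpos]
      linarith
    linarith
  have hls1 : Real.log s ≤ 1 := by
    have := Real.log_le_sub_one_of_pos (show (0 : ℝ) < s by linarith)
    linarith
  obtain ⟨A, B, hAB, hA0, hsum, hne⟩ := hKc K hKc' G f p hf hp1 hpK hfp
  obtain ⟨ρ, A', B', hρ0, hρt, hρ, hAB', hfs⟩ := hC (2 * K ^ 30) A B (fun i hi => ⟨(hAB i hi).1, (hAB i hi).2.1⟩) (hsum.trans hexps)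
  set t := 2 * K ^ 30 with ht
  obtain ⟨W, hW⟩ : ∃ W : ℕ → ℕ, W = fun i => if i < 2 then C * max p (K ^ 14) + 2 else C * K ^ 14 + 2 := ⟨_, rfl⟩
  have hWlow : ∀ i, C * K ^ 14 + 2 ≤ W i := by
    intro i
    rw [hW]
    dsimp only
    split_ifs
    · have := Nat.mul_le_mul_left C (le_max_right p (K ^ 14))
      omega
    · exact le_rfl
  have hWup : ∀ i, W i ≤ C * K ^ 14 + 2 + (if i < 2 then C * p else 0) := by
    intro i
    rw [hW]
    dsimp only
    split_ifs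
    · have h5 : max p (K ^ 14) ≤ p + K ^ 14 := max_le (by omega) (by omega)
      have := Nat.mul_le_mul_left C h5
      rw [Nat.mul_add] at this
      omega
    · omega
  have hW01 : W 0 = C * max p (K ^ 14) + 2 ∧ W 1 = C * max p (K ^ 14) + 2 := by
    rw [hW]
    simp
  have hWm : ∀ i, (W i : ℝ) ≤ C * (K : ℝ) ^ 14 + 2 + C * p := by
    intro i
    have h5 := hWup i
    have h6 : W i ≤ C * K ^ 14 + 2 + C * p := by
      refine h5.trans ?_
      split_ifs <;> omega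
    exact_mod_cast h6
  have hne' : ∑ i ∈ range t, (f (A' i) - f (B' i)) ≠ 0 := by
    rw [hfs G f hf]
    exact hne
  have hρt1 : |ρ t - 1| ≤ 6 * Real.exp (-(K : ℝ) / 4) := by
    rw [hρt]
    refine (Real.abs_exp_sub_one_le (hsum.trans (hexps.trans hls1))).trans ?_
    linarith
  have hρhalf : ∀ i ≤ t, 1 / 2 ≤ ρ i := by
    intro i hi
    refine le_trans ?_ (hρ i hi).1
    exact one_div_le_one_div_of_le (by linarith) hs2
  have hmexp : m * Real.exp (-(K : ℝ) / 4) ≤ 1 / 16 := by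
    have h5 : Real.exp ((K : ℝ) / 4) * Real.exp (-(K : ℝ) / 4) = 1 := by
      rw [← Real.exp_add]
      have : (K : ℝ) / 4 + -(K : ℝ) / 4 = 0 := by ring
      rw [this, Real.exp_zero]
    have h6 : m * Real.exp (-(K : ℝ) / 4) ≤ Real.exp ((K : ℝ) / 4) / 16 * Real.exp (-(K : ℝ) / 4) :=
      mul_le_mul_of_nonneg_right hm2 (Real.exp_pos _).le
    have h7 : Real.exp ((K : ℝ) / 4) / 16 * Real.exp (-(K : ℝ) / 4) = 1 / 16 := by
      rw [div_mul_eq_mul_div, h5]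
    linarith
  have hK14 : (1 : ℝ) ≤ (K : ℝ) ^ 14 := one_le_pow₀ (by linarith)
  have hK15 : (K : ℝ) ^ 15 = K * (K : ℝ) ^ 14 := by ring
  have hm0 : 0 < m := by
    have : (0 : ℝ) < (K : ℝ) ^ 15 := by positivity
    linarith
  have hCp : (C : ℝ) * p ≤ m * (s - 1) / 16 := by
    have hC0 : (0 : ℝ) < 42 * C := by linarith
    rw [div_mul_eq_mul_div, le_div_iff₀ hC0] at hpm
    nlinarith [mul_nonneg hm0.le (show (0:ℝ) ≤ s - 1 by linarith)]
  have hCK : (C : ℝ) * (K : ℝ) ^ 14 + 2 ≤ m * (s - 1) / 16 := by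
    have h5 : 16 * ((C : ℝ) + 2) * (K : ℝ) ^ 14 ≤ K * (s - 1) * (K : ℝ) ^ 14 :=
      mul_le_mul_of_nonneg_right hKa' (by positivity)
    have h6 : (K : ℝ) * (K : ℝ) ^ 14 * (s - 1) ≤ m * (s - 1) := by
      rw [← hK15]
      exact mul_le_mul_of_nonneg_right hm1 (by linarith)
    nlinarith
  have hWs : ∀ i, (W i : ℝ) ≤ m * (s - 1) / 8 := by
    intro i
    have := hWm i
    linarith
  have hm16 : 16 ≤ m := by
    have h5 : (2 : ℝ) ^ 15 ≤ (K : ℝ) ^ 15 := pow_le_pow_left₀ (by norm_num) hKr2 15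
    have h6 : (16 : ℝ) ≤ 2 ^ 15 := by norm_num
    linarith
  have hms : 4 ≤ m * (s - 1) := by
    have h5 : (0 : ℝ) ≤ (C : ℝ) * (K : ℝ) ^ 14 := by positivity
    linarith
  have hWX : ∀ i, 2 * (W i : ℝ) + 4 ≤ m := by
    intro i
    have h5 := hWs i
    have h6 : m * (s - 1) ≤ m := by nlinarith
    linarith
  have hrs : m / r ≤ m / s ^ 3 := by
    exact div_le_div_of_nonneg_left hm0.le (by positivity) hs3
  have hss : m / s - m / s ^ 3 ≥ m * (s - 1) / 4 := by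
    have h5 : m / s - m / s ^ 3 = m * ((s - 1) * (s + 1)) / s ^ 3 := by
      field_simp
      ring
    rw [h5, ge_iff_le, div_le_div_iff₀ (by norm_num) (by positivity)]
    have h6 : s ^ 3 ≤ 4 * (s + 1) := by nlinarith [mul_nonneg (show (0:ℝ) ≤ s - 1 by linarith) (show (0:ℝ) ≤ 2 - s by linarith)]
    have h7 : 0 ≤ m * (s - 1) := mul_nonneg hm0.le (by linarith)
    nlinarith
  -- the jumps
  have hcov : ∀ X ∈ Icc ⌈m⌉₊ ⌊s * m⌋₊, ∃ i ≤ t, ∃ v ∈ JG f m r, (X : ℝ) * ρ i - W i < v ∧ (v : ℝ) + 1 ≤ X * ρ i := by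
    intro X hX
    rw [Finset.mem_Icc] at hX
    have hX1 : m ≤ X := Nat.ceil_le.1 hX.1
    have hX2 : (X : ℝ) ≤ s * m := (Nat.le_floor_iff (by positivity)).1 hX.2
    have hX0 : (0 : ℝ) < X := by linarith
    have e1 : |(X : ℝ) * ρ t - X| < 1 := by
      have h5 : (X : ℝ) * ρ t - X = X * (ρ t - 1) := by ring
      rw [h5, abs_mul, abs_of_pos hX0]
      have h6 : (X : ℝ) * |ρ t - 1| ≤ (2 * m) * (6 * Real.exp (-(K : ℝ) / 4)) := by
        apply mul_le_mul _ hρt1 (abs_nonneg _) (by positivity)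
        nlinarith
      nlinarith
    have e2 : ∀ i ≤ t, 2 * W i + 4 ≤ X := by
      intro i _
      have : 2 * (W i : ℝ) + 4 ≤ X := (hWX i).trans hX1
      exact_mod_cast this
    have e3 : ∀ i < t, C * max (A i) (B i) ≤ W i ∧ C * max (A i) (B i) ≤ W (i + 1) := by
      intro i hi
      rcases Nat.eq_zero_or_pos i with h0 | h0
      · subst h0
        have h5 : max (A 0) (B 0) ≤ max p (K ^ 14) := max_le hA0 ((hAB 0 hi).2.2.1.trans (le_max_right _ _))
        have h6 := Nat.mul_le_mul_left C h5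
        rw [hW01.1]
        have h7 : W (0 + 1) = C * max p (K ^ 14) + 2 := hW01.2
        rw [h7]
        omega
      · have h5 : max (A i) (B i) ≤ K ^ 14 := max_le ((hAB i hi).2.2.2 (by omega)) (hAB i hi).2.2.1
        have h6 := Nat.mul_le_mul_left C h5
        have h7 := hWlow i
        have h8 := hWlow (i + 1)
        omega
    obtain ⟨i, hi, v, hv1, hv2, hv3⟩ := h3 G f t X ρ A' B' W hf (fun i _ => by have := hWlow i; omega) hρ0 e1 hρhalf e2
      (fun i hi => ⟨(hAB' i hi).1, (hAB' i hi).2.1.trans (e3 i hi).1, (hAB' i hi).2.1.trans (e3 i hi).2, (hAB' i hi).2.2.1,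
        (hAB' i hi).2.2.2.1.trans (e3 i hi).1, (hAB' i hi).2.2.2.1.trans (e3 i hi).2, (hAB' i hi).2.2.2.2⟩) hne'
    refine ⟨i, hi, v, ?_, hv2, hv3⟩
    have hρi := hρ i hi
    have hWi := hWs i
    have g1 : m / s ≤ X * ρ i := by
      calc m / s = m * (1 / s) := by ring
        _ ≤ X * ρ i := mul_le_mul hX1 hρi.1 (by positivity) hX0.le
    have g2 : (X : ℝ) * ρ i ≤ r * m := by
      calc (X : ℝ) * ρ i ≤ (s * m) * s := mul_le_mul hX2 hρi.2 (le_trans (by positivity) hρi.1) (by positivity)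
        _ ≤ s ^ 3 * m := by nlinarith [mul_nonneg hm0.le (mul_nonneg (show (0:ℝ) ≤ s ^ 2 by positivity) (show (0:ℝ) ≤ s - 1 by linarith))]
        _ ≤ r * m := mul_le_mul_of_nonneg_right hs3 hm0.le
    have g3 : m / r ≤ v := by linarith
    have g4 : (v : ℝ) ≤ r * m := by linarith
    classical exact Finset.mem_filter.2 ⟨Finset.mem_Icc.2 ⟨Nat.ceil_le.2 g3, Nat.le_floor g4⟩, hv1⟩
  have hcnt := h4 (JG f m r) t ⌈m⌉₊ ⌊s * m⌋₊ ρ W hρhalf hcov
  have hb : s * m - 1 ≤ (⌊s * m⌋₊ : ℝ) := by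
    have := Nat.lt_floor_add_one (s * m)
    linarith
  have ha : (⌈m⌉₊ : ℝ) ≤ m + 1 := (Nat.ceil_lt_add_one hm0.le).le
  have hba : m * (s - 1) / 2 ≤ (⌊s * m⌋₊ : ℝ) - ⌈m⌉₊ := by nlinarith
  have htr : ((t : ℕ) : ℝ) = 2 * (K : ℝ) ^ 30 := by
    rw [ht]
    push_cast
    ring
  have hJ0 : (0 : ℝ) ≤ ((JG f m r).card : ℝ) := Nat.cast_nonneg _
  have hK30 : (1 : ℝ) ≤ (K : ℝ) ^ 30 := one_le_pow₀ (by linarith)
  have hp0 : (0 : ℝ) ≤ (p : ℝ) := Nat.cast_nonneg _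
  have hsumW : ∑ i ∈ range (t + 1), (2 * (W i : ℝ) + 1) ≤ 21 * C * ((p : ℝ) + (K : ℝ) ^ 44) := by
    have h5 : ∀ i ∈ range (t + 1), (2 * (W i : ℝ) + 1) ≤ (2 * (C : ℝ) * (K : ℝ) ^ 14 + 5) + (if i < 2 then 2 * (C : ℝ) * p else 0) := by
      intro i _
      have h6 : (W i : ℝ) ≤ ((C * K ^ 14 + 2 + (if i < 2 then C * p else 0) : ℕ) : ℝ) := by exact_mod_cast hWup i
      push_cast at h6
      split_ifs at h6 ⊢ <;> linarith
    refine (Finset.sum_le_sum h5).trans ?_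
    rw [Finset.sum_add_distrib, Finset.sum_const, Finset.card_range, nsmul_eq_mul]
    have h7 : ∑ i ∈ range (t + 1), (if i < 2 then 2 * (C : ℝ) * p else 0) ≤ 4 * C * p := by
      rw [← Finset.sum_filter, Finset.sum_const, nsmul_eq_mul]
      have h8 : ((range (t + 1)).filter (fun i => i < 2)).card ≤ 2 := by
        calc ((range (t + 1)).filter (fun i => i < 2)).card ≤ (range 2).card := by
              apply Finset.card_le_card
              intro i hi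
              rw [Finset.mem_filter] at hi
              exact Finset.mem_range.2 hi.2
          _ = 2 := Finset.card_range 2
      have h9 : (((range (t + 1)).filter (fun i => i < 2)).card : ℝ) ≤ 2 := by exact_mod_cast h8
      have h10 : (0 : ℝ) ≤ 2 * C * p := by positivity
      nlinarith
    push_cast
    rw [htr]
    have h8 : (1 : ℝ) ≤ C * (K : ℝ) ^ 14 := by nlinarith
    have h9 : (2 * (K : ℝ) ^ 30 + 1) * (2 * C * (K : ℝ) ^ 14 + 5) ≤ (3 * (K : ℝ) ^ 30) * (7 * (C * (K : ℝ) ^ 14)) :=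
      mul_le_mul (by linarith) (by linarith) (by positivity) (by positivity)
    have h10 : (3 * (K : ℝ) ^ 30) * (7 * (C * (K : ℝ) ^ 14)) = 21 * C * (K : ℝ) ^ 44 := by ring
    have h11 : (0 : ℝ) ≤ C * p := by positivity
    linarith
  have hfin : m * (s - 1) / 2 ≤ (JG f m r).card * (21 * C * ((p : ℝ) + (K : ℝ) ^ 44)) :=
    (hba.trans hcnt).trans (mul_le_mul_of_nonneg_left hsumW hJ0)
  have hK58 : (0 : ℝ) < (p : ℝ) + (K : ℝ) ^ 44 := by positivity
  rw [div_le_iff₀ hK58]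
  have hC0 : (0 : ℝ) < 42 * C := by linarith
  rw [div_mul_eq_mul_div, div_le_iff₀ hC0]
  nlinarith

end Pool.RGS
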