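import Pool.Agent.Work.MP_3a3367_rgs.InterfaceB

set_option autoImplicit false

namespace Pool.RGS

open Finset

theorem LIM_one (K : ℕ) (hK : 2 ≤ K) :
    (⌊Real.exp K⌋₊ : ℝ) ^ 2 * (1 - 4 / (K : ℝ) ^ 28) ^ (2 * K ^ 30) ≤ (⌊Real.exp K⌋₊ : ℝ) / 2 := by
  have hK2 : (2 : ℝ) ≤ K := by exact_mod_cast hK
  have hKpos : (0 : ℝ) < K := by linarith
  have hM0 : (0 : ℝ) ≤ (⌊Real.exp K⌋₊ : ℝ) := Nat.cast_nonneg _
  have hM1 : (⌊Real.exp K⌋₊ : ℝ) ≤ Real.exp K := Nat.floor_le (Real.exp_pos _).le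
  have h28 : (4 : ℝ) ≤ (K : ℝ) ^ 28 := by
    calc (4 : ℝ) ≤ 2 ^ 28 := by norm_num
      _ ≤ (K : ℝ) ^ 28 := pow_le_pow_left₀ (by norm_num) hK2 28
  have h28p : (0 : ℝ) < (K : ℝ) ^ 28 := by positivity
  have hx1 : 4 / (K : ℝ) ^ 28 ≤ 1 := by
    rw [div_le_one h28p]; exact h28
  have hx0 : 0 ≤ 1 - 4 / (K : ℝ) ^ 28 := by linarith
  have hle : 1 - 4 / (K : ℝ) ^ 28 ≤ Real.exp (-(4 / (K : ℝ) ^ 28)) := by
    have := Real.add_one_le_exp (-(4 / (K : ℝ) ^ 28))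
    linarith
  have hpow : (1 - 4 / (K : ℝ) ^ 28) ^ (2 * K ^ 30) ≤ Real.exp (-(8 * (K : ℝ) ^ 2)) := by
    calc (1 - 4 / (K : ℝ) ^ 28) ^ (2 * K ^ 30)
        ≤ (Real.exp (-(4 / (K : ℝ) ^ 28))) ^ (2 * K ^ 30) := pow_le_pow_left₀ hx0 hle _
      _ = Real.exp (-(8 * (K : ℝ) ^ 2)) := by
          rw [← Real.exp_nat_mul]
          congr 1
          push_cast
          field_simp
          ring
  have hE : (⌊Real.exp K⌋₊ : ℝ) * Real.exp (-(8 * (K : ℝ) ^ 2)) ≤ 1 / 2 := by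
    calc (⌊Real.exp K⌋₊ : ℝ) * Real.exp (-(8 * (K : ℝ) ^ 2))
        ≤ Real.exp K * Real.exp (-(8 * (K : ℝ) ^ 2)) :=
          mul_le_mul_of_nonneg_right hM1 (Real.exp_pos _).le
      _ = Real.exp (K + -(8 * (K : ℝ) ^ 2)) := by rw [Real.exp_add]
      _ ≤ Real.exp (-1) := by
          apply Real.exp_le_exp.2
          nlinarith
      _ ≤ 1 / 2 := by
          rw [Real.exp_neg, inv_eq_one_div]
          apply one_div_le_one_div_of_le (by norm_num)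
          have := Real.add_one_le_exp (1 : ℝ)
          linarith
  calc (⌊Real.exp K⌋₊ : ℝ) ^ 2 * (1 - 4 / (K : ℝ) ^ 28) ^ (2 * K ^ 30)
      ≤ (⌊Real.exp K⌋₊ : ℝ) ^ 2 * Real.exp (-(8 * (K : ℝ) ^ 2)) :=
        mul_le_mul_of_nonneg_left hpow (by positivity)
    _ = (⌊Real.exp K⌋₊ : ℝ) * ((⌊Real.exp K⌋₊ : ℝ) * Real.exp (-(8 * (K : ℝ) ^ 2))) := by ring
    _ ≤ (⌊Real.exp K⌋₊ : ℝ) * (1 / 2) := mul_le_mul_of_nonneg_left hE hM0
    _ = (⌊Real.exp K⌋₊ : ℝ) / 2 := by ring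

theorem LIM_two (K : ℕ) (hK : 2 ≤ K) (h : 31360 * 2 ^ 62 < Real.exp ((K : ℝ) / 2) / ((K : ℝ) / 2) ^ 62) :
    (Real.pi * (2 * (K : ℝ) ^ 30 * Real.log ((K : ℝ) ^ 14)) * Real.exp ((K : ℝ) / 4)) ^ 2 < (⌊Real.exp K⌋₊ : ℝ) / 2 := by
  have hK2 : (2 : ℝ) ≤ K := by exact_mod_cast hK
  have hKpos : (0 : ℝ) < K := by linarith
  have hlog0 : 0 ≤ Real.log K := Real.log_nonneg (by linarith)
  have hlogK : Real.log K ≤ K := by
    have := Real.log_le_sub_one_of_pos hKpos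
    linarith
  have hS : 2 * (K : ℝ) ^ 30 * Real.log ((K : ℝ) ^ 14) ≤ 28 * (K : ℝ) ^ 31 := by
    rw [Real.log_pow]
    push_cast
    have h30 : (0 : ℝ) ≤ (K : ℝ) ^ 30 := by positivity
    nlinarith [mul_le_mul_of_nonneg_left hlogK h30]
  have hS0 : 0 ≤ 2 * (K : ℝ) ^ 30 * Real.log ((K : ℝ) ^ 14) := by
    have : 0 ≤ Real.log ((K : ℝ) ^ 14) := Real.log_nonneg (one_le_pow₀ (by linarith))
    positivity
  have hpi : Real.pi ^ 2 < 10 := by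
    have h1 := Real.pi_lt_d2
    have h2 := Real.pi_pos
    nlinarith
  have hpi0 := Real.pi_pos
  -- the left side
  have hL : (Real.pi * (2 * (K : ℝ) ^ 30 * Real.log ((K : ℝ) ^ 14)) * Real.exp ((K : ℝ) / 4)) ^ 2
      ≤ 7840 * (K : ℝ) ^ 62 * Real.exp ((K : ℝ) / 2) := by
    have he : Real.exp ((K : ℝ) / 4) ^ 2 = Real.exp ((K : ℝ) / 2) := by
      rw [← Real.exp_nat_mul]
      congr 1
      push_cast
      ring
    have hS2 : (2 * (K : ℝ) ^ 30 * Real.log ((K : ℝ) ^ 14)) ^ 2 ≤ (28 * (K : ℝ) ^ 31) ^ 2 :=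
      pow_le_pow_left₀ hS0 hS 2
    calc (Real.pi * (2 * (K : ℝ) ^ 30 * Real.log ((K : ℝ) ^ 14)) * Real.exp ((K : ℝ) / 4)) ^ 2
        = Real.pi ^ 2 * (2 * (K : ℝ) ^ 30 * Real.log ((K : ℝ) ^ 14)) ^ 2 * Real.exp ((K : ℝ) / 4) ^ 2 := by ring
      _ ≤ 10 * (28 * (K : ℝ) ^ 31) ^ 2 * Real.exp ((K : ℝ) / 4) ^ 2 := by
          apply mul_le_mul_of_nonneg_right _ (by positivity)
          apply mul_le_mul hpi.le hS2 (by positivity) (by norm_num)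
      _ = 7840 * (K : ℝ) ^ 62 * Real.exp ((K : ℝ) / 2) := by rw [he]; ring
  -- the right side
  have hE2 : 31360 * (K : ℝ) ^ 62 < Real.exp ((K : ℝ) / 2) := by
    rw [lt_div_iff₀ (by positivity)] at h
    calc 31360 * (K : ℝ) ^ 62 = 31360 * 2 ^ 62 * ((K : ℝ) / 2) ^ 62 := by
          rw [div_pow]; field_simp
      _ < Real.exp ((K : ℝ) / 2) := h
  have hEK : Real.exp K = Real.exp ((K : ℝ) / 2) * Real.exp ((K : ℝ) / 2) := by
    rw [← Real.exp_add]; congr 1; ring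
  have hM : Real.exp K - 1 < (⌊Real.exp K⌋₊ : ℝ) := by
    have := Nat.lt_floor_add_one (Real.exp K)
    linarith
  have hexpK : 2 ≤ Real.exp K := by
    have := Real.add_one_le_exp (K : ℝ)
    linarith
  have hep : 0 < Real.exp ((K : ℝ) / 2) := Real.exp_pos _
  have hfin : 7840 * (K : ℝ) ^ 62 * Real.exp ((K : ℝ) / 2) < Real.exp K / 4 := by
    rw [hEK]
    nlinarith [mul_lt_mul_of_pos_right hE2 hep]
  calc (Real.pi * (2 * (K : ℝ) ^ 30 * Real.log ((K : ℝ) ^ 14)) * Real.exp ((K : ℝ) / 4)) ^ 2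
      ≤ 7840 * (K : ℝ) ^ 62 * Real.exp ((K : ℝ) / 2) := hL
    _ < Real.exp K / 4 := hfin
    _ ≤ (Real.exp K - 1) / 2 := by linarith
    _ ≤ (⌊Real.exp K⌋₊ : ℝ) / 2 := by linarith

theorem p_LIM : Stmt_LIM := by
  have h1 : ∀ᶠ K : ℕ in Filter.atTop, 2 ≤ K := Filter.eventually_ge_atTop 2
  have h2 : ∀ᶠ K : ℕ in Filter.atTop,
      31360 * 2 ^ 62 < Real.exp ((K : ℝ) / 2) / ((K : ℝ) / 2) ^ 62 := by
    have ht := Real.tendsto_exp_div_pow_atTop 62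
    have hK : Filter.Tendsto (fun K : ℕ => (K : ℝ) / 2) Filter.atTop Filter.atTop :=
      Filter.Tendsto.atTop_div_const (by norm_num) tendsto_natCast_atTop_atTop
    exact (ht.comp hK).eventually (Filter.eventually_gt_atTop (31360 * 2 ^ 62))
  have h3 : ∀ᶠ K : ℕ in Filter.atTop, 60 * Real.log K ≤ K := by
    have hb := Real.isLittleO_log_id_atTop.bound (show (0 : ℝ) < 1 / 60 by norm_num)
    have hb' := tendsto_natCast_atTop_atTop (R := ℝ) |>.eventually hb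
    filter_upwards [hb', h1] with K hK hK1
    have hK2 : (2 : ℝ) ≤ K := by exact_mod_cast hK1
    have hlog0 : 0 ≤ Real.log K := Real.log_nonneg (by linarith)
    rw [Real.norm_of_nonneg hlog0] at hK
    simp only [id] at hK
    rw [Real.norm_of_nonneg (by linarith)] at hK
    linarith
  obtain ⟨K0, hK0⟩ := Filter.eventually_atTop.1 (h1.and (h2.and h3))
  refine ⟨K0, fun K hK => ?_⟩
  obtain ⟨hK1, hK2, hK3⟩ := hK0 K hK
  have hKr : (2 : ℝ) ≤ K := by exact_mod_cast hK1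
  have hKpos : (0 : ℝ) < K := by linarith
  have hlog0 : 0 ≤ Real.log K := Real.log_nonneg (by linarith)
  have h28p : (0 : ℝ) < (K : ℝ) ^ 28 := by positivity
  have h30 : (1 : ℝ) ≤ (K : ℝ) ^ 30 := one_le_pow₀ (by linarith)
  refine ⟨hK1, ?_, ?_, LIM_one K hK1, LIM_two K hK1 hK2, hK3, ?_, ?_⟩
  · apply Nat.floor_pos.2
    exact Real.one_le_exp (by linarith)
  · rw [div_le_one h28p]
    calc (4 : ℝ) ≤ 2 ^ 28 := by norm_num
      _ ≤ (K : ℝ) ^ 28 := pow_le_pow_left₀ (by norm_num) hKr 28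
  · rw [Real.log_pow]
    push_cast
    nlinarith
  · rw [Real.log_pow]
    push_cast
    have hl2 : Real.log 2 ≤ Real.log K := Real.log_le_log (by norm_num) hKr
    have hl2' := Real.log_two_gt_d9
    nlinarith
end Pool.RGS
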