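import Pool.Agent.Work.MP_3a3367_rgs.InterfaceB

set_option autoImplicit false

namespace Pool.RGS

open Finset

theorem p_NBR : Stmt_NBR := by
  intro c r hr hc
  have hr0 : 0 < r := lt_of_lt_of_le one_pos hr
  have hd : 0 < c - (r + 1 / r) := sub_pos.mpr hc
  refine ⟨max 1 (1 / (c - (r + 1 / r))), le_max_left _ _, ?_⟩
  intro m hm v hv1 hv2
  have hm1 : 1 ≤ m := le_trans (le_max_left _ _) hm
  have hm2 : 1 / (c - (r + 1 / r)) ≤ m := le_trans (le_max_right _ _) hm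
  have hm0 : 0 < m := lt_of_lt_of_le one_pos hm1
  have hv0 : (0 : ℝ) < v := lt_of_lt_of_le (div_pos hm0 hr0) hv1
  have hdm : 1 ≤ (c - (r + 1 / r)) * m := by
    rw [div_le_iff₀ hd] at hm2
    linarith [mul_comm m (c - (r + 1 / r))]
  have h1 : 0 ≤ (r * m - v) * ((v : ℝ) - m / r) :=
    mul_nonneg (sub_nonneg.mpr hv2) (sub_nonneg.mpr hv1)
  have h2 : (r * m - v) * ((v : ℝ) - m / r) = m * v * (r + 1 / r) - m ^ 2 - (v : ℝ) ^ 2 := by
    field_simp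
    ring
  have h3 : m ^ 2 + (v : ℝ) ^ 2 ≤ m * v * (r + 1 / r) := by
    rw [h2] at h1
    linarith
  have h4 : (v : ℝ) ≤ (c - (r + 1 / r)) * m * v := by
    have := mul_le_mul_of_nonneg_right hdm hv0.le
    linarith
  have h5 : m ^ 2 + (v : ℝ) ^ 2 + v ≤ c * m * v := by
    have e : c * m * v = m * v * (r + 1 / r) + (c - (r + 1 / r)) * m * v := by ring
    rw [e]
    linarith
  have hv1' : (0 : ℝ) < (v : ℝ) + 1 := by linarith
  have hc0 : 0 < c := by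
    have : 0 < r + 1 / r := add_pos hr0 (one_div_pos.mpr hr0)
    linarith
  have hx0 : 0 ≤ (m ^ 2 + c * m) / ((v : ℝ) + 1) := by positivity
  refine ⟨⌊(m ^ 2 + c * m) / ((v : ℝ) + 1)⌋₊, ?_, ?_⟩
  · have hf : (m ^ 2 + c * m) / ((v : ℝ) + 1) - 1 <
        (⌊(m ^ 2 + c * m) / ((v : ℝ) + 1)⌋₊ : ℝ) := Nat.sub_one_lt_floor _
    have hg : m ^ 2 / v ≤ (m ^ 2 + c * m) / ((v : ℝ) + 1) - 1 := by
      rw [div_le_iff₀ hv0, sub_mul, one_mul, div_mul_eq_mul_div, le_sub_iff_add_le,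
        le_div_iff₀ hv1']
      nlinarith [h5]
    have hk : m ^ 2 / v < (⌊(m ^ 2 + c * m) / ((v : ℝ) + 1)⌋₊ : ℝ) := lt_of_le_of_lt hg hf
    rwa [div_lt_iff₀ hv0] at hk
  · have hf : (⌊(m ^ 2 + c * m) / ((v : ℝ) + 1)⌋₊ : ℝ) ≤ (m ^ 2 + c * m) / ((v : ℝ) + 1) :=
      Nat.floor_le hx0
    rwa [le_div_iff₀ hv1'] at hf

end Pool.RGS
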