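import Pool.Agent.Work.MP_3a3367_rgs.InterfaceH

/-! # Block NRH: normalised positions, group form -/

set_option autoImplicit false

namespace Pool.RGS

open Finset

theorem NRH_one {G : Type} [AddCommGroup G] (f : ℕ → G) (hf : CA f) : f 1 = 0 := by
  have h1 := hf 1 1 one_pos one_pos
  rw [mul_one] at h1
  have h2 : f 1 + f 1 = f 1 + 0 := by rw [add_zero]; exact h1.symm
  exact add_left_cancel h2

theorem NRH_pow {G : Type} [AddCommGroup G] (f : ℕ → G) (hf : CA f) (q : ℕ) (hq : 0 < q)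
    (k : ℕ) : f (q ^ k) = k • f q := by
  induction k with
  | zero => rw [pow_zero, zero_nsmul, NRH_one f hf]
  | succ k ih => rw [pow_succ, hf _ _ (pow_pos hq k) hq, ih, succ_nsmul]

theorem NRH_mul {G : Type} [AddCommGroup G] (f : ℕ → G) (hf : CA f) (A u v : ℕ) (hA : 0 < A) :
    f (A * 2 ^ u * 3 ^ v) = f A + u • f 2 + v • f 3 := by
  rw [hf _ _ (by positivity) (by positivity), hf _ _ hA (by positivity),
    NRH_pow f hf 2 (by norm_num), NRH_pow f hf 3 (by norm_num)]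

theorem NRH_smul {G : Type} [AddCommGroup G] (x : G) (a : ℤ) :
    a.toNat • x - (-a).toNat • x = a • x := by
  rw [← natCast_zsmul, ← natCast_zsmul, ← sub_smul, Int.toNat_sub_toNat_neg]

theorem NRH_log (A u v : ℕ) (hA : 1 ≤ A) :
    Real.log ((A * 2 ^ u * 3 ^ v : ℕ) : ℝ) = Real.log A + u * Real.log 2 + v * Real.log 3 := by
  have hA' : (A : ℝ) ≠ 0 := by
    have : 0 < A := hA
    positivity
  push_cast
  rw [Real.log_mul (by positivity) (by positivity), Real.log_mul hA' (by positivity),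
    Real.log_pow, Real.log_pow]

/-- Size of the new moves. -/
theorem NRH_size (A B y b0 : ℕ) (a b : ℤ) (r x : ℝ) (hA : A ≤ y) (hB : B ≤ y)
    (hr : 1 < r) (hb : b ≤ b0) (hb' : -b ≤ b0) (hBp : 1 ≤ B)
    (hx : ((A * 2 ^ a.toNat * 3 ^ b.toNat : ℕ) : ℝ) =
      x * ((B * 2 ^ (-a).toNat * 3 ^ (-b).toNat : ℕ) : ℝ)) (hxr : x ≤ r ^ 2) :
    ((A * 2 ^ a.toNat * 3 ^ b.toNat : ℕ) : ℝ) ≤ r ^ 2 * 3 ^ b0 * y := by
  have h3 : ((3 : ℝ) ^ b.toNat) ≤ 3 ^ b0 := pow_le_pow_right₀ (by norm_num) (by omega)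
  have h3' : ((3 : ℝ) ^ (-b).toNat) ≤ 3 ^ b0 := pow_le_pow_right₀ (by norm_num) (by omega)
  have hAy : (A : ℝ) ≤ y := by exact_mod_cast hA
  have hBy : (B : ℝ) ≤ y := by exact_mod_cast hB
  have hr2 : 1 ≤ r ^ 2 := by nlinarith
  by_cases ha : 0 ≤ a
  · have h1 : (-a).toNat = 0 := by omega
    rw [hx, h1]
    push_cast
    rw [mul_one]
    have h2 : (B : ℝ) * 3 ^ (-b).toNat ≤ y * 3 ^ b0 :=
      mul_le_mul hBy h3' (by positivity) (by positivity)
    have h4 : 0 ≤ (B : ℝ) * 3 ^ (-b).toNat := by positivity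
    calc x * (B * 3 ^ (-b).toNat) ≤ r ^ 2 * (B * 3 ^ (-b).toNat) :=
          mul_le_mul_of_nonneg_right hxr h4
      _ ≤ r ^ 2 * (y * 3 ^ b0) := mul_le_mul_of_nonneg_left h2 (by positivity)
      _ = r ^ 2 * 3 ^ b0 * y := by ring
  · have h1 : a.toNat = 0 := by omega
    rw [h1]
    push_cast
    rw [mul_one]
    have h2 : (A : ℝ) * 3 ^ b.toNat ≤ y * 3 ^ b0 :=
      mul_le_mul hAy h3 (by positivity) (by positivity)
    calc (A : ℝ) * 3 ^ b.toNat ≤ y * 3 ^ b0 := h2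
      _ = 1 * (y * 3 ^ b0) := by ring
      _ ≤ r ^ 2 * (y * 3 ^ b0) := mul_le_mul_of_nonneg_right hr2 (by positivity)
      _ = r ^ 2 * 3 ^ b0 * y := by ring

theorem p_NRH (hDNS : Stmt_DNS) : Stmt_NRH := by
  intro r hr
  have hlr : 0 < Real.log r := Real.log_pos hr
  have hrp : 0 < r := by linarith
  obtain ⟨b0, hb0⟩ := hDNS (Real.log r) hlr
  choose α0 β0 hαβ using hb0
  obtain ⟨C, hC⟩ : ∃ C : ℕ, C = ⌈r ^ 2 * 3 ^ b0⌉₊ := ⟨_, rfl⟩
  have hCr : r ^ 2 * 3 ^ b0 ≤ (C : ℝ) := by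
    rw [hC]
    exact Nat.le_ceil _
  have hC1 : 1 ≤ C := by
    have h1 : (0 : ℝ) < C := lt_of_lt_of_le (by positivity) hCr
    exact_mod_cast h1
  refine ⟨C, hC1, ?_⟩
  intro t A B hAB hS
  obtain ⟨S, hSd⟩ : ∃ S : ℕ → ℝ, S = fun i => ∑ l ∈ range i, (Real.log (A l) - Real.log (B l)) :=
    ⟨_, rfl⟩
  have hSt : S t = ∑ i ∈ range t, (Real.log (A i) - Real.log (B i)) := by rw [hSd]
  have hS0 : S 0 = 0 := by rw [hSd]; simp
  have hSs : ∀ i, S (i + 1) = S i + (Real.log (A i) - Real.log (B i)) := fun i => by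
    rw [hSd]
    exact sum_range_succ _ _
  rw [← hSt] at hS
  rw [← hSt]
  obtain ⟨α, hα⟩ : ∃ α : ℕ → ℤ, α = fun i => if 0 < i ∧ i < t then α0 (S i) else 0 := ⟨_, rfl⟩
  obtain ⟨β, hβ⟩ : ∃ β : ℕ → ℕ, β = fun i => if 0 < i ∧ i < t then β0 (S i) else 0 := ⟨_, rfl⟩
  have hα0 : α 0 = 0 := by rw [hα]; simp
  have hβ0 : β 0 = 0 := by rw [hβ]; simp
  have hαt : α t = 0 := by rw [hα]; simp
  have hβt : β t = 0 := by rw [hβ]; simp
  have hβb : ∀ i, β i ≤ b0 := by
    intro i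
    rw [hβ]
    by_cases h : 0 < i ∧ i < t
    · simp only [if_pos h]
      exact (hαβ (S i)).1
    · simp only [if_neg h]
      exact Nat.zero_le _
  have hdev : ∀ i ≤ t, |S i - α i * Real.log 2 - β i * Real.log 3| ≤ Real.log r := by
    intro i hi
    by_cases h : 0 < i ∧ i < t
    · have h1 := (hαβ (S i)).2
      rw [hα, hβ]
      simp only [if_pos h]
      exact h1
    · rcases Nat.eq_zero_or_pos i with h0 | h0
      · rw [h0, hα0, hβ0, hS0]
        simp only [Int.cast_zero, Nat.cast_zero, zero_mul, sub_zero, abs_zero]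
        exact hlr.le
      · have h1 : i = t := by
          by_contra h2
          exact h ⟨h0, lt_of_le_of_ne hi h2⟩
        rw [h1, hαt, hβt]
        simp only [Int.cast_zero, Nat.cast_zero, zero_mul, sub_zero]
        exact hS
  obtain ⟨ρ, hρ⟩ : ∃ ρ : ℕ → ℝ, ρ = fun i =>
    Real.exp (S i - α i * Real.log 2 - β i * Real.log 3) := ⟨_, rfl⟩
  have hρb : ∀ i ≤ t, 1 / r ≤ ρ i ∧ ρ i ≤ r := by
    intro i hi
    have h1 := abs_le.1 (hdev i hi)
    rw [hρ]
    constructor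
    · have h2 : 1 / r = Real.exp (-Real.log r) := by
        rw [Real.exp_neg, Real.exp_log hrp, one_div]
      rw [h2]
      exact Real.exp_le_exp.2 h1.1
    · exact (Real.exp_le_exp.2 h1.2).trans (le_of_eq (Real.exp_log hrp))
  obtain ⟨a, ha⟩ : ∃ a : ℕ → ℤ, a = fun i => α i - α (i + 1) := ⟨_, rfl⟩
  obtain ⟨b, hb⟩ : ∃ b : ℕ → ℤ, b = fun i => (β i : ℤ) - β (i + 1) := ⟨_, rfl⟩
  obtain ⟨A', hA'⟩ : ∃ A' : ℕ → ℕ, A' = fun i => A i * 2 ^ (a i).toNat * 3 ^ (b i).toNat :=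
    ⟨_, rfl⟩
  obtain ⟨B', hB'⟩ : ∃ B' : ℕ → ℕ, B' = fun i => B i * 2 ^ (-a i).toNat * 3 ^ (-b i).toNat :=
    ⟨_, rfl⟩
  have hA'1 : ∀ i < t, 1 ≤ A' i := fun i hi => by
    rw [hA']
    have h1 : 0 < A i := (hAB i hi).1
    exact Nat.succ_le_of_lt (by positivity)
  have hB'1 : ∀ i < t, 1 ≤ B' i := fun i hi => by
    rw [hB']
    have h1 : 0 < B i := (hAB i hi).2
    exact Nat.succ_le_of_lt (by positivity)
  have hstep : ∀ i < t, ρ (i + 1) = ρ i * ((A' i : ℝ) / B' i) := by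
    intro i hi
    have hAp : (0 : ℝ) < A' i := by exact_mod_cast hA'1 i hi
    have hBp : (0 : ℝ) < B' i := by exact_mod_cast hB'1 i hi
    have h1 : (A' i : ℝ) / B' i = Real.exp (Real.log (A' i) - Real.log (B' i)) := by
      rw [Real.exp_sub, Real.exp_log hAp, Real.exp_log hBp]
    have hlA : Real.log (A' i) = Real.log (A i) + (a i).toNat * Real.log 2 +
        (b i).toNat * Real.log 3 := by
      rw [hA']
      exact NRH_log _ _ _ (hAB i hi).1
    have hlB : Real.log (B' i) = Real.log (B i) + (-a i).toNat * Real.log 2 +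
        (-b i).toNat * Real.log 3 := by
      rw [hB']
      exact NRH_log _ _ _ (hAB i hi).2
    have ha2 : ((a i).toNat : ℝ) - ((-a i).toNat : ℝ) = α i - α (i + 1) := by
      have h2 : ((a i).toNat : ℤ) - ((-a i).toNat : ℤ) = α i - α (i + 1) := by
        rw [Int.toNat_sub_toNat_neg, ha]
      exact_mod_cast congrArg (Int.cast : ℤ → ℝ) h2
    have hb2 : ((b i).toNat : ℝ) - ((-b i).toNat : ℝ) = β i - β (i + 1) := by
      have h2 : ((b i).toNat : ℤ) - ((-b i).toNat : ℤ) = (β i : ℤ) - β (i + 1) := by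
        rw [Int.toNat_sub_toNat_neg, hb]
      exact_mod_cast congrArg (Int.cast : ℤ → ℝ) h2
    rw [h1, hρ]
    simp only
    rw [← Real.exp_add, hSs, hlA, hlB]
    congr 1
    have h3 : ((a i).toNat : ℝ) = ((-a i).toNat : ℝ) + (α i - α (i + 1)) := by linarith
    have h4 : ((b i).toNat : ℝ) = ((-b i).toNat : ℝ) + (β i - β (i + 1)) := by linarith
    rw [h3, h4]
    ring
  have hρp : ∀ i, 0 < ρ i := fun i => by
    rw [hρ]
    exact Real.exp_pos _
  have hfin : ∀ z y : ℕ, (z : ℝ) ≤ r ^ 2 * 3 ^ b0 * y → z ≤ C * y := by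
    intro z y hz
    have h1 : (z : ℝ) ≤ C * (y : ℝ) := by
      refine hz.trans ?_
      exact mul_le_mul_of_nonneg_right hCr (by positivity)
    exact_mod_cast h1
  have hbi : ∀ i, b i ≤ b0 ∧ -b i ≤ b0 := by
    intro i
    rw [hb]
    have h1 := hβb i
    have h2 := hβb (i + 1)
    simp only
    omega
  refine ⟨ρ, A', B', ?_, ?_, hρb, ?_, ?_⟩
  · rw [hρ]
    simp only
    rw [hS0, hα0, hβ0]
    simp
  · rw [hρ]
    simp only
    rw [hαt, hβt]
    simp
  · intro i hi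
    have hAp : (0 : ℝ) < A' i := by exact_mod_cast hA'1 i hi
    have hBp : (0 : ℝ) < B' i := by exact_mod_cast hB'1 i hi
    obtain ⟨x, hx⟩ : ∃ x : ℝ, x = (A' i : ℝ) / B' i := ⟨_, rfl⟩
    have hs := hstep i hi
    rw [← hx] at hs
    have h1 := hρb i hi.le
    have h2 := hρb (i + 1) hi
    have hxp : 0 < x := by
      rw [hx]
      positivity
    have hxr : x ≤ r ^ 2 := by
      have h3 : 1 / r * x ≤ r := by
        refine le_trans ?_ h2.2
        rw [hs]
        exact mul_le_mul_of_nonneg_right h1.1 hxp.le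
      rw [one_div, inv_mul_eq_div, div_le_iff₀ hrp] at h3
      rw [sq]
      exact h3
    have hxr' : x⁻¹ ≤ r ^ 2 := by
      have h3 : 1 / r ≤ r * x := by
        refine le_trans h2.1 ?_
        rw [hs]
        exact mul_le_mul_of_nonneg_right h1.2 hxp.le
      rw [div_le_iff₀ hrp] at h3
      rw [inv_le_iff_one_le_mul₀ hxp]
      calc (1 : ℝ) ≤ r * x * r := h3
        _ = r ^ 2 * x := by ring
    have hAx : (A' i : ℝ) = x * B' i := by
      rw [hx]
      field_simp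
    have hBx : (B' i : ℝ) = x⁻¹ * A' i := by
      rw [hAx]
      field_simp
    refine ⟨hA'1 i hi, ?_, hB'1 i hi, ?_, hstep i hi⟩
    · refine hfin _ _ ?_
      have h5 := NRH_size (A i) (B i) (max (A i) (B i)) b0 (a i) (b i) r x (le_max_left _ _)
        (le_max_right _ _) hr (hbi i).1 (hbi i).2 (hAB i hi).2 (by
          rw [hA', hB'] at hAx
          exact hAx) hxr
      rw [hA']
      exact h5
    · refine hfin _ _ ?_
      have h5 := NRH_size (B i) (A i) (max (A i) (B i)) b0 (-a i) (-b i) r x⁻¹ (le_max_right _ _)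
        (le_max_left _ _) hr (hbi i).2 (by rw [neg_neg]; exact (hbi i).1) (hAB i hi).1 (by
          rw [neg_neg, neg_neg]
          rw [hA', hB'] at hBx
          exact hBx) hxr'
      rw [hB']
      exact h5
  · intro G _ f hf
    have hterm : ∀ i ∈ range t, f (A' i) - f (B' i) =
        (f (A i) - f (B i)) + ((α i - α (i + 1)) • f 2 + ((β i : ℤ) - β (i + 1)) • f 3) := by
      intro i hi
      have hi' := mem_range.1 hi
      have e1 : f (A' i) = f (A i) + (a i).toNat • f 2 + (b i).toNat • f 3 := by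
        rw [hA']
        exact NRH_mul f hf _ _ _ (hAB i hi').1
      have e2 : f (B' i) = f (B i) + (-a i).toNat • f 2 + (-b i).toNat • f 3 := by
        rw [hB']
        exact NRH_mul f hf _ _ _ (hAB i hi').2
      have p2 := NRH_smul (f 2) (a i)
      have p3 := NRH_smul (f 3) (b i)
      have ha' : a i = α i - α (i + 1) := by rw [ha]
      have hb' : b i = (β i : ℤ) - β (i + 1) := by rw [hb]
      rw [e1, e2, ← ha', ← hb', ← p2, ← p3]
      abel
    have t2 : ∑ i ∈ range t, (α i - α (i + 1)) = 0 := by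
      rw [sum_range_sub', hα0, hαt, sub_zero]
    have t3 : ∑ i ∈ range t, ((β i : ℤ) - β (i + 1)) = 0 := by
      rw [sum_range_sub' (fun i => (β i : ℤ)), hβ0, hβt, sub_self]
    rw [sum_congr rfl hterm, sum_add_distrib, sum_add_distrib, ← sum_smul, ← sum_smul, t2, t3,
      zero_smul, zero_smul, add_zero, add_zero]

end Pool.RGS
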