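import Pool.Agent.Work.MP_3a3367_rgs.InterfaceB
set_option autoImplicit false
namespace Pool.RGS
open Finset

theorem NWT_dvd (d : ℕ) (Γ : Polynomial ℂ) (h0 : Γ ≠ 0) (hd : Γ.natDegree ≤ d)
    (hr : ∀ ζ, Γ.IsRoot ζ → ζ = 1) : Γ ∣ (Polynomial.X - Polynomial.C 1) ^ d := by
  have hs := IsAlgClosed.splits Γ
  have h1 := hs.eq_prod_roots
  have h2 : Γ.roots = Multiset.replicate (Multiset.card Γ.roots) 1 := by
    rw [Multiset.eq_replicate]
    exact ⟨rfl, fun b hb => hr b (Polynomial.isRoot_of_mem_roots hb)⟩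
  rw [h2] at h1
  rw [Multiset.map_replicate, Multiset.prod_replicate] at h1
  have h3 : Multiset.card Γ.roots ≤ d := (Polynomial.card_roots' Γ).trans hd
  have h4 : Γ.leadingCoeff ≠ 0 := Polynomial.leadingCoeff_ne_zero.mpr h0
  rw [h1]
  have h5 : (Polynomial.X - Polynomial.C (1:ℂ)) ^ (Multiset.card Γ.roots) ∣
      (Polynomial.X - Polynomial.C (1:ℂ)) ^ d := pow_dvd_pow _ h3
  have h6 : IsUnit (Polynomial.C Γ.leadingCoeff) := Polynomial.isUnit_C.mpr (isUnit_iff_ne_zero.mpr h4)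
  exact (h6.mul_left_dvd).mpr h5

theorem NWT_act (d : ℕ) (Γ : Polynomial ℂ) (u : ℕ → ℂ) (hu : act Γ u = 0)
    (h : Γ ∣ (Polynomial.X - Polynomial.C 1) ^ d) : ((Sh - 1) ^ d) u = 0 := by
  obtain ⟨B, hB⟩ := h
  have h1 : (Polynomial.aeval Sh) ((Polynomial.X - Polynomial.C (1:ℂ)) ^ d) = (Sh - 1) ^ d := by
    simp
  rw [← h1, hB, mul_comm, map_mul]
  have h2 : ((Polynomial.aeval Sh) B * (Polynomial.aeval Sh) Γ) u
      = (Polynomial.aeval Sh) B ((Polynomial.aeval Sh) Γ u) := rfl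
  rw [h2]
  have h3 : (Polynomial.aeval Sh) Γ u = 0 := hu
  rw [h3, map_zero]

theorem NWT_fwd (k : ℕ) (u : ℕ → ℂ) : ((Sh - 1) ^ k) u = (fwdDiff 1)^[k] u := by
  induction k generalizing u with
  | zero => simp
  | succ k ih =>
    rw [pow_succ, Function.iterate_succ_apply, ← ih]
    have h2 : ((Sh - 1) ^ k * (Sh - 1)) u = ((Sh - 1) ^ k) ((Sh - 1) u) := rfl
    rw [h2]
    rfl

theorem p_NWT : Stmt_NWT := by
  intro d Z u g Γ hd hdZ h0 hact hdeg hroot hug
  have hz : ((Sh - 1) ^ d) u = 0 := NWT_act d Γ u hact (NWT_dvd d Γ h0 hdeg hroot)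
  have hz' : ∀ k, d ≤ k → (fwdDiff 1)^[k] u = 0 := by
    intro k hk
    obtain ⟨e, rfl⟩ := Nat.exists_eq_add_of_le hk
    rw [← NWT_fwd, add_comm, pow_add]
    have h2 : ((Sh - 1) ^ e * (Sh - 1) ^ d) u = ((Sh - 1) ^ e) (((Sh - 1) ^ d) u) := rfl
    rw [h2, hz, map_zero]
  have hc : ∀ k ≤ Z, (((fwdDiff 1)^[k] g 0 : ℤ) : ℂ) = (fwdDiff 1)^[k] u 0 := by
    intro k hk
    rw [fwdDiff_iter_eq_sum_shift, fwdDiff_iter_eq_sum_shift]
    push_cast
    refine Finset.sum_congr rfl fun i hi => ?_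
    have hi' : i ≤ Z := by
      have := Finset.mem_range.mp hi
      omega
    have h1 := hug i hi'
    simp only [smul_eq_mul, mul_one, zero_add, zsmul_eq_mul]
    rw [h1]
    push_cast
    ring
  have hc0 : ∀ k ≤ Z, d ≤ k → (fwdDiff 1)^[k] g 0 = 0 := by
    intro k hk hdk
    have h1 := hc k hk
    rw [hz' k hdk] at h1
    simp only [Pi.zero_apply] at h1
    exact_mod_cast h1
  refine ⟨∑ k ∈ range d, Polynomial.C (((fwdDiff 1)^[k] g 0 : ℤ) / (k.factorial : ℝ)) *
    descPochhammer ℝ k, ?_, ?_⟩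
  · have h1 : (∑ k ∈ range d, Polynomial.C (((fwdDiff 1)^[k] g 0 : ℤ) / (k.factorial : ℝ)) *
        descPochhammer ℝ k).natDegree ≤ d - 1 := by
      refine Polynomial.natDegree_sum_le_of_forall_le _ _ fun k hk => ?_
      refine (Polynomial.natDegree_C_mul_le _ _).trans ?_
      rw [descPochhammer_natDegree]
      have := Finset.mem_range.mp hk
      omega
    omega
  · intro a ha
    have h1 := shift_eq_sum_fwdDiff_iter (1:ℕ) g a 0
    have h2 : g a = ∑ k ∈ range (a + 1), (a.choose k) • (fwdDiff 1)^[k] g 0 := by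
      simpa using h1
    have h3 : g a = ∑ k ∈ range d, ((a.choose k : ℕ) : ℤ) * (fwdDiff 1)^[k] g 0 := by
      rw [h2]
      simp only [nsmul_eq_mul]
      rcases le_total d (a + 1) with h | h
      · symm
        refine Finset.sum_subset (Finset.range_subset_range.mpr h) fun k hk hk' => ?_
        have h4 := Finset.mem_range.mp hk
        have h5 : d ≤ k := by
          by_contra h6
          exact hk' (Finset.mem_range.mpr (by omega))
        rw [hc0 k (by omega) h5, mul_zero]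
      · refine Finset.sum_subset (Finset.range_subset_range.mpr h) fun k hk hk' => ?_
        have h5 : a < k := by
          by_contra h6
          exact hk' (Finset.mem_range.mpr (by omega))
        rw [Nat.choose_eq_zero_of_lt h5]
        simp
    rw [h3]
    rw [Polynomial.eval_finsetSum]
    push_cast
    refine Finset.sum_congr rfl fun k _ => ?_
    rw [Polynomial.eval_mul, Polynomial.eval_C, descPochhammer_eval_eq_descFactorial]
    rw [Nat.descFactorial_eq_factorial_mul_choose]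
    push_cast
    have h6 : (k.factorial : ℝ) ≠ 0 := by positivity
    field_simp
end Pool.RGS
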