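import Pool.Agent.Work.MP_3a3367_rgs.InterfaceB

set_option autoImplicit false

namespace Pool.RGS

open Finset

/-- A solution of the recurrence which vanishes at `0..d-1` is zero. -/
theorem POL_zero (d : ℕ) (w v : ℕ → ℂ) (hw : w d ≠ 0)
    (hv : ∀ b, ∑ i ∈ range (d + 1), w i * v (b + i) = 0) (h0 : ∀ b < d, v b = 0) :
    ∀ n, v n = 0 := by
  intro n
  induction n using Nat.strong_induction_on with
  | _ n ih =>
    rcases lt_or_ge n d with hn | hn
    · exact h0 n hn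
    · have h := hv (n - d)
      rw [Finset.sum_range_succ] at h
      have hz : ∑ i ∈ range d, w i * v (n - d + i) = 0 := by
        refine Finset.sum_eq_zero ?_
        intro i hi
        have hi' := Finset.mem_range.mp hi
        rw [ih (n - d + i) (by omega), mul_zero]
      have hnd : n - d + d = n := by omega
      rw [hz, zero_add, hnd] at h
      rcases mul_eq_zero.mp h with h | h
      · exact absurd h hw
      · exact h

/-- POL: `G 1` is a polynomial on `0..Z`. -/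
theorem p_POL (hACT : Stmt_ACT) (hEXT : Stmt_EXT) (hDIL : Stmt_DIL) (hGEN : Stmt_GEN)
    (hRTS : Stmt_RTS) (hREL : Stmt_REL) (hORD : Stmt_ORD) (hNWT : Stmt_NWT) : Stmt_POL := by
  intro P Z w G hP hw0 hwP hZ hG1 hG2
  have hPZ : P ≤ Z := by nlinarith
  -- complex weights
  have hc0 : ((w 0 : ℤ) : ℂ) ≠ 0 := by exact_mod_cast hw0
  have hcP : ((w P : ℤ) : ℂ) ≠ 0 := by exact_mod_cast hwP
  -- extensions
  have hex : ∀ q : ℕ, ∃ u : ℕ → ℂ, 1 ≤ q → q ≤ P →
      (∀ b, ∑ i ∈ range (P + 1), ((w i : ℤ) : ℂ) * u (b + i) = 0) ∧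
      ∀ a ≤ q * Z, u a = ((G q a : ℤ) : ℂ) := by
    intro q
    by_cases hq : 1 ≤ q ∧ q ≤ P
    · obtain ⟨u, hu1, hu2⟩ := hEXT P (q * Z) (fun i => ((w i : ℤ) : ℂ))
        (fun n => ((G q n : ℤ) : ℂ)) hcP (by
          intro b hb
          have h := hG2 q hq.1 hq.2 1 le_rfl (by omega) b (by simpa using hb)
          simp only [one_mul] at h
          have h' : ((∑ a ∈ range (P + 1), w a * G q (b + a) : ℤ) : ℂ) = 0 := by
            rw [h]
            norm_num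
          push_cast at h'
          exact h')
      exact ⟨u, fun _ _ => ⟨hu1, hu2⟩⟩
    · exact ⟨fun _ => 0, fun h1 h2 => absurd ⟨h1, h2⟩ hq⟩
  choose u hu using hex
  -- dilated recurrences
  have hdil : ∀ q, 1 ≤ q → q ≤ P → ∀ j, 1 ≤ j → j ≤ P + 1 → ∀ b,
      ∑ i ∈ range (P + 1), ((w i : ℤ) : ℂ) * u q (b + j * i) = 0 := by
    intro q hq1 hq2 j hj1 hj2
    obtain ⟨hu1, hu2⟩ := hu q hq1 hq2
    refine hDIL P j (fun i => ((w i : ℤ) : ℂ)) (u q) hcP hu1 ?_
    intro b hb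
    have hle : b + j * P ≤ q * Z := by
      have h1 : j * P ≤ (P + 1) * P := Nat.mul_le_mul_right _ hj2
      have h2 : Z ≤ q * Z := Nat.le_mul_of_pos_left _ hq1
      nlinarith
    have h := hG2 q hq1 hq2 j hj1 hj2 b hle
    have h' : ((∑ a ∈ range (P + 1), w a * G q (b + j * a) : ℤ) : ℂ) = 0 := by
      rw [h]
      norm_num
    push_cast at h'
    rw [← h']
    refine Finset.sum_congr rfl ?_
    intro i hi
    have hi' : i ≤ P := by
      have := Finset.mem_range.mp hi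
      omega
    have h3 : b + j * i ≤ q * Z := by
      have : j * i ≤ j * P := Nat.mul_le_mul_left _ hi'
      omega
    rw [hu2 _ h3]
  -- the annihilating polynomials
  have hact : ∀ q, 1 ≤ q → q ≤ P → ∀ j, 1 ≤ j → j ≤ P + 1 →
      act (∑ i ∈ range (P + 1), Polynomial.C ((w i : ℤ) : ℂ) * Polynomial.X ^ (j * i)) (u q)
        = 0 := by
    intro q hq1 hq2 j hj1 hj2
    funext n
    have h := hACT P j (fun i => ((w i : ℤ) : ℂ)) (u q) n
    rw [h, hdil q hq1 hq2 j hj1 hj2 n]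
    rfl
  set W : Polynomial ℂ :=
    ∑ i ∈ range (P + 1), Polynomial.C ((w i : ℤ) : ℂ) * Polynomial.X ^ (1 * i) with hW
  have hWc : W.coeff P = ((w P : ℤ) : ℂ) := by
    rw [hW, Polynomial.finset_sum_coeff, Finset.sum_eq_single P]
    · rw [Polynomial.coeff_C_mul, one_mul, Polynomial.coeff_X_pow_self, mul_one]
    · intro i _ hi
      rw [Polynomial.coeff_C_mul, one_mul, Polynomial.coeff_X_pow, if_neg (Ne.symm hi), mul_zero]
    · intro h
      exact absurd (Finset.mem_range.mpr (Nat.lt_succ_self P)) h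
  have hW0 : W ≠ 0 := by
    intro h
    rw [h, Polynomial.coeff_zero] at hWc
    exact hcP hWc.symm
  have hWd : W.natDegree ≤ P := by
    rw [hW]
    refine Polynomial.natDegree_sum_le_of_forall_le _ _ ?_
    intro i hi
    have hi' : i ≤ P := by
      have := Finset.mem_range.mp hi
      omega
    refine (Polynomial.natDegree_C_mul_X_pow_le _ _).trans ?_
    omega
  have hgen : ∀ q : ℕ, ∃ Γ : Polynomial ℂ, 1 ≤ q → q ≤ P →
      (Γ ≠ 0 ∧ ∀ A : Polynomial ℂ, act A (u q) = 0 ↔ Γ ∣ A) := by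
    intro q
    by_cases hq : 1 ≤ q ∧ q ≤ P
    · obtain ⟨Γ, h1, h2⟩ := hGEN (u q) W hW0 (hact q hq.1 hq.2 1 le_rfl (by omega))
      exact ⟨Γ, fun _ _ => ⟨h1, h2⟩⟩
    · exact ⟨0, fun h1 h2 => absurd ⟨h1, h2⟩ hq⟩
  choose Γ hΓ using hgen
  have hroot : ∀ q, 1 ≤ q → q ≤ P → ∀ ξ : ℂ, (Γ q).IsRoot ξ →
      ∃ r : ℕ, 1 ≤ r ∧ r ≤ P ∧ ξ ^ r = 1 := by
    intro q hq1 hq2 ξ hξ
    refine hRTS P (fun i => ((w i : ℤ) : ℂ)) (Γ q) ξ hc0 hcP ?_ hξ
    intro j hj1 hj2
    exact ((hΓ q hq1 hq2).2 _).mp (hact q hq1 hq2 j hj1 hj2)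
  -- restriction to the multiples of `q`
  have hres : ∀ q, 1 ≤ q → q ≤ P → (fun a => u q (q * a)) = u 1 := by
    intro q hq1 hq2
    obtain ⟨hu1, hu2⟩ := hu q hq1 hq2
    obtain ⟨hv1, hv2⟩ := hu 1 le_rfl hP
    have hz := POL_zero P (fun i => ((w i : ℤ) : ℂ)) (fun a => u q (q * a) - u 1 a) hcP (by
      intro b
      have h1 := hdil q hq1 hq2 q hq1 (by omega) (q * b)
      have h2 := hv1 b
      have h3 : ∑ i ∈ range (P + 1), ((w i : ℤ) : ℂ) * (u q (q * (b + i)) - u 1 (b + i)) =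
          ∑ i ∈ range (P + 1), ((w i : ℤ) : ℂ) * u q (q * b + q * i) -
          ∑ i ∈ range (P + 1), ((w i : ℤ) : ℂ) * u 1 (b + i) := by
        rw [← Finset.sum_sub_distrib]
        refine Finset.sum_congr rfl ?_
        intro i _
        rw [mul_add, mul_sub]
      have h4 : ∑ i ∈ range (P + 1), ((w i : ℤ) : ℂ) * (u q (q * (b + i)) - u 1 (b + i)) = 0 := by
        rw [h3, h1, h2, sub_zero]
      exact h4) (by
      intro b hb
      have hbZ : b ≤ Z := by omega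
      have h1 : u q (q * b) = ((G q (q * b) : ℤ) : ℂ) := hu2 _ (Nat.mul_le_mul_left _ hbZ)
      have h2 : u 1 b = ((G 1 b : ℤ) : ℂ) := hv2 _ (by omega)
      have h3 : u q (q * b) - u 1 b = 0 := by
        rw [h1, h2, hG1 q hq1 hq2 b hbZ, sub_self]
      exact h3)
    funext a
    have h := hz a
    exact sub_eq_zero.mp h
  obtain ⟨hΓ0, hΓ1⟩ := hΓ 1 le_rfl hP
  have hone : ∀ ζ, (Γ 1).IsRoot ζ → ζ = 1 := by
    intro ζ hζ
    refine hORD P ζ hP ?_
    intro q hq1 hq2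
    obtain ⟨hq0, hqa⟩ := hΓ q hq1 hq2
    obtain ⟨ξ, hξ1, hξ2⟩ := hREL q (u q) (Γ q) (Γ 1) hq1 hq0 ((hqa _).mpr dvd_rfl) (by
      intro A hA
      rw [hres q hq1 hq2] at hA
      exact (hΓ1 A).mp hA) ζ hζ
    exact ⟨ξ, hroot q hq1 hq2 ξ hξ1, hξ2⟩
  have hdeg : (Γ 1).natDegree ≤ P :=
    (Polynomial.natDegree_le_of_dvd ((hΓ1 W).mp (hact 1 le_rfl hP 1 le_rfl (by omega))) hW0).trans
      hWd
  refine hNWT P Z (u 1) (G 1) (Γ 1) hP hPZ hΓ0 ((hΓ1 _).mpr dvd_rfl) hdeg hone ?_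
  intro a ha
  exact (hu 1 le_rfl hP).2 a (by omega)

end Pool.RGS
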