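import Pool.Agent.Work.MP_3a3367_rgs.InterfaceH

/-! # Block PPA: the general theorem, logarithmic form, uniform in `p` (helper12) -/

set_option autoImplicit false

namespace Pool.RGS

open Finset

theorem PPA_r (c : ℝ) (hc : 2 < c) : ∃ r : ℝ, 1 < r ∧ r + 1 / r < c := by
  obtain ⟨d, hd⟩ : ∃ d : ℝ, d = min 1 ((c - 2) / 2) := ⟨_, rfl⟩
  have h0 : 0 < d := by
    rw [hd]
    exact lt_min one_pos (by linarith)
  have h1 : d ≤ 1 := by
    rw [hd]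
    exact min_le_left _ _
  have h2 : d ≤ (c - 2) / 2 := by
    rw [hd]
    exact min_le_right _ _
  refine ⟨1 + d, by linarith, ?_⟩
  have h3 : 1 / (1 + d) ≤ 1 - d + d ^ 2 := by
    rw [div_le_iff₀ (by linarith)]
    have h4 : (1 - d + d ^ 2) * (1 + d) = 1 + d ^ 3 := by ring
    rw [h4]
    have : 0 ≤ d ^ 3 := by positivity
    linarith
  have h5 : d ^ 2 ≤ d := by nlinarith
  linarith

theorem PPA_pow (L : ℝ) (hL : 1 / 2 ≤ L) (a b : ℕ) : L ^ a ≤ 2 ^ b * L ^ (a + b) := by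
  have h1 : (1 : ℝ) ≤ (2 * L) ^ b := one_le_pow₀ (by linarith)
  have h2 : 0 ≤ L ^ a := pow_nonneg (by linarith) a
  calc L ^ a = 1 * L ^ a := (one_mul _).symm
    _ ≤ (2 * L) ^ b * L ^ a := mul_le_mul_of_nonneg_right h1 h2
    _ = 2 ^ b * L ^ (a + b) := by rw [mul_pow, pow_add]; ring

theorem p_PPA (hJMH : Stmt_JMH) (hCSG : Stmt_CSG) : Stmt_PPA := by
  intro c hc
  obtain ⟨r, hr1, hrc⟩ := PPA_r c hc
  obtain ⟨κ1, hκ1, K0, hJ⟩ := hJMH r hr1
  obtain ⟨C, m0, hC, hm0, hCS⟩ := hCSG c r hr1.le hrc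
  obtain ⟨C1, hC1⟩ : ∃ C1 : ℝ, C1 = 50 + 2 * K0 := ⟨_, rfl⟩
  have hC1p : 0 < C1 := by
    rw [hC1]
    positivity
  obtain ⟨C2, hC2⟩ : ∃ C2 : ℝ, C2 = 2 ^ 44 + C1 ^ 44 := ⟨_, rfl⟩
  have hC2p : 0 < C2 := by
    rw [hC2]
    positivity
  have hm0p : 0 < m0 := by linarith
  obtain ⟨κ, hκ⟩ : ∃ κ : ℝ, κ = min (1 / (C1 ^ 15 * 2 ^ 85)) (min (1 / (2 ^ 98 * m0))
    (min (κ1 / 2 ^ 100) (min (1 / 2 ^ 100) (κ1 ^ 2 / (2 ^ 9 * (C * C2 ^ 2)))))) := ⟨_, rfl⟩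
  have hκp : 0 < κ := by
    rw [hκ]
    exact lt_min (by positivity) (lt_min (by positivity) (lt_min (by positivity)
      (lt_min (by positivity) (by positivity))))
  have hκa : κ ≤ 1 / (C1 ^ 15 * 2 ^ 85) := by
    rw [hκ]
    exact min_le_left _ _
  have hκb : κ ≤ 1 / (2 ^ 98 * m0) := by
    rw [hκ]
    exact (min_le_right _ _).trans (min_le_left _ _)
  have hκc : κ ≤ κ1 / 2 ^ 100 := by
    rw [hκ]
    exact (min_le_right _ _).trans ((min_le_right _ _).trans (min_le_left _ _))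
  have hκd : κ ≤ 1 / 2 ^ 100 := by
    rw [hκ]
    exact (min_le_right _ _).trans ((min_le_right _ _).trans
      ((min_le_right _ _).trans (min_le_left _ _)))
  have hκe : κ ≤ κ1 ^ 2 / (2 ^ 9 * (C * C2 ^ 2)) := by
    rw [hκ]
    exact (min_le_right _ _).trans ((min_le_right _ _).trans
      ((min_le_right _ _).trans (min_le_right _ _)))
  clear hκ
  refine ⟨κ, hκp, ?_⟩
  intro G _ f p m g hf hp hfp hm hR
  have hm1 : 1 < m := by
    have h1 : (1 : ℝ) < √2 := by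
      rw [Real.lt_sqrt (by norm_num)]
      norm_num
    linarith
  have hmp : 0 < m := by linarith
  have hm2 : 2 ≤ m ^ 2 := by
    have h1 : √2 ^ 2 ≤ m ^ 2 := pow_le_pow_left₀ (Real.sqrt_nonneg _) hm 2
    rwa [Real.sq_sqrt (by norm_num)] at h1
  have hp2 : (2 : ℝ) ≤ p := by exact_mod_cast hp
  have hp0 : (0 : ℝ) < p := by linarith
  have hlog2 : (1 : ℝ) / 2 ≤ Real.log 2 := by
    have := Real.log_two_gt_d9
    linarith
  have hlog2' : Real.log 2 ≤ 3 / 4 := by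
    have := Real.log_two_lt_d9
    linarith
  obtain ⟨L, hL⟩ : ∃ L : ℝ, L = Real.log (m ^ 2) := ⟨_, rfl⟩
  rw [← hL] at hR ⊢
  have hL2 : 1 / 2 ≤ L := by
    refine hlog2.trans ?_
    rw [hL]
    exact Real.log_le_log (by norm_num) hm2
  have hLp : 0 < L := by linarith
  have hLm : Real.log m = L / 2 := by
    rw [hL, Real.log_pow]
    push_cast
    ring
  -- `p ≤ κ1 m`, `p ≤ m`
  have hpp : (p : ℝ) ≤ 2 ^ 100 * (κ * m) := by
    have h1 : (1 : ℝ) ≤ 2 ^ 100 * L ^ 100 := by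
      have := PPA_pow L hL2 0 100
      simpa using this
    calc (p : ℝ) = p * 1 * 1 := by ring
      _ ≤ p * p * (2 ^ 100 * L ^ 100) := by
          refine mul_le_mul ?_ h1 zero_le_one (by positivity)
          exact mul_le_mul_of_nonneg_left (by linarith) hp0.le
      _ = 2 ^ 100 * ((p : ℝ) ^ 2 * L ^ 100) := by ring
      _ ≤ 2 ^ 100 * (κ * m) := mul_le_mul_of_nonneg_left hR (by positivity)
  have hpκ : (p : ℝ) ≤ κ1 * m := by
    have h1 : 2 ^ 100 * κ ≤ κ1 := by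
      have := mul_le_mul_of_nonneg_left hκc (by positivity : (0 : ℝ) ≤ 2 ^ 100)
      rwa [mul_div_cancel₀ _ (by positivity)] at this
    calc (p : ℝ) ≤ 2 ^ 100 * (κ * m) := hpp
      _ = (2 ^ 100 * κ) * m := by ring
      _ ≤ κ1 * m := mul_le_mul_of_nonneg_right h1 hmp.le
  have hpm : (p : ℝ) ≤ m := by
    have h1 : 2 ^ 100 * κ ≤ 1 := by
      have := mul_le_mul_of_nonneg_left hκd (by positivity : (0 : ℝ) ≤ 2 ^ 100)
      rwa [mul_one_div_cancel (by positivity)] at this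
    calc (p : ℝ) ≤ 2 ^ 100 * (κ * m) := hpp
      _ = (2 ^ 100 * κ) * m := by ring
      _ ≤ 1 * m := mul_le_mul_of_nonneg_right h1 hmp.le
      _ = m := one_mul m
  have hlogp : Real.log p ≤ L / 2 := by
    rw [← hLm]
    exact Real.log_le_log hp0 hpm
  have hlogp0 : 0 ≤ Real.log p := Real.log_nonneg (by linarith)
  -- the parameter
  obtain ⟨K, hK⟩ : ∃ K : ℕ, K = ⌈4 * Real.log (16 * m)⌉₊ + ⌈40 * Real.log p⌉₊ + K0 := ⟨_, rfl⟩
  have hlog16 : Real.log (16 * m) = 4 * Real.log 2 + L / 2 := by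
    rw [Real.log_mul (by norm_num) (by linarith), hLm]
    have h1 : (16 : ℝ) = 2 ^ 4 := by norm_num
    rw [h1, Real.log_pow]
    push_cast
    ring
  have hlog16p : 0 ≤ 4 * Real.log (16 * m) := by
    rw [hlog16]
    linarith
  have hK0 := Nat.cast_nonneg (α := ℝ) K0
  have hceil1 : 4 * Real.log (16 * m) ≤ (⌈4 * Real.log (16 * m)⌉₊ : ℝ) := Nat.le_ceil _
  have hceil2 : 40 * Real.log p ≤ (⌈40 * Real.log p⌉₊ : ℝ) := Nat.le_ceil _
  have hKR : (K : ℝ) ≤ C1 * L := by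
    have h1 : (⌈4 * Real.log (16 * m)⌉₊ : ℝ) ≤ 4 * Real.log (16 * m) + 1 :=
      (Nat.ceil_lt_add_one hlog16p).le
    have h2 : (⌈40 * Real.log p⌉₊ : ℝ) ≤ 40 * Real.log p + 1 :=
      (Nat.ceil_lt_add_one (by linarith)).le
    have h3 : (K0 : ℝ) ≤ 2 * K0 * L := by nlinarith
    rw [hlog16] at h1
    rw [hK, hC1]
    push_cast
    rw [hlog16]
    linarith
  have hK4 : Real.log (16 * m) ≤ (K : ℝ) / 4 := by
    have h2 : (⌈4 * Real.log (16 * m)⌉₊ : ℝ) ≤ K := by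
      rw [hK]
      push_cast
      have := Nat.cast_nonneg (α := ℝ) ⌈40 * Real.log p⌉₊
      linarith
    linarith
  have hK40 : Real.log p ≤ (K : ℝ) / 40 := by
    have h2 : (⌈40 * Real.log p⌉₊ : ℝ) ≤ K := by
      rw [hK]
      push_cast
      have := Nat.cast_nonneg (α := ℝ) ⌈4 * Real.log (16 * m)⌉₊
      linarith
    linarith
  have hmK : m ≤ Real.exp ((K : ℝ) / 4) / 16 := by
    have h1 : 16 * m ≤ Real.exp ((K : ℝ) / 4) := by
      rw [← Real.log_le_iff_le_exp (by linarith)]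
      exact hK4
    linarith
  have hKnn : (0 : ℝ) ≤ K := Nat.cast_nonneg K
  have hR1 : L ^ 100 ≤ κ * m := by
    refine le_trans ?_ hR
    have h1 : (1 : ℝ) ≤ (p : ℝ) ^ 2 := one_le_pow₀ (by linarith)
    have h2 : 0 ≤ L ^ 100 := by positivity
    nlinarith
  have hmm0 : m0 ≤ m := by
    have h1 : (1 : ℝ) ≤ 2 ^ 98 * (κ * m) := by
      have h2 : (1 : ℝ) ≤ 2 ^ 100 * L ^ 100 := by
        have := PPA_pow L hL2 0 100
        simpa using this
      have h3 : (4 : ℝ) ≤ (p : ℝ) ^ 2 := by nlinarith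
      have h4 : 4 * L ^ 100 ≤ κ * m := by
        refine le_trans ?_ hR
        exact mul_le_mul_of_nonneg_right h3 (by positivity)
      have h5 : (2 : ℝ) ^ 100 = 2 ^ 98 * 4 := by norm_num
      rw [h5] at h2
      calc (1 : ℝ) ≤ 2 ^ 98 * 4 * L ^ 100 := h2
        _ = 2 ^ 98 * (4 * L ^ 100) := by ring
        _ ≤ 2 ^ 98 * (κ * m) := mul_le_mul_of_nonneg_left h4 (by positivity)
    have h2 : κ * m ≤ 1 / (2 ^ 98 * m0) * m := mul_le_mul_of_nonneg_right hκb hmp.le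
    have h3 : (1 : ℝ) ≤ 2 ^ 98 * (1 / (2 ^ 98 * m0) * m) :=
      h1.trans (mul_le_mul_of_nonneg_left h2 (by positivity))
    have h4 : (2 : ℝ) ^ 98 * (1 / (2 ^ 98 * m0) * m) = m / m0 := by
      field_simp
    rw [h4, le_div_iff₀ hm0p, one_mul] at h3
    exact h3
  have hK15 : (K : ℝ) ^ 15 ≤ m := by
    have h1 : (K : ℝ) ^ 15 ≤ (C1 * L) ^ 15 := pow_le_pow_left₀ hKnn hKR 15
    have h2 : L ^ 15 ≤ 2 ^ 85 * L ^ 100 := PPA_pow L hL2 15 85
    have h3 : C1 ^ 15 * 2 ^ 85 * κ ≤ 1 := by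
      have h6 := mul_le_mul_of_nonneg_left hκa (by positivity : (0 : ℝ) ≤ C1 ^ 15 * 2 ^ 85)
      rwa [mul_one_div_cancel (by positivity)] at h6
    calc (K : ℝ) ^ 15 ≤ (C1 * L) ^ 15 := h1
      _ = C1 ^ 15 * L ^ 15 := mul_pow _ _ _
      _ ≤ C1 ^ 15 * (2 ^ 85 * (κ * m)) :=
          mul_le_mul_of_nonneg_left (h2.trans (mul_le_mul_of_nonneg_left hR1 (by positivity)))
            (by positivity)
      _ = (C1 ^ 15 * 2 ^ 85 * κ) * m := by ring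
      _ ≤ 1 * m := mul_le_mul_of_nonneg_right h3 hmp.le
      _ = m := one_mul m
  have hJJ := hJ K p G f m (by rw [hK]; omega) hf (by omega) hK40 hfp hK15 hpκ hmK
  have hE := hCS m hmm0 G f g hf
  obtain ⟨J, hJd⟩ : ∃ J : ℝ, J = ((JG f m r).card : ℝ) := ⟨_, rfl⟩
  obtain ⟨E, hEd⟩ : ∃ E : ℝ, E = ((EG f m c g).card : ℝ) := ⟨_, rfl⟩
  rw [← hJd] at hJJ hE
  rw [← hEd] at hE ⊢
  have hE0 : 0 ≤ E := by
    rw [hEd]
    exact Nat.cast_nonneg _
  -- the denominator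
  have hden : (p : ℝ) + (K : ℝ) ^ 44 ≤ C2 * (p * L ^ 44) := by
    have h1 : (K : ℝ) ^ 44 ≤ C1 ^ 44 * L ^ 44 := by
      rw [← mul_pow]
      exact pow_le_pow_left₀ hKnn hKR 44
    have h2 : (1 : ℝ) ≤ 2 ^ 44 * L ^ 44 := by
      have := PPA_pow L hL2 0 44
      simpa using this
    have h3 : (p : ℝ) * 1 ≤ p * (2 ^ 44 * L ^ 44) := mul_le_mul_of_nonneg_left h2 hp0.le
    have h4 : 1 * (C1 ^ 44 * L ^ 44) ≤ p * (C1 ^ 44 * L ^ 44) :=
      mul_le_mul_of_nonneg_right (by linarith) (by positivity)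
    rw [hC2]
    calc (p : ℝ) + (K : ℝ) ^ 44 ≤ p * (2 ^ 44 * L ^ 44) + p * (C1 ^ 44 * L ^ 44) := by linarith
      _ = (2 ^ 44 + C1 ^ 44) * (p * L ^ 44) := by ring
  have hDp : 0 < C2 * (p * L ^ 44) := by positivity
  have h1 : κ1 * m / (C2 * (p * L ^ 44)) ≤ J := by
    refine le_trans ?_ hJJ
    refine div_le_div_of_nonneg_left (by positivity) ?_ hden
    have := pow_nonneg hKnn 44
    linarith
  have h2 : (κ1 * m / (C2 * (p * L ^ 44))) ^ 2 ≤ J ^ 2 := pow_le_pow_left₀ (by positivity) h1 2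
  have h3 : Real.log m ^ 3 ≤ L ^ 3 := by
    refine pow_le_pow_left₀ ?_ ?_ 3
    · rw [hLm]
      linarith
    · rw [hLm]
      linarith
  have h4 : J ^ 2 ≤ C * m * L ^ 3 * E := by
    refine hE.trans ?_
    refine mul_le_mul_of_nonneg_right ?_ hE0
    exact mul_le_mul_of_nonneg_left h3 (by positivity)
  have h5 : κ1 ^ 2 * m ^ 2 ≤ C * m * L ^ 3 * E * (C2 * (p * L ^ 44)) ^ 2 := by
    have h6 := h2.trans h4
    rw [div_pow, mul_pow, div_le_iff₀ (by positivity)] at h6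
    exact h6
  have h6 : κ1 ^ 2 * m ≤ C * C2 ^ 2 * (p ^ 2 * L ^ 91) * E := by
    have h7 : C * m * L ^ 3 * E * (C2 * (p * L ^ 44)) ^ 2
        = (C * C2 ^ 2 * (p ^ 2 * L ^ 91) * E) * m := by ring
    have h8 : κ1 ^ 2 * m ^ 2 = (κ1 ^ 2 * m) * m := by ring
    rw [h7, h8] at h5
    exact le_of_mul_le_mul_right h5 hmp
  have h7 : κ * (2 ^ 9 * (C * C2 ^ 2)) ≤ κ1 ^ 2 := by
    rwa [le_div_iff₀ (by positivity)] at hκe
  have h8 : L ^ 91 ≤ 2 ^ 9 * L ^ 100 := PPA_pow L hL2 91 9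
  rw [div_le_iff₀ (by positivity)]
  have h9 : (2 ^ 9 * (C * C2 ^ 2)) * (κ * m) ≤ (2 ^ 9 * (C * C2 ^ 2)) * (E * (p ^ 2 * L ^ 100)) := by
    calc (2 ^ 9 * (C * C2 ^ 2)) * (κ * m) = κ * (2 ^ 9 * (C * C2 ^ 2)) * m := by ring
      _ ≤ κ1 ^ 2 * m := mul_le_mul_of_nonneg_right h7 hmp.le
      _ ≤ C * C2 ^ 2 * (p ^ 2 * L ^ 91) * E := h6
      _ ≤ C * C2 ^ 2 * (p ^ 2 * (2 ^ 9 * L ^ 100)) * E := by
          refine mul_le_mul_of_nonneg_right ?_ hE0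
          refine mul_le_mul_of_nonneg_left ?_ (by positivity)
          exact mul_le_mul_of_nonneg_left h8 (by positivity)
      _ = (2 ^ 9 * (C * C2 ^ 2)) * (E * (p ^ 2 * L ^ 100)) := by ring
  exact le_of_mul_le_mul_left h9 (by positivity)

end Pool.RGS
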