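import Pool.Agent.Work.MP_3a3367_rgs.InterfaceH

set_option autoImplicit false

namespace Pool.RGS

open Finset

theorem PPB_r {c : ℝ} (hc : 2 < c) : ∃ r : ℝ, 1 < r ∧ r + 1 / r < c := by
  set δ : ℝ := min 1 ((c - 2) / 2) with hδ
  have h1 : 0 < δ := lt_min one_pos (by linarith)
  have h2 : δ ≤ 1 := min_le_left _ _
  have h3 : δ ≤ (c - 2) / 2 := min_le_right _ _
  refine ⟨1 + δ, by linarith, ?_⟩
  have h4 : 1 / (1 + δ) ≤ 1 - δ + δ ^ 2 := by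
    rw [div_le_iff₀ (by linarith)]
    nlinarith [pow_pos h1 3]
  nlinarith

theorem PPB_ceil {a : ℝ} (ha : 0 ≤ a) : ∃ n : ℕ, a ≤ n ∧ (n : ℝ) ≤ a + 1 :=
  ⟨⌈a⌉₊, Nat.le_ceil a, (Nat.ceil_lt_add_one ha).le⟩

theorem PPB_K (K0 : ℕ) {m p : ℝ} (hm : 1 ≤ m) (hp : 1 ≤ p) (hpm : p ≤ m) :
    ∃ K : ℕ, K0 ≤ K ∧ 4 * Real.log (16 * m) ≤ K ∧ 40 * Real.log p ≤ K ∧
      (K : ℝ) ≤ 44 * Real.log m + (4 * Real.log 16 + 2 + K0) := by
  have hl16 : 0 ≤ Real.log 16 := Real.log_nonneg (by norm_num)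
  have hlp0 : 0 ≤ Real.log p := Real.log_nonneg hp
  have hlm0 : 0 ≤ Real.log m := Real.log_nonneg hm
  have hlpm : Real.log p ≤ Real.log m := Real.log_le_log (by linarith) hpm
  have hl : Real.log (16 * m) = Real.log 16 + Real.log m :=
    Real.log_mul (by norm_num) (by positivity)
  obtain ⟨n1, h1, h1'⟩ := PPB_ceil (show 0 ≤ 4 * Real.log (16 * m) by rw [hl]; positivity)
  obtain ⟨n2, h2, h2'⟩ := PPB_ceil (show 0 ≤ 40 * Real.log p by positivity)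
  have hn1 : (0 : ℝ) ≤ n1 := Nat.cast_nonneg _
  have hn2 : (0 : ℝ) ≤ n2 := Nat.cast_nonneg _
  have hn0 : (0 : ℝ) ≤ K0 := Nat.cast_nonneg _
  refine ⟨n1 + n2 + K0, by omega, ?_, ?_, ?_⟩ <;> push_cast <;> linarith

theorem p_PPB (hJMH : Stmt_JMH) (hCSE : Stmt_CSE) : Stmt_PPB := by
  intro c ε hc hε hε1
  obtain ⟨r, hr, hrc⟩ := PPB_r hc
  obtain ⟨κ1, hκ1, K0, hJ⟩ := hJMH r hr
  obtain ⟨C, m0, hC, hm0, hE⟩ := hCSE c r (ε / 2) hr.le hrc (by linarith)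
  obtain ⟨s, hs⟩ : ∃ s : ℝ, s = ε / 88 := ⟨_, rfl⟩
  have hs0 : 0 < s := by rw [hs]; positivity
  have hl16 : 0 ≤ Real.log 16 := Real.log_nonneg (by norm_num)
  obtain ⟨A, hA⟩ : ∃ A : ℝ, A = 44 / s + 4 * Real.log 16 + 2 + K0 := ⟨_, rfl⟩
  have hA0 : 0 < A := by rw [hA]; positivity
  obtain ⟨M0, hM1, hM2⟩ : ∃ M0 : ℝ, m0 ≤ M0 ∧ A ^ 30 ≤ M0 :=
    ⟨max m0 (A ^ 30), le_max_left _ _, le_max_right _ _⟩
  have hM00 : 0 < M0 := by linarith
  obtain ⟨κ, hκ0, hκa, hκb, hκc, hκd⟩ : ∃ κ : ℝ, 0 < κ ∧ κ ≤ κ1 ∧ κ ≤ 1 ∧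
      κ ≤ κ1 / ((1 + A ^ 44) * C) ∧ κ ≤ 2 / M0 :=
    ⟨min (min κ1 1) (min (κ1 / ((1 + A ^ 44) * C)) (2 / M0)),
      lt_min (lt_min hκ1 one_pos) (lt_min (by positivity) (by positivity)),
      (min_le_left _ _).trans (min_le_left _ _), (min_le_left _ _).trans (min_le_right _ _),
      (min_le_right _ _).trans (min_le_left _ _), (min_le_right _ _).trans (min_le_right _ _)⟩
  refine ⟨κ, hκ0, ?_⟩
  intro G _ f p m g hf hp hfp hm hpm
  have hm1 : 1 ≤ m := by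
    refine le_trans ?_ hm
    rw [show (1 : ℝ) = √1 by simp]
    exact Real.sqrt_le_sqrt (by norm_num)
  have hmpos : 0 < m := by linarith
  have hp2 : (2 : ℝ) ≤ p := by exact_mod_cast hp
  have hp0 : (0 : ℝ) < p := by linarith
  have hmm : m ^ (1 - ε) ≤ m := by
    have h1 := Real.rpow_le_rpow_of_exponent_le hm1 (show 1 - ε ≤ 1 by linarith)
    rwa [Real.rpow_one] at h1
  have hmε : 0 < m ^ (1 - ε) := Real.rpow_pos_of_pos hmpos _
  have hpκm : (p : ℝ) ≤ κ * m := hpm.trans (mul_le_mul_of_nonneg_left hmm hκ0.le)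
  have hpm1 : (p : ℝ) ≤ m := by nlinarith
  have hpκ1 : (p : ℝ) ≤ κ1 * m := hpκm.trans (mul_le_mul_of_nonneg_right hκa hmpos.le)
  have hMm : M0 ≤ m := by
    have h1 : 2 ≤ (2 / M0) * m := by
      refine (hp2.trans hpκm).trans (mul_le_mul_of_nonneg_right hκd hmpos.le)
    rw [div_mul_eq_mul_div, le_div_iff₀ hM00] at h1
    linarith
  have hm0m : m0 ≤ m := hM1.trans hMm
  have hA30 : A ^ 30 ≤ m := hM2.trans hMm
  obtain ⟨K, hKK, hKa, hKb, hKc⟩ := PPB_K K0 hm1 (show (1 : ℝ) ≤ p by linarith) hpm1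
  have hms1 : 1 ≤ m ^ s := Real.one_le_rpow hm1 hs0.le
  have hlms : Real.log m ≤ m ^ s / s := Real.log_le_rpow_div hmpos.le hs0
  have hKA : (K : ℝ) ≤ A * m ^ s := by
    have h2 : (4 * Real.log 16 + 2 + K0) ≤ (4 * Real.log 16 + 2 + K0) * m ^ s :=
      le_mul_of_one_le_right (by positivity) hms1
    have h3 : A * m ^ s = 44 * (m ^ s / s) + (4 * Real.log 16 + 2 + K0) * m ^ s := by
      rw [hA]
      ring
    rw [h3]
    linarith
  have hK0' : (0 : ℝ) ≤ K := Nat.cast_nonneg _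
  have hms0 : 0 ≤ m ^ s := by linarith
  have hK44 : (K : ℝ) ^ 44 ≤ A ^ 44 * m ^ (ε / 2) := by
    have h1 := pow_le_pow_left₀ hK0' hKA 44
    rw [mul_pow, ← Real.rpow_mul_natCast hmpos.le] at h1
    have h2 : s * ((44 : ℕ) : ℝ) = ε / 2 := by
      rw [hs]
      push_cast
      ring
    rwa [h2] at h1
  have hK15 : (K : ℝ) ^ 15 ≤ m := by
    have h1 := pow_le_pow_left₀ hK0' hKA 15
    rw [mul_pow, ← Real.rpow_mul_natCast hmpos.le] at h1
    have h2 : A ^ 15 ≤ √m := by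
      refine Real.le_sqrt_of_sq_le ?_
      rw [← pow_mul]
      exact hA30
    have h3 : m ^ (s * ((15 : ℕ) : ℝ)) ≤ √m := by
      rw [Real.sqrt_eq_rpow]
      refine Real.rpow_le_rpow_of_exponent_le hm1 ?_
      rw [hs]
      push_cast
      linarith
    have h4 : A ^ 15 * m ^ (s * ((15 : ℕ) : ℝ)) ≤ √m * √m :=
      mul_le_mul h2 h3 (Real.rpow_nonneg hmpos.le _) (Real.sqrt_nonneg _)
    rw [Real.mul_self_sqrt hmpos.le] at h4
    exact h1.trans h4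
  have hlpK : Real.log p ≤ (K : ℝ) / 40 := by
    rw [le_div_iff₀ (by norm_num)]
    linarith
  have hmK : m ≤ Real.exp ((K : ℝ) / 4) / 16 := by
    have h6 : Real.log (16 * m) ≤ (K : ℝ) / 4 := by
      rw [le_div_iff₀ (by norm_num)]
      linarith
    have h7 : 16 * m ≤ Real.exp ((K : ℝ) / 4) := by
      rw [← Real.exp_log (show 0 < 16 * m by positivity)]
      exact Real.exp_le_exp.2 h6
    rw [le_div_iff₀ (by norm_num)]
    linarith
  have hjump := hJ K p G f m hKK hf (by omega) hlpK hfp hK15 hpκ1 hmK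
  have hval := hE m hm0m G f g hf
  have hme : 1 ≤ m ^ (ε / 2) := Real.one_le_rpow hm1 (by linarith)
  have hme0 : 0 < m ^ (ε / 2) := by linarith
  have hA44 : 0 < A ^ 44 := by positivity
  have hden : (p : ℝ) + (K : ℝ) ^ 44 ≤ (1 + A ^ 44) * (p * m ^ (ε / 2)) := by
    have h1 : (p : ℝ) ≤ p * m ^ (ε / 2) := le_mul_of_one_le_right hp0.le hme
    have h2 : A ^ 44 * m ^ (ε / 2) ≤ A ^ 44 * (p * m ^ (ε / 2)) := by
      refine mul_le_mul_of_nonneg_left ?_ hA44.le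
      exact le_mul_of_one_le_left hme0.le (by linarith)
    have h3 : (1 + A ^ 44) * (p * m ^ (ε / 2)) = p * m ^ (ε / 2) + A ^ 44 * (p * m ^ (ε / 2)) := by
      ring
    rw [h3]
    linarith
  have hlow : κ1 * m / ((1 + A ^ 44) * (p * m ^ (ε / 2))) ≤ (JG f m r).card := by
    refine le_trans ?_ hjump
    exact div_le_div_of_nonneg_left (by positivity) (by positivity) hden
  have hchain : κ1 * m / ((1 + A ^ 44) * (p * m ^ (ε / 2))) ≤ C * m ^ (ε / 2) * (EG f m c g).card :=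
    hlow.trans hval
  have hsplit : m ^ (1 - ε) * (m ^ (ε / 2) * m ^ (ε / 2)) = m := by
    rw [← Real.rpow_add hmpos, ← Real.rpow_add hmpos]
    rw [show 1 - ε + (ε / 2 + ε / 2) = 1 by ring, Real.rpow_one]
  rw [div_le_iff₀ (by positivity)] at hchain
  have hcc : κ * ((1 + A ^ 44) * C) ≤ κ1 := by
    rwa [le_div_iff₀ (by positivity)] at hκc
  rw [div_le_iff₀ hp0]
  have hB : (0 : ℝ) < (1 + A ^ 44) * C * (m ^ (ε / 2) * m ^ (ε / 2)) := by positivity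
  refine le_of_mul_le_mul_left ?_ hB
  calc (1 + A ^ 44) * C * (m ^ (ε / 2) * m ^ (ε / 2)) * (κ * m ^ (1 - ε))
      = κ * ((1 + A ^ 44) * C) * (m ^ (1 - ε) * (m ^ (ε / 2) * m ^ (ε / 2))) := by ring
    _ = κ * ((1 + A ^ 44) * C) * m := by rw [hsplit]
    _ ≤ κ1 * m := mul_le_mul_of_nonneg_right hcc hmpos.le
    _ ≤ C * m ^ (ε / 2) * (EG f m c g).card * ((1 + A ^ 44) * (p * m ^ (ε / 2))) := hchain
    _ = (1 + A ^ 44) * C * (m ^ (ε / 2) * m ^ (ε / 2)) * ((EG f m c g).card * p) := by ring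

end Pool.RGS
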