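import Pool.Agent.Work.MP_3a3367_rgs.InterfaceB

/-!
# Block REL: restriction to multiples of `q` (helper6)
-/

set_option autoImplicit false

namespace Pool.RGS

open Finset

theorem REL_pow (u : ℕ → ℂ) : ∀ (k n : ℕ), (Sh ^ k) u n = u (n + k) := by
  intro k
  induction k with
  | zero => intro n; simp
  | succ k ih =>
    intro n
    have e : (Sh ^ (k + 1)) u = Sh ((Sh ^ k) u) := by
      rw [pow_succ']
      rfl
    have e2 : Sh ((Sh ^ k) u) n = ((Sh ^ k) u) (n + 1) := rfl
    rw [e, e2, ih (n + 1)]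
    exact congrArg u (by omega)

theorem REL_mono (c : ℂ) (k : ℕ) (u : ℕ → ℂ) (n : ℕ) :
    act (Polynomial.C c * Polynomial.X ^ k) u n = c * u (n + k) := by
  unfold act
  rw [map_mul, map_pow, Polynomial.aeval_X, Polynomial.aeval_C]
  have e : ((algebraMap ℂ ((ℕ → ℂ) →ₗ[ℂ] (ℕ → ℂ))) c * Sh ^ k) u n = c * (Sh ^ k) u n := by
    rw [Module.algebraMap_end_eq_smul_id]
    rfl
  rw [e, REL_pow]

theorem REL_add (A B : Polynomial ℂ) (u : ℕ → ℂ) (n : ℕ) : act (A + B) u n = act A u n + act B u n := by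
  unfold act
  rw [map_add]
  rfl

theorem REL_mul (A B : Polynomial ℂ) (u : ℕ → ℂ) : act (A * B) u = act A (act B u) := by
  unfold act
  rw [map_mul]
  rfl

theorem REL_zero (A : Polynomial ℂ) : act A 0 = 0 := by
  unfold act
  exact map_zero _

theorem REL_comp (q : ℕ) (u : ℕ → ℂ) (A : Polynomial ℂ) :
    ∀ a : ℕ, act (A.comp (Polynomial.X ^ q)) u (q * a) = act A (fun b => u (q * b)) a := by
  induction A using Polynomial.induction_on' with
  | add p r hp hr =>
    intro a
    rw [Polynomial.add_comp, REL_add, REL_add, hp a, hr a]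
  | monomial k c =>
    intro a
    rw [Polynomial.monomial_comp, ← Polynomial.C_mul_X_pow_eq_monomial, REL_mono, ← pow_mul, REL_mono]
    have e : q * a + q * k = q * (a + k) := by ring
    rw [e]

theorem REL_dvd (q : ℕ) (s : Multiset ℂ) :
    (s.map (fun ξ => Polynomial.X - Polynomial.C ξ)).prod ∣
      ((s.map (fun ξ => Polynomial.X - Polynomial.C (ξ ^ q))).prod).comp (Polynomial.X ^ q) := by
  induction s using Multiset.induction_on with
  | empty => simp
  | cons ξ s ih =>
    rw [Multiset.map_cons, Multiset.prod_cons, Multiset.map_cons, Multiset.prod_cons, Polynomial.mul_comp]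
    refine mul_dvd_mul ?_ ih
    rw [Polynomial.sub_comp, Polynomial.X_comp, Polynomial.C_comp, Polynomial.C_pow]
    exact sub_dvd_pow_sub_pow _ _ q

theorem p_REL : Stmt_REL := by
  intro q u Γ Γ1 hq hΓ hact h1 ζ hζ
  have hsplit : Γ = Polynomial.C Γ.leadingCoeff * (Γ.roots.map (fun ξ => Polynomial.X - Polynomial.C ξ)).prod :=
    (IsAlgClosed.splits Γ).eq_prod_roots
  have hlc : Γ.leadingCoeff ≠ 0 := Polynomial.leadingCoeff_ne_zero.mpr hΓ
  have hd : Γ ∣ ((Γ.roots.map (fun ξ => Polynomial.X - Polynomial.C (ξ ^ q))).prod).comp (Polynomial.X ^ q) := by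
    have h2 := REL_dvd q Γ.roots
    have hu : IsUnit (Polynomial.C Γ.leadingCoeff) := Polynomial.isUnit_C.mpr (isUnit_iff_ne_zero.mpr hlc)
    have h3 : Polynomial.C Γ.leadingCoeff * (Γ.roots.map (fun ξ => Polynomial.X - Polynomial.C ξ)).prod ∣
        ((Γ.roots.map (fun ξ => Polynomial.X - Polynomial.C (ξ ^ q))).prod).comp (Polynomial.X ^ q) :=
      (hu.mul_left_dvd).mpr h2
    rw [← hsplit] at h3
    exact h3
  have hz : act (((Γ.roots.map (fun ξ => Polynomial.X - Polynomial.C (ξ ^ q))).prod).comp (Polynomial.X ^ q)) u = 0 := by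
    obtain ⟨B, hB⟩ := hd
    rw [hB, mul_comm, REL_mul, hact, REL_zero]
  have hA : act ((Γ.roots.map (fun ξ => Polynomial.X - Polynomial.C (ξ ^ q))).prod) (fun a => u (q * a)) = 0 := by
    funext a
    rw [← REL_comp, hz]
    rfl
  have h4 := h1 _ hA
  have h5 : ((Γ.roots.map (fun ξ => Polynomial.X - Polynomial.C (ξ ^ q))).prod).eval ζ = 0 := by
    obtain ⟨B, hB⟩ := h4
    rw [hB, Polynomial.eval_mul]
    have h6 : Γ1.eval ζ = 0 := hζ
    rw [h6, zero_mul]
  rw [Polynomial.eval_multiset_prod, Multiset.map_map] at h5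
  rw [Multiset.prod_eq_zero_iff] at h5
  obtain ⟨ξ, hξ, h7⟩ := Multiset.mem_map.mp h5
  refine ⟨ξ, (Polynomial.mem_roots hΓ).mp hξ, ?_⟩
  simp only [Function.comp_apply, Polynomial.eval_sub, Polynomial.eval_X, Polynomial.eval_C] at h7
  exact (sub_eq_zero.mp h7).symm

end Pool.RGS
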