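import Pool.Agent.Work.MP_3a3367_rgs.InterfaceB

set_option autoImplicit false

namespace Pool.RGS

open Finset

/-- An integer of modulus less than one vanishes. -/
theorem RND_int (z : ℤ) (h : |(z : ℝ)| < 1) : z = 0 := by
  have h1 : |z| < 1 := by exact_mod_cast h
  exact Int.abs_lt_one_iff.mp h1

/-- Additivity of the rounded logarithm. -/
theorem RND_mul (y : ℕ) (θ ε : ℝ) (hε : 3 * ε < 1)
    (hg : ∀ n : ℕ, 1 ≤ n → n ≤ y → |θ * Real.log n - round (θ * Real.log n)| ≤ ε)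
    (a b : ℕ) (ha : 1 ≤ a) (hb : 1 ≤ b) (hab : a * b ≤ y) :
    round (θ * Real.log ((a * b : ℕ) : ℝ)) = round (θ * Real.log (a : ℝ)) + round (θ * Real.log (b : ℝ)) := by
  have hay : a ≤ y := le_trans (Nat.le_mul_of_pos_right a hb) hab
  have hby : b ≤ y := le_trans (Nat.le_mul_of_pos_left b ha) hab
  have h1 := hg (a * b) (Nat.mul_pos ha hb) hab
  have h2 := hg a ha hay
  have h3 := hg b hb hby
  have hlog : Real.log ((a * b : ℕ) : ℝ) = Real.log (a : ℝ) + Real.log (b : ℝ) := by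
    push_cast
    exact Real.log_mul (by positivity) (by positivity)
  have hz : round (θ * Real.log ((a * b : ℕ) : ℝ)) - (round (θ * Real.log (a : ℝ)) + round (θ * Real.log (b : ℝ))) = 0 := by
    apply RND_int
    have e1 := abs_le.mp h1
    have e2 := abs_le.mp h2
    have e3 := abs_le.mp h3
    rw [hlog] at e1 ⊢
    push_cast
    rw [abs_lt]
    constructor
    · nlinarith [e1.1, e1.2, e2.1, e2.2, e3.1, e3.2]
    · nlinarith [e1.1, e1.2, e2.1, e2.2, e3.1, e3.2]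
  omega

/-- The approximation of `G`. -/
theorem RND_approx (P N0 Z y : ℕ) (θ ε : ℝ) (hN : 1 ≤ N0) (hy : P * (N0 + Z) ≤ y)
    (hg : ∀ n : ℕ, 1 ≤ n → n ≤ y → |θ * Real.log n - round (θ * Real.log n)| ≤ ε)
    (q : ℕ) (hq : 1 ≤ q) (hqP : q ≤ P) (a : ℕ) (ha : a ≤ q * Z) :
    |((round (θ * Real.log ((q * N0 + a : ℕ) : ℝ)) - round (θ * Real.log ((q * N0 : ℕ) : ℝ)) : ℤ) : ℝ)
      - θ * Real.log (1 + (a : ℝ) / ((q : ℝ) * N0))| ≤ 2 * ε := by
  have hqN : 1 ≤ q * N0 := Nat.mul_pos hq hN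
  have hle : q * N0 + a ≤ y := by
    calc q * N0 + a ≤ q * N0 + q * Z := by omega
      _ = q * (N0 + Z) := by ring
      _ ≤ P * (N0 + Z) := Nat.mul_le_mul_right _ hqP
      _ ≤ y := hy
  have h1 := abs_le.mp (hg (q * N0 + a) (by omega) hle)
  have h2 := abs_le.mp (hg (q * N0) hqN (by omega))
  have hqN' : (0 : ℝ) < (q : ℝ) * N0 := by exact_mod_cast hqN
  have hlog : Real.log (1 + (a : ℝ) / ((q : ℝ) * N0)) = Real.log ((q * N0 + a : ℕ) : ℝ) - Real.log ((q * N0 : ℕ) : ℝ) := by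
    push_cast
    rw [← Real.log_div (by positivity) (by positivity)]
    congr 1
    field_simp
  rw [hlog]
  push_cast at h1 h2 ⊢
  rw [abs_le]
  constructor
  · nlinarith [h1.1, h1.2, h2.1, h2.2]
  · nlinarith [h1.1, h1.2, h2.1, h2.2]

/-- **RND**. -/
theorem p_RND (hTAY : Stmt_TAY) : Stmt_RND := by
  intro K P N0 Z y w θ ε hP hN hZN hθ hε h3ε hy hg hmom hw hsmall
  refine ⟨fun q a => round (θ * Real.log ((q * N0 + a : ℕ) : ℝ)) - round (θ * Real.log ((q * N0 : ℕ) : ℝ)), ?_, ?_, ?_, ?_⟩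
  · simp
  · intro q hq hqP a ha
    have hN1 : 1 ≤ N0 + a := by omega
    have hle : q * (N0 + a) ≤ y := by
      calc q * (N0 + a) ≤ P * (N0 + Z) := Nat.mul_le_mul hqP (by omega)
        _ ≤ y := hy
    have hle2 : q * N0 ≤ y := le_trans (Nat.mul_le_mul_left q (by omega)) hle
    have e1 := RND_mul y θ ε h3ε hg q (N0 + a) hq hN1 hle
    have e2 := RND_mul y θ ε h3ε hg q N0 hq hN hle2
    have e3 : q * N0 + q * a = q * (N0 + a) := by ring
    show round (θ * Real.log ((q * N0 + q * a : ℕ) : ℝ)) - round (θ * Real.log ((q * N0 : ℕ) : ℝ))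
      = round (θ * Real.log ((1 * N0 + a : ℕ) : ℝ)) - round (θ * Real.log ((1 * N0 : ℕ) : ℝ))
    rw [e3, e1, e2, one_mul]
    ring
  · intro a ha
    have h := RND_approx P N0 Z y θ ε hN hy hg 1 le_rfl hP a (by omega)
    simpa using h
  · intro q hq hqP j hj hjP b hb
    apply RND_int
    have hqN' : (0 : ℝ) < (q : ℝ) * N0 := by exact_mod_cast Nat.mul_pos hq hN
    have hqpos : (0 : ℝ) < (q : ℝ) := by exact_mod_cast hq
    have hNpos : (0 : ℝ) < (N0 : ℝ) := by exact_mod_cast hN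
    have hτ : ((Z : ℝ) / N0) ≤ 1 / 2 := by
      rw [div_le_div_iff₀ hNpos (by norm_num)]
      have : ((2 * Z : ℕ) : ℝ) ≤ (N0 : ℝ) := by exact_mod_cast hZN
      push_cast at this
      linarith
    have huh : (b : ℝ) / ((q : ℝ) * N0) + (P : ℝ) * ((j : ℝ) / ((q : ℝ) * N0)) ≤ (Z : ℝ) / N0 := by
      have hb' : (b : ℝ) + j * P ≤ q * Z := by exact_mod_cast hb
      have e : (b : ℝ) / ((q : ℝ) * N0) + (P : ℝ) * ((j : ℝ) / ((q : ℝ) * N0)) = ((b : ℝ) + j * P) / ((q : ℝ) * N0) := by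
        field_simp
      have e2 : (Z : ℝ) / N0 = (q * Z) / ((q : ℝ) * N0) := by
        field_simp
      rw [e, e2]
      exact div_le_div_of_nonneg_right hb' hqN'.le
    have hT := hTAY K P w ((b : ℝ) / ((q : ℝ) * N0)) ((j : ℝ) / ((q : ℝ) * N0)) ((Z : ℝ) / N0) hmom hw
      (by positivity) (by positivity) huh hτ
    -- the two sums
    have hdiff : |(∑ a ∈ range (P + 1), ((w a : ℝ) * ((round (θ * Real.log ((q * N0 + (b + j * a) : ℕ) : ℝ)) - round (θ * Real.log ((q * N0 : ℕ) : ℝ)) : ℤ) : ℝ)))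
        - θ * ∑ a ∈ range (P + 1), (w a : ℝ) * Real.log (1 + ((b : ℝ) / ((q : ℝ) * N0) + a * ((j : ℝ) / ((q : ℝ) * N0))))|
        ≤ ((P : ℝ) + 1) * (2 * ε) := by
      rw [Finset.mul_sum, ← Finset.sum_sub_distrib]
      refine le_trans (Finset.abs_sum_le_sum_abs _ _) ?_
      have hterm : ∀ a ∈ range (P + 1), |(w a : ℝ) * ((round (θ * Real.log ((q * N0 + (b + j * a) : ℕ) : ℝ)) - round (θ * Real.log ((q * N0 : ℕ) : ℝ)) : ℤ) : ℝ)
          - θ * ((w a : ℝ) * Real.log (1 + ((b : ℝ) / ((q : ℝ) * N0) + a * ((j : ℝ) / ((q : ℝ) * N0)))))| ≤ 2 * ε := by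
        intro a ha
        have haP : a ≤ P := by
          have := Finset.mem_range.mp ha
          omega
        have hba : b + j * a ≤ q * Z := le_trans (Nat.add_le_add_left (Nat.mul_le_mul_left j haP) b) hb
        have hA := RND_approx P N0 Z y θ ε hN hy hg q hq hqP (b + j * a) hba
        have earg : (b : ℝ) / ((q : ℝ) * N0) + a * ((j : ℝ) / ((q : ℝ) * N0)) = ((b + j * a : ℕ) : ℝ) / ((q : ℝ) * N0) := by
          push_cast
          field_simp
        rw [earg]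
        have ew : (w a : ℝ) * ((round (θ * Real.log ((q * N0 + (b + j * a) : ℕ) : ℝ)) - round (θ * Real.log ((q * N0 : ℕ) : ℝ)) : ℤ) : ℝ)
            - θ * ((w a : ℝ) * Real.log (1 + ((b + j * a : ℕ) : ℝ) / ((q : ℝ) * N0)))
            = (w a : ℝ) * (((round (θ * Real.log ((q * N0 + (b + j * a) : ℕ) : ℝ)) - round (θ * Real.log ((q * N0 : ℕ) : ℝ)) : ℤ) : ℝ)
              - θ * Real.log (1 + ((b + j * a : ℕ) : ℝ) / ((q : ℝ) * N0))) := by ring
        rw [ew, abs_mul]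
        have hwa : |(w a : ℝ)| ≤ 1 := by exact_mod_cast hw a
        calc |(w a : ℝ)| * |((round (θ * Real.log ((q * N0 + (b + j * a) : ℕ) : ℝ)) - round (θ * Real.log ((q * N0 : ℕ) : ℝ)) : ℤ) : ℝ)
              - θ * Real.log (1 + ((b + j * a : ℕ) : ℝ) / ((q : ℝ) * N0))|
            ≤ 1 * (2 * ε) := mul_le_mul hwa hA (abs_nonneg _) (by norm_num)
          _ = 2 * ε := one_mul _
      calc ∑ a ∈ range (P + 1), |(w a : ℝ) * ((round (θ * Real.log ((q * N0 + (b + j * a) : ℕ) : ℝ)) - round (θ * Real.log ((q * N0 : ℕ) : ℝ)) : ℤ) : ℝ)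
          - θ * ((w a : ℝ) * Real.log (1 + ((b : ℝ) / ((q : ℝ) * N0) + a * ((j : ℝ) / ((q : ℝ) * N0)))))|
          ≤ ∑ a ∈ range (P + 1), 2 * ε := Finset.sum_le_sum hterm
        _ = ((P : ℝ) + 1) * (2 * ε) := by
          rw [Finset.sum_const, Finset.card_range, nsmul_eq_mul]
          push_cast
          ring
    have hmain : |θ * ∑ a ∈ range (P + 1), (w a : ℝ) * Real.log (1 + ((b : ℝ) / ((q : ℝ) * N0) + a * ((j : ℝ) / ((q : ℝ) * N0))))|
        ≤ θ * (((P : ℝ) + 1) * (2 * ((Z : ℝ) / N0) ^ (K + 1))) := by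
      rw [abs_mul, abs_of_nonneg hθ]
      exact mul_le_mul_of_nonneg_left hT hθ
    have hcast : ((∑ a ∈ range (P + 1), w a * (round (θ * Real.log ((q * N0 + (b + j * a) : ℕ) : ℝ)) - round (θ * Real.log ((q * N0 : ℕ) : ℝ))) : ℤ) : ℝ)
        = ∑ a ∈ range (P + 1), ((w a : ℝ) * ((round (θ * Real.log ((q * N0 + (b + j * a) : ℕ) : ℝ)) - round (θ * Real.log ((q * N0 : ℕ) : ℝ)) : ℤ) : ℝ)) := by
      rw [Int.cast_sum]
      refine Finset.sum_congr rfl ?_
      intro a _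
      rw [Int.cast_mul]
    show |((∑ a ∈ range (P + 1), w a * (round (θ * Real.log ((q * N0 + (b + j * a) : ℕ) : ℝ)) - round (θ * Real.log ((q * N0 : ℕ) : ℝ))) : ℤ) : ℝ)| < 1
    rw [hcast]
    have h1 := abs_le.mp hdiff
    have h2 := abs_le.mp hmain
    rw [abs_lt]
    constructor
    · nlinarith [h1.1, h1.2, h2.1, h2.2, hsmall]
    · nlinarith [h1.1, h1.2, h2.1, h2.2, hsmall]

end Pool.RGS
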