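import Pool.Agent.Work.MP_3a3367_rgs.InterfaceB

/-!
# Block RTS: the roots are roots of unity (helper12)
-/

set_option autoImplicit false

namespace Pool.RGS

open Finset

/-- The polynomial `W`. -/
noncomputable def RTS_W (d : ℕ) (w : ℕ → ℂ) : Polynomial ℂ :=
  ∑ i ∈ range (d + 1), Polynomial.C (w i) * Polynomial.X ^ i

theorem RTS_eval (d : ℕ) (w : ℕ → ℂ) (z : ℂ) :
    (RTS_W d w).eval z = ∑ i ∈ range (d + 1), w i * z ^ i := by
  unfold RTS_W
  rw [Polynomial.eval_finset_sum]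
  refine Finset.sum_congr rfl fun i _ => ?_
  simp

theorem RTS_coeff0 (d : ℕ) (w : ℕ → ℂ) : (RTS_W d w).eval 0 = w 0 := by
  rw [RTS_eval, Finset.sum_range_succ', Finset.sum_eq_zero]
  · simp
  · intro i _
    simp

theorem RTS_deg (d : ℕ) (w : ℕ → ℂ) : (RTS_W d w).natDegree ≤ d := by
  unfold RTS_W
  refine Polynomial.natDegree_sum_le_of_forall_le _ _ ?_
  intro i hi
  have := Finset.mem_range.mp hi
  exact le_trans (Polynomial.natDegree_C_mul_X_pow_le _ _) (by omega)

theorem p_RTS : Stmt_RTS := by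
  intro d w Γ ξ h0 _ hdiv hroot
  have key : ∀ j, 1 ≤ j → j ≤ d + 1 → (RTS_W d w).eval (ξ ^ j) = 0 := by
    intro j h1 h2
    obtain ⟨B, hB⟩ := hdiv j h1 h2
    have e : (∑ i ∈ range (d + 1), Polynomial.C (w i) * Polynomial.X ^ (j * i)).eval ξ = 0 := by
      rw [hB, Polynomial.eval_mul]
      have : Γ.eval ξ = 0 := hroot
      rw [this, zero_mul]
    rw [RTS_eval]
    rw [Polynomial.eval_finset_sum] at e
    rw [← e]
    refine Finset.sum_congr rfl fun i _ => ?_
    simp [pow_mul]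
  have hW : RTS_W d w ≠ 0 := by
    intro h
    apply h0
    rw [← RTS_coeff0 d w, h, Polynomial.eval_zero]
  have hξ : ξ ≠ 0 := by
    intro h
    have e := key 1 le_rfl (by omega)
    rw [h, pow_one, RTS_coeff0] at e
    exact h0 e
  have hcard : (RTS_W d w).roots.toFinset.card < (Finset.Icc 1 (d + 1)).card := by
    have h1 := Multiset.toFinset_card_le (RTS_W d w).roots
    have h2 := Polynomial.card_roots' (RTS_W d w)
    have h3 := RTS_deg d w
    rw [Nat.card_Icc]
    omega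
  have hmap : ∀ j ∈ Finset.Icc 1 (d + 1), ξ ^ j ∈ (RTS_W d w).roots.toFinset := by
    intro j hj
    rw [Finset.mem_Icc] at hj
    rw [Multiset.mem_toFinset, Polynomial.mem_roots hW]
    exact key j hj.1 hj.2
  obtain ⟨i, hi, j, hj, hij, he⟩ := Finset.exists_ne_map_eq_of_card_lt_of_maps_to hcard hmap
  rw [Finset.mem_Icc] at hi hj
  rcases lt_or_gt_of_ne hij with hlt | hlt
  · refine ⟨j - i, by omega, by omega, ?_⟩
    have e : ξ ^ i * ξ ^ (j - i) = ξ ^ i * 1 := by
      rw [← pow_add, mul_one, Nat.add_sub_cancel' hlt.le]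
      exact he.symm
    exact mul_left_cancel₀ (pow_ne_zero i hξ) e
  · refine ⟨i - j, by omega, by omega, ?_⟩
    have e : ξ ^ j * ξ ^ (i - j) = ξ ^ j * 1 := by
      rw [← pow_add, mul_one, Nat.add_sub_cancel' hlt.le]
      exact he
    exact mul_left_cancel₀ (pow_ne_zero j hξ) e

end Pool.RGS
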