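import Pool.Agent.Work.MP_3a3367_rgs.Interface

set_option autoImplicit false

namespace Pool.RGS

open Finset

private lemma sie_pow (m : ℕ) (hm : 8 ≤ m) : 16 * m + 16 ≤ 2 ^ m := by
  induction m, hm using Nat.le_induction with
  | base => norm_num
  | succ n hn ih => rw [pow_succ]; omega

private lemma sie_card (K : ℕ) (hK : 128 ≤ K) :
    ((K ^ 3 + 1) ^ (K + 1) + 1) ^ (K + 1) < 2 ^ (K ^ 3 + 1) := by
  obtain ⟨m, hm⟩ : ∃ m, m = K / 16 := ⟨_, rfl⟩
  have hm8 : 8 ≤ m := by omega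
  have hmK : 16 * m ≤ K := by omega
  have hKm : K + 1 ≤ 2 ^ m := by
    have := sie_pow m hm8
    omega
  have h1 : K ^ 3 + 1 ≤ 2 ^ (3 * m) := by
    have h2 : K ^ 3 + 1 ≤ (K + 1) ^ 3 := by nlinarith
    calc K ^ 3 + 1 ≤ (K + 1) ^ 3 := h2
      _ ≤ (2 ^ m) ^ 3 := Nat.pow_le_pow_left hKm 3
      _ = 2 ^ (3 * m) := by rw [← pow_mul, mul_comm]
  have h3 : (K ^ 3 + 1) ^ (K + 1) + 1 ≤ 2 ^ (3 * m * (K + 1) + 1) := by
    have h4 : (K ^ 3 + 1) ^ (K + 1) ≤ 2 ^ (3 * m * (K + 1)) := by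
      calc (K ^ 3 + 1) ^ (K + 1) ≤ (2 ^ (3 * m)) ^ (K + 1) := Nat.pow_le_pow_left h1 _
        _ = 2 ^ (3 * m * (K + 1)) := by rw [← pow_mul]
    have h5 : 1 ≤ 2 ^ (3 * m * (K + 1)) := Nat.one_le_two_pow
    have h5' : 2 ^ (3 * m * (K + 1) + 1) = 2 * 2 ^ (3 * m * (K + 1)) := by rw [pow_succ]; ring
    rw [h5']
    omega
  have h6 : (3 * m * (K + 1) + 1) * (K + 1) < K ^ 3 + 1 := by
    have h7 : 16 * ((3 * m * (K + 1) + 1) * (K + 1)) ≤ 3 * K * (K + 1) ^ 2 + 16 * (K + 1) := by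
      have h8 : 16 * ((3 * m * (K + 1) + 1) * (K + 1)) = 3 * (16 * m) * (K + 1) ^ 2 + 16 * (K + 1) := by ring
      rw [h8]
      have h9 : 3 * (16 * m) * (K + 1) ^ 2 ≤ 3 * K * (K + 1) ^ 2 :=
        Nat.mul_le_mul_right _ (Nat.mul_le_mul_left _ hmK)
      omega
    have h10 : 3 * K * (K + 1) ^ 2 + 16 * (K + 1) ≤ 16 * K ^ 3 := by
      nlinarith [mul_le_mul hK hK (by norm_num) (by omega : 0 ≤ K), Nat.mul_le_mul_left (K * K) hK, Nat.mul_le_mul_left K hK]
    omega
  calc ((K ^ 3 + 1) ^ (K + 1) + 1) ^ (K + 1) ≤ (2 ^ (3 * m * (K + 1) + 1)) ^ (K + 1) :=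
        Nat.pow_le_pow_left h3 _
    _ = 2 ^ ((3 * m * (K + 1) + 1) * (K + 1)) := by rw [← pow_mul]
    _ < 2 ^ (K ^ 3 + 1) := Nat.pow_lt_pow_right (by norm_num) h6

theorem p_SIE : Stmt_SIE := by
  refine ⟨128, fun K hK => ?_⟩
  obtain ⟨N, hN⟩ : ∃ N, N = K ^ 3 + 1 := ⟨_, rfl⟩
  have hcard := sie_card K hK
  rw [← hN] at hcard
  have hN1 : 1 ≤ N := by omega
  -- pigeonhole
  have hpig : ∃ S ∈ (range N).powerset, ∃ S' ∈ (range N).powerset, S ≠ S' ∧
      (fun j : Fin (K + 1) => ∑ a ∈ S, a ^ (j : ℕ)) = (fun j : Fin (K + 1) => ∑ a ∈ S', a ^ (j : ℕ)) := by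
    refine Finset.exists_ne_map_eq_of_card_lt_of_maps_to
      (t := Fintype.piFinset (fun _ : Fin (K + 1) => range (N ^ (K + 1) + 1))) ?_ ?_
    · rw [Finset.card_powerset, Finset.card_range, Fintype.card_piFinset]
      simpa using hcard
    · intro S hS
      have hS' : S ⊆ range N := Finset.mem_powerset.1 (Finset.mem_coe.1 hS)
      simp only [Finset.mem_coe, Fintype.mem_piFinset, Finset.mem_range]
      intro j
      have hj : (j : ℕ) ≤ K := by have := j.2; omega
      have h1 : ∑ a ∈ S, a ^ (j : ℕ) ≤ ∑ a ∈ S, N ^ K := by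
        refine Finset.sum_le_sum fun a ha => ?_
        have ha' : a < N := Finset.mem_range.1 (hS' ha)
        calc a ^ (j : ℕ) ≤ N ^ (j : ℕ) := Nat.pow_le_pow_left ha'.le _
          _ ≤ N ^ K := Nat.pow_le_pow_right hN1 hj
      have h2 : S.card ≤ N := by
        have := Finset.card_le_card hS'
        simpa using this
      have h3 : ∑ a ∈ S, N ^ K ≤ N * N ^ K := by
        rw [Finset.sum_const, smul_eq_mul]
        exact Nat.mul_le_mul_right _ h2
      have h4 : N * N ^ K = N ^ (K + 1) := by rw [pow_succ, mul_comm]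
      omega
  obtain ⟨S, hS, S', hS', hne, heq⟩ := hpig
  have hSN : S ⊆ range N := Finset.mem_powerset.1 hS
  have hSN' : S' ⊆ range N := Finset.mem_powerset.1 hS'
  let t : ℕ → ℤ := fun a => (if a ∈ S then 1 else 0) - (if a ∈ S' then 1 else 0)
  have ht1 : ∀ a, |t a| ≤ 1 := by
    intro a
    simp only [t]
    split_ifs <;> norm_num
  have htN : ∀ a, N ≤ a → t a = 0 := by
    intro a ha
    have h1 : a ∉ S := fun h => by
      have := Finset.mem_range.1 (hSN h); omega
    have h2 : a ∉ S' := fun h => by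
      have := Finset.mem_range.1 (hSN' h); omega
    simp [t, h1, h2]
  have hmom : ∀ j ≤ K, ∑ a ∈ range N, t a * (a : ℤ) ^ j = 0 := by
    intro j hj
    have h1 := congrFun heq ⟨j, by omega⟩
    simp only at h1
    have h2 : ∀ T : Finset ℕ, T ⊆ range N →
        ∑ a ∈ range N, (if a ∈ T then (1 : ℤ) else 0) * (a : ℤ) ^ j = ((∑ a ∈ T, a ^ j : ℕ) : ℤ) := by
      intro T hT
      push_cast
      rw [← Finset.sum_subset hT (f := fun a => (if a ∈ T then (1 : ℤ) else 0) * (a : ℤ) ^ j)]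
      · refine Finset.sum_congr rfl fun a ha => ?_
        simp [ha]
      · intro a _ ha
        simp [ha]
    have h3 : ∑ a ∈ range N, t a * (a : ℤ) ^ j =
        ∑ a ∈ range N, (if a ∈ S then (1 : ℤ) else 0) * (a : ℤ) ^ j -
        ∑ a ∈ range N, (if a ∈ S' then (1 : ℤ) else 0) * (a : ℤ) ^ j := by
      rw [← Finset.sum_sub_distrib]
      refine Finset.sum_congr rfl fun a _ => ?_
      simp only [t]
      ring
    rw [h3, h2 S hSN, h2 S' hSN', h1, sub_self]
  -- the support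
  have hex : ((range N).filter (fun a => t a ≠ 0)).Nonempty := by
    by_contra hcon
    rw [Finset.not_nonempty_iff_eq_empty] at hcon
    apply hne
    have hall : ∀ a, t a = 0 := by
      intro a
      by_cases ha : a < N
      · by_contra h
        have : a ∈ (range N).filter (fun a => t a ≠ 0) := by simp [ha, h]
        rw [hcon] at this
        simp at this
      · exact htN a (by omega)
    ext a
    have := hall a
    simp only [t] at this
    by_cases h1 : a ∈ S <;> by_cases h2 : a ∈ S' <;> simp [h1, h2] at this ⊢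
  obtain ⟨a0, ha0⟩ : ∃ a0, a0 = ((range N).filter (fun a => t a ≠ 0)).min' hex := ⟨_, rfl⟩
  obtain ⟨a1, ha1⟩ : ∃ a1, a1 = ((range N).filter (fun a => t a ≠ 0)).max' hex := ⟨_, rfl⟩
  have ha0m : a0 ∈ (range N).filter (fun a => t a ≠ 0) := by rw [ha0]; exact Finset.min'_mem _ _
  have ha1m : a1 ∈ (range N).filter (fun a => t a ≠ 0) := by rw [ha1]; exact Finset.max'_mem _ _
  have h0lt : a0 < N ∧ t a0 ≠ 0 := by simpa using ha0m
  have h1lt : a1 < N ∧ t a1 ≠ 0 := by simpa using ha1m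
  have hle : a0 ≤ a1 := by rw [ha0]; exact Finset.min'_le _ _ ha1m
  have hlow : ∀ a, a < a0 → t a = 0 := by
    intro a ha
    by_contra h
    have : a ∈ (range N).filter (fun a => t a ≠ 0) := by
      simp only [Finset.mem_filter, Finset.mem_range]
      exact ⟨by omega, h⟩
    have h2 := Finset.min'_le _ _ this
    rw [← ha0] at h2
    omega
  have hhigh : ∀ a, a1 < a → t a = 0 := by
    intro a ha
    by_cases haN : a < N
    · by_contra h
      have : a ∈ (range N).filter (fun a => t a ≠ 0) := by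
        simp only [Finset.mem_filter, Finset.mem_range]
        exact ⟨haN, h⟩
      have h2 := Finset.le_max' _ _ this
      rw [← ha1] at h2
      omega
    · exact htN a (by omega)
  -- shifted moments
  have hsh : ∀ j ≤ K, ∑ a ∈ range (a1 - a0 + 1), t (a0 + a) * (a : ℤ) ^ j = 0 := by
    intro j hj
    have h1 : ∑ a ∈ range (a1 - a0 + 1), t (a0 + a) * (a : ℤ) ^ j =
        ∑ b ∈ Finset.Ico a0 (a1 + 1), t b * ((b : ℤ) - a0) ^ j := by
      rw [Finset.sum_Ico_eq_sum_range]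
      have h2 : a1 + 1 - a0 = a1 - a0 + 1 := by omega
      rw [h2]
      refine Finset.sum_congr rfl fun a _ => ?_
      push_cast
      ring
    have h3 : ∑ b ∈ Finset.Ico a0 (a1 + 1), t b * ((b : ℤ) - a0) ^ j =
        ∑ b ∈ range N, t b * ((b : ℤ) - a0) ^ j := by
      refine Finset.sum_subset ?_ ?_
      · intro b hb
        rw [Finset.mem_Ico] at hb
        rw [Finset.mem_range]
        omega
      · intro b _ hb
        rw [Finset.mem_Ico] at hb
        by_cases hb0 : b < a0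
        · rw [hlow b hb0, zero_mul]
        · rw [hhigh b (by omega), zero_mul]
    rw [h1, h3]
    have h4 : ∀ b : ℕ, t b * ((b : ℤ) - a0) ^ j =
        ∑ i ∈ range (j + 1), (t b * (b : ℤ) ^ i) * ((-(a0 : ℤ)) ^ (j - i) * (j.choose i : ℤ)) := by
      intro b
      rw [sub_eq_add_neg, add_pow, Finset.mul_sum]
      refine Finset.sum_congr rfl fun i _ => ?_
      ring
    simp_rw [h4]
    rw [Finset.sum_comm]
    refine Finset.sum_eq_zero fun i hi => ?_
    rw [← Finset.sum_mul, hmom i (by rw [Finset.mem_range] at hi; omega), zero_mul]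
  refine ⟨a1 - a0, fun a => t (a0 + a), ?_, ?_, ?_, ?_, fun a => ht1 _, hsh⟩
  · by_contra hcon
    have hP : a1 - a0 = 0 := by omega
    have h1 := hsh 0 (by omega)
    rw [hP] at h1
    simp at h1
    exact h0lt.2 h1
  · omega
  · simpa using h0lt.2
  · have : a0 + (a1 - a0) = a1 := by omega
    simp only [this]
    exact h1lt.2

end Pool.RGS
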