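import Pool.Agent.Work.MP_3a3367_rgs.InterfaceB

set_option autoImplicit false

namespace Pool.RGS

open Finset

theorem SM2_mem {m c : ℝ} {n : ℕ} (h : n ∈ II m c) (hmc : 0 ≤ m ^ 2 + c * m) :
    m ^ 2 < (n : ℝ) ∧ (n : ℝ) ≤ m ^ 2 + c * m := by
  rw [II, mem_filter, mem_range] at h
  refine ⟨h.2, ?_⟩
  have h1 : n ≤ ⌊m ^ 2 + c * m⌋₊ := Nat.lt_succ_iff.1 h.1
  exact (Nat.cast_le.2 h1).trans (Nat.floor_le hmc)

theorem SM2_count {m c s : ℝ} (hm : 0 < m) (hc : 0 < c) (hs : 0 < s) {w : ℕ} (hw : m / s ≤ w) :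
    (((II m c).filter (fun n => w ∣ n)).card : ℝ) ≤ c * s + 1 := by
  have hms : 0 < m / s := by positivity
  have hw0 : (0 : ℝ) < w := hms.trans_le hw
  have hmc : 0 ≤ m ^ 2 + c * m := by positivity
  have hsub : (II m c).filter (fun n => w ∣ n) ⊆
      (Ioc ⌊m ^ 2 / (w : ℝ)⌋₊ ⌊(m ^ 2 + c * m) / (w : ℝ)⌋₊).image (fun j => w * j) := by
    intro n hn
    rw [mem_filter] at hn
    obtain ⟨hn1, j, rfl⟩ := hn
    obtain ⟨h1, h2⟩ := SM2_mem hn1 hmc
    push_cast at h1 h2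
    refine mem_image.2 ⟨j, mem_Ioc.2 ⟨?_, ?_⟩, rfl⟩
    · rw [Nat.floor_lt (by positivity), div_lt_iff₀ hw0]
      linarith
    · rw [Nat.le_floor_iff (by positivity), le_div_iff₀ hw0]
      linarith
  have h1 := (card_le_card hsub).trans card_image_le
  rw [Nat.card_Ioc] at h1
  have h6 : (m ^ 2 + c * m) / (w : ℝ) = m ^ 2 / w + c * m / w := add_div _ _ _
  have h8 : 0 ≤ c * m / (w : ℝ) := by positivity
  have h2 : ⌊m ^ 2 / (w : ℝ)⌋₊ ≤ ⌊(m ^ 2 + c * m) / (w : ℝ)⌋₊ := by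
    refine Nat.floor_le_floor ?_
    linarith
  have h3 : (((II m c).filter (fun n => w ∣ n)).card : ℝ) ≤
      (⌊(m ^ 2 + c * m) / (w : ℝ)⌋₊ : ℝ) - (⌊m ^ 2 / (w : ℝ)⌋₊ : ℝ) := by
    rw [← Nat.cast_sub h2]
    exact_mod_cast h1
  have h4 := Nat.floor_le (show 0 ≤ (m ^ 2 + c * m) / (w : ℝ) by positivity)
  have h5 := Nat.lt_floor_add_one (m ^ 2 / (w : ℝ))
  have h7 : c * m / (w : ℝ) ≤ c * s := by
    rw [div_le_iff₀ hw0]
    rw [div_le_iff₀ hs] at hw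
    nlinarith
  linarith

theorem SM2_swap {m c s : ℝ} (hm : 0 < m) (hc : 0 < c) (hs : 0 < s) (Y : ℕ) (E : ℕ → Finset ℕ)
    (hE : ∀ n ∈ II m c, ∀ w ∈ E n, 1 ≤ w ∧ w ≤ Y ∧ m / s ≤ (w : ℝ) ∧ w ∣ n) (F : ℕ → ℝ)
    (hF : ∀ w, 0 ≤ F w) :
    ∑ n ∈ II m c, ∑ w ∈ E n, F w ≤ (c * s + 1) * ∑ w ∈ Icc 1 Y, F w := by
  have h1 : ∀ n ∈ II m c, ∑ w ∈ E n, F w ≤
      ∑ w ∈ (Icc 1 Y).filter (fun w : ℕ => m / s ≤ (w : ℝ)), if w ∣ n then F w else 0 := by
    intro n hn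
    rw [← sum_filter]
    refine sum_le_sum_of_subset_of_nonneg ?_ (fun w _ _ => hF w)
    intro w hw
    obtain ⟨a1, a2, a3, a4⟩ := hE n hn w hw
    exact mem_filter.2 ⟨mem_filter.2 ⟨mem_Icc.2 ⟨a1, a2⟩, a3⟩, a4⟩
  refine (sum_le_sum h1).trans ?_
  rw [sum_comm, mul_sum]
  have h2 : ∀ w ∈ (Icc 1 Y).filter (fun w : ℕ => m / s ≤ (w : ℝ)),
      (∑ n ∈ II m c, if w ∣ n then F w else 0) ≤ (c * s + 1) * F w := by
    intro w hw
    rw [← sum_filter, sum_const, nsmul_eq_mul]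
    exact mul_le_mul_of_nonneg_right (SM2_count hm hc hs (mem_filter.1 hw).2) (hF w)
  refine (sum_le_sum h2).trans ?_
  exact sum_le_sum_of_subset_of_nonneg (filter_subset _ _)
    (fun w _ _ => mul_nonneg (by positivity) (hF w))

theorem SM2_dv (a b : ℕ) : (a * b).divisors.card ≤ a.divisors.card * b.divisors.card := by
  rw [Nat.divisors_mul]
  exact Finset.card_mul_le

theorem SM2_pt (m r : ℝ) {n : ℕ} (hn : n ≠ 0) :
    ((dd m r n : ℝ)) ^ 2 ≤
      (1 / 2) * ((∑ w ∈ n.divisors.filter (fun w : ℕ => m / r ≤ (w : ℝ) ∧ (w : ℝ) ≤ r * m + 1),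
          ((w.divisors.card : ℝ)) ^ 2) +
        ∑ u ∈ (n.divisors.filter (fun w : ℕ => m / r ≤ (w : ℝ) ∧ (w : ℝ) ≤ r * m + 1)).image
          (fun w => n / w), ((u.divisors.card : ℝ)) ^ 2) := by
  set D := n.divisors.filter (fun w : ℕ => m / r ≤ (w : ℝ) ∧ (w : ℝ) ≤ r * m + 1) with hD
  have hdv : ∀ w ∈ D, w ∣ n := fun w hw => Nat.dvd_of_mem_divisors (mem_filter.1 hw).1
  rw [sum_image (by
    intro w hw w' hw' h
    have h1 := Nat.div_div_self (hdv w hw) hn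
    have h2 := Nat.div_div_self (hdv w' hw') hn
    rw [← h1, ← h2]
    exact congrArg (fun t => n / t) h)]
  rw [← sum_add_distrib, mul_sum]
  have h0 : ((dd m r n : ℝ)) ^ 2 = ∑ w ∈ D, ((D.card : ℕ) : ℝ) := by
    rw [sum_const, nsmul_eq_mul, sq]
    rfl
  rw [h0]
  refine sum_le_sum fun w hw => ?_
  have h1 : D.card ≤ n.divisors.card := card_le_card (filter_subset _ _)
  have h2 : n.divisors.card ≤ w.divisors.card * (n / w).divisors.card := by
    have h3 := SM2_dv w (n / w)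
    rwa [Nat.mul_div_cancel' (hdv w hw)] at h3
  have h3 : ((D.card : ℕ) : ℝ) ≤ (w.divisors.card : ℝ) * ((n / w).divisors.card : ℝ) := by
    exact_mod_cast h1.trans h2
  nlinarith [sq_nonneg ((w.divisors.card : ℝ) - ((n / w).divisors.card : ℝ))]

theorem p_SM2 (hSQD : Stmt_SQD) : Stmt_SM2 := by
  intro c r hc hr
  set M : ℝ := (r + 1) * (c + 2) with hM
  have hM1 : 1 ≤ M := by
    rw [hM]
    nlinarith
  have hl2 : 0 < Real.log 2 := Real.log_pos (by norm_num)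
  have hlM : 0 ≤ Real.log M := Real.log_nonneg hM1
  set B : ℝ := (1 + Real.log M) / Real.log 2 + 1 with hB
  have hBpos : 0 < B := by positivity
  have hr0 : 0 < r := by linarith
  have hM0 : 0 < M := by linarith
  refine ⟨(1 / 2) * ((c * r + 1) + (c * (r + 1) + 1)) * (M * B ^ 3), by positivity, ?_⟩
  intro m hm
  have hm0 : 0 < m := by linarith
  have hmc : 0 ≤ m ^ 2 + c * m := by positivity
  set Y := ⌊M * m⌋₊ with hY
  have hMm : 1 ≤ M * m := by nlinarith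
  have hY1 : 1 ≤ Y := by
    rw [hY, Nat.one_le_floor_iff]
    exact hMm
  have hYle : (Y : ℝ) ≤ M * m := Nat.floor_le (by positivity)
  have hY0 : (0 : ℝ) < Y := by exact_mod_cast hY1
  set D : ℕ → Finset ℕ := fun n =>
    n.divisors.filter (fun w : ℕ => m / r ≤ (w : ℝ) ∧ (w : ℝ) ≤ r * m + 1) with hD
  set F : ℕ → ℝ := fun w => ((w.divisors.card : ℝ)) ^ 2 with hF
  have hF0 : ∀ w, 0 ≤ F w := fun w => sq_nonneg _
  have hn0 : ∀ n ∈ II m c, n ≠ 0 := by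
    intro n hn h
    have h1 := (SM2_mem hn hmc).1
    rw [h] at h1
    have h2 : 0 < m ^ 2 := by positivity
    push_cast at h1
    linarith
  have hDn : ∀ n, ∀ w ∈ D n, w ∣ n ∧ 1 ≤ w ∧ m / r ≤ (w : ℝ) ∧ (w : ℝ) ≤ r * m + 1 := by
    intro n w hw
    have h1 := mem_filter.1 hw
    exact ⟨Nat.dvd_of_mem_divisors h1.1, Nat.pos_of_mem_divisors h1.1, h1.2⟩
  have hs1 : ∑ n ∈ II m c, ∑ w ∈ D n, F w ≤ (c * r + 1) * ∑ w ∈ Icc 1 Y, F w := by
    refine SM2_swap hm0 hc hr0 Y D ?_ F hF0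
    intro n hn w hw
    obtain ⟨h1, h2, h3, h4⟩ := hDn n w hw
    refine ⟨h2, ?_, h3, h1⟩
    rw [hY, Nat.le_floor_iff (by positivity)]
    refine h4.trans ?_
    rw [hM]
    nlinarith [mul_pos hr0 hm0, mul_pos (mul_pos hr0 hm0) hc, mul_pos hm0 hc]
  have hs2 : ∑ n ∈ II m c, ∑ w ∈ (D n).image (fun w => n / w), F w ≤
      (c * (r + 1) + 1) * ∑ w ∈ Icc 1 Y, F w := by
    refine SM2_swap hm0 hc (by linarith) Y (fun n => (D n).image (fun w => n / w)) ?_ F hF0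
    intro n hn u hu
    obtain ⟨w, hw, rfl⟩ := mem_image.1 hu
    obtain ⟨h1, h2, h3, h4⟩ := hDn n w hw
    obtain ⟨h5, h6⟩ := SM2_mem hn hmc
    have hw0 : (0 : ℝ) < w := by exact_mod_cast h2
    have hcast : ((n / w : ℕ) : ℝ) = (n : ℝ) / w := Nat.cast_div h1 (by positivity)
    refine ⟨Nat.div_pos (Nat.le_of_dvd (Nat.pos_of_ne_zero (hn0 n hn)) h1) h2, ?_, ?_,
      Nat.div_dvd_of_dvd h1⟩
    · rw [hY, Nat.le_floor_iff (by positivity), hcast, div_le_iff₀ hw0]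
      have h7 : M * m * (m / r) ≤ M * m * w := mul_le_mul_of_nonneg_left h3 (by positivity)
      have h8 : m ^ 2 + c * m ≤ M * m * (m / r) := by
        have e1 : M * m * (m / r) = m ^ 2 * (M / r) := by ring
        rw [e1]
        have h9 : 1 + c ≤ M / r := by
          rw [le_div_iff₀ hr0, hM]
          nlinarith [mul_pos hr0 hc]
        have h10 : m ^ 2 * (1 + c) ≤ m ^ 2 * (M / r) :=
          mul_le_mul_of_nonneg_left h9 (by positivity)
        have h11 : c * m ≤ c * m ^ 2 := by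
          refine mul_le_mul_of_nonneg_left ?_ hc.le
          nlinarith
        linarith
      linarith
    · rw [hcast, div_le_div_iff₀ (by linarith) hw0]
      have h7 : (w : ℝ) ≤ (r + 1) * m := by linarith
      have h8 : m * (w : ℝ) ≤ m * ((r + 1) * m) := mul_le_mul_of_nonneg_left h7 hm0.le
      have h9 : m ^ 2 * (r + 1) ≤ (n : ℝ) * (r + 1) :=
        mul_le_mul_of_nonneg_right h5.le (by linarith)
      nlinarith
  have hs3 : ∑ n ∈ II m c, ((dd m r n : ℝ)) ^ 2 ≤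
      (1 / 2) * ((∑ n ∈ II m c, ∑ w ∈ D n, F w) +
        ∑ n ∈ II m c, ∑ w ∈ (D n).image (fun w => n / w), F w) := by
    rw [← sum_add_distrib, mul_sum]
    exact sum_le_sum fun n hn => SM2_pt m r (hn0 n hn)
  have hsq : ∑ w ∈ Icc 1 Y, F w ≤ Y * (1 + Real.log Y) ^ 3 := hSQD Y hY1
  have hlm : Real.log 2 ≤ Real.log m := Real.log_le_log (by norm_num) hm
  have hlm0 : 0 < Real.log m := hl2.trans_le hlm
  have hlY : Real.log Y ≤ Real.log M + Real.log m := by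
    rw [← Real.log_mul hM0.ne' hm0.ne']
    exact Real.log_le_log hY0 hYle
  have hlY0 : 0 ≤ Real.log Y := Real.log_nonneg (by exact_mod_cast hY1)
  have hBm : 1 + Real.log Y ≤ B * Real.log m := by
    have h1 : (1 + Real.log M) / Real.log 2 * Real.log 2 ≤
        (1 + Real.log M) / Real.log 2 * Real.log m :=
      mul_le_mul_of_nonneg_left hlm (by positivity)
    rw [div_mul_cancel₀ _ hl2.ne'] at h1
    rw [hB, add_mul, one_mul]
    linarith
  have hfin : Y * (1 + Real.log Y) ^ 3 ≤ M * m * (B * Real.log m) ^ 3 := by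
    refine mul_le_mul hYle (pow_le_pow_left₀ (by linarith) hBm 3) (by positivity) (by positivity)
  calc ∑ n ∈ II m c, ((dd m r n : ℝ)) ^ 2
      ≤ (1 / 2) * ((∑ n ∈ II m c, ∑ w ∈ D n, F w) +
        ∑ n ∈ II m c, ∑ w ∈ (D n).image (fun w => n / w), F w) := hs3
    _ ≤ (1 / 2) * ((c * r + 1) * (∑ w ∈ Icc 1 Y, F w) +
        (c * (r + 1) + 1) * ∑ w ∈ Icc 1 Y, F w) := by linarith
    _ = (1 / 2) * ((c * r + 1) + (c * (r + 1) + 1)) * ∑ w ∈ Icc 1 Y, F w := by ring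
    _ ≤ (1 / 2) * ((c * r + 1) + (c * (r + 1) + 1)) * (M * m * (B * Real.log m) ^ 3) :=
        mul_le_mul_of_nonneg_left (hsq.trans hfin) (by positivity)
    _ = (1 / 2) * ((c * r + 1) + (c * (r + 1) + 1)) * (M * B ^ 3) * m * (Real.log m) ^ 3 := by ring

end Pool.RGS
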