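import Pool.Agent.Work.MP_3a3367_rgs.InterfaceB

set_option autoImplicit false

namespace Pool.RGS

open Finset

theorem SQD_harm (Y : ℕ) : ∑ g ∈ Icc 1 Y, ((g : ℝ))⁻¹ ≤ 1 + Real.log Y := by
  have h := harmonic_le_one_add_log Y
  rw [harmonic_eq_sum_Icc] at h
  push_cast at h
  exact h

/-- gcd and cofactors -/
def SQD_phi (p : ℕ × ℕ) : ℕ × ℕ × ℕ :=
  (Nat.gcd p.1 p.2, p.1 / Nat.gcd p.1 p.2, p.2 / Nat.gcd p.1 p.2)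

/-- the summand -/
noncomputable def SQD_F (q : ℕ × ℕ × ℕ) : ℝ := (q.1 : ℝ)⁻¹ * ((q.2.1 : ℝ)⁻¹ * (q.2.2 : ℝ)⁻¹)

theorem SQD_mem (Y : ℕ) (p : ℕ × ℕ) (hp : p ∈ Icc 1 Y ×ˢ Icc 1 Y) :
    SQD_phi p ∈ Icc 1 Y ×ˢ (Icc 1 Y ×ˢ Icc 1 Y) := by
  obtain ⟨a, b⟩ := p
  simp only [SQD_phi, mem_product, mem_Icc] at hp ⊢
  obtain ⟨⟨ha1, ha2⟩, hb1, hb2⟩ := hp
  have hg : 0 < Nat.gcd a b := Nat.gcd_pos_of_pos_left b ha1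
  have hga : Nat.gcd a b ≤ a := Nat.gcd_le_left b ha1
  have hgb : Nat.gcd a b ≤ b := Nat.le_of_dvd hb1 (Nat.gcd_dvd_right a b)
  exact ⟨⟨hg, hga.trans ha2⟩, ⟨Nat.div_pos hga hg, (Nat.div_le_self _ _).trans ha2⟩,
    Nat.div_pos hgb hg, (Nat.div_le_self _ _).trans hb2⟩

theorem SQD_inj (s : Set (ℕ × ℕ)) : Set.InjOn SQD_phi s := by
  rintro ⟨a, b⟩ _ ⟨a', b'⟩ _ h
  simp only [SQD_phi, Prod.mk.injEq] at h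
  obtain ⟨h1, h2, h3⟩ := h
  have e1 : a = Nat.gcd a b * (a / Nat.gcd a b) := (Nat.mul_div_cancel' (Nat.gcd_dvd_left a b)).symm
  have e2 : b = Nat.gcd a b * (b / Nat.gcd a b) := (Nat.mul_div_cancel' (Nat.gcd_dvd_right a b)).symm
  have e3 : a' = Nat.gcd a' b' * (a' / Nat.gcd a' b') :=
    (Nat.mul_div_cancel' (Nat.gcd_dvd_left a' b')).symm
  have e4 : b' = Nat.gcd a' b' * (b' / Nat.gcd a' b') :=
    (Nat.mul_div_cancel' (Nat.gcd_dvd_right a' b')).symm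
  rw [h2, h1, ← e3] at e1
  rw [h3, h1, ← e4] at e2
  rw [e1, e2]

theorem SQD_val (Y : ℕ) (p : ℕ × ℕ) (hp : p ∈ Icc 1 Y ×ˢ Icc 1 Y) :
    ((Nat.lcm p.1 p.2 : ℕ) : ℝ)⁻¹ = SQD_F (SQD_phi p) := by
  obtain ⟨a, b⟩ := p
  simp only [mem_product, mem_Icc] at hp
  obtain ⟨⟨ha1, ha2⟩, hb1, hb2⟩ := hp
  have hg : 0 < Nat.gcd a b := Nat.gcd_pos_of_pos_left b ha1
  have e1 : a = Nat.gcd a b * (a / Nat.gcd a b) := (Nat.mul_div_cancel' (Nat.gcd_dvd_left a b)).symm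
  have e2 : b = Nat.gcd a b * (b / Nat.gcd a b) := (Nat.mul_div_cancel' (Nat.gcd_dvd_right a b)).symm
  have e3 : Nat.gcd a b * Nat.lcm a b = a * b := Nat.gcd_mul_lcm a b
  have e4 : Nat.lcm a b = Nat.gcd a b * (a / Nat.gcd a b) * (b / Nat.gcd a b) := by
    refine Nat.eq_of_mul_eq_mul_left hg ?_
    rw [e3]
    calc a * b = (Nat.gcd a b * (a / Nat.gcd a b)) * (Nat.gcd a b * (b / Nat.gcd a b)) := by
          rw [← e1, ← e2]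
      _ = _ := by ring
  change ((Nat.lcm a b : ℕ) : ℝ)⁻¹ = ((Nat.gcd a b : ℕ) : ℝ)⁻¹ *
    (((a / Nat.gcd a b : ℕ) : ℝ)⁻¹ * ((b / Nat.gcd a b : ℕ) : ℝ)⁻¹)
  rw [e4, Nat.cast_mul, Nat.cast_mul, mul_inv, mul_inv, mul_assoc]

theorem SQD_gcd (Y : ℕ) : ∑ p ∈ Icc 1 Y ×ˢ Icc 1 Y, ((Nat.lcm p.1 p.2 : ℕ) : ℝ)⁻¹ ≤
    (∑ g ∈ Icc 1 Y, ((g : ℝ))⁻¹) ^ 3 := by
  calc ∑ p ∈ Icc 1 Y ×ˢ Icc 1 Y, ((Nat.lcm p.1 p.2 : ℕ) : ℝ)⁻¹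
      = ∑ p ∈ Icc 1 Y ×ˢ Icc 1 Y, SQD_F (SQD_phi p) := sum_congr rfl (SQD_val Y)
    _ = ∑ q ∈ (Icc 1 Y ×ˢ Icc 1 Y).image SQD_phi, SQD_F q :=
        (sum_image (SQD_inj _)).symm
    _ ≤ ∑ q ∈ Icc 1 Y ×ˢ (Icc 1 Y ×ˢ Icc 1 Y), SQD_F q := by
        refine sum_le_sum_of_subset_of_nonneg (image_subset_iff.2 (SQD_mem Y)) ?_
        intro q _ _
        unfold SQD_F
        positivity
    _ = (∑ g ∈ Icc 1 Y, ((g : ℝ))⁻¹) ^ 3 := by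
        rw [sum_product]
        simp only [SQD_F]
        simp_rw [sum_product, ← mul_sum, ← sum_mul]
        ring

theorem SQD_div (Y n : ℕ) (hn : n ∈ Icc 1 Y) :
    ((n.divisors.card : ℝ)) = ∑ a ∈ Icc 1 Y, if a ∣ n then (1 : ℝ) else 0 := by
  rw [← Finset.sum_filter, Finset.sum_const, nsmul_eq_mul, mul_one]
  congr 1
  congr 1
  ext a
  rw [mem_Icc] at hn
  simp only [Nat.mem_divisors, mem_filter, mem_Icc]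
  constructor
  · rintro ⟨h1, h2⟩
    exact ⟨⟨Nat.pos_of_dvd_of_pos h1 (by omega), (Nat.le_of_dvd (by omega) h1).trans hn.2⟩, h1⟩
  · rintro ⟨_, h1⟩
    exact ⟨h1, by omega⟩

theorem SQD_sq (Y n : ℕ) (hn : n ∈ Icc 1 Y) :
    ((n.divisors.card : ℝ)) ^ 2 =
      ∑ p ∈ Icc 1 Y ×ˢ Icc 1 Y, if Nat.lcm p.1 p.2 ∣ n then (1 : ℝ) else 0 := by
  rw [SQD_div Y n hn, sq, sum_mul_sum, sum_product]
  refine sum_congr rfl fun a _ => sum_congr rfl fun b _ => ?_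
  change (if a ∣ n then (1 : ℝ) else 0) * (if b ∣ n then (1 : ℝ) else 0) =
    if Nat.lcm a b ∣ n then (1 : ℝ) else 0
  by_cases h1 : a ∣ n
  · by_cases h2 : b ∣ n
    · rw [if_pos h1, if_pos h2, if_pos (Nat.lcm_dvd h1 h2), one_mul]
    · rw [if_pos h1, if_neg h2, if_neg (fun h => h2 ((Nat.dvd_lcm_right a b).trans h)), one_mul]
  · rw [if_neg h1, if_neg (fun h => h1 ((Nat.dvd_lcm_left a b).trans h)), zero_mul]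

theorem SQD_cnt (Y l : ℕ) : (∑ n ∈ Icc 1 Y, if l ∣ n then (1 : ℝ) else 0) ≤ Y * ((l : ℝ))⁻¹ := by
  rw [← Finset.sum_filter, Finset.sum_const, nsmul_eq_mul, mul_one]
  have h1 : (Icc 1 Y).filter (fun n => l ∣ n) = (Ioc 0 Y).filter (fun n => l ∣ n) := by
    ext n
    simp only [mem_filter, mem_Icc, mem_Ioc]
    constructor
    · rintro ⟨⟨h1, h2⟩, h3⟩
      exact ⟨⟨by omega, h2⟩, h3⟩
    · rintro ⟨⟨h1, h2⟩, h3⟩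
      exact ⟨⟨by omega, h2⟩, h3⟩
  rw [h1, Nat.Ioc_filter_dvd_card_eq_div, ← div_eq_mul_inv]
  exact Nat.cast_div_le

theorem p_SQD : Stmt_SQD := by
  intro Y hY
  calc ∑ n ∈ Icc 1 Y, ((n.divisors.card : ℝ)) ^ 2
      = ∑ n ∈ Icc 1 Y, ∑ p ∈ Icc 1 Y ×ˢ Icc 1 Y,
          (if Nat.lcm p.1 p.2 ∣ n then (1 : ℝ) else 0) := sum_congr rfl (SQD_sq Y)
    _ = ∑ p ∈ Icc 1 Y ×ˢ Icc 1 Y, ∑ n ∈ Icc 1 Y,
          (if Nat.lcm p.1 p.2 ∣ n then (1 : ℝ) else 0) := sum_comm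
    _ ≤ ∑ p ∈ Icc 1 Y ×ˢ Icc 1 Y, (Y : ℝ) * ((Nat.lcm p.1 p.2 : ℕ) : ℝ)⁻¹ :=
        sum_le_sum fun p _ => SQD_cnt Y _
    _ = Y * ∑ p ∈ Icc 1 Y ×ˢ Icc 1 Y, ((Nat.lcm p.1 p.2 : ℕ) : ℝ)⁻¹ := by rw [mul_sum]
    _ ≤ Y * (∑ g ∈ Icc 1 Y, ((g : ℝ))⁻¹) ^ 3 :=
        mul_le_mul_of_nonneg_left (SQD_gcd Y) (Nat.cast_nonneg _)
    _ ≤ Y * (1 + Real.log Y) ^ 3 := by
        refine mul_le_mul_of_nonneg_left ?_ (Nat.cast_nonneg _)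
        exact pow_le_pow_left₀ (sum_nonneg fun g _ => by positivity) (SQD_harm Y) 3

end Pool.RGS
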