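import Pool.Agent.Work.MP_3a3367_rgs.InterfaceG

/-!
# MP_3a3367_nt, THEOREM RGS: block STG

One step, group form: the value on the window below `p0` determines the value on the window below
`p1 = p0 A/B`.
-/

set_option autoImplicit false

namespace Pool.RGS

open Finset

theorem p_STG : Stmt_STG := by
  intro G _ f A B Q p0 p1 s0 s1 hf hA1 hAQ hB1 hBQ hQ hp1 h0 h1
  have hA1' : (1 : ℝ) ≤ A := by exact_mod_cast hA1
  have hB1' : (1 : ℝ) ≤ B := by exact_mod_cast hB1
  have hAQ' : (A : ℝ) ≤ Q := by exact_mod_cast hAQ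
  have hBQ' : (B : ℝ) ≤ Q := by exact_mod_cast hBQ
  have hB0 : (0 : ℝ) < B := by linarith
  have hA0 : (0 : ℝ) < A := by linarith
  have hp0 : 0 ≤ p0 / B := by
    apply div_nonneg _ hB0.le
    linarith
  obtain ⟨w, hw⟩ : ∃ w : ℕ, w = ⌊p0 / B⌋₊ := ⟨_, rfl⟩
  have hw1 : (w : ℝ) ≤ p0 / B := by
    rw [hw]
    exact Nat.floor_le hp0
  have hw2 : p0 / B < w + 1 := by
    rw [hw]
    exact Nat.lt_floor_add_one _
  have hwpos : 0 < w := by
    rw [hw, Nat.floor_pos]
    rw [le_div_iff₀ hB0]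
    linarith
  have hb1 : (B : ℝ) * w ≤ p0 := by
    have := mul_le_mul_of_nonneg_left hw1 hB0.le
    rwa [mul_div_cancel₀ _ hB0.ne'] at this
  have hb2 : p0 < B * w + B := by
    have := mul_lt_mul_of_pos_left hw2 hB0
    rw [mul_div_cancel₀ _ hB0.ne'] at this
    linarith
  have hq : p1 = A * (p0 / B) := by
    rw [hp1]
    ring
  have ha1 : (A : ℝ) * w ≤ p1 := by
    rw [hq]
    exact mul_le_mul_of_nonneg_left hw1 hA0.le
  have ha2 : p1 < A * w + A := by
    rw [hq]
    have := mul_lt_mul_of_pos_left hw2 hA0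
    linarith
  have e0 : f (B * w) = s0 := by
    refine h0 (B * w) (Nat.mul_pos (by omega) hwpos) ?_ ?_
    · push_cast
      linarith
    · push_cast
      exact hb1
  have e1 : f (A * w) = s1 := by
    refine h1 (A * w) (Nat.mul_pos (by omega) hwpos) ?_ ?_
    · push_cast
      linarith
    · push_cast
      exact ha1
  rw [hf B w (by omega) hwpos] at e0
  rw [hf A w (by omega) hwpos] at e1
  rw [← e0, ← e1]
  abel

end Pool.RGS
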