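import Pool.Agent.Work.MP_3a3367_rgs.InterfaceB

set_option autoImplicit false

namespace Pool.RGS

open Finset

theorem TAY_pow (K P : ℕ) (w : ℕ → ℤ) (u h : ℝ)
    (hw : ∀ j ≤ K, ∑ a ∈ range (P + 1), w a * (a : ℤ) ^ j = 0) (m : ℕ) (hm : m ≤ K) :
    ∑ a ∈ range (P + 1), (w a : ℝ) * (u + a * h) ^ m = 0 := by
  have h1 : ∀ a ∈ range (P + 1), (w a : ℝ) * (u + a * h) ^ m
      = ∑ j ∈ range (m + 1), (h ^ j * u ^ (m - j) * (m.choose j : ℝ)) * ((w a : ℝ) * (a : ℝ) ^ j) := by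
    intro a _
    rw [add_comm u, add_pow, Finset.mul_sum]
    refine Finset.sum_congr rfl fun j _ => ?_
    rw [mul_pow]; ring
  rw [Finset.sum_congr rfl h1, Finset.sum_comm]
  refine Finset.sum_eq_zero fun j hj => ?_
  rw [← Finset.mul_sum]
  have h2 : ∑ a ∈ range (P + 1), (w a : ℝ) * (a : ℝ) ^ j = 0 := by
    have h3 := hw j (by have := Finset.mem_range.1 hj; omega)
    have h4 : ((∑ a ∈ range (P + 1), w a * (a : ℤ) ^ j : ℤ) : ℝ) = 0 := by rw [h3]; simp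
    push_cast at h4
    exact h4
  rw [h2, mul_zero]

theorem TAY_log (K : ℕ) (v τ : ℝ) (h0 : 0 ≤ v) (h1 : v ≤ τ) (h2 : τ ≤ 1 / 2) :
    |(∑ i ∈ range K, (-v) ^ (i + 1) / ((i : ℝ) + 1)) + Real.log (1 + v)| ≤ 2 * τ ^ (K + 1) := by
  have hv : |(-v)| < 1 := by rw [abs_neg, abs_of_nonneg h0]; linarith
  have h3 := Real.abs_log_sub_add_sum_range_le hv K
  rw [sub_neg_eq_add, abs_neg, abs_of_nonneg h0] at h3
  refine h3.trans ?_
  have h4 : v ^ (K + 1) ≤ τ ^ (K + 1) := pow_le_pow_left₀ h0 h1 _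
  have h5 : 0 < 1 - v := by linarith
  rw [div_le_iff₀ h5]
  have h6 : 0 ≤ τ ^ (K + 1) := pow_nonneg (h0.trans h1) _
  nlinarith

theorem p_TAY : Stmt_TAY := by
  intro K P w u h τ hw hw1 hu hh hτ hτ2
  have key : ∀ a ∈ range (P + 1), 0 ≤ u + a * h ∧ u + a * h ≤ τ := by
    intro a ha
    have ha' : (a : ℝ) ≤ P := by
      have := Finset.mem_range.1 ha
      exact_mod_cast (by omega : a ≤ P)
    constructor
    · positivity
    · have := mul_le_mul_of_nonneg_right ha' hh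
      linarith
  have hz : ∑ a ∈ range (P + 1), (w a : ℝ) *
      (∑ i ∈ range K, (-(u + a * h)) ^ (i + 1) / ((i : ℝ) + 1)) = 0 := by
    have h1 : ∀ a ∈ range (P + 1), (w a : ℝ) *
        (∑ i ∈ range K, (-(u + a * h)) ^ (i + 1) / ((i : ℝ) + 1))
        = ∑ i ∈ range K, ((-1) ^ (i + 1) / ((i : ℝ) + 1)) * ((w a : ℝ) * (u + a * h) ^ (i + 1)) := by
      intro a _
      rw [Finset.mul_sum]
      refine Finset.sum_congr rfl fun i _ => ?_
      rw [neg_pow]; ring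
    rw [Finset.sum_congr rfl h1, Finset.sum_comm]
    refine Finset.sum_eq_zero fun i hi => ?_
    rw [← Finset.mul_sum, TAY_pow K P w u h hw (i + 1) (by have := Finset.mem_range.1 hi; omega), mul_zero]
  have h2 : ∑ a ∈ range (P + 1), (w a : ℝ) * Real.log (1 + (u + a * h))
      = ∑ a ∈ range (P + 1), (w a : ℝ) *
        ((∑ i ∈ range K, (-(u + a * h)) ^ (i + 1) / ((i : ℝ) + 1)) + Real.log (1 + (u + a * h))) := by
    rw [← add_zero (∑ a ∈ range (P + 1), (w a : ℝ) * Real.log (1 + (u + a * h))), ← hz, ← Finset.sum_add_distrib]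
    refine Finset.sum_congr rfl fun a _ => by ring
  rw [h2]
  refine (Finset.abs_sum_le_sum_abs _ _).trans ?_
  have h3 : ∀ a ∈ range (P + 1), |(w a : ℝ) *
        ((∑ i ∈ range K, (-(u + a * h)) ^ (i + 1) / ((i : ℝ) + 1)) + Real.log (1 + (u + a * h)))|
        ≤ 2 * τ ^ (K + 1) := by
    intro a ha
    rw [abs_mul]
    have h4 : |(w a : ℝ)| ≤ 1 := by exact_mod_cast hw1 a
    have h5 := TAY_log K (u + a * h) τ (key a ha).1 (key a ha).2 hτ2
    calc |(w a : ℝ)| * |(∑ i ∈ range K, (-(u + a * h)) ^ (i + 1) / ((i : ℝ) + 1)) + Real.log (1 + (u + a * h))|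
        ≤ 1 * (2 * τ ^ (K + 1)) := mul_le_mul h4 h5 (abs_nonneg _) zero_le_one
      _ = 2 * τ ^ (K + 1) := one_mul _
  refine (Finset.sum_le_sum h3).trans ?_
  rw [Finset.sum_const, Finset.card_range, nsmul_eq_mul]
  push_cast
  exact le_refl _

end Pool.RGS
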