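import Pool.Agent.Work.MP_3a3367_rgs.InterfaceH
import Pool.Agent.Work.MP_3a3367_rgs.B_SIE
import Pool.Agent.Work.MP_3a3367_rgs.B_TAY
import Pool.Agent.Work.MP_3a3367_rgs.B_RND
import Pool.Agent.Work.MP_3a3367_rgs.B_ACT
import Pool.Agent.Work.MP_3a3367_rgs.B_EXT
import Pool.Agent.Work.MP_3a3367_rgs.B_DIL
import Pool.Agent.Work.MP_3a3367_rgs.B_GEN
import Pool.Agent.Work.MP_3a3367_rgs.B_RTS
import Pool.Agent.Work.MP_3a3367_rgs.B_REL
import Pool.Agent.Work.MP_3a3367_rgs.B_ORD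
import Pool.Agent.Work.MP_3a3367_rgs.B_NWT
import Pool.Agent.Work.MP_3a3367_rgs.B_POL
import Pool.Agent.Work.MP_3a3367_rgs.B_DLG
import Pool.Agent.Work.MP_3a3367_rgs.B_DPL
import Pool.Agent.Work.MP_3a3367_rgs.B_FIN
import Pool.Agent.Work.MP_3a3367_rgs.B_DL
import Pool.Agent.Work.MP_3a3367_rgs.B_EXP
import Pool.Agent.Work.MP_3a3367_rgs.B_FEJ
import Pool.Agent.Work.MP_3a3367_rgs.B_FSM
import Pool.Agent.Work.MP_3a3367_rgs.B_LIM
import Pool.Agent.Work.MP_3a3367_rgs.B_SAH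
import Pool.Agent.Work.MP_3a3367_rgs.B_DNS
import Pool.Agent.Work.MP_3a3367_rgs.B_NRH
import Pool.Agent.Work.MP_3a3367_rgs.B_STG
import Pool.Agent.Work.MP_3a3367_rgs.B_EVH
import Pool.Agent.Work.MP_3a3367_rgs.B_CNH
import Pool.Agent.Work.MP_3a3367_rgs.B_CHH
import Pool.Agent.Work.MP_3a3367_rgs.B_JMH
import Pool.Agent.Work.MP_3a3367_rgs.B_NBR
import Pool.Agent.Work.MP_3a3367_rgs.B_SQD
import Pool.Agent.Work.MP_3a3367_rgs.B_SM2
import Pool.Agent.Work.MP_3a3367_rgs.B_CSG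
import Pool.Agent.Work.MP_3a3367_rgs.B_DVB
import Pool.Agent.Work.MP_3a3367_rgs.B_CSE
import Pool.Agent.Work.MP_3a3367_rgs.B_PPA
import Pool.Agent.Work.MP_3a3367_rgs.B_PPB
import Pool.Agent.Work.MP_3a3367_rgs.B_DUH

/-!
# MP_3a3367_nt, THEOREM H: assembly of the blocks
-/

set_option autoImplicit false

namespace Pool.RGS

theorem all_POL : Stmt_POL := p_POL p_ACT p_EXT p_DIL p_GEN p_RTS p_REL p_ORD p_NWT

theorem all_DL : Stmt_DL := p_DL p_SIE (p_RND p_TAY) all_POL (p_FIN p_DLG p_DPL)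

theorem all_SAH : Stmt_SAH := p_SAH (p_EXP all_DL) p_FEJ p_FSM p_LIM

theorem all_JMH : Stmt_JMH := p_JMH (p_CHH all_SAH) (p_NRH p_DNS) (p_EVH p_STG) p_CNH

theorem all_PPA : Stmt_PPA := p_PPA all_JMH (p_CSG p_NBR (p_SM2 p_SQD))

theorem all_PPB : Stmt_PPB := p_PPB all_JMH (p_CSE p_NBR p_DVB)

theorem all_DUH : Stmt_DUH := p_DUH

end Pool.RGS
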