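import Pool.Agent.Work.MP_3a3367_rgs.InterfaceH

/-!
# MP_3a3367_nt, THEOREM H: the final statement from PPA, PPB, PKH, DUH
-/

set_option autoImplicit false

namespace Pool.RGS

open Finset

lemma Fin_mem_II {m c : ℝ} (hm : 0 ≤ m) (hc : 0 ≤ c) (n : ℕ) : n ∈ II m c ↔ m ^ 2 < (n : ℝ) ∧ (n : ℝ) ≤ m ^ 2 + c * m := by
  have h0 : 0 ≤ m ^ 2 + c * m := by positivity
  simp only [II, mem_filter, mem_range, Nat.lt_succ_iff, Nat.le_floor_iff h0]
  tauto

/-- The final statement. -/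
def Stmt_FNL : Prop :=
  ∀ c ε : ℝ, 2 < c → 0 < ε → ε < 1 → ∃ κ : ℝ, 0 < κ ∧ ∀ (p : ℕ) (x T : ℝ), 2 ≤ p → 2 ≤ x → 1 ≤ T →
    (T = κ * √x / ((p : ℝ) ^ 2 * (Real.log x) ^ 100) ∨ T = κ * x ^ ((1 - ε) / 2) / p) →
    (∀ (G : Type) [AddCommGroup G] (f : ℕ → G), (∀ a b, 1 ≤ a → 1 ≤ b → f (a * b) = f a + f b) → f p ≠ 0 → ∀ g : G,
      T ≤ ({n : ℕ | x < n ∧ n ≤ x + c * √x ∧ f n ≠ g}.ncard : ℝ)) ∧
    (∀ S : Finset ℕ, (∀ n ∈ S, x < (n : ℝ) ∧ (n : ℝ) ≤ x + c * √x) → ({n : ℕ | x < n ∧ n ≤ x + c * √x ∧ n ∉ S}.ncard : ℝ) < T →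
      ∃ e : ℕ → ℤ, ∑ n ∈ S, e n = 0 ∧ (p : ℚ) = ∏ n ∈ S, (n : ℚ) ^ (e n))

theorem p_FNL (hA : Stmt_PPA) (hB : Stmt_PPB) (hD : Stmt_DUH) : Stmt_FNL := by
  classical
  · intro c ε hc he he1
    obtain ⟨κA, hκA, hAA⟩ := hA c hc
    obtain ⟨κB, hκB, hBB⟩ := hB c ε hc he he1
    set κ := min κA κB with hκ
    have hκ0 : 0 < κ := lt_min hκA hκB
    refine ⟨κ, hκ0, ?_⟩
    intro p x T hp hx hT hTe
    have hx0 : (0 : ℝ) < x := by linarith
    have hm0 : (0 : ℝ) ≤ √x := Real.sqrt_nonneg x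
    have hm2 : √x ^ 2 = x := Real.sq_sqrt hx0.le
    have hmm : √2 ≤ √x := Real.sqrt_le_sqrt hx
    have hp0 : (0 : ℝ) < p := by positivity
    have hL : 0 < Real.log x := Real.log_pos (by linarith)
    have hmp : 0 < √x := Real.sqrt_pos.mpr hx0
    -- the main bound
    have key : ∀ (G : Type) [AddCommGroup G] (f : ℕ → G) (g : G), CA f → f p ≠ 0 → T ≤ (EG f (√x) c g).card := by
      intro G _ f g hf hfp
      rcases hTe with h | h
      · have hD0 : 0 < (p : ℝ) ^ 2 * Real.log x ^ 100 := by positivity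
        have h1 : (p : ℝ) ^ 2 * Real.log x ^ 100 ≤ κA * √x := by
          have : 1 ≤ κ * √x / ((p : ℝ) ^ 2 * Real.log x ^ 100) := h ▸ hT
          rw [le_div_iff₀ hD0, one_mul] at this
          exact this.trans (mul_le_mul_of_nonneg_right (min_le_left _ _) hm0)
        have h2 := hAA G f p (√x) g hf hp hfp hmm (by rw [hm2]; exact h1)
        rw [hm2] at h2
        refine le_trans ?_ h2
        rw [h]
        exact div_le_div_of_nonneg_right (mul_le_mul_of_nonneg_right (min_le_left _ _) hm0) hD0.le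
      · have hpow : x ^ ((1 - ε) / 2) = √x ^ (1 - ε) := by
          rw [Real.sqrt_eq_rpow, ← Real.rpow_mul hx0.le]
          congr 1
          ring
        have hpw0 : 0 ≤ √x ^ (1 - ε) := Real.rpow_nonneg hm0 _
        have h1 : (p : ℝ) ≤ κB * √x ^ (1 - ε) := by
          have : 1 ≤ κ * x ^ ((1 - ε) / 2) / p := h ▸ hT
          rw [le_div_iff₀ hp0, one_mul, hpow] at this
          exact this.trans (mul_le_mul_of_nonneg_right (min_le_right _ _) hpw0)
        have h2 := hBB G f p (√x) g hf hp hfp hmm h1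
        refine le_trans ?_ h2
        rw [h, hpow]
        exact div_le_div_of_nonneg_right (mul_le_mul_of_nonneg_right (min_le_right _ _) hpw0) hp0.le
    have hmem : ∀ n : ℕ, n ∈ II (√x) c ↔ x < (n : ℝ) ∧ (n : ℝ) ≤ x + c * √x := by
      intro n
      rw [Fin_mem_II hm0 (by linarith) n, hm2]
    refine ⟨?_, ?_⟩
    · intro G _ f hf hfp g
      have h1 := key G f g (fun a b ha hb => hf a b ha hb) hfp
      have h2 : {n : ℕ | x < n ∧ n ≤ x + c * √x ∧ f n ≠ g} = ↑(EG f (√x) c g) := by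
        ext n
        simp only [EG, Finset.coe_filter, hmem]
        constructor
        · rintro ⟨h3, h4, h5⟩
          exact ⟨⟨h3, h4⟩, h5⟩
        · rintro ⟨⟨h3, h4⟩, h5⟩
          exact ⟨h3, h4, h5⟩
      rw [h2, Set.ncard_coe_finset]
      exact h1
    · intro S hS hmiss
      refine hD c (√x) T p S (by omega) hm0 (fun G _ f g hf hfp => key G f g hf hfp) (fun n hn => (hmem n).mpr (hS n hn)) ?_
      have h2 : {n : ℕ | x < n ∧ n ≤ x + c * √x ∧ n ∉ S} = ↑(II (√x) c \ S) := by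
        ext n
        simp only [Finset.coe_sdiff, Set.mem_sdiff, Finset.mem_coe, hmem]
        constructor
        · rintro ⟨h3, h4, h5⟩
          exact ⟨⟨h3, h4⟩, h5⟩
        · rintro ⟨⟨h3, h4⟩, h5⟩
          exact ⟨h3, h4, h5⟩
      rw [h2, Set.ncard_coe_finset] at hmiss
      exact hmiss

end Pool.RGS
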