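import Pool.Agent.Work.MP_3a3367_rgs.InterfaceB

set_option autoImplicit false

/-! # Block CSL: from jumps to values -/

namespace Pool.RGS

open Finset

theorem CSL_count (J E : Finset ℕ) (D : ℕ → Finset ℕ) (h : ℕ → ℕ) (hinj : Function.Injective h)
    (hJ : ∀ v ∈ J, ∃ n ∈ E, h v ∈ D n) : J.card ≤ ∑ n ∈ E, (D n).card := by
  classical
  have h1 : J.image h ⊆ E.biUnion D := by
    intro w hw
    obtain ⟨v, hv, rfl⟩ := Finset.mem_image.1 hw
    obtain ⟨n, hn, hD⟩ := hJ v hv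
    exact Finset.mem_biUnion.2 ⟨n, hn, hD⟩
  rw [← Finset.card_image_of_injective J hinj]
  exact (Finset.card_le_card h1).trans Finset.card_biUnion_le

theorem CSL_sign {x y s : ℤ} (hx : x = 1 ∨ x = -1) (hy : y = 1 ∨ y = -1) (hs : s = 1 ∨ s = -1)
    (hxy : x ≠ y) : x = s ∨ y = s := by
  rcases hx with rfl | rfl <;> rcases hy with rfl | rfl <;> rcases hs with rfl | rfl <;> simp_all

theorem CSL_mem {m c : ℝ} {n : ℕ} (h1 : m ^ 2 < (n : ℝ)) (h2 : (n : ℝ) ≤ m ^ 2 + c * m) :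
    n ∈ II m c := by
  unfold II
  exact Finset.mem_filter.2 ⟨Finset.mem_range.2 (Nat.lt_succ_of_le (Nat.le_floor h2)), h1⟩

/-- Block CSL. -/
theorem p_CSL (hNBR : Stmt_NBR) (hSM2 : Stmt_SM2) : Stmt_CSL := by
  classical
  intro c r hr hc
  have hr0 : 0 < r := lt_of_lt_of_le one_pos hr
  have hc0 : 0 < c := lt_trans (add_pos hr0 (one_div_pos.2 hr0)) hc
  obtain ⟨m0, hm0, hN⟩ := hNBR c r hr hc
  obtain ⟨C, hC, hS⟩ := hSM2 c r hc0 hr
  refine ⟨4 * C, max m0 2, by positivity, le_max_right _ _, ?_⟩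
  intro m hm f σ hf hσ
  have hm0' : m0 ≤ m := (le_max_left _ _).trans hm
  have hm2 : 2 ≤ m := (le_max_right _ _).trans hm
  have hmpos : 0 < m := by linarith
  set E := (II m c).filter (fun n => f n = σ) with hE
  set D : ℕ → Finset ℕ := fun n => n.divisors.filter
    (fun w : ℕ => m / r ≤ (w : ℝ) ∧ (w : ℝ) ≤ r * m + 1) with hD
  have hkey : ∀ v ∈ JJ f m r, (∃ n ∈ E, v ∈ D n) ∨ (∃ n ∈ E, v + 1 ∈ D n) := by
    intro v hv
    obtain ⟨hv1, hv2⟩ := Finset.mem_filter.1 hv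
    obtain ⟨hv3, hv4⟩ := Finset.mem_Icc.1 hv1
    have h1 : m / r ≤ (v : ℝ) := Nat.ceil_le.1 hv3
    have hrm : 0 ≤ r * m := by positivity
    have h2 : (v : ℝ) ≤ r * m := (Nat.le_floor_iff hrm).1 hv4
    have hvpos : 0 < v := by
      have h3 : (0 : ℝ) < v := lt_of_lt_of_le (by positivity) h1
      exact_mod_cast h3
    obtain ⟨u, hu1, hu2⟩ := hN m hm0' v h1 h2
    have hupos : 0 < u := by
      rcases Nat.eq_zero_or_pos u with h0 | h0
      · rw [h0] at hu1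
        have h4 : m ^ 2 < 0 := by simpa using hu1
        exact absurd h4 (not_lt.2 (sq_nonneg m))
      · exact h0
    have hur : (0 : ℝ) ≤ u := Nat.cast_nonneg u
    have hlt1 : m ^ 2 < ((u * v : ℕ) : ℝ) := by
      push_cast
      exact hu1
    have hle2 : ((u * (v + 1) : ℕ) : ℝ) ≤ m ^ 2 + c * m := by
      push_cast
      exact hu2
    have hle : ((u * v : ℕ) : ℝ) ≤ ((u * (v + 1) : ℕ) : ℝ) := by
      push_cast
      nlinarith
    have hm1 : u * v ∈ II m c := CSL_mem hlt1 (hle.trans hle2)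
    have hm2' : u * (v + 1) ∈ II m c := CSL_mem (hlt1.trans_le hle) hle2
    have e1 : f (u * v) = f u * f v := hf.2 u v hupos hvpos
    have e2 : f (u * (v + 1)) = f u * f (v + 1) := hf.2 u (v + 1) hupos (Nat.succ_pos v)
    have hne : f (u * v) ≠ f (u * (v + 1)) := by
      rw [e1, e2]
      intro h
      have hfu : f u ≠ 0 := by
        rcases hf.1 u hupos with h5 | h5 <;> rw [h5] <;> norm_num
      exact hv2 (mul_left_cancel₀ hfu h)
    have hp1 : 0 < u * v := Nat.mul_pos hupos hvpos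
    have hp2 : 0 < u * (v + 1) := Nat.mul_pos hupos (Nat.succ_pos v)
    rcases CSL_sign (hf.1 _ hp1) (hf.1 _ hp2) hσ hne with h5 | h5
    · refine Or.inl ⟨u * v, Finset.mem_filter.2 ⟨hm1, h5⟩, ?_⟩
      exact Finset.mem_filter.2 ⟨Nat.mem_divisors.2 ⟨Dvd.intro_left u rfl, hp1.ne'⟩, h1, by linarith⟩
    · refine Or.inr ⟨u * (v + 1), Finset.mem_filter.2 ⟨hm2', h5⟩, ?_⟩
      refine Finset.mem_filter.2 ⟨Nat.mem_divisors.2 ⟨Dvd.intro_left u rfl, hp2.ne'⟩, ?_, ?_⟩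
      · push_cast
        linarith
      · push_cast
        linarith
  set J0 := (JJ f m r).filter (fun v => ∃ n ∈ E, v ∈ D n) with hJ0
  set J1 := (JJ f m r).filter (fun v => ∃ n ∈ E, v + 1 ∈ D n) with hJ1
  have hsub : JJ f m r ⊆ J0 ∪ J1 := by
    intro v hv
    rcases hkey v hv with h | h
    · exact Finset.mem_union_left _ (Finset.mem_filter.2 ⟨hv, h⟩)
    · exact Finset.mem_union_right _ (Finset.mem_filter.2 ⟨hv, h⟩)
  have hc0' : J0.card ≤ ∑ n ∈ E, (D n).card :=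
    CSL_count J0 E D id Function.injective_id fun v hv => (Finset.mem_filter.1 hv).2
  have hc1' : J1.card ≤ ∑ n ∈ E, (D n).card :=
    CSL_count J1 E D (fun v => v + 1) (fun a b h => Nat.succ_injective h)
      fun v hv => (Finset.mem_filter.1 hv).2
  have hJ : (JJ f m r).card ≤ 2 * ∑ n ∈ E, (D n).card := by
    have h1 := (Finset.card_le_card hsub).trans (Finset.card_union_le _ _)
    omega
  have hJr : ((JJ f m r).card : ℝ) ≤ 2 * ∑ n ∈ E, (dd m r n : ℝ) := by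
    have h1 : ((JJ f m r).card : ℝ) ≤ ((2 * ∑ n ∈ E, (D n).card : ℕ) : ℝ) := by exact_mod_cast hJ
    refine h1.trans (le_of_eq ?_)
    push_cast
    rfl
  have hCS : (∑ n ∈ E, (dd m r n : ℝ)) ^ 2 ≤ (E.card : ℝ) * ∑ n ∈ E, (dd m r n : ℝ) ^ 2 :=
    sq_sum_le_card_mul_sum_sq
  have hEI : ∑ n ∈ E, (dd m r n : ℝ) ^ 2 ≤ ∑ n ∈ II m c, (dd m r n : ℝ) ^ 2 :=
    Finset.sum_le_sum_of_subset_of_nonneg (Finset.filter_subset _ _) fun n _ _ => sq_nonneg _
  have hS' := hS m hm2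
  have hE0 : (0 : ℝ) ≤ (E.card : ℝ) := Nat.cast_nonneg _
  have hfin : ((JJ f m r).card : ℝ) ^ 2 ≤ (2 * ∑ n ∈ E, (dd m r n : ℝ)) ^ 2 :=
    pow_le_pow_left₀ (Nat.cast_nonneg _) hJr 2
  calc ((JJ f m r).card : ℝ) ^ 2 ≤ (2 * ∑ n ∈ E, (dd m r n : ℝ)) ^ 2 := hfin
    _ = 4 * (∑ n ∈ E, (dd m r n : ℝ)) ^ 2 := by ring
    _ ≤ 4 * ((E.card : ℝ) * ∑ n ∈ E, (dd m r n : ℝ) ^ 2) := by linarith
    _ ≤ 4 * ((E.card : ℝ) * (C * m * (Real.log m) ^ 3)) :=
        mul_le_mul_of_nonneg_left (mul_le_mul_of_nonneg_left (hEI.trans hS') hE0) (by norm_num)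
    _ = 4 * C * m * (Real.log m) ^ 3 * (E.card : ℝ) := by ring

end Pool.RGS
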