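import Pool.Agent.Work.MP_3a3367_rgs.InterfaceG

/-!
# MP_3a3367_nt, block JMG (many jumps, group form), typed by helper88
-/

set_option autoImplicit false

namespace Pool.RGS

open Finset

theorem p_JMG (h1 : Stmt_CHG) (h2 : Stmt_NRG) (h3 : Stmt_EVG) (h4 : Stmt_CNT) : Stmt_JMG := by
  intro r hr
  obtain ⟨s, hs1, hs2, hs3⟩ : ∃ s : ℝ, 1 < s ∧ s ≤ 2 ∧ s ^ 3 ≤ r := by
    refine ⟨1 + min 1 ((r - 1) / 7), ?_, ?_, ?_⟩
    · have : 0 < min 1 ((r - 1) / 7) := lt_min one_pos (by linarith)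
      linarith
    · have := min_le_left (1 : ℝ) ((r - 1) / 7)
      linarith
    · have h0 : 0 < min 1 ((r - 1) / 7) := lt_min one_pos (by linarith)
      have h1' := min_le_left (1 : ℝ) ((r - 1) / 7)
      have h2' := min_le_right (1 : ℝ) ((r - 1) / 7)
      set d := min 1 ((r - 1) / 7)
      have h3' : d ^ 2 ≤ d := by nlinarith
      have h4' : d ^ 3 ≤ d := by nlinarith
      nlinarith
  obtain ⟨C, hC1, hC⟩ := h2 s hs1
  obtain ⟨Kc, hKc⟩ := h1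
  have hls : 0 < Real.log s := Real.log_pos hs1
  have hCr : (1 : ℝ) ≤ C := by exact_mod_cast hC1
  refine ⟨(s - 1) / (42 * C), div_pos (by linarith) (by linarith), ?_⟩
  refine ⟨Kc + 2 + (2 * C + 8) + ⌈4 * ((C : ℝ) + 2) / (s - 1)⌉₊ + ⌈12 / Real.log s⌉₊, ?_⟩
  intro K p G _ f m hK0 hf hp1 hpK hfp hm1 hm2
  have hKc' : Kc ≤ K := by omega
  have hK2 : 2 ≤ K := by omega
  have hKC : 2 * C + 8 ≤ K := by omega
  have hKa : 4 * ((C : ℝ) + 2) / (s - 1) ≤ K := by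
    refine (Nat.le_ceil _).trans ?_
    exact_mod_cast (by omega : ⌈4 * ((C : ℝ) + 2) / (s - 1)⌉₊ ≤ K)
  have hKb : 12 / Real.log s ≤ K := by
    refine (Nat.le_ceil _).trans ?_
    exact_mod_cast (by omega : ⌈12 / Real.log s⌉₊ ≤ K)
  have hKr2 : (2 : ℝ) ≤ K := by exact_mod_cast hK2
  have hKrC : 2 * (C : ℝ) + 8 ≤ K := by exact_mod_cast hKC
  have hKpos : (0 : ℝ) < K := by linarith
  have hKa' : 4 * ((C : ℝ) + 2) ≤ K * (s - 1) := by
    rwa [div_le_iff₀ (by linarith)] at hKa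
  have hKb' : 12 ≤ K * Real.log s := by
    rwa [div_le_iff₀ hls] at hKb
  -- the exponential
  have hexp : Real.exp (-(K : ℝ) / 4) ≤ 4 / K := by
    have h5 : (K : ℝ) / 4 ≤ Real.exp ((K : ℝ) / 4) := by
      have := Real.add_one_le_exp ((K : ℝ) / 4)
      linarith
    have h6 : Real.exp (-(K : ℝ) / 4) = (Real.exp ((K : ℝ) / 4))⁻¹ := by
      rw [← Real.exp_neg]
      congr 1
      ring
    rw [h6]
    have h7 : (0 : ℝ) < K / 4 := by positivity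
    calc (Real.exp ((K : ℝ) / 4))⁻¹ ≤ ((K : ℝ) / 4)⁻¹ := inv_anti₀ h7 h5
      _ = 4 / K := by rw [inv_div]
  have hexps : 3 * Real.exp (-(K : ℝ) / 4) ≤ Real.log s := by
    have h5 : 3 * Real.exp (-(K : ℝ) / 4) ≤ 3 * (4 / K) := by linarith
    have h6 : 3 * (4 / (K : ℝ)) ≤ Real.log s := by
      rw [← mul_div_assoc, div_le_iff₀ hKpos]
      linarith
    linarith
  have hls1 : Real.log s ≤ 1 := by
    have := Real.log_le_sub_one_of_pos (show (0 : ℝ) < s by linarith)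
    linarith
  obtain ⟨A, B, hAB, hsum, hne⟩ := hKc K hKc' G f p hf hp1 hpK hfp
  obtain ⟨ρ, A', B', hρ0, hρt, hρ, hAB', hfs⟩ := hC (2 * K ^ 30) (K ^ 14) A B hAB (hsum.trans hexps)
  set t := 2 * K ^ 30 with ht
  set Q := C * (K ^ 14) ^ 2 + 2 with hQ
  have hne' : ∑ i ∈ range t, (f (A' i) - f (B' i)) ≠ 0 := by
    rw [hfs G f hf]
    exact hne
  have hρt1 : |ρ t - 1| ≤ 6 * Real.exp (-(K : ℝ) / 4) := by
    rw [hρt]
    refine (Real.abs_exp_sub_one_le (hsum.trans (hexps.trans hls1))).trans ?_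
    linarith
  have hρhalf : ∀ i ≤ t, 1 / 2 ≤ ρ i := by
    intro i hi
    refine le_trans ?_ (hρ i hi).1
    exact one_div_le_one_div_of_le (by linarith) hs2
  have hmexp : m * Real.exp (-(K : ℝ) / 4) ≤ 1 / 16 := by
    have h5 : Real.exp ((K : ℝ) / 4) * Real.exp (-(K : ℝ) / 4) = 1 := by
      rw [← Real.exp_add]
      have : (K : ℝ) / 4 + -(K : ℝ) / 4 = 0 := by ring
      rw [this, Real.exp_zero]
    have h6 : m * Real.exp (-(K : ℝ) / 4) ≤ Real.exp ((K : ℝ) / 4) / 16 * Real.exp (-(K : ℝ) / 4) :=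
      mul_le_mul_of_nonneg_right hm2 (Real.exp_pos _).le
    have h7 : Real.exp ((K : ℝ) / 4) / 16 * Real.exp (-(K : ℝ) / 4) = 1 / 16 := by
      rw [div_mul_eq_mul_div, h5]
    linarith
  have hK28 : (1 : ℝ) ≤ (K : ℝ) ^ 28 := one_le_pow₀ (by linarith)
  have hK29 : (K : ℝ) ^ 29 = K * (K : ℝ) ^ 28 := by ring
  have hQr : (Q : ℝ) = C * (K : ℝ) ^ 28 + 2 := by
    rw [hQ]
    push_cast
    ring
  have hm0 : 0 < m := by
    have : (0 : ℝ) < (K : ℝ) ^ 29 := by positivity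
    linarith
  have hQm : 2 * (Q : ℝ) + 4 ≤ m := by
    rw [hQr]
    have : (2 * (C : ℝ) + 8) * (K : ℝ) ^ 28 ≤ K * (K : ℝ) ^ 28 := mul_le_mul_of_nonneg_right hKrC (by positivity)
    rw [hK29] at hm1
    nlinarith
  have hQs : (Q : ℝ) ≤ m * (s - 1) / 4 := by
    rw [hQr]
    have h5 : 4 * ((C : ℝ) + 2) * (K : ℝ) ^ 28 ≤ K * (s - 1) * (K : ℝ) ^ 28 :=
      mul_le_mul_of_nonneg_right hKa' (by positivity)
    have h6 : (K : ℝ) * (K : ℝ) ^ 28 * (s - 1) ≤ m * (s - 1) := by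
      rw [← hK29]
      exact mul_le_mul_of_nonneg_right hm1 (by linarith)
    nlinarith
  have hms : 4 ≤ m * (s - 1) := by
    have h5 : (0 : ℝ) ≤ (C : ℝ) * (K : ℝ) ^ 28 := by positivity
    have : (2 : ℝ) ≤ Q := by rw [hQr]; linarith
    linarith
  have hrs : m / r ≤ m / s ^ 3 := by
    exact div_le_div_of_nonneg_left hm0.le (by positivity) hs3
  have hss : m / s - m / s ^ 3 ≥ m * (s - 1) / 4 := by
    have h5 : m / s - m / s ^ 3 = m * ((s - 1) * (s + 1)) / s ^ 3 := by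
      field_simp
      ring
    rw [h5, ge_iff_le, div_le_div_iff₀ (by norm_num) (by positivity)]
    have h6 : s ^ 3 ≤ 4 * (s + 1) := by nlinarith [mul_nonneg (show (0:ℝ) ≤ s - 1 by linarith) (show (0:ℝ) ≤ 2 - s by linarith)]
    have h7 : 0 ≤ m * (s - 1) := mul_nonneg hm0.le (by linarith)
    nlinarith
  -- the jumps
  have hcov : ∀ X ∈ Icc ⌈m⌉₊ ⌊s * m⌋₊, ∃ i ≤ t, ∃ v ∈ JG f m r, (X : ℝ) * ρ i - Q < v ∧ (v : ℝ) + 1 ≤ X * ρ i := by
    intro X hX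
    rw [Finset.mem_Icc] at hX
    have hX1 : m ≤ X := Nat.ceil_le.1 hX.1
    have hX2 : (X : ℝ) ≤ s * m := (Nat.le_floor_iff (by positivity)).1 hX.2
    have hX0 : (0 : ℝ) < X := by linarith
    have e1 : |(X : ℝ) * ρ t - X| < 1 := by
      have h5 : (X : ℝ) * ρ t - X = X * (ρ t - 1) := by ring
      rw [h5, abs_mul, abs_of_pos hX0]
      have h6 : (X : ℝ) * |ρ t - 1| ≤ (2 * m) * (6 * Real.exp (-(K : ℝ) / 4)) := by
        apply mul_le_mul _ hρt1 (abs_nonneg _) (by positivity)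
        nlinarith
      nlinarith
    have e2 : 2 * Q + 4 ≤ X := by
      have : 2 * (Q : ℝ) + 4 ≤ X := by linarith
      exact_mod_cast this
    obtain ⟨i, hi, v, hv1, hv2, hv3⟩ := h3 G f t Q X ρ A' B' hf (by omega) hρ0 e1 hρhalf e2
      (fun i hi => ⟨(hAB' i hi).1, (hAB' i hi).2.1.trans (by omega), (hAB' i hi).2.2.1,
        (hAB' i hi).2.2.2.1.trans (by omega), (hAB' i hi).2.2.2.2⟩) hne'
    refine ⟨i, hi, v, ?_, hv2, hv3⟩
    have hρi := hρ i hi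
    have g1 : m / s ≤ X * ρ i := by
      calc m / s = m * (1 / s) := by ring
        _ ≤ X * ρ i := mul_le_mul hX1 hρi.1 (by positivity) hX0.le
    have g2 : (X : ℝ) * ρ i ≤ r * m := by
      calc (X : ℝ) * ρ i ≤ (s * m) * s := mul_le_mul hX2 hρi.2 (le_trans (by positivity) hρi.1) (by positivity)
        _ ≤ s ^ 3 * m := by nlinarith [mul_nonneg hm0.le (mul_nonneg (show (0:ℝ) ≤ s ^ 2 by positivity) (show (0:ℝ) ≤ s - 1 by linarith))]
        _ ≤ r * m := mul_le_mul_of_nonneg_right hs3 hm0.le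
    have g3 : m / r ≤ v := by linarith
    have g4 : (v : ℝ) ≤ r * m := by linarith
    classical exact Finset.mem_filter.2 ⟨Finset.mem_Icc.2 ⟨Nat.ceil_le.2 g3, Nat.le_floor g4⟩, hv1⟩
  have hcnt := h4 (JG f m r) t Q ⌈m⌉₊ ⌊s * m⌋₊ ρ hρhalf hcov
  have hb : s * m - 1 ≤ (⌊s * m⌋₊ : ℝ) := by
    have := Nat.lt_floor_add_one (s * m)
    linarith
  have ha : (⌈m⌉₊ : ℝ) ≤ m + 1 := (Nat.ceil_lt_add_one hm0.le).le
  have hba : m * (s - 1) / 2 ≤ (⌊s * m⌋₊ : ℝ) - ⌈m⌉₊ := by nlinarith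
  have htr : ((t : ℕ) : ℝ) = 2 * (K : ℝ) ^ 30 := by
    rw [ht]
    push_cast
    ring
  rw [htr, hQr] at hcnt
  have hJ0 : (0 : ℝ) ≤ ((JG f m r).card : ℝ) := Nat.cast_nonneg _
  have hK30 : (1 : ℝ) ≤ (K : ℝ) ^ 30 := one_le_pow₀ (by linarith)
  have hfac : (2 * (K : ℝ) ^ 30 + 1) * (2 * (C * (K : ℝ) ^ 28 + 2) + 1) ≤ 21 * C * (K : ℝ) ^ 58 := by
    have h5 : 2 * (K : ℝ) ^ 30 + 1 ≤ 3 * (K : ℝ) ^ 30 := by linarith
    have h8 : (1 : ℝ) ≤ C * (K : ℝ) ^ 28 := by nlinarith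
    have h6 : 2 * ((C : ℝ) * (K : ℝ) ^ 28 + 2) + 1 ≤ 7 * (C * (K : ℝ) ^ 28) := by linarith
    have h7 : (2 * (K : ℝ) ^ 30 + 1) * (2 * (C * (K : ℝ) ^ 28 + 2) + 1) ≤ (3 * (K : ℝ) ^ 30) * (7 * (C * (K : ℝ) ^ 28)) :=
      mul_le_mul h5 h6 (by positivity) (by positivity)
    have h9 : (3 * (K : ℝ) ^ 30) * (7 * (C * (K : ℝ) ^ 28)) = 21 * C * (K : ℝ) ^ 58 := by ring
    linarith
  have hfin : m * (s - 1) / 2 ≤ (JG f m r).card * (21 * C * (K : ℝ) ^ 58) := by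
    calc m * (s - 1) / 2 ≤ (2 * (K : ℝ) ^ 30 + 1) * ((JG f m r).card) * (2 * (C * (K : ℝ) ^ 28 + 2) + 1) := by linarith
      _ = (JG f m r).card * ((2 * (K : ℝ) ^ 30 + 1) * (2 * (C * (K : ℝ) ^ 28 + 2) + 1)) := by ring
      _ ≤ _ := mul_le_mul_of_nonneg_left hfac hJ0
  have hK58 : (0 : ℝ) < (K : ℝ) ^ 58 := by positivity
  rw [div_le_iff₀ hK58]
  have hC0 : (0 : ℝ) < 42 * C := by linarith
  rw [div_mul_eq_mul_div, div_le_iff₀ hC0]
  nlinarith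

end Pool.RGS
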