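import Pool.Agent.Work.MP_3a3367_rgs.InterfaceB

/-! # Block NRM: normalised positions -/

set_option autoImplicit false

namespace Pool.RGS

open Finset

theorem NRM_tel (s : ℕ → ℤ) (h : ∀ i, s i * s i = 1) (t : ℕ) :
    ∏ i ∈ range t, (s i * s (i + 1)) = s 0 * s t := by
  induction t with
  | zero => rw [prod_range_zero, h]
  | succ t ih =>
    rw [prod_range_succ, ih]
    have h1 : s 0 * s t * (s t * s (t + 1)) = s 0 * (s t * s t) * s (t + 1) := by ring
    rw [h1, h, mul_one]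

theorem NRM_par (e : ℤ) (he : e = 1 ∨ e = -1) (x y : ℤ) :
    e ^ (x - y).toNat * e ^ (-(x - y)).toNat = e ^ x.natAbs * e ^ y.natAbs := by
  rcases he with rfl | rfl
  · simp
  · rw [← pow_add, ← pow_add, Int.toNat_add_toNat_neg_eq_natAbs]
    refine neg_one_pow_congr ?_
    rw [Int.natAbs_even, Int.even_sub, Nat.even_add, Int.natAbs_even, Int.natAbs_even]

theorem NRM_one (f : ℕ → ℤ) (hf : CM f) : f 1 = 1 := by
  have h1 := hf.2 1 1 one_pos one_pos
  rcases hf.1 1 one_pos with h | h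
  · exact h
  · rw [mul_one, h] at h1
    norm_num at h1

theorem NRM_pow (f : ℕ → ℤ) (hf : CM f) (q : ℕ) (hq : 0 < q) (k : ℕ) : f (q ^ k) = f q ^ k := by
  induction k with
  | zero => rw [pow_zero, pow_zero, NRM_one f hf]
  | succ k ih => rw [pow_succ, hf.2 _ _ (pow_pos hq k) hq, ih, pow_succ]

theorem NRM_mul (f : ℕ → ℤ) (hf : CM f) (A u v : ℕ) (hA : 0 < A) :
    f (A * 2 ^ u * 3 ^ v) = f A * f 2 ^ u * f 3 ^ v := by
  rw [hf.2 _ _ (by positivity) (by positivity), hf.2 _ _ hA (by positivity),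
    NRM_pow f hf 2 (by norm_num), NRM_pow f hf 3 (by norm_num)]

theorem NRM_log (A u v : ℕ) (hA : 1 ≤ A) :
    Real.log ((A * 2 ^ u * 3 ^ v : ℕ) : ℝ) = Real.log A + u * Real.log 2 + v * Real.log 3 := by
  have hA' : (A : ℝ) ≠ 0 := by
    have : 0 < A := hA
    positivity
  push_cast
  rw [Real.log_mul (by positivity) (by positivity), Real.log_mul hA' (by positivity),
    Real.log_pow, Real.log_pow]

/-- Size of the new moves. -/
theorem NRM_size (A B y b0 : ℕ) (a b : ℤ) (r x : ℝ) (hA : A ≤ y) (hB : B ≤ y)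
    (hr : 1 < r) (hb : b ≤ b0) (hb' : -b ≤ b0) (hBp : 1 ≤ B)
    (hx : ((A * 2 ^ a.toNat * 3 ^ b.toNat : ℕ) : ℝ) =
      x * ((B * 2 ^ (-a).toNat * 3 ^ (-b).toNat : ℕ) : ℝ)) (hxr : x ≤ r ^ 2) :
    ((A * 2 ^ a.toNat * 3 ^ b.toNat : ℕ) : ℝ) ≤ r ^ 2 * 3 ^ b0 * y := by
  have h3 : ((3 : ℝ) ^ b.toNat) ≤ 3 ^ b0 := pow_le_pow_right₀ (by norm_num) (by omega)
  have h3' : ((3 : ℝ) ^ (-b).toNat) ≤ 3 ^ b0 := pow_le_pow_right₀ (by norm_num) (by omega)
  have hAy : (A : ℝ) ≤ y := by exact_mod_cast hA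
  have hBy : (B : ℝ) ≤ y := by exact_mod_cast hB
  have hr2 : 1 ≤ r ^ 2 := by nlinarith
  by_cases ha : 0 ≤ a
  · have h1 : (-a).toNat = 0 := by omega
    rw [hx, h1]
    push_cast
    rw [mul_one]
    have h2 : (B : ℝ) * 3 ^ (-b).toNat ≤ y * 3 ^ b0 :=
      mul_le_mul hBy h3' (by positivity) (by positivity)
    have h4 : 0 ≤ (B : ℝ) * 3 ^ (-b).toNat := by positivity
    calc x * (B * 3 ^ (-b).toNat) ≤ r ^ 2 * (B * 3 ^ (-b).toNat) :=
          mul_le_mul_of_nonneg_right hxr h4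
      _ ≤ r ^ 2 * (y * 3 ^ b0) := mul_le_mul_of_nonneg_left h2 (by positivity)
      _ = r ^ 2 * 3 ^ b0 * y := by ring
  · have h1 : a.toNat = 0 := by omega
    rw [h1]
    push_cast
    rw [mul_one]
    have h2 : (A : ℝ) * 3 ^ b.toNat ≤ y * 3 ^ b0 :=
      mul_le_mul hAy h3 (by positivity) (by positivity)
    calc (A : ℝ) * 3 ^ b.toNat ≤ y * 3 ^ b0 := h2
      _ = 1 * (y * 3 ^ b0) := by ring
      _ ≤ r ^ 2 * (y * 3 ^ b0) := mul_le_mul_of_nonneg_right hr2 (by positivity)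
      _ = r ^ 2 * 3 ^ b0 * y := by ring

theorem p_NRM (hDNS : Stmt_DNS) : Stmt_NRM := by
  intro r hr
  have hlr : 0 < Real.log r := Real.log_pos hr
  have hrp : 0 < r := by linarith
  obtain ⟨b0, hb0⟩ := hDNS (Real.log r) hlr
  choose α0 β0 hαβ using hb0
  obtain ⟨C, hC⟩ : ∃ C : ℕ, C = ⌈r ^ 2 * 3 ^ b0⌉₊ := ⟨_, rfl⟩
  have hCr : r ^ 2 * 3 ^ b0 ≤ (C : ℝ) := by
    rw [hC]
    exact Nat.le_ceil _
  have hC1 : 1 ≤ C := by
    have h1 : (0 : ℝ) < C := lt_of_lt_of_le (by positivity) hCr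
    exact_mod_cast h1
  refine ⟨C, hC1, ?_⟩
  intro t y A B hAB hS
  obtain ⟨S, hSd⟩ : ∃ S : ℕ → ℝ, S = fun i => ∑ l ∈ range i, (Real.log (A l) - Real.log (B l)) :=
    ⟨_, rfl⟩
  have hSt : S t = ∑ i ∈ range t, (Real.log (A i) - Real.log (B i)) := by rw [hSd]
  have hS0 : S 0 = 0 := by rw [hSd]; simp
  have hSs : ∀ i, S (i + 1) = S i + (Real.log (A i) - Real.log (B i)) := fun i => by
    rw [hSd]
    exact sum_range_succ _ _
  rw [← hSt] at hS
  rw [← hSt]
  obtain ⟨α, hα⟩ : ∃ α : ℕ → ℤ, α = fun i => if 0 < i ∧ i < t then α0 (S i) else 0 := ⟨_, rfl⟩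
  obtain ⟨β, hβ⟩ : ∃ β : ℕ → ℕ, β = fun i => if 0 < i ∧ i < t then β0 (S i) else 0 := ⟨_, rfl⟩
  have hα0 : α 0 = 0 := by rw [hα]; simp
  have hβ0 : β 0 = 0 := by rw [hβ]; simp
  have hαt : α t = 0 := by rw [hα]; simp
  have hβt : β t = 0 := by rw [hβ]; simp
  have hβb : ∀ i, β i ≤ b0 := by
    intro i
    rw [hβ]
    by_cases h : 0 < i ∧ i < t
    · simp only [if_pos h]
      exact (hαβ (S i)).1
    · simp only [if_neg h]
      exact Nat.zero_le _
  have hdev : ∀ i ≤ t, |S i - α i * Real.log 2 - β i * Real.log 3| ≤ Real.log r := by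
    intro i hi
    by_cases h : 0 < i ∧ i < t
    · have h1 := (hαβ (S i)).2
      rw [hα, hβ]
      simp only [if_pos h]
      exact h1
    · rcases Nat.eq_zero_or_pos i with h0 | h0
      · rw [h0, hα0, hβ0, hS0]
        simp only [Int.cast_zero, Nat.cast_zero, zero_mul, sub_zero, abs_zero]
        exact hlr.le
      · have h1 : i = t := by
          by_contra h2
          exact h ⟨h0, lt_of_le_of_ne hi h2⟩
        rw [h1, hαt, hβt]
        simp only [Int.cast_zero, Nat.cast_zero, zero_mul, sub_zero]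
        exact hS
  obtain ⟨ρ, hρ⟩ : ∃ ρ : ℕ → ℝ, ρ = fun i =>
    Real.exp (S i - α i * Real.log 2 - β i * Real.log 3) := ⟨_, rfl⟩
  have hρb : ∀ i ≤ t, 1 / r ≤ ρ i ∧ ρ i ≤ r := by
    intro i hi
    have h1 := abs_le.1 (hdev i hi)
    rw [hρ]
    constructor
    · have h2 : 1 / r = Real.exp (-Real.log r) := by
        rw [Real.exp_neg, Real.exp_log hrp, one_div]
      rw [h2]
      exact Real.exp_le_exp.2 h1.1
    · exact (Real.exp_le_exp.2 h1.2).trans (le_of_eq (Real.exp_log hrp))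
  obtain ⟨a, ha⟩ : ∃ a : ℕ → ℤ, a = fun i => α i - α (i + 1) := ⟨_, rfl⟩
  obtain ⟨b, hb⟩ : ∃ b : ℕ → ℤ, b = fun i => (β i : ℤ) - β (i + 1) := ⟨_, rfl⟩
  obtain ⟨A', hA'⟩ : ∃ A' : ℕ → ℕ, A' = fun i => A i * 2 ^ (a i).toNat * 3 ^ (b i).toNat :=
    ⟨_, rfl⟩
  obtain ⟨B', hB'⟩ : ∃ B' : ℕ → ℕ, B' = fun i => B i * 2 ^ (-a i).toNat * 3 ^ (-b i).toNat :=
    ⟨_, rfl⟩
  have hA'1 : ∀ i < t, 1 ≤ A' i := fun i hi => by
    rw [hA']
    have h1 : 0 < A i := (hAB i hi).1
    exact Nat.succ_le_of_lt (by positivity)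
  have hB'1 : ∀ i < t, 1 ≤ B' i := fun i hi => by
    rw [hB']
    have h1 : 0 < B i := (hAB i hi).2.2.1
    exact Nat.succ_le_of_lt (by positivity)
  have hstep : ∀ i < t, ρ (i + 1) = ρ i * ((A' i : ℝ) / B' i) := by
    intro i hi
    have hAp : (0 : ℝ) < A' i := by exact_mod_cast hA'1 i hi
    have hBp : (0 : ℝ) < B' i := by exact_mod_cast hB'1 i hi
    have h1 : (A' i : ℝ) / B' i = Real.exp (Real.log (A' i) - Real.log (B' i)) := by
      rw [Real.exp_sub, Real.exp_log hAp, Real.exp_log hBp]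
    have hlA : Real.log (A' i) = Real.log (A i) + (a i).toNat * Real.log 2 +
        (b i).toNat * Real.log 3 := by
      rw [hA']
      exact NRM_log _ _ _ (hAB i hi).1
    have hlB : Real.log (B' i) = Real.log (B i) + (-a i).toNat * Real.log 2 +
        (-b i).toNat * Real.log 3 := by
      rw [hB']
      exact NRM_log _ _ _ (hAB i hi).2.2.1
    have ha2 : ((a i).toNat : ℝ) - ((-a i).toNat : ℝ) = α i - α (i + 1) := by
      have h2 : ((a i).toNat : ℤ) - ((-a i).toNat : ℤ) = α i - α (i + 1) := by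
        rw [Int.toNat_sub_toNat_neg, ha]
      exact_mod_cast congrArg (Int.cast : ℤ → ℝ) h2
    have hb2 : ((b i).toNat : ℝ) - ((-b i).toNat : ℝ) = β i - β (i + 1) := by
      have h2 : ((b i).toNat : ℤ) - ((-b i).toNat : ℤ) = (β i : ℤ) - β (i + 1) := by
        rw [Int.toNat_sub_toNat_neg, hb]
      exact_mod_cast congrArg (Int.cast : ℤ → ℝ) h2
    rw [h1, hρ]
    simp only
    rw [← Real.exp_add, hSs, hlA, hlB]
    congr 1
    have h3 : ((a i).toNat : ℝ) = ((-a i).toNat : ℝ) + (α i - α (i + 1)) := by linarith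
    have h4 : ((b i).toNat : ℝ) = ((-b i).toNat : ℝ) + (β i - β (i + 1)) := by linarith
    rw [h3, h4]
    ring
  have hρp : ∀ i, 0 < ρ i := fun i => by
    rw [hρ]
    exact Real.exp_pos _
  have hyy : (y : ℝ) ≤ (y : ℝ) ^ 2 := by
    rcases Nat.eq_zero_or_pos y with h | h
    · rw [h]
      norm_num
    · have h1 : (1 : ℝ) ≤ y := by exact_mod_cast h
      nlinarith
  have hfin : ∀ z : ℕ, (z : ℝ) ≤ r ^ 2 * 3 ^ b0 * y → z ≤ C * y ^ 2 := by
    intro z hz
    have h1 : (z : ℝ) ≤ C * (y : ℝ) ^ 2 := by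
      refine hz.trans ?_
      exact mul_le_mul hCr hyy (by positivity) (by positivity)
    exact_mod_cast h1
  have hbi : ∀ i, b i ≤ b0 ∧ -b i ≤ b0 := by
    intro i
    rw [hb]
    have h1 := hβb i
    have h2 := hβb (i + 1)
    simp only
    omega
  refine ⟨ρ, A', B', ?_, ?_, hρb, ?_, ?_⟩
  · rw [hρ]
    simp only
    rw [hS0, hα0, hβ0]
    simp
  · rw [hρ]
    simp only
    rw [hαt, hβt]
    simp
  · intro i hi
    have hAp : (0 : ℝ) < A' i := by exact_mod_cast hA'1 i hi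
    have hBp : (0 : ℝ) < B' i := by exact_mod_cast hB'1 i hi
    obtain ⟨x, hx⟩ : ∃ x : ℝ, x = (A' i : ℝ) / B' i := ⟨_, rfl⟩
    have hs := hstep i hi
    rw [← hx] at hs
    have h1 := hρb i hi.le
    have h2 := hρb (i + 1) hi
    have hxp : 0 < x := by
      rw [hx]
      positivity
    have hxr : x ≤ r ^ 2 := by
      have h3 : 1 / r * x ≤ r := by
        refine le_trans ?_ h2.2
        rw [hs]
        exact mul_le_mul_of_nonneg_right h1.1 hxp.le
      rw [one_div, inv_mul_eq_div, div_le_iff₀ hrp] at h3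
      rw [sq]
      exact h3
    have hxr' : x⁻¹ ≤ r ^ 2 := by
      have h3 : 1 / r ≤ r * x := by
        refine le_trans h2.1 ?_
        rw [hs]
        exact mul_le_mul_of_nonneg_right h1.2 hxp.le
      rw [div_le_iff₀ hrp] at h3
      rw [inv_le_iff_one_le_mul₀ hxp]
      calc (1 : ℝ) ≤ r * x * r := h3
        _ = r ^ 2 * x := by ring
    have hAx : (A' i : ℝ) = x * B' i := by
      rw [hx]
      field_simp
    have hBx : (B' i : ℝ) = x⁻¹ * A' i := by
      rw [hAx]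
      field_simp
    refine ⟨hA'1 i hi, ?_, hB'1 i hi, ?_, hstep i hi⟩
    · refine hfin _ ?_
      have h5 := NRM_size (A i) (B i) y b0 (a i) (b i) r x (hAB i hi).2.1 (hAB i hi).2.2.2 hr
        (hbi i).1 (hbi i).2 (hAB i hi).2.2.1 (by
          rw [hA', hB'] at hAx
          exact hAx) hxr
      rw [hA']
      exact h5
    · refine hfin _ ?_
      have h5 := NRM_size (B i) (A i) y b0 (-a i) (-b i) r x⁻¹ (hAB i hi).2.2.2 (hAB i hi).2.1 hr
        (hbi i).2 (by rw [neg_neg]; exact (hbi i).1) (hAB i hi).1 (by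
          rw [neg_neg, neg_neg]
          rw [hA', hB'] at hBx
          exact hBx) hxr'
      rw [hB']
      exact h5
  · intro f hf
    have h2 : f 2 = 1 ∨ f 2 = -1 := hf.1 2 (by norm_num)
    have h3 : f 3 = 1 ∨ f 3 = -1 := hf.1 3 (by norm_num)
    obtain ⟨s, hs⟩ : ∃ s : ℕ → ℤ, s = fun i => f 2 ^ (α i).natAbs * f 3 ^ ((β i : ℤ)).natAbs :=
      ⟨_, rfl⟩
    have hsq : ∀ i, s i * s i = 1 := by
      intro i
      rw [hs]
      simp only
      have e2 : f 2 * f 2 = 1 := by rcases h2 with h | h <;> rw [h] <;> norm_num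
      have e3 : f 3 * f 3 = 1 := by rcases h3 with h | h <;> rw [h] <;> norm_num
      have h4 : f 2 ^ (α i).natAbs * f 3 ^ ((β i : ℤ)).natAbs *
          (f 2 ^ (α i).natAbs * f 3 ^ ((β i : ℤ)).natAbs) =
          (f 2 * f 2) ^ (α i).natAbs * (f 3 * f 3) ^ ((β i : ℤ)).natAbs := by
        rw [mul_pow, mul_pow]
        ring
      rw [h4, e2, e3, one_pow, one_pow, one_mul]
    have hterm : ∀ i ∈ range t, f (A' i) * f (B' i) = (f (A i) * f (B i)) * (s i * s (i + 1)) := by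
      intro i hi
      have hi' := mem_range.1 hi
      have e1 : f (A' i) = f (A i) * f 2 ^ (a i).toNat * f 3 ^ (b i).toNat := by
        rw [hA']
        exact NRM_mul f hf _ _ _ (hAB i hi').1
      have e2 : f (B' i) = f (B i) * f 2 ^ (-a i).toNat * f 3 ^ (-b i).toNat := by
        rw [hB']
        exact NRM_mul f hf _ _ _ (hAB i hi').2.2.1
      have p2 : f 2 ^ (a i).toNat * f 2 ^ (-a i).toNat =
          f 2 ^ (α i).natAbs * f 2 ^ (α (i + 1)).natAbs := by
        rw [ha]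
        exact NRM_par (f 2) h2 (α i) (α (i + 1))
      have p3 : f 3 ^ (b i).toNat * f 3 ^ (-b i).toNat =
          f 3 ^ ((β i : ℤ)).natAbs * f 3 ^ ((β (i + 1) : ℤ)).natAbs := by
        rw [hb]
        exact NRM_par (f 3) h3 (β i) (β (i + 1))
      rw [e1, e2, hs]
      simp only
      calc f (A i) * f 2 ^ (a i).toNat * f 3 ^ (b i).toNat *
            (f (B i) * f 2 ^ (-a i).toNat * f 3 ^ (-b i).toNat) =
            f (A i) * f (B i) * ((f 2 ^ (a i).toNat * f 2 ^ (-a i).toNat) *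
              (f 3 ^ (b i).toNat * f 3 ^ (-b i).toNat)) := by ring
        _ = _ := by rw [p2, p3]; ring
    rw [prod_congr rfl hterm, prod_mul_distrib, NRM_tel s hsq t]
    have hs0 : s 0 = 1 := by
      rw [hs]
      simp only
      rw [hα0, hβ0]
      simp
    have hst : s t = 1 := by
      rw [hs]
      simp only
      rw [hαt, hβt]
      simp
    rw [hs0, hst, mul_one, mul_one]

end Pool.RGS
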