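import Pool.Agent.Work.MP_3a3367_rgs.InterfaceB

set_option autoImplicit false

namespace Pool.RGS

open Finset

lemma ORD_arith (l j e : ℕ) (hl : l.Prime) (he : l ∣ e / Nat.gcd e (l ^ j)) : l ^ (j + 1) ∣ e := by
  obtain ⟨i, hij, hi⟩ := (Nat.dvd_prime_pow hl).1 (Nat.gcd_dvd_right e (l ^ j))
  rw [hi] at he
  have h1 : l ^ i ∣ e := hi ▸ Nat.gcd_dvd_left e (l ^ j)
  have h2 : l ^ (i + 1) ∣ e := by
    obtain ⟨c, hc⟩ := he
    refine ⟨c, ?_⟩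
    rw [pow_succ, mul_assoc, ← hc, Nat.mul_div_cancel' h1]
  rcases Nat.lt_or_ge i j with h | h
  · exfalso
    have h3 : l ^ (i + 1) ∣ l ^ i := by
      rw [← hi]
      exact Nat.dvd_gcd h2 (pow_dvd_pow l h)
    have h4 := Nat.le_of_dvd (pow_pos hl.pos i) h3
    have h5 : l ^ i < l ^ (i + 1) := Nat.pow_lt_pow_right hl.one_lt (Nat.lt_succ_self i)
    omega
  · have h6 : i = j := le_antisymm hij h
    rw [← h6]
    exact h2

theorem p_ORD : Stmt_ORD := by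
  intro d ζ hd h
  by_contra hne
  obtain ⟨ξ1, ⟨r1, hr1, hrd1, hξ1⟩, hq1⟩ := h 1 le_rfl hd
  rw [pow_one] at hq1
  rw [hq1] at hξ1
  have ho1 : orderOf ζ ∣ r1 := orderOf_dvd_of_pow_eq_one hξ1
  have ho2 : orderOf ζ ≤ d := (Nat.le_of_dvd hr1 ho1).trans hrd1
  have ho3 : orderOf ζ ≠ 1 := fun h1 => hne (orderOf_eq_one_iff.1 h1)
  have ho4 : 0 < orderOf ζ := Nat.pos_of_dvd_of_pos ho1 hr1
  obtain ⟨l, hl, hlo⟩ := Nat.exists_prime_and_dvd ho3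
  have hld : l ≤ d := (Nat.le_of_dvd ho4 hlo).trans ho2
  obtain ⟨j, hj⟩ : ∃ j, j = Nat.log l d := ⟨_, rfl⟩
  have hj1 : l ^ j ≤ d := by
    rw [hj]
    exact Nat.pow_log_le_self l (by omega)
  have hj2 : d < l ^ (j + 1) := by
    rw [hj]
    exact Nat.lt_pow_succ_log_self hl.one_lt d
  obtain ⟨ξ, ⟨r, hr, hrd, hξ⟩, hq⟩ := h (l ^ j) (Nat.one_le_pow _ _ hl.pos) hj1
  have he1 : orderOf ξ ∣ r := orderOf_dvd_of_pow_eq_one hξ
  have he2 : orderOf ξ ≤ d := (Nat.le_of_dvd hr he1).trans hrd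
  have he3 : 0 < orderOf ξ := Nat.pos_of_dvd_of_pos he1 hr
  have he4 : orderOf (ξ ^ (l ^ j)) = orderOf ξ / Nat.gcd (orderOf ξ) (l ^ j) :=
    orderOf_pow' ξ (pow_pos hl.pos j).ne'
  rw [hq] at he4
  rw [he4] at hlo
  have h5 := Nat.le_of_dvd he3 (ORD_arith l j _ hl hlo)
  omega

end Pool.RGS
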