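import Pool.Agent.Work.MP_3a3367_rgs.InterfaceH

/-! # MP_3a3367_nt, robust Granville-Selfridge, block PKH (typed by helper98) -/

set_option autoImplicit false

namespace Pool.RGS

open Finset

open Classical in
/-- The set of the general theorem lies in the filtered `I_k`. -/
theorem PKH_card {G : Type} [AddCommGroup G] (f : ℕ → G) (k : ℕ) (g : G) (hk : 1 ≤ k) (F : Finset ℕ)
    (hF : ∀ n, n ∈ F ↔ n ∈ Ioo ((2 * k - 1) ^ 2) ((2 * k + 1) ^ 2) ∧ f n ≠ g) :
    ((EG f (2 * (k : ℝ) - 1) 3 g).card : ℝ) ≤ (F.card : ℝ) := by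
  have h : EG f (2 * (k : ℝ) - 1) 3 g ⊆ F := by
    intro n hn
    unfold EG at hn
    obtain ⟨hn1, hn2⟩ := mem_filter.1 hn
    rw [hF]
    refine ⟨?_, hn2⟩
    unfold II at hn1
    rw [mem_filter, mem_range] at hn1
    obtain ⟨h1, h2⟩ := hn1
    have hk1 : (1 : ℝ) ≤ (k : ℝ) := by exact_mod_cast hk
    have hc : ((2 * k - 1 : ℕ) : ℝ) = 2 * (k : ℝ) - 1 := by
      rw [Nat.cast_sub (by omega)]
      push_cast
      ring
    have h3 : n ≤ ⌊(2 * (k : ℝ) - 1) ^ 2 + 3 * (2 * (k : ℝ) - 1)⌋₊ := by omega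
    have h4 : (n : ℝ) ≤ (2 * (k : ℝ) - 1) ^ 2 + 3 * (2 * (k : ℝ) - 1) :=
      (Nat.cast_le.2 h3).trans (Nat.floor_le (by nlinarith))
    rw [mem_Ioo]
    constructor
    · have h5 : (((2 * k - 1) ^ 2 : ℕ) : ℝ) < (n : ℝ) := by
        rw [Nat.cast_pow, hc]
        exact h2
      exact_mod_cast h5
    · have h6 : (n : ℝ) < (((2 * k + 1) ^ 2 : ℕ) : ℝ) := by
        push_cast
        nlinarith
      exact_mod_cast h6
  exact_mod_cast card_le_card h

theorem PKH_sqrt (k : ℕ) (hk : 2 ≤ k) : √2 ≤ 2 * (k : ℝ) - 1 := by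
  have hk2 : (2 : ℝ) ≤ (k : ℝ) := by exact_mod_cast hk
  have : √2 ≤ 2 := by
    rw [Real.sqrt_le_left (by norm_num)]
    norm_num
  linarith

open Classical in
theorem p_PKH (hPPA : Stmt_PPA) (hPPB : Stmt_PPB) : Stmt_PKH := by
  have hlog2 : 0 < Real.log 2 := Real.log_pos (by norm_num)
  constructor
  · -- the logarithmic form
    obtain ⟨κ0, h0, H⟩ := hPPA 3 (by norm_num)
    refine ⟨min (κ0 / 2 ^ 100) ((Real.log 2) ^ 100), lt_min (by positivity) (by positivity), ?_⟩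
    intro G _ f p k g hf hp hfp hk hcond
    have hpr : (2 : ℝ) ≤ (p : ℝ) := by exact_mod_cast hp
    have hp2 : (4 : ℝ) ≤ (p : ℝ) ^ 2 := by nlinarith
    by_cases hk2 : 2 ≤ k
    · have hkr : (2 : ℝ) ≤ (k : ℝ) := by exact_mod_cast hk2
      have hL0 : 0 < Real.log (2 * (k : ℝ)) := Real.log_pos (by linarith)
      have hlm : 0 < Real.log (2 * (k : ℝ) - 1) := Real.log_pos (by linarith)
      have hle : Real.log (2 * (k : ℝ) - 1) ≤ Real.log (2 * (k : ℝ)) :=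
        Real.log_le_log (by linarith) (by linarith)
      have hsq : Real.log ((2 * (k : ℝ) - 1) ^ 2) = 2 * Real.log (2 * (k : ℝ) - 1) := by
        rw [Real.log_pow]
        push_cast
        ring
      have hR0 : 0 < Real.log ((2 * (k : ℝ) - 1) ^ 2) := by
        rw [hsq]
        positivity
      have hR : Real.log ((2 * (k : ℝ) - 1) ^ 2) ≤ 2 * Real.log (2 * (k : ℝ)) := by
        rw [hsq]
        linarith
      have hRp : (Real.log ((2 * (k : ℝ) - 1) ^ 2)) ^ 100 ≤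
          2 ^ 100 * (Real.log (2 * (k : ℝ))) ^ 100 := by
        rw [← mul_pow]
        exact pow_le_pow_left₀ hR0.le hR 100
      have hpos : 0 < (p : ℝ) ^ 2 * (Real.log (2 * (k : ℝ))) ^ 100 := by positivity
      have hpos' : 0 < (p : ℝ) ^ 2 * (Real.log ((2 * (k : ℝ) - 1) ^ 2)) ^ 100 := by positivity
      have hle2 : (p : ℝ) ^ 2 * (Real.log ((2 * (k : ℝ) - 1) ^ 2)) ^ 100 ≤
          2 ^ 100 * ((p : ℝ) ^ 2 * (Real.log (2 * (k : ℝ))) ^ 100) := by
        calc (p : ℝ) ^ 2 * (Real.log ((2 * (k : ℝ) - 1) ^ 2)) ^ 100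
            ≤ (p : ℝ) ^ 2 * (2 ^ 100 * (Real.log (2 * (k : ℝ))) ^ 100) :=
              mul_le_mul_of_nonneg_left hRp (by positivity)
          _ = _ := by rw [mul_left_comm]
      have hkm : (k : ℝ) ≤ 2 * (k : ℝ) - 1 := by linarith
      have hmin : min (κ0 / 2 ^ 100) ((Real.log 2) ^ 100) * (k : ℝ) ≤ κ0 / 2 ^ 100 * (2 * (k : ℝ) - 1) :=
        mul_le_mul (min_le_left _ _) hkm (by linarith) (by positivity)
      have hc1 : (p : ℝ) ^ 2 * (Real.log ((2 * (k : ℝ) - 1) ^ 2)) ^ 100 ≤ κ0 * (2 * (k : ℝ) - 1) := by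
        calc (p : ℝ) ^ 2 * (Real.log ((2 * (k : ℝ) - 1) ^ 2)) ^ 100
            ≤ 2 ^ 100 * ((p : ℝ) ^ 2 * (Real.log (2 * (k : ℝ))) ^ 100) := hle2
          _ ≤ 2 ^ 100 * (κ0 / 2 ^ 100 * (2 * (k : ℝ) - 1)) :=
              mul_le_mul_of_nonneg_left (hcond.trans hmin) (by positivity)
          _ = κ0 * (2 * (k : ℝ) - 1) := by
              rw [← mul_assoc, mul_div_cancel₀ _ (by positivity)]
      have hmain := H G f p (2 * (k : ℝ) - 1) g hf hp hfp (PKH_sqrt k hk2) hc1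
      refine le_trans ?_ (hmain.trans (PKH_card f k g hk _ (fun n => mem_filter)))
      calc min (κ0 / 2 ^ 100) ((Real.log 2) ^ 100) * (k : ℝ) / ((p : ℝ) ^ 2 * (Real.log (2 * (k : ℝ))) ^ 100)
          ≤ κ0 / 2 ^ 100 * (2 * (k : ℝ) - 1) / ((p : ℝ) ^ 2 * (Real.log (2 * (k : ℝ))) ^ 100) :=
            div_le_div_of_nonneg_right hmin hpos.le
        _ = κ0 * (2 * (k : ℝ) - 1) / (2 ^ 100 * ((p : ℝ) ^ 2 * (Real.log (2 * (k : ℝ))) ^ 100)) := by
            rw [div_mul_eq_mul_div, div_div]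
        _ ≤ κ0 * (2 * (k : ℝ) - 1) / ((p : ℝ) ^ 2 * (Real.log ((2 * (k : ℝ) - 1) ^ 2)) ^ 100) :=
            div_le_div_of_nonneg_left (mul_nonneg h0.le (by linarith)) hpos' hle2
    · exfalso
      have hk1 : k = 1 := by omega
      subst hk1
      have h1 : min (κ0 / 2 ^ 100) ((Real.log 2) ^ 100) ≤ (Real.log 2) ^ 100 := min_le_right _ _
      have h2 : (0 : ℝ) < (Real.log 2) ^ 100 := by positivity
      have h3 : (p : ℝ) ^ 2 * (Real.log 2) ^ 100 ≤ (Real.log 2) ^ 100 := by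
        have h4 : (2 * ((1 : ℕ) : ℝ)) = 2 := by norm_num
        rw [h4, Nat.cast_one, mul_one] at hcond
        exact hcond.trans h1
      have h5 : 4 * (Real.log 2) ^ 100 ≤ (p : ℝ) ^ 2 * (Real.log 2) ^ 100 :=
        mul_le_mul_of_nonneg_right hp2 h2.le
      linarith
  · -- the power form
    intro ε hε hε1
    obtain ⟨κ0, h0, H⟩ := hPPB 3 ε (by norm_num) hε hε1
    refine ⟨min κ0 1, lt_min h0 one_pos, ?_⟩
    intro G _ f p k g hf hp hfp hk hcond
    have hpr : (2 : ℝ) ≤ (p : ℝ) := by exact_mod_cast hp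
    by_cases hk2 : 2 ≤ k
    · have hkr : (2 : ℝ) ≤ (k : ℝ) := by exact_mod_cast hk2
      have hpow : (k : ℝ) ^ (1 - ε) ≤ (2 * (k : ℝ) - 1) ^ (1 - ε) :=
        Real.rpow_le_rpow (by linarith) (by linarith) (by linarith)
      have hk0 : 0 ≤ (k : ℝ) ^ (1 - ε) := Real.rpow_nonneg (by linarith) _
      have hmin : min κ0 1 * (k : ℝ) ^ (1 - ε) ≤ κ0 * (2 * (k : ℝ) - 1) ^ (1 - ε) :=
        mul_le_mul (min_le_left _ _) hpow hk0 h0.le
      have hmain := H G f p (2 * (k : ℝ) - 1) g hf hp hfp (PKH_sqrt k hk2) (hcond.trans hmin)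
      refine le_trans ?_ (hmain.trans (PKH_card f k g hk _ (fun n => mem_filter)))
      exact div_le_div_of_nonneg_right hmin (by linarith)
    · exfalso
      have hk1 : k = 1 := by omega
      subst hk1
      rw [Nat.cast_one, Real.one_rpow, mul_one] at hcond
      have h1 : min κ0 1 ≤ 1 := min_le_right _ _
      linarith

end Pool.RGS
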