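import Pool.Agent.Work.MP_3a3367_rgs.InterfaceB

/-! # MP_3a3367_nt, robust Granville-Selfridge, block PP1 (typed by helper98) -/

set_option autoImplicit false

namespace Pool.RGS

open Finset

/-- The growth condition for large `k`. -/
theorem PP1_large (κ0 : ℝ) (h0 : 0 < κ0) : ∃ k0 : ℕ, ∀ k : ℕ, k0 ≤ k →
    (4 * Real.log (2 * (k : ℝ))) ^ 120 ≤ κ0 * k := by
  have h := (Real.isLittleO_pow_log_id_atTop (n := 120)).def (c := κ0 / (2 * 4 ^ 120)) (by positivity)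
  obtain ⟨x0, hx0⟩ := Filter.eventually_atTop.1 h
  obtain ⟨N, hN⟩ := exists_nat_ge x0
  refine ⟨N, fun k hk => ?_⟩
  have hkN : (N : ℝ) ≤ (k : ℝ) := by exact_mod_cast hk
  have hk0 : (0 : ℝ) ≤ (k : ℝ) := Nat.cast_nonneg k
  have h1 := hx0 (2 * (k : ℝ)) (by linarith)
  have h2 : (Real.log (2 * (k : ℝ))) ^ 120 ≤ κ0 / (2 * 4 ^ 120) * (2 * (k : ℝ)) := by
    have h3 : ‖(id (2 * (k : ℝ)) : ℝ)‖ = 2 * (k : ℝ) := by
      rw [id, Real.norm_eq_abs, abs_of_nonneg (by linarith)]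
    rw [h3] at h1
    exact (Real.le_norm_self _).trans h1
  have h4 : κ0 / (2 * 4 ^ 120) * (2 * (k : ℝ)) = κ0 * k / 4 ^ 120 := by
    rw [div_mul_eq_mul_div, show κ0 * (2 * (k : ℝ)) = 2 * (κ0 * k) by ring]
    rw [mul_div_mul_left _ _ (by norm_num : (2 : ℝ) ≠ 0)]
  rw [h4, le_div_iff₀ (by positivity)] at h2
  rw [mul_pow, mul_comm]
  exact h2

/-- The interval of the general theorem lies in `I_k`. -/
theorem PP1_sub (k : ℕ) (hk : 1 ≤ k) :
    II (2 * (k : ℝ) - 1) 3 ⊆ Ioo ((2 * k - 1) ^ 2) ((2 * k + 1) ^ 2) := by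
  intro n hn
  unfold II at hn
  rw [mem_filter, mem_range] at hn
  obtain ⟨h1, h2⟩ := hn
  have hk1 : (1 : ℝ) ≤ (k : ℝ) := by exact_mod_cast hk
  have hc : ((2 * k - 1 : ℕ) : ℝ) = 2 * (k : ℝ) - 1 := by
    rw [Nat.cast_sub (by omega)]
    push_cast
    ring
  have h3 : n ≤ ⌊(2 * (k : ℝ) - 1) ^ 2 + 3 * (2 * (k : ℝ) - 1)⌋₊ := by omega
  have h4 : (n : ℝ) ≤ (2 * (k : ℝ) - 1) ^ 2 + 3 * (2 * (k : ℝ) - 1) :=
    (Nat.cast_le.2 h3).trans (Nat.floor_le (by nlinarith))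
  rw [mem_Ioo]
  constructor
  · have h5 : (((2 * k - 1) ^ 2 : ℕ) : ℝ) < (n : ℝ) := by
      rw [Nat.cast_pow, hc]
      exact h2
    exact_mod_cast h5
  · have h6 : (n : ℝ) < (((2 * k + 1) ^ 2 : ℕ) : ℝ) := by
      push_cast
      nlinarith
    exact_mod_cast h6

theorem p_PP1 (hPP2 : Stmt_PP2) (hTRV : Stmt_TRV) : Stmt_PP1 := by
  obtain ⟨κ0, h0, H⟩ := hPP2 3 (by norm_num)
  obtain ⟨k0, hk0⟩ := PP1_large κ0 h0
  have hlog2 : 0 < Real.log 2 := Real.log_pos (by norm_num)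
  refine ⟨min (κ0 / 4 ^ 120) ((Real.log 2) ^ 120 / ((k0 : ℝ) + 2)), ?_, ?_⟩
  · exact lt_min (by positivity) (by positivity)
  · intro f k σ hf hf2 hk hσ
    have hk1 : (1 : ℝ) ≤ (k : ℝ) := by exact_mod_cast hk
    have hL : Real.log 2 ≤ Real.log (2 * (k : ℝ)) := Real.log_le_log (by norm_num) (by linarith)
    have hL0 : 0 < Real.log (2 * (k : ℝ)) := hlog2.trans_le hL
    have hP : 0 < (Real.log (2 * (k : ℝ))) ^ 120 := by positivity
    rw [div_le_iff₀ hP]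
    by_cases hlarge : k0 + 2 ≤ k
    · -- large `k`
      have hk2 : (2 : ℝ) ≤ (k : ℝ) := by exact_mod_cast (by omega : 2 ≤ k)
      have hm1 : (1 : ℝ) < 2 * (k : ℝ) - 1 := by linarith
      have hlm : 0 < Real.log (2 * (k : ℝ) - 1) := Real.log_pos hm1
      have hle : Real.log (2 * (k : ℝ) - 1) ≤ Real.log (2 * (k : ℝ)) :=
        Real.log_le_log (by linarith) (by linarith)
      have hsq : Real.log ((2 * (k : ℝ) - 1) ^ 2) = 2 * Real.log (2 * (k : ℝ) - 1) := by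
        rw [Real.log_pow]
        push_cast
        ring
      have hR0 : 0 < ((2 : ℕ) : ℝ) * Real.log ((2 * (k : ℝ) - 1) ^ 2) := by
        rw [hsq]
        push_cast
        positivity
      have hR : ((2 : ℕ) : ℝ) * Real.log ((2 * (k : ℝ) - 1) ^ 2) ≤ 4 * Real.log (2 * (k : ℝ)) := by
        rw [hsq]
        push_cast
        linarith
      have hRp : (((2 : ℕ) : ℝ) * Real.log ((2 * (k : ℝ) - 1) ^ 2)) ^ 120 ≤
          (4 * Real.log (2 * (k : ℝ))) ^ 120 := pow_le_pow_left₀ hR0.le hR 120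
      have hcond : (((2 : ℕ) : ℝ) * Real.log ((2 * (k : ℝ) - 1) ^ 2)) ^ 120 ≤
          κ0 * (2 * (k : ℝ) - 1) := by
        refine hRp.trans ((hk0 k (by omega)).trans ?_)
        exact mul_le_mul_of_nonneg_left (by linarith) h0.le
      have hsqrt : √2 ≤ 2 * (k : ℝ) - 1 := by
        have : √2 ≤ 2 := by
          rw [Real.sqrt_le_left (by norm_num)]
          norm_num
        linarith
      have hmain := H f 2 (2 * (k : ℝ) - 1) σ hf Nat.prime_two hf2 hsqrt hcond hσ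
      rw [div_le_iff₀ (by positivity)] at hmain
      have hcard : (((II (2 * (k : ℝ) - 1) 3).filter (fun n => f n = σ)).card : ℝ) ≤
          (((Ioo ((2 * k - 1) ^ 2) ((2 * k + 1) ^ 2)).filter (fun n => f n = σ)).card : ℝ) := by
        exact_mod_cast card_le_card (filter_subset_filter _ (PP1_sub k hk))
      have h5 : κ0 * (k : ℝ) ≤
          (((Ioo ((2 * k - 1) ^ 2) ((2 * k + 1) ^ 2)).filter (fun n => f n = σ)).card : ℝ) *
            (4 * Real.log (2 * (k : ℝ))) ^ 120 := by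
        calc κ0 * (k : ℝ) ≤ κ0 * (2 * (k : ℝ) - 1) := mul_le_mul_of_nonneg_left (by linarith) h0.le
          _ ≤ _ := hmain
          _ ≤ _ := mul_le_mul hcard hRp (by positivity) (Nat.cast_nonneg _)
      rw [mul_pow, ← mul_assoc, mul_comm _ ((4 : ℝ) ^ 120), mul_assoc] at h5
      have h6 : κ0 / 4 ^ 120 * (k : ℝ) ≤
          (((Ioo ((2 * k - 1) ^ 2) ((2 * k + 1) ^ 2)).filter (fun n => f n = σ)).card : ℝ) *
            (Real.log (2 * (k : ℝ))) ^ 120 := by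
        rw [div_mul_eq_mul_div, div_le_iff₀' (by positivity)]
        exact h5
      refine le_trans ?_ h6
      exact mul_le_mul_of_nonneg_right (min_le_left _ _) (by linarith)
    · -- small `k`
      obtain ⟨n, hn, hfn⟩ := hTRV f k σ hf hf2 hk hσ
      have hc1 : (1 : ℝ) ≤
          (((Ioo ((2 * k - 1) ^ 2) ((2 * k + 1) ^ 2)).filter (fun n => f n = σ)).card : ℝ) := by
        exact_mod_cast card_pos.2 ⟨n, mem_filter.2 ⟨hn, hfn⟩⟩
      have hkk : (k : ℝ) ≤ (k0 : ℝ) + 2 := by exact_mod_cast (by omega : k ≤ k0 + 2)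
      calc min (κ0 / 4 ^ 120) ((Real.log 2) ^ 120 / ((k0 : ℝ) + 2)) * (k : ℝ)
          ≤ (Real.log 2) ^ 120 / ((k0 : ℝ) + 2) * ((k0 : ℝ) + 2) :=
            mul_le_mul (min_le_right _ _) hkk (by linarith) (by positivity)
        _ = (Real.log 2) ^ 120 := div_mul_cancel₀ _ (by positivity)
        _ ≤ (Real.log (2 * (k : ℝ))) ^ 120 := pow_le_pow_left₀ hlog2.le hL 120
        _ = 1 * (Real.log (2 * (k : ℝ))) ^ 120 := (one_mul _).symm
        _ ≤ _ := mul_le_mul_of_nonneg_right hc1 hP.le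

end Pool.RGS
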