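import Pool.Agent.Work.MP_3a3367_rgs.InterfaceB

/-! # Block PP2: the general theorem -/

set_option autoImplicit false

namespace Pool.RGS

open Finset

theorem PP2_r (c : ℝ) (hc : 2 < c) : ∃ r : ℝ, 1 < r ∧ r + 1 / r < c := by
  obtain ⟨d, hd⟩ : ∃ d : ℝ, d = min 1 ((c - 2) / 2) := ⟨_, rfl⟩
  have h0 : 0 < d := by
    rw [hd]
    exact lt_min one_pos (by linarith)
  have h1 : d ≤ 1 := by
    rw [hd]
    exact min_le_left _ _
  have h2 : d ≤ (c - 2) / 2 := by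
    rw [hd]
    exact min_le_right _ _
  refine ⟨1 + d, by linarith, ?_⟩
  have h3 : 1 / (1 + d) ≤ 1 - d + d ^ 2 := by
    rw [div_le_iff₀ (by linarith)]
    have h4 : (1 - d + d ^ 2) * (1 + d) = 1 + d ^ 3 := by ring
    rw [h4]
    have : 0 ≤ d ^ 3 := by positivity
    linarith
  have h5 : d ^ 2 ≤ d := by nlinarith
  linarith

theorem p_PP2 (hJMP : Stmt_JMP) (hCSL : Stmt_CSL) : Stmt_PP2 := by
  intro c hc
  obtain ⟨r, hr1, hrc⟩ := PP2_r c hc
  obtain ⟨κ1, hκ1, K0, hJ⟩ := hJMP r hr1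
  obtain ⟨C, m0, hC, hm0, hCS⟩ := hCSL c r hr1.le hrc
  obtain ⟨C1, hC1⟩ : ∃ C1 : ℝ, C1 = 12 + K0 := ⟨_, rfl⟩
  have hC1p : 0 < C1 := by
    rw [hC1]
    positivity
  have hm0p : 0 < m0 := by linarith
  obtain ⟨κ, hκ⟩ : ∃ κ : ℝ, κ = min (1 / C1 ^ 29) (min (1 / m0) (κ1 ^ 2 / (C * C1 ^ 116))) :=
    ⟨_, rfl⟩
  have hκp : 0 < κ := by
    rw [hκ]
    exact lt_min (by positivity) (lt_min (by positivity) (by positivity))
  have hκ29 : κ ≤ 1 / C1 ^ 29 := by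
    rw [hκ]
    exact min_le_left _ _
  have hκm : κ ≤ 1 / m0 := by
    rw [hκ]
    exact (min_le_right _ _).trans (min_le_left _ _)
  have hκc : κ ≤ κ1 ^ 2 / (C * C1 ^ 116) := by
    rw [hκ]
    exact (min_le_right _ _).trans (min_le_right _ _)
  refine ⟨κ, hκp, ?_⟩
  intro f p m σ hf hp hfp hm hR hσ
  have hm1 : 1 < m := by
    have h1 : (1 : ℝ) < √2 := by
      rw [Real.lt_sqrt (by norm_num)]
      norm_num
    linarith
  have hm2 : 2 ≤ m ^ 2 := by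
    have h1 : √2 ^ 2 ≤ m ^ 2 := pow_le_pow_left₀ (Real.sqrt_nonneg _) hm 2
    rwa [Real.sq_sqrt (by norm_num)] at h1
  have hp2 : (2 : ℝ) ≤ p := by exact_mod_cast hp.two_le
  have hlog2 : (1 : ℝ) / 2 ≤ Real.log 2 := by
    have := Real.log_two_gt_d9
    linarith
  obtain ⟨L, hL⟩ : ∃ L : ℝ, L = Real.log (m ^ 2) := ⟨_, rfl⟩
  obtain ⟨R, hRd⟩ : ∃ R : ℝ, R = p * Real.log (m ^ 2) := ⟨_, rfl⟩
  rw [← hRd] at hR ⊢
  have hL2 : Real.log 2 ≤ L := by
    rw [hL]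
    exact Real.log_le_log (by norm_num) hm2
  have hLm : Real.log m = L / 2 := by
    rw [hL, Real.log_pow]
    push_cast
    ring
  have hRL : R = p * L := by rw [hRd, hL]
  have hLR : 2 * L ≤ R := by
    rw [hRL]
    nlinarith
  have hR1 : 1 ≤ R := by linarith
  have hpR : (p : ℝ) ≤ 2 * R := by
    rw [hRL]
    nlinarith
  -- the parameter
  obtain ⟨K, hK⟩ : ∃ K : ℕ, K = ⌈4 * Real.log (16 * m)⌉₊ + p + K0 := ⟨_, rfl⟩
  have hlog16 : Real.log (16 * m) = 4 * Real.log 2 + L / 2 := by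
    rw [Real.log_mul (by norm_num) (by linarith), hLm]
    have h1 : (16 : ℝ) = 2 ^ 4 := by norm_num
    rw [h1, Real.log_pow]
    push_cast
    ring
  have hlog16p : 0 ≤ 4 * Real.log (16 * m) := by
    rw [hlog16]
    linarith
  have hKR : (K : ℝ) ≤ C1 * R := by
    have h1 : (⌈4 * Real.log (16 * m)⌉₊ : ℝ) ≤ 4 * Real.log (16 * m) + 1 :=
      (Nat.ceil_lt_add_one hlog16p).le
    have h2 : (K0 : ℝ) ≤ K0 * R := by
      have := Nat.cast_nonneg (α := ℝ) K0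
      nlinarith
    have h3 : 4 * Real.log (16 * m) = 16 * Real.log 2 + 2 * L := by
      rw [hlog16]
      ring
    rw [hK, hC1]
    push_cast
    linarith
  have hK4 : Real.log (16 * m) ≤ (K : ℝ) / 4 := by
    have h1 : 4 * Real.log (16 * m) ≤ (⌈4 * Real.log (16 * m)⌉₊ : ℝ) := Nat.le_ceil _
    have h2 : (⌈4 * Real.log (16 * m)⌉₊ : ℝ) ≤ K := by
      rw [hK]
      push_cast
      have := Nat.cast_nonneg (α := ℝ) p
      have := Nat.cast_nonneg (α := ℝ) K0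
      linarith
    linarith
  have hmK : m ≤ Real.exp ((K : ℝ) / 4) / 16 := by
    have h1 : 16 * m ≤ Real.exp ((K : ℝ) / 4) := by
      rw [← Real.log_le_iff_le_exp (by linarith)]
      exact hK4
    linarith
  have hKp : (2 : ℝ) ≤ K := by
    rw [hK]
    push_cast
    have := Nat.cast_nonneg (α := ℝ) K0
    have := Nat.cast_nonneg (α := ℝ) ⌈4 * Real.log (16 * m)⌉₊
    linarith
  have hmp : 0 < m := by linarith
  have hRκ : 1 ≤ κ * m := le_trans (one_le_pow₀ hR1) hR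
  have hmm0 : m0 ≤ m := by
    have h1 : κ * m ≤ 1 / m0 * m := mul_le_mul_of_nonneg_right hκm hmp.le
    have h2 : 1 ≤ 1 / m0 * m := le_trans hRκ h1
    rw [one_div, inv_mul_eq_div, le_div_iff₀ hm0p, one_mul] at h2
    exact h2
  have hK29 : (K : ℝ) ^ 29 ≤ m := by
    have h1 : (K : ℝ) ^ 29 ≤ (C1 * R) ^ 29 := pow_le_pow_left₀ (by linarith) hKR 29
    have h2 : R ^ 29 ≤ R ^ 120 := pow_le_pow_right₀ hR1 (by norm_num)
    have h3 : (C1 * R) ^ 29 = C1 ^ 29 * R ^ 29 := mul_pow _ _ _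
    have h4 : C1 ^ 29 * R ^ 29 ≤ C1 ^ 29 * (κ * m) :=
      mul_le_mul_of_nonneg_left (h2.trans hR) (by positivity)
    have h5 : C1 ^ 29 * κ ≤ 1 := by
      have h6 := mul_le_mul_of_nonneg_left hκ29 (by positivity : (0 : ℝ) ≤ C1 ^ 29)
      rwa [mul_one_div_cancel (by positivity)] at h6
    calc (K : ℝ) ^ 29 ≤ C1 ^ 29 * R ^ 29 := by rw [← h3]; exact h1
      _ ≤ C1 ^ 29 * (κ * m) := h4
      _ = (C1 ^ 29 * κ) * m := by ring
      _ ≤ 1 * m := mul_le_mul_of_nonneg_right h5 hmp.le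
      _ = m := one_mul m
  have hJJ := hJ K p f m (by rw [hK]; omega) hf hp.one_lt.le (by rw [hK]; omega) hfp hK29 hmK
  have hE := hCS m hmm0 f σ hf hσ
  obtain ⟨J, hJd⟩ : ∃ J : ℝ, J = ((JJ f m r).card : ℝ) := ⟨_, rfl⟩
  obtain ⟨E, hEd⟩ : ∃ E : ℝ, E = (((II m c).filter (fun n => f n = σ)).card : ℝ) := ⟨_, rfl⟩
  rw [← hJd] at hJJ hE
  rw [← hEd] at hE ⊢
  have hE0 : 0 ≤ E := by
    rw [hEd]
    exact Nat.cast_nonneg _
  have hRp : 0 < R := by linarith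
  have hKpos : 0 < (K : ℝ) := by linarith
  -- the chain
  have h1 : κ1 * m / (C1 * R) ^ 58 ≤ J := by
    refine le_trans ?_ hJJ
    refine div_le_div_of_nonneg_left (by positivity) (by positivity) ?_
    exact pow_le_pow_left₀ hKpos.le hKR 58
  have h2 : (κ1 * m / (C1 * R) ^ 58) ^ 2 ≤ J ^ 2 := pow_le_pow_left₀ (by positivity) h1 2
  have h3 : Real.log m ^ 3 ≤ R ^ 3 := by
    refine pow_le_pow_left₀ ?_ ?_ 3
    · rw [hLm]
      linarith
    · rw [hLm]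
      linarith
  have h4 : J ^ 2 ≤ C * m * R ^ 3 * E := by
    refine hE.trans ?_
    refine mul_le_mul_of_nonneg_right ?_ hE0
    exact mul_le_mul_of_nonneg_left h3 (by positivity)
  have h5 : κ1 ^ 2 * m ^ 2 ≤ C * m * R ^ 3 * E * (C1 * R) ^ 116 := by
    have h6 : (κ1 * m / (C1 * R) ^ 58) ^ 2 = κ1 ^ 2 * m ^ 2 / (C1 * R) ^ 116 := by
      rw [div_pow, mul_pow, ← pow_mul]
    have h7 := h2.trans h4
    rw [h6, div_le_iff₀ (by positivity)] at h7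
    exact h7
  have h6 : κ1 ^ 2 * m ≤ C * C1 ^ 116 * R ^ 119 * E := by
    have h7 : C * m * R ^ 3 * E * (C1 * R) ^ 116 = (C * C1 ^ 116 * R ^ 119 * E) * m := by
      rw [mul_pow]
      ring
    have h8 : κ1 ^ 2 * m ^ 2 = (κ1 ^ 2 * m) * m := by ring
    rw [h7, h8] at h5
    exact le_of_mul_le_mul_right h5 hmp
  have h7 : κ * (C * C1 ^ 116) ≤ κ1 ^ 2 := by
    rwa [le_div_iff₀ (by positivity)] at hκc
  rw [div_le_iff₀ (by positivity)]
  have h8 : R ^ 119 ≤ R ^ 120 := pow_le_pow_right₀ hR1 (by norm_num)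
  have h9 : (C * C1 ^ 116) * (κ * m) ≤ (C * C1 ^ 116) * (E * R ^ 120) := by
    calc (C * C1 ^ 116) * (κ * m) = κ * (C * C1 ^ 116) * m := by ring
      _ ≤ κ1 ^ 2 * m := mul_le_mul_of_nonneg_right h7 hmp.le
      _ ≤ C * C1 ^ 116 * R ^ 119 * E := h6
      _ = (C * C1 ^ 116) * (E * R ^ 119) := by ring
      _ ≤ (C * C1 ^ 116) * (E * R ^ 120) :=
        mul_le_mul_of_nonneg_left (mul_le_mul_of_nonneg_left h8 hE0) (by positivity)
  exact le_of_mul_le_mul_left h9 (by positivity)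

end Pool.RGS
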