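import Pool.Agent.Work.MP_3a3367_rgs.InterfaceH
import Pool.Agent.Work.MP_3a3367_rgs.B_SAT

set_option autoImplicit false

/-! # Block SAH -/

namespace Pool.RGS

open Finset

theorem SAH_main (hFEJ : Stmt_FEJ) (hFSM : Stmt_FSM) (y s M : ℕ) (k S E β η : ℝ) (hy : 1 ≤ y)
    (hM : 1 ≤ M) (hη0 : 0 ≤ η) (hη1 : η ≤ 1) (hE : 0 < E)
    (h1 : (M : ℝ) ^ 2 * (1 - η) ^ (2 * s) ≤ (M : ℝ) / 2)
    (h2 : (Real.pi * S * E) ^ 2 < (M : ℝ) / 2) (hS : 1 ≤ S)
    (hSs : (s : ℝ) * Real.log y + |β| ≤ S) (hk : 0 < k) (hβ : 60 * |β| ≤ 3 / 2 * k)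
    (hexp : ∀ t : ℝ, 60 / k ≤ |t| → |t| ≤ M → ‖Ph y t‖ ≤ (1 - η) * y) :
    ∃ a b : Fin s → Fin y,
      |∑ i, (Real.log (a i + 1 : ℕ) - Real.log (b i + 1 : ℕ)) - β| ≤ 1 / E := by
  by_contra hc
  push Not at hc
  have hS0 : (0 : ℝ) < S := by linarith
  have hyR : (1 : ℝ) ≤ (y : ℝ) := by exact_mod_cast hy
  have hMR : (1 : ℝ) ≤ (M : ℝ) := by exact_mod_cast hM
  have hF := hFSM y s M (1 / S) β η hM hη0 hη1 (by
    intro l hl
    have hlR : |(l : ℝ)| < (M : ℝ) := by exact_mod_cast hl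
    have hτ : (1 : ℝ) / S ≤ 1 := by
      rw [div_le_one hS0]
      exact hS
    have hτ0 : (0 : ℝ) < 1 / S := by positivity
    by_cases h : 60 / k ≤ |(l : ℝ) * (1 / S)|
    · right
      refine hexp _ h ?_
      rw [abs_mul, abs_of_pos hτ0]
      nlinarith [abs_nonneg (l : ℝ)]
    · left
      push Not at h
      have h3 : |(l : ℝ) * (1 / S) * β| ≤ 3 / 2 := by
        rw [abs_mul]
        have h4 : |(l : ℝ) * (1 / S)| * |β| ≤ 60 / k * |β| :=
          mul_le_mul_of_nonneg_right h.le (abs_nonneg β)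
        have h5 : 60 / k * |β| ≤ 3 / 2 := by
          rw [div_mul_eq_mul_div, div_le_iff₀ hk]
          exact hβ
        exact h4.trans h5
      have h6 := abs_le.1 h3
      have h7 := Real.pi_gt_three
      refine Real.cos_nonneg_of_neg_pi_div_two_le_of_le ?_ ?_
      · linarith [h6.1]
      · linarith [h6.2])
  have hterm : ∀ a b : Fin s → Fin y, ‖∑ j ∈ range M, Complex.exp (Complex.I *
      ((j * ((1 / S) * (∑ i, (Real.log (a i + 1 : ℕ) - Real.log (b i + 1 : ℕ)) - β)) : ℝ) : ℂ))‖ ^ 2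
      ≤ (Real.pi * S * E) ^ 2 := by
    intro a b
    have hd := hc a b
    have hE' : 0 < 1 / E := by positivity
    have hb := SAT_bd a b
    generalize hL : (∑ i, (Real.log (a i + 1 : ℕ) - Real.log (b i + 1 : ℕ))) = L at *
    have hd0 : 0 < |L - β| := hE'.trans hd
    have hu0 : (1 / S) * (L - β) ≠ 0 := by
      refine mul_ne_zero (by positivity) (abs_pos.1 hd0)
    have hau : |(1 / S) * (L - β)| = |L - β| / S := by
      rw [abs_mul, abs_of_pos (by positivity : (0 : ℝ) < 1 / S)]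
      ring
    have hle : |L - β| ≤ S := by
      have h8 : |L - β| ≤ |L| + |β| := abs_sub _ _
      linarith
    have hu1 : |(1 / S) * (L - β)| ≤ Real.pi := by
      rw [hau]
      have h9 : |L - β| / S ≤ 1 := by
        rw [div_le_one hS0]
        exact hle
      linarith [Real.two_le_pi]
    have hfe := hFEJ M ((1 / S) * (L - β)) hu0 hu1
    have h10 : Real.pi / |(1 / S) * (L - β)| ≤ Real.pi * S * E := by
      rw [hau, div_le_iff₀ (by positivity)]
      have h11 : 1 ≤ E * |L - β| := by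
        have h12 := (div_lt_iff₀ hE).1 hd
        linarith
      have h13 : Real.pi * S * E * (|L - β| / S) = Real.pi * (E * |L - β|) := by
        field_simp
      rw [h13]
      nlinarith [Real.pi_pos]
    exact pow_le_pow_left₀ (norm_nonneg _) (hfe.trans h10) 2
  have hsum : ∑ a : Fin s → Fin y, ∑ b : Fin s → Fin y, ‖∑ j ∈ range M, Complex.exp (Complex.I *
      ((j * ((1 / S) * (∑ i, (Real.log (a i + 1 : ℕ) - Real.log (b i + 1 : ℕ)) - β)) : ℝ) : ℂ))‖ ^ 2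
      ≤ (y : ℝ) ^ (2 * s) * (Real.pi * S * E) ^ 2 := by
    refine (Finset.sum_le_sum fun a _ => Finset.sum_le_sum fun b _ => hterm a b).trans ?_
    simp only [Finset.sum_const, Finset.card_univ, Fintype.card_fun, Fintype.card_fin,
      nsmul_eq_mul]
    push_cast
    rw [← mul_assoc, ← pow_add, two_mul]
  have hlow : (y : ℝ) ^ (2 * s) * ((M : ℝ) / 2) ≤
      (M : ℝ) * (y : ℝ) ^ (2 * s) - (M : ℝ) ^ 2 * ((1 - η) * y) ^ (2 * s) := by
    rw [mul_pow]
    have h14 : (M : ℝ) ^ 2 * ((1 - η) ^ (2 * s) * (y : ℝ) ^ (2 * s)) =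
        ((M : ℝ) ^ 2 * (1 - η) ^ (2 * s)) * (y : ℝ) ^ (2 * s) := by ring
    rw [h14]
    have h15 : (0 : ℝ) ≤ (y : ℝ) ^ (2 * s) := by positivity
    nlinarith [mul_le_mul_of_nonneg_right h1 h15]
  have hpos : (0 : ℝ) < (y : ℝ) ^ (2 * s) := by positivity
  have h16 := (hlow.trans hF).trans hsum
  have h17 := mul_lt_mul_of_pos_left h2 hpos
  linarith

theorem p_SAH (hEXP : Stmt_EXP) (hFEJ : Stmt_FEJ) (hFSM : Stmt_FSM) (hLIM : Stmt_LIM) :
    Stmt_SAH := by
  obtain ⟨K1, hK1⟩ := hEXP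
  obtain ⟨K2, hK2⟩ := hLIM
  refine ⟨max K1 K2, fun K hK β hβ => ?_⟩
  obtain ⟨h2, hM, hη, h1, h3, h4, h5, h6⟩ := hK2 K ((le_max_right _ _).trans hK)
  have hexp := hK1 K ((le_max_left _ _).trans hK)
  have hKR : (2 : ℝ) ≤ (K : ℝ) := by exact_mod_cast h2
  have hK0 : (0 : ℝ) < (K : ℝ) := by linarith
  obtain ⟨a, b, hab⟩ := SAH_main hFEJ hFSM (K ^ 14) (K ^ 30) ⌊Real.exp K⌋₊ K
    (2 * (K : ℝ) ^ 30 * Real.log ((K : ℝ) ^ 14)) (Real.exp ((K : ℝ) / 4)) β (4 / (K : ℝ) ^ 28)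
    (Nat.one_le_pow _ _ (by omega)) hM (by positivity) hη (Real.exp_pos _) h1 h3 h6
    (by
      push_cast
      have h7 : |β| ≤ (K : ℝ) ^ 30 * Real.log ((K : ℝ) ^ 14) := by
        refine hβ.trans ?_
        have e1 : (K : ℝ) ≤ (K : ℝ) ^ 30 := le_self_pow₀ (by linarith) (by norm_num)
        have e2 : Real.log 2 ≤ Real.log ((K : ℝ) ^ 14) := by
          refine Real.log_le_log (by norm_num) (hKR.trans ?_)
          exact le_self_pow₀ (by linarith) (by norm_num)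
        have e3 : (1 : ℝ) / 40 ≤ Real.log ((K : ℝ) ^ 14) := by
          linarith [Real.log_two_gt_d9]
        calc (K : ℝ) / 40 = (K : ℝ) * (1 / 40) := by ring
          _ ≤ (K : ℝ) ^ 30 * Real.log ((K : ℝ) ^ 14) := mul_le_mul e1 e3 (by norm_num) (by positivity)
      linarith)
    hK0 (by linarith)
    (by
      intro t ht1 ht2
      have h8 : |t| ≤ Real.exp K := ht2.trans (Nat.floor_le (Real.exp_pos _).le)
      have h9 := hexp t ht1 h8
      push_cast
      exact h9)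
  refine ⟨fun i => if h : i < K ^ 30 then (a ⟨i, h⟩ : ℕ) + 1 else 1,
    fun i => if h : i < K ^ 30 then (b ⟨i, h⟩ : ℕ) + 1 else 1, ?_, ?_⟩
  · intro i hi
    simp only [hi, dif_pos]
    have ha := (a ⟨i, hi⟩).2
    have hb := (b ⟨i, hi⟩).2
    exact ⟨by omega, by omega, by omega, by omega⟩
  · have h10 : ∑ i ∈ range (K ^ 30), (Real.log ((if h : i < K ^ 30 then (a ⟨i, h⟩ : ℕ) + 1 else 1 : ℕ) : ℝ)
        - Real.log ((if h : i < K ^ 30 then (b ⟨i, h⟩ : ℕ) + 1 else 1 : ℕ) : ℝ)) =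
        ∑ i, (Real.log (a i + 1 : ℕ) - Real.log (b i + 1 : ℕ)) := by
      rw [Finset.sum_range]
      refine Finset.sum_congr rfl fun i _ => ?_
      simp only [i.2, dif_pos, Fin.eta]
    rw [h10]
    refine hab.trans (le_of_eq ?_)
    rw [one_div, ← Real.exp_neg, neg_div]

end Pool.RGS
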