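import Pool.Agent.Work.MP_3a3367_rgs.InterfaceB

/-!
# MP_3a3367_nt, ROBUST GRANVILLE-SELFRIDGE: block TRV
-/

set_option autoImplicit false

namespace Pool.RGS

open Finset

theorem p_TRV : Stmt_TRV := by
  intro f k σ hf h2 hk hσ
  obtain ⟨l, rfl⟩ : ∃ l, k = l + 1 := ⟨k - 1, by omega⟩
  have e1 : 2 * (l + 1) - 1 = 2 * l + 1 := by omega
  have e2 : 2 * (l + 1) + 1 = 2 * l + 3 := by omega
  rw [e1, e2]
  rcases hσ with rfl | rfl
  · refine ⟨(2 * (l + 1)) * (2 * (l + 1)), ?_, ?_⟩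
    · rw [mem_Ioo]
      constructor <;> nlinarith
    · rw [hf.2 _ _ (by omega) (by omega)]
      rcases hf.1 (2 * (l + 1)) (by omega) with h | h <;> rw [h] <;> norm_num
  · have hex : ∃ j : ℕ, (2 * l + 1) ^ 2 < 2 * (j * j) := ⟨2 * l + 1, by nlinarith⟩
    classical
    set j := Nat.find hex with hj
    have h3 : (2 * l + 1) ^ 2 < 2 * (j * j) := Nat.find_spec hex
    have hj0 : 0 < j := by
      rcases Nat.eq_zero_or_pos j with h | h
      · rw [h] at h3
        omega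
      · exact h
    obtain ⟨i, hi⟩ : ∃ i, j = i + 1 := ⟨j - 1, by omega⟩
    have h4 : 2 * (i * i) ≤ (2 * l + 1) ^ 2 := by
      have := Nat.find_min hex (m := i) (by omega)
      exact not_lt.1 this
    have h5 : i ≤ 2 * l + 1 := by
      by_contra h
      have h6 : 2 * l + 2 ≤ i := by omega
      have h7 : (2 * l + 2) * (2 * l + 2) ≤ i * i := Nat.mul_le_mul h6 h6
      nlinarith
    refine ⟨2 * (j * j), ?_, ?_⟩
    · rw [mem_Ioo]
      refine ⟨h3, ?_⟩
      rw [hi]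
      nlinarith
    · rw [hf.2 _ _ (by omega) (Nat.mul_pos hj0 hj0), hf.2 _ _ hj0 hj0, h2]
      rcases hf.1 j hj0 with h | h <;> rw [h] <;> norm_num

end Pool.RGS
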