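import Mathlib

/-!
# MP_3a3367_nt, ROBUST GRANVILLE-SELFRIDGE (helper53)

`f : ℕ → {1, -1}` completely multiplicative, `f 2 = -1`: in every `I_k = ((2k-1)^2, (2k+1)^2)` both signs occur at least `κ k / (log 2k)^120` times;
and for every `c > 2` both signs occur at least `κ √x / (p log x)^120` times in `(x, x + c √x]` if `f p = -1`, `(p log x)^120 ≤ κ √x`.

Plan. PART 1 (DL): for `8/K ≤ θ ≤ e^K` there is `n ≤ K^14` with `‖θ log n‖ > K^-7`. PART 2 (SAT): every real `β`, `|β| ≤ log K`, is within `e^(-K/4)` of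
`∑ (log n_i - log n'_i)`, `K^30` terms, `n_i, n'_i ≤ K^14`. PART 3 (JMP): many `v` near `√x` with `f v ≠ f (v+1)`. PART 4: counting.
All constants are generous.
-/

set_option autoImplicit false

namespace Pool.RGS

open Finset

/-! ## Part 1. The dual lemma -/

/-- **SIE** (120). SIEGEL WEIGHTS. Siegel's lemma (`Int.Matrix.exists_ne_zero_int_vec_norm_le`, or the pigeonhole principle directly) for the matrix `A j a = a^j`, `j ≤ K`, `a ≤ K^3` (`K+1` equations, `K^3+1` unknowns, entries at most `(K^3)^K`): a nonzero integer vector `t` with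
`A t = 0` and `|t a| ≤ ((K^3+1) (K^3)^K)^((K+1)/(K^3-K)) < 2` for large `K` (the exponent of the logarithm: `(K+1) (log (K^3+1) + 3 K log K)/(K^3-K) → 0`), so `|t a| ≤ 1`. (Pigeonhole instead: `2^(K^3+1)` vectors in `{0,1}^(K^3+1)`, at most `((K^3+1)^(K+1)+1)^(K+1)` values of the moments.)
Let `a0`, `a1` be the smallest and the largest `a` with `t a ≠ 0`, `w a = t (a0 + a)` for `a ≤ a1 - a0 =: P'`, `0` otherwise. The moments of `w` are combinations of those of `t`: `∑ w a a^j = ∑ t b (b - a0)^j = 0` (binomial theorem). `P' ≥ 1` because the moment `j = 0` is `0` (if `P' = 0` then `w 0 = 0`). -/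
def Stmt_SIE : Prop := ∃ K0 : ℕ, ∀ K : ℕ, K0 ≤ K → ∃ (P : ℕ) (w : ℕ → ℤ), 1 ≤ P ∧ P ≤ K ^ 3 ∧ w 0 ≠ 0 ∧ w P ≠ 0 ∧ (∀ a, |w a| ≤ 1) ∧
  (∀ j ≤ K, ∑ a ∈ range (P + 1), w a * (a : ℤ) ^ j = 0)

/-- **TAY** (110). TAYLOR. For `0 ≤ v ≤ τ ≤ 1/2`: `log (1+v) = T v + e`, `T` a polynomial of degree at most `K`, `|e| ≤ v^(K+1)/(1-v) ≤ 2 τ^(K+1)` (`Real.abs_log_sub_add_sum_range_le` with `x = -v`). `∑ w a T(u + a h) = 0`: expand, every power `a^i`, `i ≤ K`, has `w`-sum `0` (induction / `Finset.sum_comm`, binomial theorem). -/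
def Stmt_TAY : Prop := ∀ (K P : ℕ) (w : ℕ → ℤ) (u h τ : ℝ), (∀ j ≤ K, ∑ a ∈ range (P + 1), w a * (a : ℤ) ^ j = 0) → (∀ a, |w a| ≤ 1) →
  0 ≤ u → 0 ≤ h → u + P * h ≤ τ → τ ≤ 1 / 2 →
  |∑ a ∈ range (P + 1), (w a : ℝ) * Real.log (1 + (u + a * h))| ≤ (P + 1) * (2 * τ ^ (K + 1))

/-- **RND** (180; uses TAY). ROUNDING. `g n = round (θ log n)`, `|g n - θ log n| ≤ ε` for `1 ≤ n ≤ y`; `g (a b) = g a + g b` if `1 ≤ a`, `1 ≤ b`, `a b ≤ y` (the difference is an integer of modulus at most `3 ε < 1`). `G q a = g (q N0 + a) - g (q N0)`. Then `G q (q a) = g (q (N0 + a)) - g (q N0) = g (N0 + a) - g N0 = G 1 a` (`a ≤ Z`, `q ≤ P`,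
`q (N0 + a) ≤ P (N0 + Z) ≤ y`), `|G q a - θ log (1 + a/(q N0))| ≤ 2 ε` for `a ≤ q Z`. The last property: `∑ w a G q (b + j a) = ∑ w a θ log (1 + (b + j a)/(q N0)) + error`, `|error| ≤ (P+1) 2 ε`, and the main sum is at most `(P+1) θ 2 (Z/N0)^(K+1)` by TAY with `u = b/(q N0)`, `h = j/(q N0)`, `τ = Z/N0`
(`(b + j P)/(q N0) ≤ q Z/(q N0)`); so the integer has modulus `< 1`. -/
def Stmt_RND : Prop := ∀ (K P N0 Z y : ℕ) (w : ℕ → ℤ) (θ ε : ℝ), 1 ≤ P → 1 ≤ N0 → 2 * Z ≤ N0 → 0 ≤ θ → 0 < ε → 3 * ε < 1 → P * (N0 + Z) ≤ y →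
  (∀ n : ℕ, 1 ≤ n → n ≤ y → |θ * Real.log n - round (θ * Real.log n)| ≤ ε) →
  (∀ j ≤ K, ∑ a ∈ range (P + 1), w a * (a : ℤ) ^ j = 0) → (∀ a, |w a| ≤ 1) →
  ((P : ℝ) + 1) * (2 * ε + 2 * θ * ((Z : ℝ) / N0) ^ (K + 1)) < 1 →
  ∃ G : ℕ → ℕ → ℤ, G 1 0 = 0 ∧ (∀ q, 1 ≤ q → q ≤ P → ∀ a ≤ Z, G q (q * a) = G 1 a) ∧
    (∀ a ≤ Z, |(G 1 a : ℝ) - θ * Real.log (1 + (a : ℝ) / N0)| ≤ 2 * ε) ∧
    (∀ q, 1 ≤ q → q ≤ P → ∀ j, 1 ≤ j → j ≤ P + 1 → ∀ b, b + j * P ≤ q * Z → ∑ a ∈ range (P + 1), w a * G q (b + j * a) = 0)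

/-- The shift of sequences. -/
def Sh : (ℕ → ℂ) →ₗ[ℂ] (ℕ → ℂ) where
  toFun u := fun n => u (n + 1)
  map_add' _ _ := rfl
  map_smul' _ _ := rfl

/-- The action of a polynomial in the shift: `(act A u) n = ∑ A_i u (n+i)`. -/
noncomputable def act (A : Polynomial ℂ) (u : ℕ → ℂ) : ℕ → ℂ := (Polynomial.aeval Sh A) u

/-- **ACT** (70). `act` in coordinates, for `A = ∑ w_i X^i` and for `A = ∑ w_i X^(j i)` (`Polynomial.aeval` is linear, `aeval Sh (X^i) u = (Sh^i) u = u (· + i)`: induction). -/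
def Stmt_ACT : Prop := ∀ (d j : ℕ) (w : ℕ → ℂ) (u : ℕ → ℂ) (n : ℕ),
  act (∑ i ∈ range (d + 1), Polynomial.C (w i) * Polynomial.X ^ (j * i)) u n = ∑ i ∈ range (d + 1), w i * u (n + j * i)

/-- **EXT** (80). EXTENSION BY THE RECURRENCE. If `w d ≠ 0` and `u0` satisfies the recurrence on `0..M`, there is `u : ℕ → ℂ` which agrees with `u0` on `0..M` and satisfies it everywhere. (Strong recursion: `u n = u0 n` if `n ≤ M` or `n < d`, otherwise `u n = -(w d)⁻¹ ∑ i < d, w i * u (n - d + i)`. For `b + d ≤ M` all terms are those of `u0`;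
for `b + d > M` it is the definition.) -/
def Stmt_EXT : Prop := ∀ (d M : ℕ) (w u0 : ℕ → ℂ), w d ≠ 0 → (∀ b, b + d ≤ M → ∑ i ∈ range (d + 1), w i * u0 (b + i) = 0) →
  ∃ u : ℕ → ℂ, (∀ b, ∑ i ∈ range (d + 1), w i * u (b + i) = 0) ∧ ∀ a ≤ M, u a = u0 a

/-- **DIL** (90). DILATED RECURRENCES. `v b = ∑ i ≤ d, w i * u (b + j i)` satisfies the recurrence `∑ w i * v (b + i) = 0` (exchange the sums) and vanishes at `0..d-1`, hence everywhere (strong induction, `w d ≠ 0`). -/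
def Stmt_DIL : Prop := ∀ (d j : ℕ) (w u : ℕ → ℂ), w d ≠ 0 → (∀ b, ∑ i ∈ range (d + 1), w i * u (b + i) = 0) →
  (∀ b < d, ∑ i ∈ range (d + 1), w i * u (b + j * i) = 0) → ∀ b, ∑ i ∈ range (d + 1), w i * u (b + j * i) = 0

/-- **GEN** (60). THE ANNIHILATOR IS PRINCIPAL. `{A | act A u = 0}` is an ideal of `ℂ[X]` (`aeval` is an algebra homomorphism into the commutative subalgebra generated by `Sh`: `act (A * B) u = act A (act B u)`, and `A * B = B * A`); it is generated by one element (`IsPrincipalIdealRing`), nonzero because `W` is in it. -/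
def Stmt_GEN : Prop := ∀ (u : ℕ → ℂ) (W : Polynomial ℂ), W ≠ 0 → act W u = 0 → ∃ Γ : Polynomial ℂ, Γ ≠ 0 ∧ ∀ A : Polynomial ℂ, act A u = 0 ↔ Γ ∣ A

/-- **RTS** (90). THE ROOTS ARE ROOTS OF UNITY. `W(X) = ∑ i ≤ d, w_i X^i` has at most `d` roots and `W(0) ≠ 0`. If `Γ` divides `W(X^j)` for `1 ≤ j ≤ d+1` and `ξ` is a root of `Γ`, then `ξ, ξ^2, .., ξ^(d+1)` are roots of `W`, so two of them are equal (pigeonhole: `Polynomial.card_roots'`), `ξ ≠ 0`, and `ξ^(j-i) = 1` with `1 ≤ j - i ≤ d`. -/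
def Stmt_RTS : Prop := ∀ (d : ℕ) (w : ℕ → ℂ) (Γ : Polynomial ℂ) (ξ : ℂ), w 0 ≠ 0 → w d ≠ 0 →
  (∀ j, 1 ≤ j → j ≤ d + 1 → Γ ∣ ∑ i ∈ range (d + 1), Polynomial.C (w i) * Polynomial.X ^ (j * i)) → Γ.IsRoot ξ → ∃ r : ℕ, 1 ≤ r ∧ r ≤ d ∧ ξ ^ r = 1

/-- **REL** (150). RESTRICTION TO MULTIPLES OF `q`. Let `Γ = C c * ∏ (X - ξ)` over the multiset of roots of `Γ` (`IsAlgClosed.splits`), `A = ∏ (X - C (ξ^q))`. `Γ ∣ A(X^q)` (`X - ξ ∣ X^q - ξ^q`), so `act (A(X^q)) u = 0` (`act (B * Γ) u = 0`), i.e. `∑ A_i u (n + q i) = 0` for all `n`; with `n = q a`: `act A (fun a => u (q a)) = 0`. If `Γ1` generates the annihilator of `a ↦ u (q a)` then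
`Γ1 ∣ A` and a root of `Γ1` is a root of `A`, i.e. `ξ^q` for a root `ξ` of `Γ`. -/
def Stmt_REL : Prop := ∀ (q : ℕ) (u : ℕ → ℂ) (Γ Γ1 : Polynomial ℂ), 1 ≤ q → Γ ≠ 0 → act Γ u = 0 → (∀ A : Polynomial ℂ, act A (fun a => u (q * a)) = 0 → Γ1 ∣ A) →
  ∀ ζ : ℂ, Γ1.IsRoot ζ → ∃ ξ : ℂ, Γ.IsRoot ξ ∧ ξ ^ q = ζ

/-- **ORD** (90). ORDERS. Suppose `ζ ≠ 1`. From `q = 1`: `ζ^r = 1`, `1 ≤ r ≤ d`; let `o = orderOf ζ > 1`, `o ≤ d`, `l` a prime divisor of `o`, `l^j ≤ d < l^(j+1)` (`j ≥ 1`). Take `q = l^j`, `ξ^q = ζ`, `e = orderOf ξ ≤ d` (`orderOf_le_of_pow_eq_one`). `orderOf (ξ^q) = e / gcd e q` (`orderOf_pow'`), `l ∣ e / gcd e (l^j)` forces `l^(j+1) ∣ e`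
(if `v = v_l(e) ≤ j` then `gcd` contains `l^v` and the quotient is prime to `l`), so `l^(j+1) ≤ e ≤ d`: contradiction. -/
def Stmt_ORD : Prop := ∀ (d : ℕ) (ζ : ℂ), 1 ≤ d → (∀ q, 1 ≤ q → q ≤ d → ∃ ξ : ℂ, (∃ r : ℕ, 1 ≤ r ∧ r ≤ d ∧ ξ ^ r = 1) ∧ ξ ^ q = ζ) → ζ = 1

/-- **NWT** (110). NEWTON. If all roots of `Γ` are `1`, `Γ ∣ (X-1)^d` as soon as `Γ.natDegree ≤ d` (`Γ` splits), so `(Sh - 1)^d u = 0`: the `d`-th forward differences of `u` vanish and `u n = ∑ k < d, (n choose k) * (Δ^k u) 0` (`shift_eq_sum_fwdDiff_iter` or induction), a polynomial in `n` of degree `< d`. `u` has integer values `g a` at `0, .., Z` with `Z ≥ d`, so the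
coefficients `(Δ^k u) 0`, `k < d`, are integers and the polynomial has real coefficients. (`1 ≤ d`.) -/
def Stmt_NWT : Prop := ∀ (d Z : ℕ) (u : ℕ → ℂ) (g : ℕ → ℤ) (Γ : Polynomial ℂ), 1 ≤ d → d ≤ Z → Γ ≠ 0 → act Γ u = 0 → Γ.natDegree ≤ d → (∀ ζ, Γ.IsRoot ζ → ζ = 1) →
  (∀ a ≤ Z, u a = g a) → ∃ N : Polynomial ℝ, N.natDegree < d ∧ ∀ a ≤ Z, N.eval (a : ℝ) = g a

/-- **POL** (170; uses ACT EXT DIL GEN RTS REL ORD NWT). `G 1` IS A POLYNOMIAL ON `0..Z`. For `1 ≤ q ≤ P` let `u q` be the extension (EXT, `d = P`, `M = q Z`) of `G q`; DIL (`j ≤ P+1`; for `b < P`: `b + j P ≤ P - 1 + (P+1) P ≤ Z ≤ q Z`) and ACT: the polynomials `∑ w_i X^(j i)`, `1 ≤ j ≤ P+1`, annihilate `u q`; GEN gives `Γ q`; RTS: its roots are roots of unity of order at most `P`.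
`u q (q a)` satisfies the recurrence of `w` (DIL with `j = q`, at `b = q a`) and agrees with `u 1` on `0..Z` (`G q (q a) = G 1 a`), `Z ≥ P`, so it equals `u 1` (the difference vanishes at `0..P-1`; strong induction, `w P ≠ 0`; or DIL-like argument). REL with `Γ = Γ q`, `Γ1 = Γ 1` and ORD: all roots of `Γ 1` are `1`; `Γ 1 ∣ W` has degree at most `P`; NWT. -/
def Stmt_POL : Prop := ∀ (P Z : ℕ) (w : ℕ → ℤ) (G : ℕ → ℕ → ℤ), 1 ≤ P → w 0 ≠ 0 → w P ≠ 0 → (P + 2) * P ≤ Z →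
  (∀ q, 1 ≤ q → q ≤ P → ∀ a ≤ Z, G q (q * a) = G 1 a) →
  (∀ q, 1 ≤ q → q ≤ P → ∀ j, 1 ≤ j → j ≤ P + 1 → ∀ b, b + j * P ≤ q * Z → ∑ a ∈ range (P + 1), w a * G q (b + j * a) = 0) →
  ∃ N : Polynomial ℝ, N.natDegree < P ∧ ∀ a ≤ Z, N.eval (a : ℝ) = G 1 a

/-- **DLG** (130). DIFFERENCES OF THE LOGARITHM. Write `D_j φ x = ∑ i ≤ j, (-1)^(j-i) (j choose i) φ (x + i h)`. If `φ` is differentiable on `(0, ∞)` then `D_(j+1) φ x = D_j φ (x+h) - D_j φ x = h * D_j φ' ξ` for some `ξ` in `(x, x+h)` (mean value theorem for `t ↦ D_j φ t`). Induction on `j` for the family `φ_k x = k! / x^(k+1)` with signs (`(-1)^j D_j φ_k x` is between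
`(k+j)! h^j/(x + j h)^(k+j+1)` and `(k+j)! h^j / x^(k+j+1)`), then `φ = log`, `φ' = φ_0`. Here `log (1 + i h/N) = log (N + i h) - log N` and the constant drops out for `j ≥ 1` (alternating sum of binomials). -/
def Stmt_DLG : Prop := ∀ (j : ℕ) (N h : ℝ), 1 ≤ j → 0 < N → 0 < h →
  ((j - 1).factorial : ℝ) * (h / (N + j * h)) ^ j ≤ (-1) ^ (j - 1) * ∑ i ∈ range (j + 1), (-1) ^ (j - i) * (j.choose i : ℝ) * Real.log (1 + i * h / N) ∧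
  (-1) ^ (j - 1) * ∑ i ∈ range (j + 1), (-1) ^ (j - i) * (j.choose i : ℝ) * Real.log (1 + i * h / N) ≤ ((j - 1).factorial : ℝ) * (h / N) ^ j

/-- **DPL** (120). DIFFERENCES OF A POLYNOMIAL. `N` real of degree `d` (`= natDegree`), with integer values at `0..d`; `D = ∑ i ≤ d, (-1)^(d-i) (d choose i) N(i h)`. Then `D = c h^d` with an integer `c`, nonzero if `N ≠ 0` (`c = d! * leadingCoeff`: the `d`-th difference of a polynomial of degree `d` with leading coefficient `L` and step `h` is `d! L h^d`; for `h = 1` it is an integer by hypothesis),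
and the `(d+1)`-st difference is `0`. (`Polynomial` differences: induction on the degree with `N(X + h) - N(X)`, or `fwdDiff_iter_eq_factorial`, `fwdDiff_iter_pow_lt`.) -/
def Stmt_DPL : Prop := ∀ (N : Polynomial ℝ) (h : ℕ), N ≠ 0 → (∀ i ≤ N.natDegree, ∃ g : ℤ, N.eval (i : ℝ) = g) →
  (∃ c : ℤ, c ≠ 0 ∧ ∑ i ∈ range (N.natDegree + 1), (-1) ^ (N.natDegree - i) * (N.natDegree.choose i : ℝ) * N.eval ((i * h : ℕ) : ℝ) = c * (h : ℝ) ^ N.natDegree) ∧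
  ∑ i ∈ range (N.natDegree + 2), (-1) ^ (N.natDegree + 1 - i) * ((N.natDegree + 1).choose i : ℝ) * N.eval ((i * h : ℕ) : ℝ) = 0

/-- **FIN** (200; uses DLG DPL). THE CONTRADICTION. `d = N.natDegree < P`, `(d+1) h ≤ P h ≤ Z`. If `N = 0`: `θ log (1 + h/N0) ≤ 2 ε` at `a = h`, `log (1+t) ≥ t/2` for `0 ≤ t ≤ 1`, so `θ ≤ 4 ε N0/h`: no. If `d = 0` and `N ≠ 0`: `N(0) = 0` gives `N = 0`. Let `d ≥ 1`. DPL, DLG (`j = d`) and `∑ (d choose i) = 2^d`: `h^d ≤ |c| h^d ≤ θ (d-1)! (h/N0)^d + 2^d 2 ε`;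
`2^d 2 ε ≤ h^d/2` (`h ≥ 4`, `ε ≤ 1/2`), so `θ ≥ N0^d/(2 (d-1)!)`. DPL, DLG (`j = d+1`): `θ d! (h/(N0 + (d+1) h))^(d+1) ≤ 2^(d+1) 2 ε`, and `(N0 + (d+1) h)^(d+1) ≤ N0^(d+1) (1 + 1/P)^P ≤ 3 N0^(d+1)` (`(d+1) h ≤ Z ≤ N0/P`, `d + 1 ≤ P`, `(1+1/P)^P ≤ exp 1 < 3`). Together `(d/2) h^(d+1)/(3 N0) ≤ 2^(d+2) ε`, so
`h^(d+1) ≤ 24 * 2^d ε N0`; but `h^(d+1) ≥ 2^d h^2/2`, so `h^2 ≤ 48 ε N0`: no. -/
def Stmt_FIN : Prop := ∀ (P Z h N0 : ℕ) (θ ε : ℝ) (N : Polynomial ℝ), 1 ≤ P → N.natDegree < P → P * h ≤ Z → P * Z ≤ N0 → 4 ≤ h → 0 < ε → ε ≤ 1 / 2 →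
  N.eval 0 = 0 → (∀ a ≤ Z, ∃ g : ℤ, N.eval (a : ℝ) = g) → (∀ a ≤ Z, |N.eval (a : ℝ) - θ * Real.log (1 + (a : ℝ) / N0)| ≤ 2 * ε) →
  4 * ε * N0 / h < θ → 48 * ε * N0 < (h : ℝ) ^ 2 → False

/-- **DL** (150; uses SIE RND POL FIN). THE DUAL LEMMA. Suppose not: `|θ log n - round| ≤ ε = K^-7` for `1 ≤ n ≤ y = K^14`. SIE gives `P ≤ K^3` and `w`. `Z = K^7`, `N0 = K^10`, `h = K^4`. Checks for large `K`: `P (N0 + Z) ≤ K^13 + K^10 ≤ K^14`; `2 Z ≤ N0`; `(P+1)(2 ε + 2 θ (Z/N0)^(K+1)) ≤ 2 K^3 (2 K^-7 + 2 e^K K^(-3K-3)) < 1` (`e^K ≤ K^K` for `K ≥ 3`);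
`(P+2) P ≤ Z`; `P h ≤ Z`; `P Z ≤ N0`; `4 ε N0/h = 4/K < 8/K ≤ θ`; `48 ε N0 = 48 K^3 < K^8`. RND, POL, FIN. -/
def Stmt_DL : Prop := ∃ K0 : ℕ, ∀ K : ℕ, K0 ≤ K → ∀ θ : ℝ, 8 / (K : ℝ) ≤ θ → θ ≤ Real.exp K →
  ∃ n : ℕ, 1 ≤ n ∧ n ≤ K ^ 14 ∧ 1 / (K : ℝ) ^ 7 < |θ * Real.log n - round (θ * Real.log n)|

/-! ## Part 2. Approximation by smooth fractions -/

/-- `∑ n ≤ y, n^(it)`. -/
noncomputable def Ph (y : ℕ) (t : ℝ) : ℂ := ∑ n ∈ Icc 1 y, Complex.exp (Complex.I * ((t * Real.log n : ℝ) : ℂ))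

/-- **EXP** (100; uses DL). `θ = |t|/(2π)` (`≥ 60/(2π K) ≥ 8/K`, `2π ≤ 7`); `n` from DL, `n ≠ 1`. With `z = exp (i t log n)`: `|z - 1| ≥ 4 ‖θ log n‖ ≥ 4 K^-7` (`|exp (2π i x) - 1| = 2 |sin (π x)| ≥ 4 ‖x‖`), `|1 + z|^2 = 4 - |1 - z|^2`, `|1 + z| ≤ 2 - |1-z|^2/4 ≤ 2 - 4 K^-14`; the other `K^14 - 2` terms have modulus `1`. Total `≤ K^14 - 4 K^-14`. -/
def Stmt_EXP : Prop := ∃ K0 : ℕ, ∀ K : ℕ, K0 ≤ K → ∀ t : ℝ, 60 / (K : ℝ) ≤ |t| → |t| ≤ Real.exp K → ‖Ph (K ^ 14) t‖ ≤ (1 - 4 / (K : ℝ) ^ 28) * (K : ℝ) ^ 14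

/-- **FEJ** (50). Geometric sum: `|∑ j < M, exp (i j u)| = |exp (i M u) - 1|/|exp (i u) - 1| ≤ 2/(2|u|/π)` for `0 < |u| ≤ π`. -/
def Stmt_FEJ : Prop := ∀ (M : ℕ) (u : ℝ), u ≠ 0 → |u| ≤ Real.pi → ‖∑ j ∈ range M, Complex.exp (Complex.I * ((j * u : ℝ) : ℂ))‖ ≤ Real.pi / |u|

/-- **FSM** (170). THE FEJER SUM OVER TUPLES. `L a b = ∑ i, (log (a i + 1) - log (b i + 1))` for `a b : Fin s → Fin y`. `|∑ j < M, e^(i j u)|^2 = ∑ j, j' < M, e^(i (j-j') u)` with `u = τ (L - β)`; exchange the sums: `∑ a b, e^(i l τ L) = Ph y (l τ)^s * conj (Ph y (l τ))^s = ‖Ph y (l τ)‖^(2 s)` (`Finset.prod_univ_sum` / `Finset.sum_pow'`; `l = j - j'`; `Icc 1 y` against `Fin y`).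
The real part of the double sum: the diagonal gives `M y^(2s)`; a term with `cos (l τ β) ≥ 0` is `≥ 0`; the others are at least `-((1-η) y)^(2s)`, at most `M^2` of them. -/
def Stmt_FSM : Prop := ∀ (y s M : ℕ) (τ β η : ℝ), 1 ≤ M → 0 ≤ η → η ≤ 1 →
  (∀ l : ℤ, |l| < M → 0 ≤ Real.cos (l * τ * β) ∨ ‖Ph y (l * τ)‖ ≤ (1 - η) * y) →
  (M : ℝ) * (y : ℝ) ^ (2 * s) - (M : ℝ) ^ 2 * ((1 - η) * y) ^ (2 * s) ≤
    ∑ a : Fin s → Fin y, ∑ b : Fin s → Fin y, ‖∑ j ∈ range M, Complex.exp (Complex.I *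
      ((j * (τ * (∑ i, (Real.log (a i + 1 : ℕ) - Real.log (b i + 1 : ℕ)) - β)) : ℝ) : ℂ))‖ ^ 2

/-- **LIM** (100). NUMERICAL INEQUALITIES for large `K` (all true in the limit; `K^63 = o(e^(K/2))`): with `M = ⌊e^K⌋`, `s = K^30`, `S = 2 K^30 log (K^14)` (`= 28 K^30 log K`). (i) `M^2 (1 - 4/K^28)^(2 K^30) ≤ M/2` (`(1-x)^n ≤ e^(-n x)`: `e^(2K) e^(-8 K^2)`). (ii) `(π S e^(K/4))^2 < M/2`. (iii) `60 log K ≤ K` . (iv) `log K ≤ K^30 log (K^14)`. -/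
def Stmt_LIM : Prop := ∃ K0 : ℕ, ∀ K : ℕ, K0 ≤ K → 2 ≤ K ∧ 1 ≤ ⌊Real.exp K⌋₊ ∧ 4 / (K : ℝ) ^ 28 ≤ 1 ∧
  (⌊Real.exp K⌋₊ : ℝ) ^ 2 * (1 - 4 / (K : ℝ) ^ 28) ^ (2 * K ^ 30) ≤ (⌊Real.exp K⌋₊ : ℝ) / 2 ∧
  (Real.pi * (2 * (K : ℝ) ^ 30 * Real.log ((K : ℝ) ^ 14)) * Real.exp ((K : ℝ) / 4)) ^ 2 < (⌊Real.exp K⌋₊ : ℝ) / 2 ∧
  60 * Real.log K ≤ K ∧ Real.log K ≤ (K : ℝ) ^ 30 * Real.log ((K : ℝ) ^ 14) ∧ 1 ≤ 2 * (K : ℝ) ^ 30 * Real.log ((K : ℝ) ^ 14)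

/-- **SAT** (180; uses EXP FEJ FSM LIM). `y = K^14`, `s = K^30`, `M = ⌊e^K⌋`, `τ = 1/(2 s log y)`, `η = 4/K^28`. Suppose no tuple has `|L - β| ≤ e^(-K/4)`. Then `u = τ (L - β)` has `0 < |u| ≤ τ (s log y + log K) ≤ 1 ≤ π`, so by FEJ every term of FSM is at most `(π/|u|)^2 ≤ (π 2 s log y e^(K/4))^2 < M/2`, so the right side of FSM is `< y^(2s) M/2`. Left side: `≥ y^(2s) (M - M/2)` by LIM (i).
Hypothesis of FSM: `|l τ| ≤ M τ ≤ e^K`; if `|l τ| ≥ 60/K` use EXP; otherwise `|l τ β| ≤ 60 log K/K ≤ 1 < π/2` and the cosine is positive. (From tuples `a, b : Fin s → Fin y` to functions on `ℕ`: `n i = a i + 1` for `i < s`, `1` otherwise.) -/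
def Stmt_SAT : Prop := ∃ K0 : ℕ, ∀ K : ℕ, K0 ≤ K → ∀ β : ℝ, |β| ≤ Real.log K →
  ∃ n n' : ℕ → ℕ, (∀ i < K ^ 30, 1 ≤ n i ∧ n i ≤ K ^ 14 ∧ 1 ≤ n' i ∧ n' i ≤ K ^ 14) ∧
    |∑ i ∈ range (K ^ 30), (Real.log (n i) - Real.log (n' i)) - β| ≤ Real.exp (-(K : ℝ) / 4)

end Pool.RGS
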