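import Pool.Agent.Work.MP_3a3367_rgs.Interface

/-!
# MP_3a3367_nt, ROBUST GRANVILLE-SELFRIDGE, parts 3 and 4 (helper53)
-/

set_option autoImplicit false

namespace Pool.RGS

open Finset

/-- Completely multiplicative with values `1`, `-1` on the positive integers. -/
def CM (f : ℕ → ℤ) : Prop := (∀ n, 0 < n → f n = 1 ∨ f n = -1) ∧ ∀ a b, 0 < a → 0 < b → f (a * b) = f a * f b

/-- The integers of `(m^2, m^2 + c m]`. -/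
noncomputable def II (m c : ℝ) : Finset ℕ := (range (⌊m ^ 2 + c * m⌋₊ + 1)).filter (fun n : ℕ => m ^ 2 < (n : ℝ))

/-- The jumps of `f` in `[m/r, r m]`. -/
noncomputable def JJ (f : ℕ → ℤ) (m r : ℝ) : Finset ℕ := (Icc ⌈m / r⌉₊ ⌊r * m⌋₊).filter (fun v => f v ≠ f (v + 1))

/-- The number of divisors of `n` in `[m/r, r m + 1]`. -/
noncomputable def dd (m r : ℝ) (n : ℕ) : ℕ := (n.divisors.filter (fun w : ℕ => m / r ≤ (w : ℝ) ∧ (w : ℝ) ≤ r * m + 1)).card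

/-! ## Part 3. Many jumps -/

/-- **DNS** (100). A NET. `log 3/log 2` is irrational (`2^a ≠ 3^b`), so the group generated by `log 2` and `log 3` is dense (`dense_addSubgroupClosure_pair_iff` or Dirichlet): there are `q ≥ 1`, `p` with `0 < |q log 3 - p log 2| ≤ δ`. The multiples `k (q log 3 - p log 2)`, `0 ≤ k ≤ log 2/|q log 3 - p log 2| + 1`, and the multiples of `log 2`
form a `δ`-net of `ℝ` with `β = k q ≤ B`. -/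
def Stmt_DNS : Prop := ∀ δ : ℝ, 0 < δ → ∃ B : ℕ, ∀ s : ℝ, ∃ (α : ℤ) (β : ℕ), β ≤ B ∧ |s - α * Real.log 2 - β * Real.log 3| ≤ δ

/-- **NRM** (200; uses DNS). NORMALISED POSITIONS. `S i = ∑ l < i, (log (A l) - log (B l))`. For `0 < i < t` take `α i`, `β i ≤ b0` from DNS for `s = S i`, `δ = log r`; `α i = β i = 0` for `i = 0` and `i = t` (and `i > t`). `ρ i = exp (S i - α i log 2 - β i log 3)`, so `|log (ρ i)| ≤ log r`. `a = α i - α (i+1)`, `b = β i - β (i+1)` (integers, `|b| ≤ b0`);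
`A' i = A i * 2^(a⁺) * 3^(b⁺)`, `B' i = B i * 2^(a⁻) * 3^(b⁻)`: `ρ (i+1) = ρ i * (A' i/B' i)`. `2^a = (ρ (i+1)/ρ i) (B i/A i) 3^(-b) ≤ r^2 y 3^b0` gives `A' i ≤ r^2 9^b0 y^2 ≤ C y^2`, the same for `B'`. `f (A' i) f (B' i) = f (A i) f (B i) f(2)^|a| f(3)^|b|`; the sum of the `|a|` has the parity of the sum of the `a`, which is `α 0 - α t = 0`, the same for `b` (`f 2`, `f 3` are `1` or `-1`). -/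
def Stmt_NRM : Prop := ∀ r : ℝ, 1 < r → ∃ C : ℕ, 1 ≤ C ∧ ∀ (t y : ℕ) (A B : ℕ → ℕ), (∀ i < t, 1 ≤ A i ∧ A i ≤ y ∧ 1 ≤ B i ∧ B i ≤ y) →
  |∑ i ∈ range t, (Real.log (A i) - Real.log (B i))| ≤ Real.log r →
  ∃ (ρ : ℕ → ℝ) (A' B' : ℕ → ℕ), ρ 0 = 1 ∧ ρ t = Real.exp (∑ i ∈ range t, (Real.log (A i) - Real.log (B i))) ∧
    (∀ i ≤ t, 1 / r ≤ ρ i ∧ ρ i ≤ r) ∧
    (∀ i < t, 1 ≤ A' i ∧ A' i ≤ C * y ^ 2 ∧ 1 ≤ B' i ∧ B' i ≤ C * y ^ 2 ∧ ρ (i + 1) = ρ i * ((A' i : ℝ) / B' i)) ∧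
    ∀ f : ℕ → ℤ, CM f → ∏ i ∈ range t, (f (A' i) * f (B' i)) = ∏ i ∈ range t, (f (A i) * f (B i))

/-- **STP** (60). ONE STEP. `w = ⌊p0/B⌋` (`≥ 1` because `B ≤ Q ≤ p0`): `B w ∈ (p0 - B, p0]`, `A w ∈ (p1 - A, p1]`, so `f B * f w = s0`, `f A * f w = s1`, `f B * f B = 1`. -/
def Stmt_STP : Prop := ∀ (f : ℕ → ℤ) (A B Q : ℕ) (p0 p1 : ℝ) (s0 s1 : ℤ), CM f → 1 ≤ A → A ≤ Q → 1 ≤ B → B ≤ Q → (Q : ℝ) ≤ p0 →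
  p1 = p0 * ((A : ℝ) / B) → (∀ v : ℕ, 0 < v → p0 - Q < v → (v : ℝ) ≤ p0 → f v = s0) → (∀ v : ℕ, 0 < v → p1 - Q < v → (v : ℝ) ≤ p1 → f v = s1) →
  s1 = f A * f B * s0

/-- **EVX** (120; uses STP). ONE STARTING POINT. If no such `i`, `v` exists, then for every `i ≤ t` the function `f` is constant (`= S i`) on the integers of the window `(X ρ i - Q, X ρ i]` (`X ρ i - Q ≥ X/2 - Q ≥ 0`; induction from one integer to the next). STP: `S (i+1) = f (A i) * f (B i) * S i`, so `S t = - S 0`.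
But `X - 1` lies in the windows of `i = 0` and of `i = t` (`|X ρ t - X| < 1`, `Q ≥ 2`), so `S 0 = f (X-1) = S t`, and `S 0 = ± 1`: contradiction. -/
def Stmt_EVX : Prop := ∀ (f : ℕ → ℤ) (t Q X : ℕ) (ρ : ℕ → ℝ) (A B : ℕ → ℕ), CM f → 2 ≤ Q → ρ 0 = 1 → |(X : ℝ) * ρ t - X| < 1 → (∀ i ≤ t, 1 / 2 ≤ ρ i) →
  2 * Q + 4 ≤ X → (∀ i < t, 1 ≤ A i ∧ A i ≤ Q ∧ 1 ≤ B i ∧ B i ≤ Q ∧ ρ (i + 1) = ρ i * ((A i : ℝ) / B i)) →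
  ∏ i ∈ range t, (f (A i) * f (B i)) = -1 →
  ∃ i ≤ t, ∃ v : ℕ, f v ≠ f (v + 1) ∧ (X : ℝ) * ρ i - Q < v ∧ (v : ℝ) + 1 ≤ X * ρ i

/-- **CNT** (80). COUNTING. For fixed `i`, `v` the `X` lie in `[(v+1)/ρ i, (v+Q)/ρ i)`, an interval of length at most `2 Q`, so there are at most `2 Q + 1` of them. `Icc a b` is covered by `(t+1) * J.card` such sets. -/
def Stmt_CNT : Prop := ∀ (J : Finset ℕ) (t Q a b : ℕ) (ρ : ℕ → ℝ), (∀ i ≤ t, 1 / 2 ≤ ρ i) →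
  (∀ X ∈ Icc a b, ∃ i ≤ t, ∃ v ∈ J, (X : ℝ) * ρ i - Q < v ∧ (v : ℝ) + 1 ≤ X * ρ i) → (b : ℝ) - a ≤ (t + 1) * J.card * (2 * Q + 1)

/-- **JMP** (200; uses SAT NRM EVX CNT). MANY JUMPS. SAT with `β = -(1/2) log p`. Moves: `t = 2 K^30 + 1`, move `0` is `(p, 1)`, moves `1 + i` and `1 + K^30 + i` are `(n i, n' i)`, `i < K^30`; `y = K^14` (`p ≤ K ≤ y`). The sum of the logarithms is `2 (∑ - β)`, of modulus at most `2 e^(-K/4)`; the product of the `f` is `f p * (square) = -1`.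
`r' = μ = min (r^(1/3)) 2 > 1`. NRM for `r'` (`2 e^(-K/4) ≤ log r'` for large `K`), `Q = C y^2 + 2 = C K^28 + 2`. For an integer `X ∈ [m, μ m]`: `|X ρ_t - X| ≤ X * 4 e^(-K/4) ≤ 8 m e^(-K/4) ≤ 1/2`; `X ≥ m ≥ K^29 ≥ 2 Q + 4`; EVX gives `i`, `v` with `v + 1 ≤ X ρ_i ≤ μ r' m ≤ r m` and `v > X ρ_i - Q ≥ m/r' - Q ≥ m/r` (`m ≥ K^29`, `K ≥ K0(r)`), so `v ∈ JJ f m r`.
CNT with `a = ⌈m⌉`, `b = ⌊μ m⌋`: `(μ - 1) m - 2 ≤ (2 K^30 + 2) |JJ| (2 Q + 1) ≤ C' K^58 |JJ|`, and `(μ-1) m - 2 ≥ (μ-1) m/2`. -/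
def Stmt_JMP : Prop := ∀ r : ℝ, 1 < r → ∃ κ : ℝ, 0 < κ ∧ ∃ K0 : ℕ, ∀ (K p : ℕ) (f : ℕ → ℤ) (m : ℝ), K0 ≤ K → CM f → 1 ≤ p → p ≤ K → f p = -1 →
  (K : ℝ) ^ 29 ≤ m → m ≤ Real.exp ((K : ℝ) / 4) / 16 → κ * m / (K : ℝ) ^ 58 ≤ (JJ f m r).card

/-! ## Part 4. Counting -/

/-- **NBR** (80). NEIGHBOURS. The interval `(m^2/v, (m^2 + c m)/(v+1)]` has length `(c m v - m^2)/(v (v+1))`, which is `≥ 1` iff `c m v - m^2 ≥ v^2 + v`; with `v = τ m`, `τ ∈ [1/r, r]`: `c τ - 1 - τ^2 ≥ min (r (c - r - 1/r)) ((1/r) (c - r - 1/r)) > 0` (concave in `τ`), and `v ≤ r m ≤ m^2 *` this for `m ≥ m0`. So it contains an integer `u` (`u = ⌊(m^2 + c m)/(v+1)⌋`). -/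
def Stmt_NBR : Prop := ∀ c r : ℝ, 1 ≤ r → r + 1 / r < c → ∃ m0 : ℝ, 1 ≤ m0 ∧ ∀ m : ℝ, m0 ≤ m → ∀ v : ℕ, m / r ≤ v → (v : ℝ) ≤ r * m →
  ∃ u : ℕ, m ^ 2 < (u : ℝ) * v ∧ (u : ℝ) * (v + 1) ≤ m ^ 2 + c * m

/-- **SQD** (120). `∑_{n ≤ Y} d(n)^2 ≤ Y (1 + log Y)^3`: `d(n)^2 = #{(a, b) : a ∣ n, b ∣ n} = #{(a,b) : lcm a b ∣ n}`, so the sum is `≤ ∑_{a, b ≤ Y} Y/lcm(a,b) = Y ∑ gcd(a,b)/(a b) ≤ Y ∑_{g ≤ Y} ∑_{a', b' ≤ Y} g/(g^2 a' b') = Y (∑_{g ≤ Y} 1/g)^3` (`a = g a'`, `b = g b'`, `g = gcd`), `∑_{g ≤ Y} 1/g ≤ 1 + log Y` (`harmonic_le_one_add_log`). -/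
def Stmt_SQD : Prop := ∀ Y : ℕ, 1 ≤ Y → ∑ n ∈ Icc 1 Y, ((n.divisors.card : ℝ)) ^ 2 ≤ Y * (1 + Real.log Y) ^ 3

/-- **SM2** (220; uses SQD). THE SECOND MOMENT. `∑_{n ∈ II} dd(n)^2 = #{(n, w, w')}`, `w, w' ∣ n` in `[m/r, r m + 1]`. With `g = gcd w w'`, `w' = g a'`, `u = n/w`: `a' ∣ u` (`a' ∣ n/w` because `w' ∣ n` and `gcd (w/g) a' = 1`) and `g ∣ w`; `(w, u, g, a')` determines `(n, w, w')`. So the sum is at most `∑ d(w) d(u) ≤ (1/2) ∑ (d(w)^2 + d(u)^2)` over the pairs `(w, u)`, `w ∈ [m/r, r m + 1]`, `w u ∈ II`.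
Here `u ≤ (m^2 + c m)/(m/r) = r (m + c)` and `u > m^2/(r m + 1)`. For given `w` at most `c m/w + 1 ≤ c r + 1` values of `u`, for given `u` at most `c m/u + 1 ≤ c (r m + 1)/m + 1 ≤ c (r+1) + 1` values of `w` (`m ≥ 2`). With SQD, `Y = ⌊(r + 1) (c + 2) m⌋` (`≥` all `w`, `u`): at most `C m (log m)^3` (`log m ≥ log 2`). -/
def Stmt_SM2 : Prop := ∀ c r : ℝ, 0 < c → 1 ≤ r → ∃ C : ℝ, 0 < C ∧ ∀ m : ℝ, 2 ≤ m → ∑ n ∈ II m c, ((dd m r n : ℝ)) ^ 2 ≤ C * m * (Real.log m) ^ 3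

/-- **CSL** (150; uses NBR SM2). FROM JUMPS TO VALUES. `E = {n ∈ II m c : f n = σ}`. For `v ∈ JJ f m r` take `u` from NBR: `m^2 < u v ≤ u (v+1) ≤ m^2 + c m`, both in `II`, `u > 0`, `f (u v) = f u * f v ≠ f u * f (v+1) = f (u (v+1))`, so one of them is `σ`: there are `w ∈ {v, v+1}` and `n = u w ∈ E`, `w ∣ n`, `m/r ≤ w ≤ r m + 1`. The map `v ↦ (n, w)` is at most two to one
(`v = w` or `v = w - 1`): `|JJ| ≤ 2 ∑_{n ∈ E} dd(n)`; Cauchy-Schwarz: `|JJ|^2 ≤ 4 |E| ∑_{n ∈ II} dd(n)^2`. -/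
def Stmt_CSL : Prop := ∀ c r : ℝ, 1 ≤ r → r + 1 / r < c → ∃ C m0 : ℝ, 0 < C ∧ 2 ≤ m0 ∧ ∀ m : ℝ, m0 ≤ m → ∀ (f : ℕ → ℤ) (σ : ℤ), CM f → (σ = 1 ∨ σ = -1) →
  ((JJ f m r).card : ℝ) ^ 2 ≤ C * m * (Real.log m) ^ 3 * ((II m c).filter (fun n => f n = σ)).card

/-- **TRV** (60). SMALL `k`. `(2k)^2 ∈ I_k` and `f ((2k)^2) = 1`; the interval `((2k-1)/√2, (2k+1)/√2)` has length `√2 > 1`, so it contains an integer `j ≥ 1` (`j = ⌊(2k-1)/√2⌋ + 1`), `2 j^2 ∈ I_k` and `f (2 j^2) = f 2 = -1`. -/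
def Stmt_TRV : Prop := ∀ (f : ℕ → ℤ) (k : ℕ) (σ : ℤ), CM f → f 2 = -1 → 1 ≤ k → (σ = 1 ∨ σ = -1) → ∃ n ∈ Ioo ((2 * k - 1) ^ 2) ((2 * k + 1) ^ 2), f n = σ

/-- **PP2** (200; uses JMP CSL). THE GENERAL THEOREM. `2 < c`: choose `r > 1` with `r + 1/r < c` (`r = 1 + δ`: `r + 1/r ≤ 2 + δ^2`). `R = p log (m^2) ≥ 2 log 2 > 1` (`m ≥ √2`). `K = ⌈4 log (16 m)⌉ + p + K0`: `m ≤ e^(K/4)/16`, `p ≤ K`, `K ≤ C1 R` (`C1` depends on `K0`).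
From `R^120 ≤ κ m`: `K^29 ≤ C1^29 R^120 ≤ m` if `κ ≤ C1^(-29)`, and `m ≥ 1/κ ≥ m0`. JMP: `|JJ| ≥ κ1 m/K^58`; CSL: `|E| ≥ κ1^2 m^2 K^(-116)/(C m (log m)^3) ≥ κ m/R^119 ≥ κ m/R^120`. -/
def Stmt_PP2 : Prop := ∀ c : ℝ, 2 < c → ∃ κ : ℝ, 0 < κ ∧ ∀ (f : ℕ → ℤ) (p : ℕ) (m : ℝ) (σ : ℤ), CM f → p.Prime → f p = -1 → √2 ≤ m →
  (p * Real.log (m ^ 2)) ^ 120 ≤ κ * m → (σ = 1 ∨ σ = -1) → κ * m / (p * Real.log (m ^ 2)) ^ 120 ≤ ((II m c).filter (fun n => f n = σ)).card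

/-- **PP1** (150; uses PP2 TRV). THE THEOREM FOR `I_k`. PP2 with `c = 3`, `m = 2k - 1`, `p = 2`: `II m 3 ⊆ Ioo ((2k-1)^2) ((2k+1)^2)` (`m^2 + 3 m < (m+2)^2`), `(2 log (m^2))^120 ≤ 4^120 (log (2k))^120`; the condition holds for `k ≥ k0`. For `k < k0` the count is at least `1` by TRV and `κ' k/(log (2k))^120 ≤ κ' k0/(log 2)^120 ≤ 1` if `κ'` is small. -/
def Stmt_PP1 : Prop := ∃ κ : ℝ, 0 < κ ∧ ∀ (f : ℕ → ℤ) (k : ℕ) (σ : ℤ), CM f → f 2 = -1 → 1 ≤ k → (σ = 1 ∨ σ = -1) →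
  κ * k / (Real.log (2 * k)) ^ 120 ≤ ((Ioo ((2 * k - 1) ^ 2) ((2 * k + 1) ^ 2)).filter (fun n => f n = σ)).card

end Pool.RGS
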