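import Pool.Agent.Work.MP_3a3367_rgs.InterfaceB

/-!
# MP_3a3367_nt, THEOREM G (helper44, helper53): completely additive functions with values in an abelian group, uniform in `p`

Group forms of NRM, STP, EVX, JMP, CSL, PP2 (same proofs with `+`), the chain CHG, and the dual form DUA.
-/

set_option autoImplicit false

namespace Pool.RGS

open Finset

/-- Completely additive on the positive integers. -/
def CA {G : Type} [AddCommGroup G] (f : ℕ → G) : Prop := ∀ a b, 0 < a → 0 < b → f (a * b) = f a + f b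

open Classical in
/-- The jumps of `f` in `[m/r, r m]`. -/
noncomputable def JG {G : Type} [AddCommGroup G] (f : ℕ → G) (m r : ℝ) : Finset ℕ := (Icc ⌈m / r⌉₊ ⌊r * m⌋₊).filter (fun v => f v ≠ f (v + 1))

open Classical in
/-- The integers of `(m^2, m^2 + c m]` at which `f` is not `g`. -/
noncomputable def EG {G : Type} [AddCommGroup G] (f : ℕ → G) (m c : ℝ) (g : G) : Finset ℕ := (II m c).filter (fun n => f n ≠ g)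

/-- **NRG** (200; uses DNS). NRM in group form; the proof of NRM word for word: the sum of the exponents `a = α i - α (i+1)` is `α 0 - α t = 0` exactly, and `f (A' i) - f (B' i) = f (A i) - f (B i) + a • f 2 + b • f 3` (`f (2^n) = n • f 2`). See B_NRM.lean if it is there. -/
def Stmt_NRG : Prop := ∀ r : ℝ, 1 < r → ∃ C : ℕ, 1 ≤ C ∧ ∀ (t y : ℕ) (A B : ℕ → ℕ), (∀ i < t, 1 ≤ A i ∧ A i ≤ y ∧ 1 ≤ B i ∧ B i ≤ y) →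
  |∑ i ∈ range t, (Real.log (A i) - Real.log (B i))| ≤ Real.log r →
  ∃ (ρ : ℕ → ℝ) (A' B' : ℕ → ℕ), ρ 0 = 1 ∧ ρ t = Real.exp (∑ i ∈ range t, (Real.log (A i) - Real.log (B i))) ∧
    (∀ i ≤ t, 1 / r ≤ ρ i ∧ ρ i ≤ r) ∧
    (∀ i < t, 1 ≤ A' i ∧ A' i ≤ C * y ^ 2 ∧ 1 ≤ B' i ∧ B' i ≤ C * y ^ 2 ∧ ρ (i + 1) = ρ i * ((A' i : ℝ) / B' i)) ∧
    ∀ (G : Type) [AddCommGroup G] (f : ℕ → G), CA f → ∑ i ∈ range t, (f (A' i) - f (B' i)) = ∑ i ∈ range t, (f (A i) - f (B i))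

/-- **STG** (50). STP in group form: `w = ⌊p0/B⌋`, `f B + f w = s0`, `f A + f w = s1`. -/
def Stmt_STG : Prop := ∀ (G : Type) [AddCommGroup G] (f : ℕ → G) (A B Q : ℕ) (p0 p1 : ℝ) (s0 s1 : G), CA f → 1 ≤ A → A ≤ Q → 1 ≤ B → B ≤ Q → (Q : ℝ) ≤ p0 →
  p1 = p0 * ((A : ℝ) / B) → (∀ v : ℕ, 0 < v → p0 - Q < v → (v : ℝ) ≤ p0 → f v = s0) → (∀ v : ℕ, 0 < v → p1 - Q < v → (v : ℝ) ≤ p1 → f v = s1) →
  s1 = f A - f B + s0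

/-- **EVG** (120; uses STG). EVX in group form: without a jump `S (i+1) = f (A i) - f (B i) + S i`, so `S t = S 0 + ∑`, but `S t = S 0 = f (X - 1)`. -/
def Stmt_EVG : Prop := ∀ (G : Type) [AddCommGroup G] (f : ℕ → G) (t Q X : ℕ) (ρ : ℕ → ℝ) (A B : ℕ → ℕ), CA f → 2 ≤ Q → ρ 0 = 1 → |(X : ℝ) * ρ t - X| < 1 → (∀ i ≤ t, 1 / 2 ≤ ρ i) →
  2 * Q + 4 ≤ X → (∀ i < t, 1 ≤ A i ∧ A i ≤ Q ∧ 1 ≤ B i ∧ B i ≤ Q ∧ ρ (i + 1) = ρ i * ((A i : ℝ) / B i)) →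
  ∑ i ∈ range t, (f (A i) - f (B i)) ≠ 0 →
  ∃ i ≤ t, ∃ v : ℕ, f v ≠ f (v + 1) ∧ (X : ℝ) * ρ i - Q < v ∧ (v : ℝ) + 1 ≤ X * ρ i

/-- **CHG** (110; uses SAT). THE CHAIN (helper44). `N = ⌈e^(K/4) log p⌉ + 1`, `β_j = j (log p)/N`, `0 ≤ j ≤ N` (`0 ≤ β_j ≤ log K`). `r_0`: all `n_i = n'_i = 1`; `r_N`: `n_0 = p`, all other `n_i`, `n'_i` are `1`; for `0 < j < N` the `n_i`, `n'_i` of SAT for `β_j`. So `|∑_i (log n_i - log n'_i) - β_j| ≤ e^(-K/4)` for all `j`, and `β_(j+1) - β_j ≤ e^(-K/4)`.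
Let `F_j = ∑_i (f n_i - f n'_i)`; `F_0 = 0`, `F_N = f p` (`f 1 = 0`) is not `0`, so `F_(j+1) ≠ F_j` for some `j < N`. Moves: `(n_i, n'_i)` of `j+1` for `i < K^30`, then `(n'_i, n_i)` of `j` (`i = K^30 + i'`). -/
def Stmt_CHG : Prop := ∃ K0 : ℕ, ∀ K : ℕ, K0 ≤ K → ∀ (G : Type) [AddCommGroup G] (f : ℕ → G) (p : ℕ), CA f → 1 ≤ p → p ≤ K → f p ≠ 0 →
  ∃ A B : ℕ → ℕ, (∀ i < 2 * K ^ 30, 1 ≤ A i ∧ A i ≤ K ^ 14 ∧ 1 ≤ B i ∧ B i ≤ K ^ 14) ∧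
    |∑ i ∈ range (2 * K ^ 30), (Real.log (A i) - Real.log (B i))| ≤ 3 * Real.exp (-(K : ℝ) / 4) ∧
    ∑ i ∈ range (2 * K ^ 30), (f (A i) - f (B i)) ≠ 0

/-- **JMG** (200; uses CHG NRG EVG CNT). JMP in group form: moves from CHG, `t = 2 K^30`, `|ρ_t - 1| ≤ 6 e^(-K/4)`, `|X ρ_t - X| ≤ 12 m e^(-K/4) < 1`; otherwise as in the docstring of JMP. -/
def Stmt_JMG : Prop := ∀ r : ℝ, 1 < r → ∃ κ : ℝ, 0 < κ ∧ ∃ K0 : ℕ, ∀ (K p : ℕ) (G : Type) [AddCommGroup G] (f : ℕ → G) (m : ℝ), K0 ≤ K → CA f → 1 ≤ p → p ≤ K → f p ≠ 0 →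
  (K : ℝ) ^ 29 ≤ m → m ≤ Real.exp ((K : ℝ) / 4) / 16 → κ * m / (K : ℝ) ^ 58 ≤ (JG f m r).card

/-- **CSG** (150; uses NBR SM2). CSL in group form (see B_CSL.lean): `f (u v) ≠ f (u (v+1))`, so one of the two is not `g`. -/
def Stmt_CSG : Prop := ∀ c r : ℝ, 1 ≤ r → r + 1 / r < c → ∃ C m0 : ℝ, 0 < C ∧ 2 ≤ m0 ∧ ∀ m : ℝ, m0 ≤ m → ∀ (G : Type) [AddCommGroup G] (f : ℕ → G) (g : G), CA f →
  ((JG f m r).card : ℝ) ^ 2 ≤ C * m * (Real.log m) ^ 3 * (EG f m c g).card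

/-- **PPG** (200; uses JMG CSG). PP2 in group form (see B_PP2.lean). -/
def Stmt_PPG : Prop := ∀ c : ℝ, 2 < c → ∃ κ : ℝ, 0 < κ ∧ ∀ (G : Type) [AddCommGroup G] (f : ℕ → G) (p : ℕ) (m : ℝ) (g : G), CA f → 2 ≤ p → f p ≠ 0 → √2 ≤ m →
  (p * Real.log (m ^ 2)) ^ 120 ≤ κ * m → κ * m / (p * Real.log (m ^ 2)) ^ 120 ≤ (EG f m c g).card

/-- **PKG** (120; uses PPG). `I_k`: PPG with `c = 3`, `m = 2k - 1` (`k ≥ 2` because `(p log 2)^120 > 1 ≥ κ` if `κ ≤ 1`), `II m 3 ⊆ Ioo ((2k-1)^2) ((2k+1)^2)`, `log (m^2) ≤ 2 log (2k)`, `m ≥ k`. -/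
def Stmt_PKG : Prop := ∃ κ : ℝ, 0 < κ ∧ ∀ (G : Type) [AddCommGroup G] (f : ℕ → G) (p k : ℕ) (g : G), CA f → 2 ≤ p → f p ≠ 0 → 1 ≤ k →
  (p * Real.log (2 * k)) ^ 120 ≤ κ * k → κ * k / (p * Real.log (2 * k)) ^ 120 ≤
    (({n : ℕ | (2 * k - 1) ^ 2 < n ∧ n < (2 * k + 1) ^ 2 ∧ f n ≠ g}).ncard : ℝ)

/-- **DUA** (180; uses PPG). THE DUAL FORM. `H` = subgroup of `ℚˣ` generated by the `a/b`, `a, b ∈ S` (all positive). `G = Additive (ℚˣ ⧸ H)`, `f n` = class of `n` (`f 0 = 0`): completely additive. Suppose the class of `p` is not `0`. If `S` is empty, PPG (any `g`) says `κ m/.. ≤ |II|`, against the hypothesis. Otherwise `f` is constant `= g` on `S`, so `EG f m c g ⊆ II \ S` has fewer elements than PPG says.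
So `p ∈ H`; the elements `∏_{n ∈ S} n^(e n)` with `∑ e n = 0` form a subgroup which contains all `a/b`, hence `H` (`Subgroup.closure_le` or `closure_induction`). -/
def Stmt_DUA : Prop := ∀ c : ℝ, 2 < c → ∃ κ : ℝ, 0 < κ ∧ ∀ (p : ℕ) (m : ℝ) (S : Finset ℕ), 2 ≤ p → √2 ≤ m → (p * Real.log (m ^ 2)) ^ 120 ≤ κ * m →
  S ⊆ II m c → ((II m c \ S).card : ℝ) < κ * m / (p * Real.log (m ^ 2)) ^ 120 →
  ∃ e : ℕ → ℤ, ∑ n ∈ S, e n = 0 ∧ (p : ℚ) = ∏ n ∈ S, (n : ℚ) ^ (e n)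

end Pool.RGS
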