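import Pool.Agent.Work.MP_3a3367_rgs.InterfaceG

/-!
# MP_3a3367_nt, THEOREM H: uniform in `p` up to `x^(1/2-ε)` (replaces NRG EVG CHG JMG PPG PKG DUA of InterfaceG; STG and CSG stay)

The move with `p` is used once, so only the windows at positions `0`, `1` need length about `p`.
-/

set_option autoImplicit false

namespace Pool.RGS

open Finset

/-- **SAH** (180; uses EXP FEJ FSM LIM). SAT with `|β| ≤ K/40` instead of `|β| ≤ log K`; the same proof: `|τ (L - β)| ≤ τ (s log y + K/40) ≤ 1` (`K/40 ≤ K^30 log (K^14)`), and if `|l τ| < 60/K` then `|l τ β| ≤ 3/2 < π/2`. -/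
def Stmt_SAH : Prop := ∃ K0 : ℕ, ∀ K : ℕ, K0 ≤ K → ∀ β : ℝ, |β| ≤ (K : ℝ) / 40 →
  ∃ n n' : ℕ → ℕ, (∀ i < K ^ 30, 1 ≤ n i ∧ n i ≤ K ^ 14 ∧ 1 ≤ n' i ∧ n' i ≤ K ^ 14) ∧
    |∑ i ∈ range (K ^ 30), (Real.log (n i) - Real.log (n' i)) - β| ≤ Real.exp (-(K : ℝ) / 4)

/-- **NRH** (200; uses DNS). NORMALISED POSITIONS, group form. As in the docstring of NRM (InterfaceB), but the better bound: if `a ≥ 0` then `A' i ≤ A i * 2^a * 3^b0 ≤ A i * r^2 (B i/A i) 3^b0 * 3^b0 = r^2 9^b0 B i`; if `a < 0` then `A' i ≤ 3^b0 A i`. So `A' i, B' i ≤ C max (A i) (B i)`, `C = ⌈r^2 9^b0⌉`.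
Group part: `f (A' i) - f (B' i) = f (A i) - f (B i) + a • f 2 + b • f 3` with integers `a = α i - α (i+1)`, `b = β i - β (i+1)`; the sums telescope to `α 0 - α t = 0`, `β 0 - β t = 0`. -/
def Stmt_NRH : Prop := ∀ r : ℝ, 1 < r → ∃ C : ℕ, 1 ≤ C ∧ ∀ (t : ℕ) (A B : ℕ → ℕ), (∀ i < t, 1 ≤ A i ∧ 1 ≤ B i) →
  |∑ i ∈ range t, (Real.log (A i) - Real.log (B i))| ≤ Real.log r →
  ∃ (ρ : ℕ → ℝ) (A' B' : ℕ → ℕ), ρ 0 = 1 ∧ ρ t = Real.exp (∑ i ∈ range t, (Real.log (A i) - Real.log (B i))) ∧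
    (∀ i ≤ t, 1 / r ≤ ρ i ∧ ρ i ≤ r) ∧
    (∀ i < t, 1 ≤ A' i ∧ A' i ≤ C * max (A i) (B i) ∧ 1 ≤ B' i ∧ B' i ≤ C * max (A i) (B i) ∧ ρ (i + 1) = ρ i * ((A' i : ℝ) / B' i)) ∧
    ∀ (G : Type) [AddCommGroup G] (f : ℕ → G), CA f → ∑ i ∈ range t, (f (A' i) - f (B' i)) = ∑ i ∈ range t, (f (A i) - f (B i))

/-- **EVH** (130; uses STG). ONE STARTING POINT, window lengths `W i`. Suppose there is no such `i`, `v`. Then for `i ≤ t` the function `f` is constant (`= S i`) on the integers of `(X ρ i - W i, X ρ i]` (`X ρ i - W i ≥ X/2 - W i ≥ 2`). STG with `Q = max (A i) (B i) ≤ W i, W (i+1)`: `S (i+1) = f (A i) - f (B i) + S i`, so `S t = S 0 + ∑`.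
`X - 1` lies in the windows of `0` and `t` (`|X ρ t - X| < 1`, `W ≥ 2`), so `S 0 = f (X-1) = S t`: contradiction. -/
def Stmt_EVH : Prop := ∀ (G : Type) [AddCommGroup G] (f : ℕ → G) (t X : ℕ) (ρ : ℕ → ℝ) (A B W : ℕ → ℕ), CA f → (∀ i ≤ t, 2 ≤ W i) → ρ 0 = 1 →
  |(X : ℝ) * ρ t - X| < 1 → (∀ i ≤ t, 1 / 2 ≤ ρ i) → (∀ i ≤ t, 2 * W i + 4 ≤ X) →
  (∀ i < t, 1 ≤ A i ∧ A i ≤ W i ∧ A i ≤ W (i + 1) ∧ 1 ≤ B i ∧ B i ≤ W i ∧ B i ≤ W (i + 1) ∧ ρ (i + 1) = ρ i * ((A i : ℝ) / B i)) →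
  ∑ i ∈ range t, (f (A i) - f (B i)) ≠ 0 →
  ∃ i ≤ t, ∃ v : ℕ, f v ≠ f (v + 1) ∧ (X : ℝ) * ρ i - W i < v ∧ (v : ℝ) + 1 ≤ X * ρ i

/-- **CNH** (80). COUNTING with window lengths `W i` (see B_CNT.lean): for fixed `i`, `v` at most `2 W i + 1` values of `X`. -/
def Stmt_CNH : Prop := ∀ (J : Finset ℕ) (t a b : ℕ) (ρ : ℕ → ℝ) (W : ℕ → ℕ), (∀ i ≤ t, 1 / 2 ≤ ρ i) →
  (∀ X ∈ Icc a b, ∃ i ≤ t, ∃ v ∈ J, (X : ℝ) * ρ i - W i < v ∧ (v : ℝ) + 1 ≤ X * ρ i) → (b : ℝ) - a ≤ J.card * ∑ i ∈ range (t + 1), (2 * (W i : ℝ) + 1)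

/-- **CHH** (120; uses SAH). THE CHAIN (helper44). `N = ⌈e^(K/4) log p⌉ + 1`, `β_j = j (log p)/N`, `0 ≤ j ≤ N` (`0 ≤ β_j ≤ log p ≤ K/40`). `r_0`: all `n_i = n'_i = 1`; `r_N`: `n_0 = p`, all other `n_i`, `n'_i` are `1`; for `0 < j < N` the `n_i`, `n'_i` of SAH for `β_j`. So `|∑_i (log n_i - log n'_i) - β_j| ≤ e^(-K/4)` for all `j`, and `β_(j+1) - β_j ≤ e^(-K/4)`.
Let `F_j = ∑_i (f n_i - f n'_i)`; `F_0 = 0`, `F_N = f p` (`f 1 = 0`) is not `0`, so `F_(j+1) ≠ F_j` for some `j < N`. Moves: `(n_i, n'_i)` of `j+1` for `i < K^30` (so `p` can only occur as `A 0`), then `(n'_i, n_i)` of `j` (`i = K^30 + i'`; `j < N`, so these are `≤ K^14`). -/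
def Stmt_CHH : Prop := ∃ K0 : ℕ, ∀ K : ℕ, K0 ≤ K → ∀ (G : Type) [AddCommGroup G] (f : ℕ → G) (p : ℕ), CA f → 1 ≤ p → Real.log p ≤ (K : ℝ) / 40 → f p ≠ 0 →
  ∃ A B : ℕ → ℕ, (∀ i < 2 * K ^ 30, 1 ≤ A i ∧ 1 ≤ B i ∧ B i ≤ K ^ 14 ∧ (i ≠ 0 → A i ≤ K ^ 14)) ∧ A 0 ≤ max p (K ^ 14) ∧
    |∑ i ∈ range (2 * K ^ 30), (Real.log (A i) - Real.log (B i))| ≤ 3 * Real.exp (-(K : ℝ) / 4) ∧
    ∑ i ∈ range (2 * K ^ 30), (f (A i) - f (B i)) ≠ 0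

/-- **JMH** (220; uses CHH NRH EVH CNH). MANY JUMPS. Moves from CHH, `t = 2 K^30`. `r' = μ = min (r^(1/3)) 2 > 1`. NRH for `r'` (`3 e^(-K/4) ≤ log r'` for large `K`) with `C`; `W 0 = W 1 = C max p (K^14) + 2`, `W i = C K^14 + 2` for `i ≥ 2`. For an integer `X ∈ [m, μ m]`: `|X ρ_t - X| ≤ X * 6 e^(-K/4) ≤ 12 m e^(-K/4) ≤ 3/4 < 1`;
`X ≥ m ≥ 2 W i + 4` and `m/r' - W i ≥ m/r` because `C (p + K^14) + 2 ≤ c_r m` (`p ≤ κ m`, `K^15 ≤ m`, `K ≥ K0(r)`); EVH gives `i`, `v` with `v + 1 ≤ X ρ_i ≤ μ r' m ≤ r m` and `v > X ρ_i - W i ≥ m/r' - W i ≥ m/r`, so `v ∈ JG f m r`. CNH with `a = ⌈m⌉`, `b = ⌊μ m⌋`: `(μ - 1) m/2 ≤ (μ - 1) m - 2 ≤ |JG| ∑ (2 W i + 1) ≤ |JG| C' (p + K^44)`. -/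
def Stmt_JMH : Prop := ∀ r : ℝ, 1 < r → ∃ κ : ℝ, 0 < κ ∧ ∃ K0 : ℕ, ∀ (K p : ℕ) (G : Type) [AddCommGroup G] (f : ℕ → G) (m : ℝ), K0 ≤ K → CA f → 1 ≤ p → Real.log p ≤ (K : ℝ) / 40 →
  f p ≠ 0 → (K : ℝ) ^ 15 ≤ m → (p : ℝ) ≤ κ * m → m ≤ Real.exp ((K : ℝ) / 4) / 16 → κ * m / (p + (K : ℝ) ^ 44) ≤ (JG f m r).card

/-- **DVB** (100). THE DIVISOR BOUND `d(n) ≤ C n^ε`. (`d(n)/n^ε = ∏ (a+1)/p^(a ε)`; primes `p ≥ 2^(1/ε)` contribute at most `1` (`a + 1 ≤ 2^a ≤ p^(a ε)`), each of the finitely many others at most `sup_a (a+1)/2^(a ε)`.) May exist in the team library (grep divisors card rpow). -/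
def Stmt_DVB : Prop := ∀ ε : ℝ, 0 < ε → ∃ C : ℝ, 0 < C ∧ ∀ n : ℕ, 1 ≤ n → (n.divisors.card : ℝ) ≤ C * (n : ℝ) ^ ε

/-- **CSE** (100; uses NBR DVB). As CSG (see B_CSL.lean) with the divisor bound instead of Cauchy-Schwarz: `|JG| ≤ 2 ∑_{n ∈ EG} dd(n) ≤ 2 |EG| max d(n)`, `n ≤ m^2 + c m ≤ (1 + c) m^2`, DVB with `ε/2`. -/
def Stmt_CSE : Prop := ∀ c r ε : ℝ, 1 ≤ r → r + 1 / r < c → 0 < ε → ∃ C m0 : ℝ, 0 < C ∧ 2 ≤ m0 ∧ ∀ m : ℝ, m0 ≤ m → ∀ (G : Type) [AddCommGroup G] (f : ℕ → G) (g : G), CA f →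
  ((JG f m r).card : ℝ) ≤ C * m ^ ε * (EG f m c g).card

/-- **PPA** (200; uses JMH CSG). THE GENERAL THEOREM, logarithmic form. `2 < c`: choose `r > 1` with `r + 1/r < c`. `L = log (m^2) ≥ log 2`. `K = ⌈4 log (16 m)⌉ + ⌈40 log p⌉ + K0`; `p^2 L^100 ≤ κ m` with small `κ` gives `p ≤ κ0 m`, `m ≥ m0`, `K ≤ C1 L` (`log p ≤ log m`), `K^15 ≤ C1^15 L^15 ≤ m` (`L^15 ≤ C L^100` as `L ≥ log 2`), `p + K^44 ≤ C2 p L^44`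
(`p ≥ 1`, `L ≥ log 2`). JMH: `|JG| ≥ κ1 m/(C2 p L^44)`; CSG: `|EG| ≥ |JG|^2/(C m (log m)^3) ≥ κ2 m/(p^2 L^91) ≥ κ m/(p^2 L^100)` (`L^9 ≥ (log 2)^9`). -/
def Stmt_PPA : Prop := ∀ c : ℝ, 2 < c → ∃ κ : ℝ, 0 < κ ∧ ∀ (G : Type) [AddCommGroup G] (f : ℕ → G) (p : ℕ) (m : ℝ) (g : G), CA f → 2 ≤ p → f p ≠ 0 → √2 ≤ m →
  (p : ℝ) ^ 2 * (Real.log (m ^ 2)) ^ 100 ≤ κ * m → κ * m / ((p : ℝ) ^ 2 * (Real.log (m ^ 2)) ^ 100) ≤ (EG f m c g).card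

/-- **PPB** (180; uses JMH CSE). THE GENERAL THEOREM, power form. As PPA with CSE (`ε/2`): `p ≤ κ m^(1-ε)` with small `κ` forces `m ≥ m0` (`p ≥ 2`), `p ≤ κ0 m`; `|EG| ≥ |JG|/(C m^(ε/2)) ≥ κ1 m^(1-ε/2)/(C C2 p L^44) ≥ κ m^(1-ε)/p` (`L^44 ≤ C m^(ε/2)`). (`0 < ε < 1`.) -/
def Stmt_PPB : Prop := ∀ c ε : ℝ, 2 < c → 0 < ε → ε < 1 → ∃ κ : ℝ, 0 < κ ∧ ∀ (G : Type) [AddCommGroup G] (f : ℕ → G) (p : ℕ) (m : ℝ) (g : G), CA f → 2 ≤ p → f p ≠ 0 → √2 ≤ m →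
  (p : ℝ) ≤ κ * m ^ (1 - ε) → κ * m ^ (1 - ε) / p ≤ (EG f m c g).card

open Classical in
/-- **PKH** (150; uses PPA PPB). `I_k`: `c = 3`, `m = 2k - 1`; `k ≥ 2` because the conditions with small `κ` exclude `k = 1`; `II m 3 ⊆ Ioo ((2k-1)^2) ((2k+1)^2)`, `log (m^2) ≤ 2 log (2k)`, `k ≤ m ≤ 2k`. -/
def Stmt_PKH : Prop := (∃ κ : ℝ, 0 < κ ∧ ∀ (G : Type) [AddCommGroup G] (f : ℕ → G) (p k : ℕ) (g : G), CA f → 2 ≤ p → f p ≠ 0 → 1 ≤ k →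
    (p : ℝ) ^ 2 * (Real.log (2 * k)) ^ 100 ≤ κ * k → κ * k / ((p : ℝ) ^ 2 * (Real.log (2 * k)) ^ 100) ≤
      ((Ioo ((2 * k - 1) ^ 2) ((2 * k + 1) ^ 2)).filter (fun n => f n ≠ g)).card) ∧
  (∀ ε : ℝ, 0 < ε → ε < 1 → ∃ κ : ℝ, 0 < κ ∧ ∀ (G : Type) [AddCommGroup G] (f : ℕ → G) (p k : ℕ) (g : G), CA f → 2 ≤ p → f p ≠ 0 → 1 ≤ k →
    (p : ℝ) ≤ κ * (k : ℝ) ^ (1 - ε) → κ * (k : ℝ) ^ (1 - ε) / p ≤
      ((Ioo ((2 * k - 1) ^ 2) ((2 * k + 1) ^ 2)).filter (fun n => f n ≠ g)).card)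

/-- **DUH** (170). THE DUAL FORM (pure algebra). `H` = subgroup of `ℚˣ` generated by the `a/b`, `a, b ∈ S` (positive elements). `G = Additive (ℚˣ ⧸ H)`, `f n` = class of `n` (`f 0 = 0`): completely additive. Suppose `f p ≠ 0`. If `S` is empty, the hypothesis (any `g`) says `T ≤ |EG| ≤ |II| = |II \ S|`, against `|II \ S| < T`. Otherwise `f` is constant `= g` on `S`, so `EG f m c g ⊆ II \ S`: the same contradiction.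
So `p ∈ H`; the elements `∏_{n ∈ S} n^(e n)` with `∑ e n = 0` form a subgroup which contains all `a/b`, hence `H` (`Subgroup.closure_induction`). -/
def Stmt_DUH : Prop := ∀ (c m T : ℝ) (p : ℕ) (S : Finset ℕ), 1 ≤ p → 0 ≤ m → (∀ (G : Type) [AddCommGroup G] (f : ℕ → G) (g : G), CA f → f p ≠ 0 → T ≤ (EG f m c g).card) →
  S ⊆ II m c → ((II m c \ S).card : ℝ) < T → ∃ e : ℕ → ℤ, ∑ n ∈ S, e n = 0 ∧ (p : ℚ) = ∏ n ∈ S, (n : ℚ) ^ (e n)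

end Pool.RGS
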