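import Pool.Agent.Work.MP_3a3367_rgs.InterfaceB
set_option autoImplicit false
universe u
namespace Pool.RGS
open Finset

def CAx {G : Type u} [AddCommGroup G] (f : ℕ → G) : Prop := ∀ a b, 0 < a → 0 < b → f (a * b) = f a + f b

noncomputable def JGx {G : Type u} (f : ℕ → G) (m r : ℝ) : Finset ℕ := by
  classical exact (Icc ⌈m / r⌉₊ ⌊r * m⌋₊).filter (fun v => f v ≠ f (v + 1))

def Stmt_EVGx : Prop := ∀ (G : Type u) [AddCommGroup G] (f : ℕ → G) (t Q X : ℕ) (ρ : ℕ → ℝ) (A B : ℕ → ℕ), CAx f → 2 ≤ Q → ρ 0 = 1 → |(X : ℝ) * ρ t - X| < 1 → (∀ i ≤ t, 1 / 2 ≤ ρ i) →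
  2 * Q + 4 ≤ X → (∀ i < t, 1 ≤ A i ∧ A i ≤ Q ∧ 1 ≤ B i ∧ B i ≤ Q ∧ ρ (i + 1) = ρ i * ((A i : ℝ) / B i)) →
  ∑ i ∈ range t, (f (A i) - f (B i)) ≠ 0 →
  ∃ i ≤ t, ∃ v : ℕ, f v ≠ f (v + 1) ∧ (X : ℝ) * ρ i - Q < v ∧ (v : ℝ) + 1 ≤ X * ρ i

/-- `f` of a product -/
theorem JMG_prod {G : Type u} [AddCommGroup G] (f : ℕ → G) (hf : CAx f) (t : ℕ) (A : ℕ → ℕ)
    (hA : ∀ i < t, 1 ≤ A i) : f (∏ i ∈ range t, A i) = ∑ i ∈ range t, f (A i) := by
  have hone : f 1 = 0 := by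
    have h := hf 1 1 one_pos one_pos
    simpa using h
  induction t with
  | zero => simpa using hone
  | succ k ih =>
    rw [prod_range_succ, sum_range_succ, hf _ _ ?_ (hA k (by omega)), ih (fun i hi => hA i (by omega))]
    exact Finset.prod_pos (fun i hi => hA i (by have := mem_range.1 hi; omega))

theorem JMG_rho (t : ℕ) (A B : ℕ → ℕ) (ρ : ℕ → ℝ) (h0 : ρ 0 = 1)
    (h : ∀ i < t, 1 ≤ B i ∧ ρ (i + 1) = ρ i * ((A i : ℝ) / B i)) :
    ρ t * (∏ i ∈ range t, B i : ℕ) = (∏ i ∈ range t, A i : ℕ) := by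
  induction t with
  | zero => simp [h0]
  | succ k ih =>
    have hk := h k (by omega)
    have ihk := ih (fun i hi => h i (by omega))
    rw [prod_range_succ, prod_range_succ]
    push_cast at ihk ⊢
    have hB : (B k : ℝ) ≠ 0 := by
      have : 0 < B k := hk.1
      exact_mod_cast this.ne'
    rw [hk.2, ← ihk]
    field_simp

theorem JMG_exp (t : ℕ) (A B : ℕ → ℕ) (h : ∀ i < t, 1 ≤ A i ∧ 1 ≤ B i) :
    Real.exp (∑ i ∈ range t, (Real.log (A i) - Real.log (B i))) * (∏ i ∈ range t, B i : ℕ) = (∏ i ∈ range t, A i : ℕ) := by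
  induction t with
  | zero => simp
  | succ k ih =>
    have hk := h k (by omega)
    have ihk := ih (fun i hi => h i (by omega))
    rw [prod_range_succ, prod_range_succ, sum_range_succ, Real.exp_add, Real.exp_sub,
      Real.exp_log (by exact_mod_cast hk.1), Real.exp_log (by exact_mod_cast hk.2)]
    push_cast at ihk ⊢
    have hB : (B k : ℝ) ≠ 0 := by
      have : 0 < B k := hk.2
      exact_mod_cast this.ne'
    rw [← ihk]
    field_simp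

/-- the normalised moves have the same sum -/
theorem JMG_same {G : Type u} [AddCommGroup G] (f : ℕ → G) (hf : CAx f) (t : ℕ) (A B A' B' : ℕ → ℕ) (ρ : ℕ → ℝ)
    (hAB : ∀ i < t, 1 ≤ A i ∧ 1 ≤ B i) (hAB' : ∀ i < t, 1 ≤ A' i ∧ 1 ≤ B' i) (h0 : ρ 0 = 1)
    (ht : ρ t = Real.exp (∑ i ∈ range t, (Real.log (A i) - Real.log (B i))))
    (hr : ∀ i < t, ρ (i + 1) = ρ i * ((A' i : ℝ) / B' i)) :
    ∑ i ∈ range t, (f (A' i) - f (B' i)) = ∑ i ∈ range t, (f (A i) - f (B i)) := by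
  have e1 := JMG_rho t A' B' ρ h0 (fun i hi => ⟨(hAB' i hi).2, hr i hi⟩)
  have e2 := JMG_exp t A B hAB
  rw [← ht] at e2
  have hpB : 0 < ∏ i ∈ range t, B i := Finset.prod_pos (fun i hi => (hAB i (mem_range.1 hi)).2)
  have hpB' : 0 < ∏ i ∈ range t, B' i := Finset.prod_pos (fun i hi => (hAB' i (mem_range.1 hi)).2)
  have hpA : 0 < ∏ i ∈ range t, A i := Finset.prod_pos (fun i hi => (hAB i (mem_range.1 hi)).1)
  have hpA' : 0 < ∏ i ∈ range t, A' i := Finset.prod_pos (fun i hi => (hAB' i (mem_range.1 hi)).1)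
  have e3 : (∏ i ∈ range t, A' i) * (∏ i ∈ range t, B i) = (∏ i ∈ range t, A i) * (∏ i ∈ range t, B' i) := by
    have : ((∏ i ∈ range t, A' i : ℕ) : ℝ) * ((∏ i ∈ range t, B i : ℕ) : ℝ) = ((∏ i ∈ range t, A i : ℕ) : ℝ) * ((∏ i ∈ range t, B' i : ℕ) : ℝ) := by
      rw [← e1, ← e2]; ring
    exact_mod_cast this
  have e4 := congrArg f e3
  rw [hf _ _ hpA' hpB, hf _ _ hpA hpB', JMG_prod f hf t A' (fun i hi => (hAB' i hi).1),
    JMG_prod f hf t B (fun i hi => (hAB i hi).2), JMG_prod f hf t A (fun i hi => (hAB i hi).1),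
    JMG_prod f hf t B' (fun i hi => (hAB' i hi).2)] at e4
  rw [Finset.sum_sub_distrib, Finset.sum_sub_distrib, sub_eq_sub_iff_add_eq_add]
  exact e4

theorem JMG_core (h1 : Stmt_NRM) (h2 : Stmt_EVGx.{u}) (h3 : Stmt_CNT) : ∀ r : ℝ, 1 < r → ∃ κ : ℝ, 0 < κ ∧ ∃ K0 : ℕ, ∀ (G : Type u) [AddCommGroup G] (K t : ℕ) (f : ℕ → G) (m : ℝ) (A B : ℕ → ℕ),
  K0 ≤ K → CAx f → t ≤ 4 * K ^ 30 + 2 → (∀ i < t, 1 ≤ A i ∧ A i ≤ K ^ 14 ∧ 1 ≤ B i ∧ B i ≤ K ^ 14) →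
  |∑ i ∈ range t, (Real.log (A i) - Real.log (B i))| ≤ 3 * Real.exp (-(K : ℝ) / 4) →
  (K : ℝ) ^ 29 ≤ m → m ≤ Real.exp ((K : ℝ) / 4) / 16 → ∑ i ∈ range t, (f (A i) - f (B i)) ≠ 0 → κ * m / (K : ℝ) ^ 58 ≤ (JGx f m r).card := by
  classical
  intro r hr
  obtain ⟨μ, hμ1, hμ2, hμr⟩ : ∃ μ : ℝ, 1 < μ ∧ μ ≤ 2 ∧ μ * μ < r := by
    refine ⟨min 2 (1 + (r - 1) / (r + 4)), ?_, min_le_left _ _, ?_⟩
    · apply lt_min (by norm_num)
      have : 0 < (r - 1) / (r + 4) := div_pos (by linarith) (by linarith)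
      linarith
    · have hd : 0 < (r - 1) / (r + 4) := div_pos (by linarith) (by linarith)
      have hd1 : (r - 1) / (r + 4) < 1 := by rw [div_lt_one (by linarith)]; linarith
      have hle : min 2 (1 + (r - 1) / (r + 4)) ≤ 1 + (r - 1) / (r + 4) := min_le_right _ _
      have hpos : 0 < min 2 (1 + (r - 1) / (r + 4)) := lt_min (by norm_num) (by linarith)
      have h3d : (r - 1) / (r + 4) * 4 < r - 1 := by
        rw [div_mul_eq_mul_div, div_lt_iff₀ (by linarith)]; nlinarith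
      nlinarith
  obtain ⟨C, hC1, hN⟩ := h1 μ hμ1
  have hlogμ : 0 < Real.log μ := Real.log_pos hμ1
  -- thresholds
  have hgap : 0 < 1 / μ - 1 / r := by
    have : 1 / r < 1 / μ := by
      apply one_div_lt_one_div_of_lt (by linarith)
      nlinarith
    linarith
  obtain ⟨K1, hK1⟩ := exists_nat_gt (((C : ℝ) + 2) / (1 / μ - 1 / r))
  obtain ⟨K2, hK2⟩ := exists_nat_gt (4 / (μ - 1))
  obtain ⟨K3, hK3⟩ := exists_nat_gt (12 / Real.log μ)
  refine ⟨(μ - 1) / (14 * (2 * C + 5)), by have : 0 < μ - 1 := by linarith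
                                           positivity, K1 + K2 + K3 + 2 * C + 16, ?_⟩
  intro G _ K t f m A B hK hf ht hAB hlog hm hme hne
  have hKR : ((K1 : ℝ) + K2 + K3 + 2 * C + 16) ≤ K := by exact_mod_cast hK
  have hK1R : (1 : ℝ) ≤ K := by
    have : (0 : ℝ) ≤ K1 := Nat.cast_nonneg _
    have : (0 : ℝ) ≤ K2 := Nat.cast_nonneg _
    have : (0 : ℝ) ≤ K3 := Nat.cast_nonneg _
    have : (0 : ℝ) ≤ C := Nat.cast_nonneg _
    linarith
  have hC0 : (1 : ℝ) ≤ C := by exact_mod_cast hC1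
  have c1 : (0 : ℝ) ≤ K1 := Nat.cast_nonneg _
  have c2 : (0 : ℝ) ≤ K2 := Nat.cast_nonneg _
  have c3 : (0 : ℝ) ≤ K3 := Nat.cast_nonneg _
  have hmpos : 0 < m := lt_of_lt_of_le (by positivity) hm
  have hexpK : Real.exp (-(K : ℝ) / 4) * Real.exp ((K : ℝ) / 4) = 1 := by
    rw [← Real.exp_add]; simp [neg_div]
  have hexpge : (K : ℝ) / 4 ≤ Real.exp ((K : ℝ) / 4) := by
    have := Real.add_one_le_exp ((K : ℝ) / 4); linarith
  have hexpneg : 0 < Real.exp (-(K : ℝ) / 4) := Real.exp_pos _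
  have hsmall : Real.exp (-(K : ℝ) / 4) * ((K : ℝ) / 4) ≤ 1 := by
    rw [← hexpK]; exact mul_le_mul_of_nonneg_left hexpge hexpneg.le
  have hLle : |∑ i ∈ range t, (Real.log (A i) - Real.log (B i))| ≤ Real.log μ := by
    refine hlog.trans ?_
    have h12 : 12 < Real.log μ * K := by
      have := (div_lt_iff₀ hlogμ).1 hK3
      nlinarith
    nlinarith
  obtain ⟨ρ, A', B', hρ0, hρt, hρb, hmv, -⟩ := hN t (K ^ 14) A B hAB hLle
  have hsum' : ∑ i ∈ range t, (f (A' i) - f (B' i)) ≠ 0 := by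
    rw [JMG_same f hf t A B A' B' ρ (fun i hi => ⟨(hAB i hi).1, (hAB i hi).2.2.1⟩)
      (fun i hi => ⟨(hmv i hi).1, (hmv i hi).2.2.1⟩) hρ0 hρt (fun i hi => (hmv i hi).2.2.2.2)]
    exact hne
  obtain ⟨Q, hQ⟩ : ∃ Q : ℕ, Q = C * K ^ 28 + 2 := ⟨_, rfl⟩
  have hQR : (Q : ℝ) = C * (K : ℝ) ^ 28 + 2 := by rw [hQ]; push_cast; ring
  have hpow28 : (1 : ℝ) ≤ (K : ℝ) ^ 28 := one_le_pow₀ hK1R
  have hK29 : (K : ℝ) ^ 29 = (K : ℝ) ^ 28 * K := by ring
  have hQm : 2 * (Q : ℝ) + 4 ≤ m := by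
    refine le_trans ?_ hm
    rw [hQR, hK29]
    have : 2 * (C : ℝ) + 16 ≤ K := by linarith
    nlinarith
  have hQm2 : (Q : ℝ) ≤ (1 / μ - 1 / r) * m := by
    have h5 : ((C : ℝ) + 2) < K1 * (1 / μ - 1 / r) := (div_lt_iff₀ hgap).1 hK1
    have h6 : ((C : ℝ) + 2) ≤ (1 / μ - 1 / r) * K := by nlinarith
    calc (Q : ℝ) = C * (K : ℝ) ^ 28 + 2 := hQR
      _ ≤ (C + 2) * (K : ℝ) ^ 28 := by nlinarith
      _ ≤ ((1 / μ - 1 / r) * K) * (K : ℝ) ^ 28 := mul_le_mul_of_nonneg_right h6 (by positivity)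
      _ = (1 / μ - 1 / r) * (K : ℝ) ^ 29 := by ring
      _ ≤ (1 / μ - 1 / r) * m := mul_le_mul_of_nonneg_left hm hgap.le
  have hρhalf : ∀ i ≤ t, 1 / 2 ≤ ρ i := by
    intro i hi
    refine le_trans ?_ (hρb i hi).1
    exact one_div_le_one_div_of_le (by linarith) hμ2
  have hmvQ : ∀ i < t, 1 ≤ A' i ∧ A' i ≤ Q ∧ 1 ≤ B' i ∧ B' i ≤ Q ∧ ρ (i + 1) = ρ i * ((A' i : ℝ) / B' i) := by
    intro i hi
    obtain ⟨q1, q2, q3, q4, q5⟩ := hmv i hi
    have hpw : C * (K ^ 14) ^ 2 = C * K ^ 28 := by ring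
    rw [hpw] at q2 q4
    exact ⟨q1, by omega, q3, by omega, q5⟩
  have hcount := h3 (JGx f m r) t Q ⌈m⌉₊ ⌊μ * m⌋₊ ρ hρhalf (by
    intro X hX
    rw [mem_Icc] at hX
    have hX1 : m ≤ X := Nat.ceil_le.1 hX.1
    have hX2 : (X : ℝ) ≤ μ * m := (Nat.le_floor_iff (by nlinarith)).1 hX.2
    have hXpos : (0 : ℝ) < X := lt_of_lt_of_le hmpos hX1
    have hclose : |(X : ℝ) * ρ t - X| < 1 := by
      rw [hρt]
      have habs : |∑ i ∈ range t, (Real.log (A i) - Real.log (B i))| ≤ 1 := by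
        refine hlog.trans ?_
        nlinarith
      have h7 := Real.abs_exp_sub_one_le habs
      have h8 : (X : ℝ) * Real.exp (∑ i ∈ range t, (Real.log (A i) - Real.log (B i))) - X =
        X * (Real.exp (∑ i ∈ range t, (Real.log (A i) - Real.log (B i))) - 1) := by ring
      rw [h8, abs_mul, abs_of_pos hXpos]
      have h9 : (X : ℝ) ≤ 2 * m := by nlinarith
      have h10 : |Real.exp (∑ i ∈ range t, (Real.log (A i) - Real.log (B i))) - 1| ≤ 6 * Real.exp (-(K : ℝ) / 4) := by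
        linarith
      calc (X : ℝ) * |Real.exp (∑ i ∈ range t, (Real.log (A i) - Real.log (B i))) - 1|
          ≤ (2 * m) * (6 * Real.exp (-(K : ℝ) / 4)) := by
            apply mul_le_mul h9 h10 (abs_nonneg _) (by linarith)
        _ = 12 * (m * Real.exp (-(K : ℝ) / 4)) := by ring
        _ ≤ 12 * (Real.exp ((K : ℝ) / 4) / 16 * Real.exp (-(K : ℝ) / 4)) := by
            apply mul_le_mul_of_nonneg_left _ (by norm_num)
            exact mul_le_mul_of_nonneg_right hme hexpneg.le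
        _ = 12 / 16 * (Real.exp (-(K : ℝ) / 4) * Real.exp ((K : ℝ) / 4)) := by ring
        _ < 1 := by rw [hexpK]; norm_num
    have hXQ : 2 * Q + 4 ≤ X := by
      have : 2 * (Q : ℝ) + 4 ≤ X := hQm.trans hX1
      exact_mod_cast this
    obtain ⟨i, hi, v, hv1, hv2, hv3⟩ := h2 G f t Q X ρ A' B' hf (by omega) hρ0 hclose hρhalf hXQ hmvQ hsum'
    refine ⟨i, hi, v, ?_, hv2, hv3⟩
    have hρi := hρb i hi
    unfold JGx
    rw [mem_filter, mem_Icc]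
    refine ⟨⟨?_, ?_⟩, hv1⟩
    · rw [Nat.ceil_le]
      have h11 : m / μ ≤ X * ρ i := by
        calc m / μ = m * (1 / μ) := by ring
          _ ≤ X * ρ i := mul_le_mul hX1 hρi.1 (by positivity) hXpos.le
      have h12 : m / r = m / μ - (1 / μ - 1 / r) * m := by ring
      rw [h12]; linarith
    · rw [Nat.le_floor_iff (by nlinarith)]
      have h13 : (X : ℝ) * ρ i ≤ (μ * m) * μ := mul_le_mul hX2 hρi.2 (le_trans (by norm_num) (hρhalf i hi)) (by nlinarith)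
      nlinarith)
  -- counting
  have hb : (μ - 1) * m / 2 ≤ (⌊μ * m⌋₊ : ℝ) - ⌈m⌉₊ := by
    have h14 : μ * m - 1 < ⌊μ * m⌋₊ := Nat.sub_one_lt_floor _
    have h15 : (⌈m⌉₊ : ℝ) < m + 1 := Nat.ceil_lt_add_one hmpos.le
    have h16 : 4 < (μ - 1) * m := by
      have h17 : 4 < K2 * (μ - 1) := (div_lt_iff₀ (by linarith)).1 hK2
      have h18 : (K : ℝ) ≤ m := by
        refine le_trans ?_ hm
        rw [hK29]; nlinarith
      nlinarith
    linarith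
  have htR : ((t : ℝ) + 1) ≤ 7 * (K : ℝ) ^ 30 := by
    have h19 : (t : ℝ) ≤ 4 * (K : ℝ) ^ 30 + 2 := by exact_mod_cast ht
    have h20 : (1 : ℝ) ≤ (K : ℝ) ^ 30 := one_le_pow₀ hK1R
    linarith
  have hQ2 : 2 * (Q : ℝ) + 1 ≤ (2 * C + 5) * (K : ℝ) ^ 28 := by rw [hQR]; nlinarith
  have hfin : (μ - 1) * m / 2 ≤ (7 * (K : ℝ) ^ 30) * ((JGx f m r).card) * ((2 * C + 5) * (K : ℝ) ^ 28) := by
    refine hb.trans (hcount.trans ?_)
    apply mul_le_mul _ hQ2 (by positivity) (by positivity)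
    exact mul_le_mul_of_nonneg_right htR (by positivity)
  have hK58 : (K : ℝ) ^ 58 = (K : ℝ) ^ 30 * (K : ℝ) ^ 28 := by ring
  have hK58pos : 0 < (K : ℝ) ^ 58 := by positivity
  rw [div_le_iff₀ hK58pos]
  have hden : (0 : ℝ) < 14 * (2 * C + 5) := by positivity
  rw [div_mul_eq_mul_div, div_le_iff₀ hden]
  rw [hK58]
  nlinarith

end Pool.RGS
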