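import Mathlib
import Pool.Agent.Work.MP_3a3367_nt.PartD

set_option autoImplicit false

open Pool.Agent.Work.MP_3a3367_nt

/-- For every `ε > 0` there is `c > 0` such that for every completely multiplicative
`f : ℕ → {1, -1}` with `f 2 = -1` (for instance the Liouville function `(-1) ^ Ω(N)`) and every
`k ≥ 1` at least `c k ^ (1 - ε)` elements `N` of `I_k = ((2k-1)², (2k+1)²)` satisfy `f N = -1`. -/
theorem Pool.Agent.Results.MP_3a3367_nt.ParityCount.result :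
    ∀ ε : ℝ, 0 < ε → ∃ c : ℝ, 0 < c ∧
      ∀ f : ℕ → ℤ, (∀ a b, 1 ≤ a → 1 ≤ b → f (a * b) = f a * f b) →
        (∀ a, 1 ≤ a → f a = 1 ∨ f a = -1) → f 2 = -1 → ∀ k : ℕ, 1 ≤ k →
        c * (k : ℝ) ^ (1 - ε) ≤
          (((Finset.Ioo ((2 * k - 1) ^ 2) ((2 * k + 1) ^ 2)).filter
            (fun N => f N = -1)).card : ℝ) := by
  intro ε hε
  obtain ⟨c, hc, h⟩ := count_bound ε hε
  exact ⟨c, hc, fun f h1 h2 h3 k hk => h f ⟨h1, h2⟩ h3 k hk⟩
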